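import Mathlib
import Pool.Agent.H11.Selberg.Defs
import Pool.Agent.H11.SC6.PrimDef
import Pool.Agent.H11.SC.Defs

/-!
# IC-Defs: THEOREM IC (MP_8e9775_nt), integral coefficients: definitions

For the whole proof see think, problem MP_8e9775_nt, note 1047 (helper13).

`ee z = exp(2 pi i z)`; power series `u` over the complex numbers with radius of convergence at
least `1` (`Cvg`), the function `evq u q = sum u_n q ^ n` in the unit disc, `ev u z = evq u (ee z)`
in the upper half plane. `Rf M w u v`: `u(-1/(Mz)) = (sqrt M z) ^ w v(z)`; `RA` is the same with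
absolute values. `sg s` maps a power series over the ring of integers to a complex one.
-/

set_option autoImplicit false

namespace Pool.Agent.H13.IC

open Complex PowerSeries NumberField

/-- `e(z)` -/
noncomputable def ee (z : ℂ) : ℂ := cexp (2 * Real.pi * I * z)

/-- radius of convergence at least `1` -/
def Cvg (u : PowerSeries ℂ) : Prop :=
  ∀ r : ℝ, 0 ≤ r → r < 1 → Summable fun n : ℕ => ‖coeff n u‖ * r ^ n

/-- the sum of the power series -/
noncomputable def evq (u : PowerSeries ℂ) (q : ℂ) : ℂ := ∑' n : ℕ, coeff n u * q ^ n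

/-- the sum of the power series at `q = e(z)` -/
noncomputable def ev (u : PowerSeries ℂ) (z : ℂ) : ℂ := evq u (ee z)

/-- the reflection relation `u(-1/(Mz)) = (sqrt M z) ^ w v(z)` -/
def Rf (M w : ℕ) (u v : PowerSeries ℂ) : Prop :=
  ∀ z : ℂ, 0 < z.im → ev u (-1 / (M * z)) = (((Real.sqrt M : ℝ) : ℂ) * z) ^ w * ev v z

/-- the reflection relation for absolute values -/
def RA (M K : ℕ) (u v : PowerSeries ℂ) : Prop :=
  ∀ z : ℂ, 0 < z.im → ‖ev u (-1 / (M * z))‖ = (Real.sqrt M * ‖z‖) ^ K * ‖ev v z‖

/-- the complex power series attached to an embedding -/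
noncomputable def sg {L : Type} [Field L] [NumberField L] (σ : L →+* ℂ) :
    PowerSeries (𝓞 L) →+* PowerSeries ℂ :=
  PowerSeries.map (σ.comp (algebraMap (𝓞 L) L))

/-- homogeneous polynomial of degree `2T` in three power series -/
noncomputable def pol {R : Type} [CommRing R] (u : Fin 3 → PowerSeries R) (T : ℕ)
    (p : Fin (T + 1) → Fin (T + 1) → R) : PowerSeries R :=
  ∑ i : Fin (T + 1), ∑ j : Fin (T + 1),
    PowerSeries.C (p i j) * u 0 ^ (i : ℕ) * u 1 ^ (j : ℕ) * u 2 ^ (2 * T - i - j)

/-- `u(q ^ M)` -/
noncomputable def dil {R : Type} [CommRing R] (M : ℕ) (u : PowerSeries R) : PowerSeries R :=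
  PowerSeries.mk fun n => if M ∣ n then coeff (n / M) u else 0

/-- the Eisenstein series of weight `4` -/
noncomputable def E4 (R : Type) [CommRing R] : PowerSeries R :=
  PowerSeries.mk fun n => if n = 0 then 1 else 240 * ((ArithmeticFunction.sigma 3 n : ℕ) : R)

/-- the Eisenstein series of weight `6` -/
noncomputable def E6 (R : Type) [CommRing R] : PowerSeries R :=
  PowerSeries.mk fun n => if n = 0 then 1 else -(504 * ((ArithmeticFunction.sigma 5 n : ℕ) : R))

/-- `G = E4(z) E4(Mz)`, weight `8` -/
noncomputable def GM (R : Type) [CommRing R] (M : ℕ) : PowerSeries R := E4 R * dil M (E4 R)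

/-- `D = E6(z) E6(Mz)`, weight `12` -/
noncomputable def DM (R : Type) [CommRing R] (M : ℕ) : PowerSeries R := E6 R * dil M (E6 R)

/-- holomorphic functions on the upper half plane -/
def Hol (g : UpperHalfPlane → ℂ) : Prop :=
  DifferentiableOn ℂ (g ∘ UpperHalfPlane.ofComplex) {z | 0 < z.im}

/-- the function on the upper half plane attached to a power series -/
noncomputable def fH (u : PowerSeries ℂ) : UpperHalfPlane → ℂ := fun τ => ev u (τ : ℂ)

/-- the power series `sum a(n) n ^ ((k-1)/2) q ^ n` (no constant term) -/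
noncomputable def fser (k : ℕ) (a : ℕ → ℂ) : PowerSeries ℂ :=
  PowerSeries.mk fun n => if n = 0 then 0 else a n * ((n : ℂ) ^ (((k : ℂ) - 1) / 2))

end Pool.Agent.H13.IC
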