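import Mathlib
import Pool.Agent.H13.IC.Defs

/-!
# IC-QA: power series of radius at least one: sums and products

Everything is absolute convergence. `‖ee z‖ = exp(-2 pi Im z)`, `Complex.norm_exp`. Products:
`PowerSeries.coeff_mul` is a sum over the antidiagonal;
`tsum_mul_tsum_eq_tsum_sum_antidiagonal_of_summable_norm` and
`summable_norm_sum_mul_antidiagonal_of_summable_norm` (with the sequences `coeff n u * q ^ n`).
-/

set_option autoImplicit false

namespace Pool.Agent.H13.IC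

open Complex PowerSeries NumberField

theorem norm_ee (z : ℂ) : ‖ee z‖ = Real.exp (-(2 * Real.pi * z.im)) := by
  unfold ee
  rw [Complex.norm_exp]
  congr 1
  simp [Complex.mul_re, Complex.mul_im]

theorem ee_add_int (z : ℂ) (m : ℤ) : ee (z + m) = ee z := by
  unfold ee
  have h1 : 2 * (Real.pi : ℂ) * I * (z + m) = 2 * Real.pi * I * z + m * (2 * Real.pi * I) := by ring
  rw [h1, Complex.exp_add, Complex.exp_int_mul_two_pi_mul_I, mul_one]

theorem ee_add_one (z : ℂ) : ee (z + 1) = ee z := by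
  have h := ee_add_int z 1
  rwa [Int.cast_one] at h

theorem ee_lt_one {z : ℂ} (hz : 0 < z.im) : ‖ee z‖ < 1 := by
  rw [norm_ee, Real.exp_lt_one_iff]
  have := Real.pi_pos
  have h1 : 0 < 2 * Real.pi * z.im := by positivity
  linarith

theorem ee_nat_mul (z : ℂ) (n : ℕ) : ee (n * z) = ee z ^ n := by
  unfold ee
  rw [← Complex.exp_nat_mul]
  congr 1
  ring

theorem ev_add_one (u : PowerSeries ℂ) (z : ℂ) : ev u (z + 1) = ev u z := by
  unfold ev
  rw [ee_add_one]

theorem ev_add_int (u : PowerSeries ℂ) (z : ℂ) (m : ℤ) : ev u (z + m) = ev u z := by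
  unfold ev
  rw [ee_add_int]

theorem Cvg.summable {u : PowerSeries ℂ} (hu : Cvg u) {q : ℂ} (hq : ‖q‖ < 1) :
    Summable fun n : ℕ => ‖coeff n u * q ^ n‖ := by
  have h := hu ‖q‖ (norm_nonneg q) hq
  refine h.congr fun n => ?_
  rw [norm_mul, norm_pow]

theorem Cvg.add {u v : PowerSeries ℂ} (hu : Cvg u) (hv : Cvg v) : Cvg (u + v) := by
  intro r h0 h1
  refine Summable.of_nonneg_of_le (fun n => by positivity) (fun n => ?_)
    ((hu r h0 h1).add (hv r h0 h1))
  rw [map_add, ← add_mul]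
  exact mul_le_mul_of_nonneg_right (norm_add_le _ _) (pow_nonneg h0 n)

private theorem coeff_mul_pow (u v : PowerSeries ℂ) (q : ℂ) (n : ℕ) :
    ∑ kl ∈ Finset.HasAntidiagonal.antidiagonal n, (coeff kl.1 u * q ^ kl.1) * (coeff kl.2 v * q ^ kl.2) =
      coeff n (u * v) * q ^ n := by
  rw [PowerSeries.coeff_mul, Finset.sum_mul]
  refine Finset.sum_congr rfl fun kl hkl => ?_
  rw [← Finset.HasAntidiagonal.mem_antidiagonal.1 hkl, pow_add]
  ring

theorem Cvg.mul {u v : PowerSeries ℂ} (hu : Cvg u) (hv : Cvg v) : Cvg (u * v) := by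
  intro r h0 h1
  have hn : ‖(r : ℂ)‖ = r := by
    rw [Complex.norm_real, Real.norm_eq_abs, abs_of_nonneg h0]
  have hq : ‖(r : ℂ)‖ < 1 := by rwa [hn]
  have h2 := summable_norm_sum_mul_antidiagonal_of_summable_norm (hu.summable hq) (hv.summable hq)
  refine h2.congr fun n => ?_
  rw [coeff_mul_pow, norm_mul, norm_pow, hn]

theorem Cvg.C (c : ℂ) : Cvg (PowerSeries.C c) := by
  intro r h0 h1
  refine summable_of_ne_finset_zero (s := {0}) fun n hn => ?_
  rw [PowerSeries.coeff_C, if_neg (by simpa using hn), norm_zero, zero_mul]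

theorem Cvg.one : Cvg 1 := by
  have h := Cvg.C 1
  rwa [map_one] at h

theorem Cvg.pow {u : PowerSeries ℂ} (hu : Cvg u) (n : ℕ) : Cvg (u ^ n) := by
  induction n with
  | zero =>
    rw [pow_zero]
    exact Cvg.one
  | succ n ih =>
    rw [pow_succ]
    exact ih.mul hu

private theorem Cvg.zero : Cvg 0 := by
  have h := Cvg.C 0
  rwa [map_zero] at h

theorem Cvg.sum {ι : Type} (s : Finset ι) (u : ι → PowerSeries ℂ) (hu : ∀ i ∈ s, Cvg (u i)) :
    Cvg (∑ i ∈ s, u i) := by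
  classical
  induction s using Finset.induction_on with
  | empty =>
    rw [Finset.sum_empty]
    exact Cvg.zero
  | insert a s ha ih =>
    rw [Finset.sum_insert ha]
    exact (hu a (Finset.mem_insert_self a s)).add
      (ih fun i hi => hu i (Finset.mem_insert_of_mem hi))

theorem evq_add {u v : PowerSeries ℂ} (hu : Cvg u) (hv : Cvg v) {q : ℂ} (hq : ‖q‖ < 1) :
    evq (u + v) q = evq u q + evq v q := by
  unfold evq
  rw [← (hu.summable hq).of_norm.tsum_add (hv.summable hq).of_norm]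
  refine tsum_congr fun n => ?_
  rw [map_add, add_mul]

theorem evq_mul {u v : PowerSeries ℂ} (hu : Cvg u) (hv : Cvg v) {q : ℂ} (hq : ‖q‖ < 1) :
    evq (u * v) q = evq u q * evq v q := by
  unfold evq
  rw [tsum_mul_tsum_eq_tsum_sum_antidiagonal_of_summable_norm (hu.summable hq) (hv.summable hq)]
  exact tsum_congr fun n => (coeff_mul_pow u v q n).symm

theorem evq_C (c : ℂ) (q : ℂ) : evq (PowerSeries.C c) q = c := by
  unfold evq
  rw [tsum_eq_single 0]
  · rw [PowerSeries.coeff_C, if_pos rfl, pow_zero, mul_one]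
  · intro n hn
    rw [PowerSeries.coeff_C, if_neg hn, zero_mul]

theorem evq_one (q : ℂ) : evq 1 q = 1 := by
  have h := evq_C 1 q
  rwa [map_one] at h

theorem evq_pow {u : PowerSeries ℂ} (hu : Cvg u) (n : ℕ) {q : ℂ} (hq : ‖q‖ < 1) :
    evq (u ^ n) q = evq u q ^ n := by
  induction n with
  | zero => rw [pow_zero, pow_zero, evq_one]
  | succ n ih => rw [pow_succ, evq_mul (hu.pow n) hu hq, ih, pow_succ]

theorem evq_sum {ι : Type} (s : Finset ι) (u : ι → PowerSeries ℂ) (hu : ∀ i ∈ s, Cvg (u i))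
    {q : ℂ} (hq : ‖q‖ < 1) : evq (∑ i ∈ s, u i) q = ∑ i ∈ s, evq (u i) q := by
  classical
  induction s using Finset.induction_on with
  | empty =>
    rw [Finset.sum_empty, Finset.sum_empty]
    have h := evq_C 0 q
    rwa [map_zero] at h
  | insert a s ha ih =>
    have h1 : ∀ i ∈ s, Cvg (u i) := fun i hi => hu i (Finset.mem_insert_of_mem hi)
    rw [Finset.sum_insert ha, Finset.sum_insert ha,
      evq_add (hu a (Finset.mem_insert_self a s)) (Cvg.sum s u h1) hq, ih h1]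

/-- the same for `ev` -/
theorem ev_mul {u v : PowerSeries ℂ} (hu : Cvg u) (hv : Cvg v) {z : ℂ} (hz : 0 < z.im) :
    ev (u * v) z = ev u z * ev v z :=
  evq_mul hu hv (ee_lt_one hz)

theorem ev_pow {u : PowerSeries ℂ} (hu : Cvg u) (n : ℕ) {z : ℂ} (hz : 0 < z.im) :
    ev (u ^ n) z = ev u z ^ n :=
  evq_pow hu n (ee_lt_one hz)

/-- the polynomial `pol` -/
theorem Cvg.pol {u : Fin 3 → PowerSeries ℂ} (hu : ∀ i, Cvg (u i)) (T : ℕ)
    (p : Fin (T + 1) → Fin (T + 1) → ℂ) : Cvg (Pool.Agent.H13.IC.pol u T p) := by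
  unfold Pool.Agent.H13.IC.pol
  refine Cvg.sum _ _ fun i _ => Cvg.sum _ _ fun j _ => ?_
  exact (((Cvg.C _).mul ((hu 0).pow _)).mul ((hu 1).pow _)).mul ((hu 2).pow _)

theorem ev_pol {u : Fin 3 → PowerSeries ℂ} (hu : ∀ i, Cvg (u i)) (T : ℕ)
    (p : Fin (T + 1) → Fin (T + 1) → ℂ) {z : ℂ} (hz : 0 < z.im) :
    ev (Pool.Agent.H13.IC.pol u T p) z = ∑ i : Fin (T + 1), ∑ j : Fin (T + 1),
      p i j * ev (u 0) z ^ (i : ℕ) * ev (u 1) z ^ (j : ℕ) * ev (u 2) z ^ (2 * T - i - j) := by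
  have hq := ee_lt_one hz
  have h1 : ∀ i j : Fin (T + 1), Cvg (PowerSeries.C (p i j) * u 0 ^ (i : ℕ) * u 1 ^ (j : ℕ) *
      u 2 ^ (2 * T - i - j)) := fun i j =>
    (((Cvg.C _).mul ((hu 0).pow _)).mul ((hu 1).pow _)).mul ((hu 2).pow _)
  unfold Pool.Agent.H13.IC.pol ev
  rw [evq_sum _ _ (fun i _ => Cvg.sum _ _ fun j _ => h1 i j) hq]
  refine Finset.sum_congr rfl fun i _ => ?_
  rw [evq_sum _ _ (fun j _ => h1 i j) hq]
  refine Finset.sum_congr rfl fun j _ => ?_
  rw [evq_mul (((Cvg.C _).mul ((hu 0).pow _)).mul ((hu 1).pow _)) ((hu 2).pow _) hq,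
    evq_mul ((Cvg.C _).mul ((hu 0).pow _)) ((hu 1).pow _) hq,
    evq_mul (Cvg.C _) ((hu 0).pow _) hq, evq_C, evq_pow (hu 0) _ hq, evq_pow (hu 1) _ hq,
    evq_pow (hu 2) _ hq]

/-- `pol` is compatible with the embeddings -/
theorem sg_pol {L : Type} [Field L] [NumberField L] (σ : L →+* ℂ)
    (u : Fin 3 → PowerSeries (𝓞 L)) (T : ℕ) (p : Fin (T + 1) → Fin (T + 1) → 𝓞 L) :
    sg σ (Pool.Agent.H13.IC.pol u T p) = Pool.Agent.H13.IC.pol (fun i => sg σ (u i)) T
      (fun i j => σ (algebraMap (𝓞 L) L (p i j))) := by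
  unfold Pool.Agent.H13.IC.pol
  rw [map_sum]
  refine Finset.sum_congr rfl fun i _ => ?_
  rw [map_sum]
  refine Finset.sum_congr rfl fun j _ => ?_
  rw [map_mul, map_mul, map_mul, map_pow, map_pow, map_pow]
  congr 3
  unfold sg
  rw [PowerSeries.map_C]
  rfl

end Pool.Agent.H13.IC
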