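import Mathlib
import Pool.Agent.H13.IC.Qa

/-!
# IC-QB: power series of radius at least one: analytic facts

* `evq_diff`: `hasFPowerSeriesOnBall` of `FormalMultilinearSeries.ofScalars`, or
  `differentiableOn_tsum_of_summable_norm` on each ball of radius `r < 1` (terms bounded by
  `‖coeff n u‖ r ^ n`).
* `cauchy`: coefficients by `Complex.norm_iteratedDeriv_le_of_forall_mem_sphere_norm_le` or directly:
  `2 pi i coeff n u = ∮ evq u q / q ^ (n+1)` (integrate termwise), circle of radius `ρ`.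
* `schwarz`: `u = X ^ m * u'` (`PowerSeries.X_pow_dvd_iff`), `Cvg u'`, `evq u q = q ^ m * evq u' q`;
  `‖evq u' q‖ ≤ B / ρ ^ m` on the circle `‖q‖ = ρ`, so in the disc (maximum principle
  `Complex.norm_le_of_forall_mem_frontier_norm_le`).
* the `ev` versions: `q = ee w`, `ρ = exp(-2 pi eta)`; every `q` with `‖q‖ = ρ` is `ee z`, `Im z = eta`
  (`Complex.norm_mul_exp_arg_mul_I`).
* `ev_unique`: two convergent power series equal at all `ee z` are equal at all `0 < ‖q‖ < 1`, hence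
  all coefficients are equal (`cauchy` for the difference with `B = 0`).
-/

set_option autoImplicit false

namespace Pool.Agent.H13.IC

open Complex PowerSeries NumberField

private theorem qb_two_pi_pos : (0 : ℝ) < 2 * Real.pi := by positivity

/-- the terms have limit sums -/
private theorem qb_norm_le {u : PowerSeries ℂ} (hu : Cvg u) {ρ : ℝ} (hρ : 0 ≤ ρ) (hρ1 : ρ < 1)
    {q : ℂ} (hq : ‖q‖ ≤ ρ) : ‖evq u q‖ ≤ ∑' n : ℕ, ‖coeff n u‖ * ρ ^ n := by
  unfold evq
  apply tsum_of_norm_bounded (hu ρ hρ hρ1).hasSum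
  intro n
  rw [norm_mul, norm_pow]
  exact mul_le_mul_of_nonneg_left (pow_le_pow_left₀ (norm_nonneg _) hq n) (norm_nonneg _)

private theorem qb_fps {u : PowerSeries ℂ} (hu : Cvg u) :
    HasFPowerSeriesOnBall (evq u)
      (FormalMultilinearSeries.ofScalars ℂ (fun n => coeff n u)) 0 1 where
  r_le := by
    apply ENNReal.le_of_forall_nnreal_lt
    intro r hr
    have hr1 : (r : ℝ) < 1 := by exact_mod_cast hr
    apply FormalMultilinearSeries.le_radius_of_summable_norm
    refine (hu r r.2 hr1).congr fun n => ?_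
    rw [FormalMultilinearSeries.ofScalars_norm]
  r_pos := one_pos
  hasSum := by
    intro y hy
    have hy1 : ‖y‖ < 1 := by
      rw [Metric.mem_eball, edist_zero_right, enorm_eq_nnnorm] at hy
      have h1 : ‖y‖₊ < 1 := by exact_mod_cast hy
      exact_mod_cast h1
    rw [zero_add]
    unfold evq
    have h1 : Summable fun n : ℕ => coeff n u * y ^ n := (hu.summable hy1).of_norm
    have h2 := h1.hasSum
    refine h2.congr_fun ?_
    intro n
    rw [FormalMultilinearSeries.ofScalars_apply_eq, smul_eq_mul]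

theorem evq_diff {u : PowerSeries ℂ} (hu : Cvg u) :
    DifferentiableOn ℂ (evq u) (Metric.ball 0 1) := by
  intro x hx
  rw [mem_ball_zero_iff] at hx
  obtain ⟨r, hr1, hr2⟩ := exists_between hx
  have hr0 : 0 ≤ r := (norm_nonneg x).trans hr1.le
  have h1 : DifferentiableOn ℂ (evq u) (Metric.ball 0 r) := by
    unfold evq
    refine differentiableOn_tsum_of_summable_norm (hu r hr0 hr2) (fun n => ?_)
      Metric.isOpen_ball (fun n w hw => ?_)
    · exact ((differentiable_id.pow n).const_mul _).differentiableOn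
    · rw [mem_ball_zero_iff] at hw
      rw [norm_mul, norm_pow]
      exact mul_le_mul_of_nonneg_left (pow_le_pow_left₀ (norm_nonneg _) hw.le n) (norm_nonneg _)
  exact ((h1 x (mem_ball_zero_iff.2 hr1)).differentiableAt
    (Metric.isOpen_ball.mem_nhds (mem_ball_zero_iff.2 hr1))).differentiableWithinAt

theorem ev_diff {u : PowerSeries ℂ} (hu : Cvg u) :
    DifferentiableOn ℂ (ev u) {z | 0 < z.im} := by
  have h1 : DifferentiableOn ℂ ee {z | 0 < z.im} := by
    have h2 : Differentiable ℂ ee := by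
      unfold ee
      exact (differentiable_id.const_mul _).cexp
    exact h2.differentiableOn
  have h3 : Set.MapsTo ee {z | 0 < z.im} (Metric.ball 0 1) := by
    intro z hz
    rw [mem_ball_zero_iff]
    exact ee_lt_one hz
  exact (evq_diff hu).comp h1 h3

theorem exists_ee {q : ℂ} {η : ℝ} (hq : ‖q‖ = Real.exp (-(2 * Real.pi * η))) :
    ∃ z : ℂ, z.im = η ∧ |z.re| ≤ 1 / 2 ∧ ee z = q := by
  have hpi : (0 : ℝ) < Real.pi := Real.pi_pos
  refine ⟨⟨arg q / (2 * Real.pi), η⟩, rfl, ?_, ?_⟩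
  · show |arg q / (2 * Real.pi)| ≤ 1 / 2
    rw [abs_div, abs_of_pos qb_two_pi_pos, div_le_div_iff₀ qb_two_pi_pos two_pos]
    have := Complex.abs_arg_le_pi q
    linarith
  · unfold ee
    have h1 : 2 * (Real.pi : ℂ) * I * (⟨arg q / (2 * Real.pi), η⟩ : ℂ) =
        ((-(2 * Real.pi * η) : ℝ) : ℂ) + (arg q : ℂ) * I := by
      apply Complex.ext
      · simp
      · simp
        field_simp
    rw [h1, Complex.exp_add, ← Complex.ofReal_exp, ← hq]
    exact Complex.norm_mul_exp_arg_mul_I q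

theorem cauchy {u : PowerSeries ℂ} (hu : Cvg u) {ρ B : ℝ} (hρ : 0 < ρ) (hρ1 : ρ < 1)
    (hB : ∀ q : ℂ, ‖q‖ = ρ → ‖evq u q‖ ≤ B) (n : ℕ) : ‖coeff n u‖ ≤ B / ρ ^ n := by
  have hd : DiffContOnCl ℂ (evq u) (Metric.ball 0 ρ) := by
    apply DifferentiableOn.diffContOnCl
    rw [closure_ball _ hρ.ne']
    exact (evq_diff hu).mono (Metric.closedBall_subset_ball hρ1)
  have h1 := Complex.norm_iteratedDeriv_le_of_forall_mem_sphere_norm_le n hρ hd
    (fun z hz => hB z (mem_sphere_zero_iff_norm.1 hz))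
  have h2 := (qb_fps hu).factorial_smul 1 n
  rw [FormalMultilinearSeries.ofScalars_apply_eq, one_pow, smul_eq_mul, mul_one,
    ← iteratedDeriv_eq_iteratedFDeriv] at h2
  rw [← h2, nsmul_eq_mul, norm_mul, Complex.norm_natCast, mul_div_assoc] at h1
  exact le_of_mul_le_mul_left h1 (by exact_mod_cast n.factorial_pos)

theorem cauchy_ev {u : PowerSeries ℂ} (hu : Cvg u) {η B : ℝ} (hη : 0 < η)
    (hB : ∀ z : ℂ, z.im = η → ‖ev u z‖ ≤ B) (n : ℕ) :
    ‖coeff n u‖ ≤ B * Real.exp (2 * Real.pi * n * η) := by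
  have hρ1 : Real.exp (-(2 * Real.pi * η)) < 1 := by
    rw [Real.exp_lt_one_iff]
    have := mul_pos qb_two_pi_pos hη
    linarith
  have h := cauchy hu (Real.exp_pos (-(2 * Real.pi * η))) hρ1 (B := B) (fun q hq => by
    obtain ⟨z, hz, -, rfl⟩ := exists_ee hq
    exact hB z hz) n
  refine h.trans (le_of_eq ?_)
  rw [div_eq_mul_inv, ← Real.exp_nat_mul, ← Real.exp_neg]
  congr 2
  ring

private theorem qb_shift {u : PowerSeries ℂ} (hu : Cvg u) (m : ℕ) :
    Cvg (PowerSeries.mk fun n => coeff (n + m) u) := by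
  intro r hr hr1
  simp only [coeff_mk]
  obtain ⟨s, hs1, hs2⟩ := exists_between hr1
  have hs0 : 0 < s := lt_of_le_of_lt hr hs1
  have h1 : Summable fun n : ℕ => ‖coeff (n + m) u‖ * s ^ (n + m) :=
    (summable_nat_add_iff m).2 (hu s hs0.le hs2)
  have h2 : Summable fun n : ℕ => (s ^ m)⁻¹ * (‖coeff (n + m) u‖ * s ^ (n + m)) := h1.mul_left _
  refine Summable.of_nonneg_of_le (fun n => by positivity) (fun n => ?_) h2
  have h3 : (s ^ m)⁻¹ * (‖coeff (n + m) u‖ * s ^ (n + m)) = ‖coeff (n + m) u‖ * s ^ n := by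
    rw [pow_add]
    field_simp
  rw [h3]
  exact mul_le_mul_of_nonneg_left (pow_le_pow_left₀ hr hs1.le n) (norm_nonneg _)

private theorem qb_shift_eq {u : PowerSeries ℂ} (hu : Cvg u) (m : ℕ)
    (hm : ∀ n < m, coeff n u = 0) {q : ℂ} (hq : ‖q‖ < 1) :
    evq u q = q ^ m * evq (PowerSeries.mk fun n => coeff (n + m) u) q := by
  have h1 : Summable fun n : ℕ => coeff n u * q ^ n := (hu.summable hq).of_norm
  have h2 := h1.sum_add_tsum_nat_add m
  unfold evq
  rw [← h2, Finset.sum_eq_zero, zero_add, ← tsum_mul_left]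
  · refine tsum_congr fun n => ?_
    rw [coeff_mk, pow_add]
    ring
  · intro n hn
    rw [hm n (Finset.mem_range.1 hn), zero_mul]

theorem schwarz {u : PowerSeries ℂ} (hu : Cvg u) {ρ B : ℝ} (hρ : 0 < ρ) (hρ1 : ρ < 1) (m : ℕ)
    (hm : ∀ n < m, coeff n u = 0) (hB : ∀ q : ℂ, ‖q‖ = ρ → ‖evq u q‖ ≤ B) (q : ℂ)
    (hq : ‖q‖ ≤ ρ) : ‖evq u q‖ ≤ B * (‖q‖ / ρ) ^ m := by
  obtain ⟨u', hu'⟩ : ∃ u' : PowerSeries ℂ, u' = PowerSeries.mk fun n => coeff (n + m) u :=
    ⟨_, rfl⟩
  have hc : Cvg u' := by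
    rw [hu']
    exact qb_shift hu m
  have he : ∀ z : ℂ, ‖z‖ < 1 → evq u z = z ^ m * evq u' z := by
    intro z hz
    rw [hu']
    exact qb_shift_eq hu m hm hz
  have hd : DiffContOnCl ℂ (evq u') (Metric.ball 0 ρ) := by
    apply DifferentiableOn.diffContOnCl
    rw [closure_ball _ hρ.ne']
    exact (evq_diff hc).mono (Metric.closedBall_subset_ball hρ1)
  have hfr : ∀ z ∈ frontier (Metric.ball (0 : ℂ) ρ), ‖evq u' z‖ ≤ B / ρ ^ m := by
    intro z hz
    rw [frontier_ball _ hρ.ne', mem_sphere_zero_iff_norm] at hz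
    have h1 := hB z hz
    rw [he z (by rw [hz]; exact hρ1), norm_mul, norm_pow, hz] at h1
    rw [le_div_iff₀ (pow_pos hρ m), mul_comm]
    exact h1
  have h2 : ‖evq u' q‖ ≤ B / ρ ^ m := by
    refine Complex.norm_le_of_forall_mem_frontier_norm_le Metric.isBounded_ball hd hfr ?_
    rw [closure_ball _ hρ.ne', mem_closedBall_zero_iff]
    exact hq
  rw [he q (lt_of_le_of_lt hq hρ1), norm_mul, norm_pow]
  calc ‖q‖ ^ m * ‖evq u' q‖ ≤ ‖q‖ ^ m * (B / ρ ^ m) :=
        mul_le_mul_of_nonneg_left h2 (by positivity)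
    _ = B * (‖q‖ / ρ) ^ m := by
        rw [div_pow]
        ring

theorem schwarz_ev {u : PowerSeries ℂ} (hu : Cvg u) {η B : ℝ} (hη : 0 < η) (m : ℕ)
    (hm : ∀ n < m, coeff n u = 0) (hB : ∀ z : ℂ, z.im = η → ‖ev u z‖ ≤ B) (w : ℂ)
    (hw : η ≤ w.im) : ‖ev u w‖ ≤ B * Real.exp (-(2 * Real.pi * m * (w.im - η))) := by
  have hρ1 : Real.exp (-(2 * Real.pi * η)) < 1 := by
    rw [Real.exp_lt_one_iff]
    have := mul_pos qb_two_pi_pos hη
    linarith
  have h := schwarz hu (Real.exp_pos (-(2 * Real.pi * η))) hρ1 (B := B) m hm (fun q hq => by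
    obtain ⟨z, hz, -, rfl⟩ := exists_ee hq
    exact hB z hz) (ee w) (by
      rw [norm_ee]
      apply Real.exp_le_exp.2
      have := mul_le_mul_of_nonneg_left hw qb_two_pi_pos.le
      linarith)
  refine h.trans (le_of_eq ?_)
  rw [norm_ee, ← Real.exp_sub, ← Real.exp_nat_mul]
  congr 2
  ring

private theorem qb_sub {u v : PowerSeries ℂ} (hu : Cvg u) (hv : Cvg v) : Cvg (u - v) := by
  intro r hr hr1
  refine Summable.of_nonneg_of_le (fun n => by positivity) (fun n => ?_)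
    ((hu r hr hr1).add (hv r hr hr1))
  rw [map_sub, ← add_mul]
  exact mul_le_mul_of_nonneg_right (norm_sub_le _ _) (by positivity)

private theorem qb_evq_sub {u v : PowerSeries ℂ} (hu : Cvg u) (hv : Cvg v) {q : ℂ}
    (hq : ‖q‖ < 1) : evq (u - v) q = evq u q - evq v q := by
  unfold evq
  rw [← (hu.summable hq).of_norm.tsum_sub (hv.summable hq).of_norm]
  refine tsum_congr fun n => ?_
  rw [map_sub, sub_mul]

theorem ev_unique {u v : PowerSeries ℂ} (hu : Cvg u) (hv : Cvg v)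
    (h : ∀ z : ℂ, 0 < z.im → ev u z = ev v z) : u = v := by
  rw [← sub_eq_zero]
  ext n
  have h1 := cauchy (qb_sub hu hv) (ρ := 1 / 2) (B := 0) (by norm_num) (by norm_num)
    (fun q hq => by
      have hq1 : ‖q‖ < 1 := by rw [hq]; norm_num
      have hq2 : ‖q‖ = Real.exp (-(2 * Real.pi * (Real.log 2 / (2 * Real.pi)))) := by
        rw [mul_div_cancel₀ _ qb_two_pi_pos.ne', Real.exp_neg, Real.exp_log two_pos, hq]
        norm_num
      obtain ⟨z, hz, -, rfl⟩ := exists_ee hq2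
      have hz0 : 0 < z.im := by
        rw [hz]
        exact div_pos (Real.log_pos (by norm_num)) qb_two_pi_pos
      rw [qb_evq_sub hu hv hq1]
      have h2 : evq u (ee z) = evq v (ee z) := h z hz0
      rw [h2, sub_self, norm_zero]) n
  rw [zero_div] at h1
  rw [map_zero]
  exact norm_le_zero_iff.1 h1

/-- a convergent series is bounded on `Im z ≥ η` -/
theorem ev_bdd {u : PowerSeries ℂ} (hu : Cvg u) {η : ℝ} (hη : 0 < η) :
    ∃ B : ℝ, 1 ≤ B ∧ ∀ z : ℂ, η ≤ z.im → ‖ev u z‖ ≤ B := by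
  have hρ1 : Real.exp (-(2 * Real.pi * η)) < 1 := by
    rw [Real.exp_lt_one_iff]
    have := mul_pos qb_two_pi_pos hη
    linarith
  refine ⟨max 1 (∑' n : ℕ, ‖coeff n u‖ * Real.exp (-(2 * Real.pi * η)) ^ n), le_max_left _ _,
    fun z hz => ?_⟩
  refine le_trans ?_ (le_max_right _ _)
  refine qb_norm_le hu (Real.exp_pos _).le hρ1 ?_
  rw [norm_ee]
  apply Real.exp_le_exp.2
  have := mul_le_mul_of_nonneg_left hz qb_two_pi_pos.le
  linarith

end Pool.Agent.H13.IC
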