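import Mathlib
import Pool.Agent.H13.IC.Qb

/-!
# IC-QC: the rotation trick (two constants)

PROOF. `ρ = exp(-2 pi eta)`. `u = X ^ m * u'` with `Cvg u'` (see QB, `schwarz`), so
`coeff m u = coeff 0 u' = evq u' 0`. Let `ζ = exp(2 pi i / J)` and `g(q) = ∏_(j < J) evq u' (ζ ^ j q)`,
holomorphic in the unit disc, `g(0) = (coeff m u) ^ J`. On `‖q‖ = ρ`: write `q = ee z`, `Im z = η`;
`ζ ^ j q = ee (z + j / J)`, `‖evq u' (ζ ^ j q)‖ = ‖ev u (z + j/J)‖ / ρ ^ m ≤ B exp(2 pi m eta)`, and for at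
least one `j < J` there is an integer `r` with `|Re z + j/J + r| ≤ 1/(2J) ≤ x1` (take `r` and `j` from
`round (J * Re z)` and its residue modulo `J`), for this `j` the factor is `≤ ε1 exp(2 pi m eta)`
(`ev` is `1`-periodic). So `‖g(q)‖ ≤ B ^ (J-1) ε1 exp(2 pi m eta J)` on the circle and at `0` by the
maximum principle.
-/

set_option autoImplicit false

namespace Pool.Agent.H13.IC

open Complex PowerSeries NumberField

private theorem shift_exists {u : PowerSeries ℂ} (hu : Cvg u) (m : ℕ)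
    (hm : ∀ n < m, coeff n u = 0) : ∃ u' : PowerSeries ℂ, Cvg u' ∧
      coeff 0 u' = coeff m u ∧ ∀ q : ℂ, ‖q‖ < 1 → evq u q = q ^ m * evq u' q := by
  refine ⟨PowerSeries.mk fun n => coeff (n + m) u, ?_, ?_, ?_⟩
  · intro r hr hr1
    have hs : Summable fun n : ℕ => ‖coeff (n + m) u‖ * (max r (1 / 2)) ^ n := by
      have hr2 : 0 < max r (1 / 2 : ℝ) := lt_of_lt_of_le (by norm_num) (le_max_right _ _)
      have h := hu (max r (1 / 2)) hr2.le (max_lt hr1 (by norm_num))
      have h2 := ((summable_nat_add_iff m).mpr h).mul_right ((max r (1 / 2 : ℝ)) ^ m)⁻¹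
      refine h2.congr fun n => ?_
      rw [pow_add]
      have : (max r (1 / 2 : ℝ)) ^ m ≠ 0 := (pow_pos hr2 m).ne'
      field_simp
    refine Summable.of_nonneg_of_le (fun n => by positivity) (fun n => ?_) hs
    rw [coeff_mk]
    exact mul_le_mul_of_nonneg_left (pow_le_pow_left₀ hr (le_max_left _ _) n) (norm_nonneg _)
  · rw [coeff_mk, zero_add]
  · intro q hq
    have hs : Summable fun n : ℕ => coeff n u * q ^ n := (hu.summable hq).of_norm
    have h := hs.sum_add_tsum_nat_add m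
    unfold evq
    rw [← h, Finset.sum_eq_zero, zero_add, ← tsum_mul_left]
    · apply tsum_congr
      intro n
      rw [coeff_mk, pow_add]
      ring
    · intro i hi
      rw [hm i (Finset.mem_range.mp hi), zero_mul]

private theorem evq_zero (u : PowerSeries ℂ) : evq u 0 = coeff 0 u := by
  unfold evq
  rw [tsum_eq_single 0]
  · simp
  · intro n hn
    rw [zero_pow hn, mul_zero]

private theorem good_j (x : ℝ) (J : ℕ) (hJ : 1 ≤ J) (x1 : ℝ) (hJx : 1 ≤ 2 * x1 * J) :
    ∃ j < J, ∃ r : ℤ, |x + (j : ℝ) / J + r| ≤ x1 := by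
  have hJ0 : (0 : ℝ) < J := by exact_mod_cast hJ
  have hJz : (J : ℤ) ≠ 0 := by omega
  set R : ℤ := round (J * x) with hR
  have h1 := abs_sub_round ((J : ℝ) * x)
  rw [← hR] at h1
  have hlt : (-R) % (J : ℤ) < J := Int.emod_lt_of_pos _ (by omega)
  have hge : 0 ≤ (-R) % (J : ℤ) := Int.emod_nonneg _ hJz
  refine ⟨((-R) % (J : ℤ)).toNat, by omega, (-R) / (J : ℤ), ?_⟩
  have h2 : ((((-R) % (J : ℤ)).toNat : ℕ) : ℝ) = (((-R) % (J : ℤ) : ℤ) : ℝ) := by
    have : ((((-R) % (J : ℤ)).toNat : ℕ) : ℤ) = (-R) % (J : ℤ) := Int.toNat_of_nonneg hge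
    exact_mod_cast congrArg (Int.cast : ℤ → ℝ) this
  have h3 : (((-R) % (J : ℤ) : ℤ) : ℝ) + (J : ℝ) * (((-R) / (J : ℤ) : ℤ) : ℝ) = -(R : ℝ) := by
    have := Int.emod_add_mul_ediv (-R) (J : ℤ)
    exact_mod_cast congrArg (Int.cast : ℤ → ℝ) this
  have h4 : x + (((((-R) % (J : ℤ)).toNat : ℕ) : ℝ)) / J + (((-R) / (J : ℤ) : ℤ) : ℝ)
      = ((J : ℝ) * x - R) / J := by
    rw [h2]
    field_simp
    linarith
  rw [h4, abs_div, abs_of_pos hJ0, div_le_iff₀ hJ0]
  linarith

theorem rot {u : PowerSeries ℂ} (hu : Cvg u) {η B ε1 x1 : ℝ} (hη : 0 < η) (hB0 : 0 ≤ B)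
    (m : ℕ) (hm : ∀ n < m, coeff n u = 0) (hB : ∀ z : ℂ, z.im = η → ‖ev u z‖ ≤ B)
    (hε : ∀ z : ℂ, z.im = η → |z.re| ≤ x1 → ‖ev u z‖ ≤ ε1) (J : ℕ) (hJ : 1 ≤ J)
    (hJx : 1 ≤ 2 * x1 * J) :
    ‖coeff m u‖ ^ J ≤ B ^ (J - 1) * ε1 * Real.exp (2 * Real.pi * m * η * J) := by
  obtain ⟨u', hu', h0, hev⟩ := shift_exists hu m hm
  have hpi := Real.pi_pos
  set ρ : ℝ := Real.exp (-(2 * Real.pi * η)) with hρ
  have hρ0 : 0 < ρ := Real.exp_pos _
  have hρ1 : ρ < 1 := by
    rw [hρ, Real.exp_lt_one_iff]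
    have : 0 < 2 * Real.pi * η := by positivity
    linarith
  set W : ℝ := Real.exp (2 * Real.pi * m * η) with hW
  have hW0 : 0 < W := Real.exp_pos _
  have hWρ : W * ρ ^ m = 1 := by
    rw [hW, hρ, ← Real.exp_nat_mul, ← Real.exp_add]
    rw [show 2 * Real.pi * m * η + m * -(2 * Real.pi * η) = 0 by ring, Real.exp_zero]
  have hfac : ∀ z : ℂ, z.im = η → ‖evq u' (ee z)‖ = W * ‖ev u z‖ := by
    intro z hz
    have h1 : ‖ee z‖ = ρ := by rw [norm_ee, hz]
    have h2 := hev (ee z) (by rw [h1]; exact hρ1)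
    have h3 : ‖ev u z‖ = ρ ^ m * ‖evq u' (ee z)‖ := by
      unfold ev
      rw [h2, norm_mul, norm_pow, h1]
    rw [h3, ← mul_assoc, hWρ, one_mul]
  set g : ℂ → ℂ := fun q => ∏ j ∈ Finset.range J, evq u' (ee ((j : ℂ) / J) * q) with hg
  have hrot1 : ∀ j : ℕ, ‖ee ((j : ℂ) / J)‖ = 1 := by
    intro j
    rw [norm_ee]
    have : ((j : ℂ) / J).im = 0 := by
      have : ((j : ℂ) / J) = (((j : ℝ) / J : ℝ) : ℂ) := by push_cast; rfl
      rw [this, Complex.ofReal_im]
    rw [this, mul_zero, neg_zero, Real.exp_zero]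
  have hgd : DifferentiableOn ℂ g (Metric.ball 0 1) := by
    rw [hg]
    apply DifferentiableOn.fun_finsetProd
    intro j _
    have hc := evq_diff hu'
    apply hc.comp (t := Metric.ball 0 1)
    · exact (differentiable_id.const_mul _).differentiableOn
    · intro q hq
      rw [Metric.mem_ball, dist_zero_right] at hq ⊢
      rw [norm_mul, hrot1, one_mul]
      exact hq
  have hcl : Metric.closedBall (0 : ℂ) ρ ⊆ Metric.ball 0 1 := by
    intro q hq
    rw [Metric.mem_closedBall, dist_zero_right] at hq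
    rw [Metric.mem_ball, dist_zero_right]
    linarith
  have hdc : DiffContOnCl ℂ g (Metric.ball 0 ρ) := hgd.diffContOnCl_ball hcl
  have hε0 : 0 ≤ ε1 := by
    have hx1 : 0 ≤ x1 := by
      by_contra hneg
      push Not at hneg
      have hJ0 : (0 : ℝ) < J := by exact_mod_cast hJ
      nlinarith
    exact (norm_nonneg _).trans (hε ⟨0, η⟩ rfl (by simpa using hx1))
  have hbd : ∀ q ∈ frontier (Metric.ball (0 : ℂ) ρ), ‖g q‖ ≤
      (W * ε1) * (W * B) ^ (J - 1) := by
    intro q hq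
    rw [frontier_ball (0 : ℂ) hρ0.ne'] at hq
    have hqn : ‖q‖ = ρ := by simpa using hq
    obtain ⟨z, hz, -, hzq⟩ := exists_ee (q := q) (η := η) (by rw [hqn])
    obtain ⟨j0, hj0, r, hr⟩ := good_j z.re J hJ x1 hJx
    have him : ∀ j : ℕ, (z + (j : ℂ) / J).im = η := by
      intro j
      have : ((j : ℂ) / J) = (((j : ℝ) / J : ℝ) : ℂ) := by push_cast; rfl
      rw [Complex.add_im, this, Complex.ofReal_im, add_zero, hz]
    have hval : ∀ j : ℕ, ‖evq u' (ee ((j : ℂ) / J) * q)‖ = W * ‖ev u (z + (j : ℂ) / J)‖ := by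
      intro j
      have h1 : ee ((j : ℂ) / J) * q = ee (z + (j : ℂ) / J) := by
        rw [← hzq]
        unfold ee
        rw [← Complex.exp_add]
        congr 1
        ring
      rw [h1]
      exact hfac _ (him j)
    have hgn : ‖g q‖ = ∏ j ∈ Finset.range J, (W * ‖ev u (z + (j : ℂ) / J)‖) := by
      rw [hg]
      simp only [norm_prod]
      exact Finset.prod_congr rfl fun j _ => hval j
    rw [hgn, ← Finset.mul_prod_erase _ _ (Finset.mem_range.mpr hj0)]
    have hcard : ((Finset.range J).erase j0).card = J - 1 := by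
      rw [Finset.card_erase_of_mem (Finset.mem_range.mpr hj0), Finset.card_range]
    have hsmall : ‖ev u (z + (j0 : ℂ) / J)‖ ≤ ε1 := by
      have h1 := ev_add_int u (z + (j0 : ℂ) / J) r
      rw [← h1]
      apply hε
      · rw [Complex.add_im, him, Complex.intCast_im, add_zero]
      · have : ((j0 : ℂ) / J) = (((j0 : ℝ) / J : ℝ) : ℂ) := by push_cast; rfl
        rw [Complex.add_re, Complex.add_re, this, Complex.ofReal_re, Complex.intCast_re]
        exact hr
    apply mul_le_mul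
    · exact mul_le_mul_of_nonneg_left hsmall hW0.le
    · rw [← hcard, ← Finset.prod_const]
      apply Finset.prod_le_prod
      · intro j _
        positivity
      · intro j _
        exact mul_le_mul_of_nonneg_left (hB _ (him j)) hW0.le
    · exact Finset.prod_nonneg fun j _ => by positivity
    · positivity
  have hmax := Complex.norm_le_of_forall_mem_frontier_norm_le Metric.isBounded_ball hdc hbd
    (z := 0) (subset_closure (Metric.mem_ball_self hρ0))
  have hg0 : g 0 = coeff m u ^ J := by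
    rw [hg]
    simp only [mul_zero, evq_zero, h0, Finset.prod_const, Finset.card_range]
  rw [hg0, norm_pow] at hmax
  refine hmax.trans (le_of_eq ?_)
  have h1 : Real.exp (2 * Real.pi * m * η * J) = W ^ J := by
    rw [hW, ← Real.exp_nat_mul]
    congr 1
    ring
  rw [h1]
  obtain ⟨k, rfl⟩ : ∃ k, J = k + 1 := ⟨J - 1, by omega⟩
  rw [Nat.add_sub_cancel, mul_pow, pow_succ W k]
  ring

end Pool.Agent.H13.IC
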