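import Mathlib
import Pool.Agent.H13.IC.Qb

/-!
# IC-SA: step 1: exact vanishing of `H` makes the coefficients of `H*` small

PROOF. `Im (-1/(Mz)) = Im z / (M ‖z‖ ^ 2)`. Let `Im z = 1`. By periodicity of `ev Hs` (`ev_add_int`)
we may assume `|Re z| ≤ 1/2`, so `1 ≤ ‖z‖ ^ 2 ≤ 5/4`. Put `w = -1/(Mz)`: `Im w ≥ 4/(5M) ≥ η`, and
`Im w - η ≥ 2/(5M)`. `schwarz_ev`: `‖ev H w‖ ≤ B exp(-(2 pi m (Im w - η))) ≤ B exp(-(4 pi m/(5M)))`.
`RA`: `(sqrt M ‖z‖) ^ K ‖ev Hs z‖ = ‖ev H w‖`, `sqrt M ‖z‖ ≥ 1`. So `‖ev Hs z‖ ≤ B exp(-(4 pi m/(5M)))` on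
`Im z = 1`, and `cauchy_ev` with `η = 1` gives the factor `exp(2 pi n)`.
-/

set_option autoImplicit false

namespace Pool.Agent.H13.IC

open Complex PowerSeries NumberField

theorem im_refl (M : ℕ) (hM : 1 ≤ M) (z : ℂ) (hz : 0 < z.im) :
    (-1 / ((M : ℂ) * z)).im = z.im / (M * ‖z‖ ^ 2) := by
  have hM0 : (M : ℝ) ≠ 0 := by
    have : (0 : ℝ) < M := by exact_mod_cast hM
    exact this.ne'
  have hz0 : Complex.normSq z ≠ 0 := by
    rw [ne_eq, Complex.normSq_eq_zero]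
    rintro rfl
    simp at hz
  have h1 : ((M : ℂ) * z).im = M * z.im := by simp
  rw [Complex.sq_norm, neg_div, Complex.neg_im, one_div, Complex.inv_im, Complex.normSq_mul,
    Complex.normSq_natCast, h1]
  field_simp

theorem refl_refl (M : ℕ) (hM : 1 ≤ M) (z : ℂ) (hz : z ≠ 0) :
    -1 / ((M : ℂ) * (-1 / ((M : ℂ) * z))) = z := by
  have hM0 : (M : ℂ) ≠ 0 := by
    have : M ≠ 0 := by omega
    exact_mod_cast this
  field_simp

theorem step1 (M : ℕ) (hM : 1 ≤ M) (K : ℕ) (H Hs : PowerSeries ℂ) (hH : Cvg H) (hHs : Cvg Hs)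
    (hR : RA M K H Hs) (η : ℝ) (hη : 0 < η) (hη2 : η ≤ 2 / (5 * M)) (B : ℝ)
    (hB : ∀ z : ℂ, z.im = η → ‖ev H z‖ ≤ B) (m : ℕ) (hm : ∀ n < m, coeff n H = 0) (n : ℕ) :
    ‖coeff n Hs‖ ≤ B * Real.exp (2 * Real.pi * n - 4 * Real.pi * m / (5 * M)) := by
  have hM0 : (0 : ℝ) < M := by exact_mod_cast hM
  have hM1 : (1 : ℝ) ≤ M := by exact_mod_cast hM
  have hB0 : 0 ≤ B := (norm_nonneg _).trans (hB ⟨0, η⟩ rfl)
  have hpi := Real.pi_pos
  have key : ∀ z : ℂ, z.im = 1 → ‖ev Hs z‖ ≤ B * Real.exp (-(4 * Real.pi * m / (5 * M))) := by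
    intro z hz
    set z' : ℂ := z - (round z.re : ℤ) with hz'
    have him : z'.im = 1 := by simp [hz', hz]
    have hre : |z'.re| ≤ 1 / 2 := by
      have := abs_sub_round z.re
      simpa [hz'] using this
    have hev : ev Hs z = ev Hs z' := by
      have h := ev_add_int Hs z' (round z.re)
      rw [hz', sub_add_cancel] at h
      exact h
    have hsq : ‖z'‖ ^ 2 = z'.re ^ 2 + 1 := by
      rw [Complex.sq_norm, Complex.normSq_apply, him]; ring
    have hre2 : z'.re ^ 2 ≤ 1 / 4 := by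
      have := sq_le_sq' (abs_le.mp hre).1 (abs_le.mp hre).2
      linarith
    have hn1 : 1 ≤ ‖z'‖ := by
      have : (1 : ℝ) ≤ ‖z'‖ ^ 2 := by rw [hsq]; nlinarith [sq_nonneg z'.re]
      nlinarith [norm_nonneg z']
    have hn2 : ‖z'‖ ^ 2 ≤ 5 / 4 := by rw [hsq]; linarith
    have hpos : 0 < z'.im := by rw [him]; exact one_pos
    have hw := im_refl M hM z' hpos
    rw [him] at hw
    have hwge : 4 / (5 * (M : ℝ)) ≤ (-1 / ((M : ℂ) * z')).im := by
      rw [hw, div_le_div_iff₀ (by positivity) (by positivity)]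
      nlinarith
    have hge : η ≤ (-1 / ((M : ℂ) * z')).im := by
      refine le_trans hη2 (le_trans ?_ hwge)
      gcongr
      norm_num
    have hs := schwarz_ev hH hη m hm hB _ hge
    have hR' := hR z' hpos
    have h1 : (1 : ℝ) ≤ (Real.sqrt M * ‖z'‖) ^ K := by
      apply one_le_pow₀
      have : (1 : ℝ) ≤ Real.sqrt M := by
        rw [← Real.sqrt_one]; exact Real.sqrt_le_sqrt hM1
      nlinarith
    have h2 : ‖ev Hs z'‖ ≤ ‖ev H (-1 / ((M : ℂ) * z'))‖ := by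
      rw [hR']
      nlinarith [norm_nonneg (ev Hs z')]
    rw [hev]
    refine h2.trans (hs.trans ?_)
    apply mul_le_mul_of_nonneg_left _ hB0
    apply Real.exp_le_exp.mpr
    have h3 : 2 / (5 * (M : ℝ)) ≤ (-1 / ((M : ℂ) * z')).im - η := by
      have : 4 / (5 * (M : ℝ)) = 2 / (5 * M) + 2 / (5 * M) := by ring
      linarith
    have h4 : 4 * Real.pi * m / (5 * M) = 2 * Real.pi * m * (2 / (5 * M)) := by ring
    rw [h4]
    have h5 : 2 * Real.pi * m * (2 / (5 * (M : ℝ)))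
        ≤ 2 * Real.pi * m * ((-1 / ((M : ℂ) * z')).im - η) := by
      apply mul_le_mul_of_nonneg_left h3
      positivity
    linarith
  have h := cauchy_ev hHs one_pos key n
  refine h.trans (le_of_eq ?_)
  rw [mul_assoc, ← Real.exp_add]
  congr 2
  ring

end Pool.Agent.H13.IC
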