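import Mathlib
import Pool.Agent.H13.IC.Sa

/-!
# IC-SB: step 2: small coefficients of `H*` make `H` small on an arc

PROOF. `w = -1/(Mz)`, `v = Im w = η / (M ‖z‖ ^ 2) ≥ 1` because `‖z‖ ^ 2 = (Re z) ^ 2 + η ^ 2 ≤ η / M`.
`RA` at `w` and `refl_refl`: `‖ev H z‖ = (sqrt M ‖w‖) ^ K ‖ev Hs w‖`, `sqrt M ‖w‖ = 1/(sqrt M ‖z‖)
≤ 1/(sqrt M η)`. And `‖ev Hs w‖ ≤ ∑ ‖coeff n Hs‖ exp(-(2 pi n v))`. Terms with `n ≤ y`: at most
`δ exp(-(2 pi n))`, sum `≤ δ/(1 - exp(-(2 pi))) ≤ 2 δ`. Terms with `n > y` (`n ≥ 1`): by `cauchy_ev`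
`‖coeff n Hs‖ ≤ B exp(2 pi n η)`, so the term is at most `B exp(-(2 pi n (1 - η)))
≤ B exp(-(3/2) pi n) ≤ B exp(-(pi y)) exp(-(pi n / 2))`, and `∑_(n ≥ 1) exp(-(pi n/2)) ≤ 1/3 ≤ 2`.
-/

set_option autoImplicit false

namespace Pool.Agent.H13.IC

open Complex PowerSeries NumberField

private theorem exp_neg_two_pi_lt : Real.exp (-(2 * Real.pi)) ≤ 1 / 2 := by
  have h1 : (1 : ℝ) ≤ 2 * Real.pi := by linarith [Real.pi_gt_three]
  have h2 : Real.exp (-(2 * Real.pi)) ≤ Real.exp (-1) := Real.exp_le_exp.mpr (by linarith)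
  have h3 : Real.exp (-1) ≤ 1 / 2 := by
    rw [Real.exp_neg, ← one_div]
    apply one_div_le_one_div_of_le (by norm_num)
    have := Real.add_one_le_exp (1 : ℝ)
    linarith
  exact h2.trans h3

private theorem exp_neg_half_pi_lt : Real.exp (-(Real.pi / 2)) ≤ 1 / 2 := by
  have h1 : (1 : ℝ) ≤ Real.pi / 2 := by linarith [Real.pi_gt_three]
  have h2 : Real.exp (-(Real.pi / 2)) ≤ Real.exp (-1) := Real.exp_le_exp.mpr (by linarith)
  have h3 : Real.exp (-1) ≤ 1 / 2 := by
    rw [Real.exp_neg, ← one_div]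
    apply one_div_le_one_div_of_le (by norm_num)
    have := Real.add_one_le_exp (1 : ℝ)
    linarith
  exact h2.trans h3

theorem step2 (M : ℕ) (hM : 1 ≤ M) (K : ℕ) (H Hs : PowerSeries ℂ) (hH : Cvg H) (hHs : Cvg Hs)
    (hR : RA M K H Hs) (η : ℝ) (hη : 0 < η) (hη4 : η ≤ 1 / 4) (B : ℝ) (hB0 : 0 ≤ B)
    (hB : ∀ z : ℂ, z.im = η → ‖ev Hs z‖ ≤ B) (y δ : ℝ) (hy : 0 ≤ y) (hδ0 : 0 ≤ δ)
    (hδ : ∀ n : ℕ, (n : ℝ) ≤ y → ‖coeff n Hs‖ ≤ δ) (z : ℂ) (hz : z.im = η)
    (hzr : z.re ^ 2 + η ^ 2 ≤ η / M) :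
    ‖ev H z‖ ≤ (1 / (Real.sqrt M * η)) ^ K * (2 * δ + 2 * B * Real.exp (-(Real.pi * y))) := by
  have hM0 : (0 : ℝ) < M := by exact_mod_cast hM
  have hpi := Real.pi_pos
  have hzpos : 0 < z.im := by rw [hz]; exact hη
  have hz0 : z ≠ 0 := by
    rintro rfl
    simp at hzpos
  set w : ℂ := -1 / ((M : ℂ) * z) with hw
  have hwim : w.im = η / (M * ‖z‖ ^ 2) := by rw [hw, im_refl M hM z hzpos, hz]
  have hsq : ‖z‖ ^ 2 = z.re ^ 2 + η ^ 2 := by
    rw [Complex.sq_norm, Complex.normSq_apply, hz]; ring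
  have hnz : 0 < ‖z‖ := norm_pos_iff.mpr hz0
  have hwge : 1 ≤ w.im := by
    rw [hwim, one_le_div (by positivity), hsq]
    calc (M : ℝ) * (z.re ^ 2 + η ^ 2) ≤ M * (η / M) := by
          apply mul_le_mul_of_nonneg_left hzr hM0.le
      _ = η := by field_simp
  have hwpos : 0 < w.im := by linarith
  have hR' := hR w hwpos
  rw [hw, refl_refl M hM z hz0, ← hw] at hR'
  have hnw : ‖w‖ = 1 / (M * ‖z‖) := by
    rw [hw, norm_div, norm_neg, norm_one, norm_mul, Complex.norm_natCast]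
  have hηz : η ≤ ‖z‖ := by
    have := Complex.abs_im_le_norm z
    rw [hz, abs_of_pos hη] at this
    exact this
  have hsM : 0 < Real.sqrt M := Real.sqrt_pos.mpr hM0
  have hC : Real.sqrt M * ‖w‖ ≤ 1 / (Real.sqrt M * η) := by
    rw [hnw]
    have h1 : Real.sqrt M * (1 / (M * ‖z‖)) = 1 / (Real.sqrt M * ‖z‖) := by
      have h2 : (M : ℝ) = Real.sqrt M * Real.sqrt M := (Real.mul_self_sqrt hM0.le).symm
      rw [mul_one_div, div_eq_div_iff (by positivity) (by positivity)]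
      calc Real.sqrt M * (Real.sqrt M * ‖z‖) = (Real.sqrt M * Real.sqrt M) * ‖z‖ := by ring
        _ = 1 * (M * ‖z‖) := by rw [← h2, one_mul]
    rw [h1]
    apply one_div_le_one_div_of_le (by positivity)
    apply mul_le_mul_of_nonneg_left hηz hsM.le
  have hsum : ‖ev Hs w‖ ≤ 2 * δ + 2 * B * Real.exp (-(Real.pi * y)) := by
    set r1 : ℝ := Real.exp (-(2 * Real.pi)) with hr1
    set r2 : ℝ := Real.exp (-(Real.pi / 2)) with hr2
    have hr10 : 0 < r1 := Real.exp_pos _
    have hr20 : 0 < r2 := Real.exp_pos _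
    have hr1h : r1 ≤ 1 / 2 := exp_neg_two_pi_lt
    have hr2h : r2 ≤ 1 / 2 := exp_neg_half_pi_lt
    set E : ℝ := B * Real.exp (-(Real.pi * y)) with hE
    have hE0 : 0 ≤ E := by positivity
    have hs1 := (hasSum_geometric_of_lt_one hr10.le (by linarith)).mul_left δ
    have hs2 := (hasSum_geometric_of_lt_one hr20.le (by linarith)).mul_left E
    have hs := hs1.add hs2
    have hterm : ∀ n : ℕ, ‖coeff n Hs * ee w ^ n‖ ≤ δ * r1 ^ n + E * r2 ^ n := by
      intro n
      rw [norm_mul, norm_pow, norm_ee, ← Real.exp_nat_mul]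
      by_cases hn : (n : ℝ) ≤ y
      · have h1 : Real.exp (n * -(2 * Real.pi * w.im)) ≤ r1 ^ n := by
          rw [hr1, ← Real.exp_nat_mul]
          apply Real.exp_le_exp.mpr
          apply mul_le_mul_of_nonneg_left _ (Nat.cast_nonneg n)
          nlinarith
        have h2 : ‖coeff n Hs‖ * Real.exp (n * -(2 * Real.pi * w.im)) ≤ δ * r1 ^ n :=
          mul_le_mul (hδ n hn) h1 (Real.exp_pos _).le hδ0
        have h3 : 0 ≤ E * r2 ^ n := by positivity
        linarith
      · push Not at hn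
        have h0 : 0 ≤ δ * r1 ^ n := by positivity
        have hc := cauchy_ev hHs hη hB n
        have h1 : ‖coeff n Hs‖ * Real.exp (n * -(2 * Real.pi * w.im)) ≤
            B * Real.exp (2 * Real.pi * n * η) * Real.exp (n * -(2 * Real.pi * w.im)) :=
          mul_le_mul_of_nonneg_right hc (Real.exp_pos _).le
        have h2 : B * Real.exp (2 * Real.pi * n * η) * Real.exp (n * -(2 * Real.pi * w.im)) ≤
            E * r2 ^ n := by
          have e1 : B * Real.exp (2 * Real.pi * n * η) * Real.exp (n * -(2 * Real.pi * w.im)) =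
              B * Real.exp (2 * Real.pi * n * η + n * -(2 * Real.pi * w.im)) := by
            rw [Real.exp_add]; ring
          have e2 : E * r2 ^ n = B * Real.exp (-(Real.pi * y) + n * -(Real.pi / 2)) := by
            rw [hE, hr2, ← Real.exp_nat_mul, Real.exp_add]; ring
          rw [e1, e2]
          apply mul_le_mul_of_nonneg_left _ hB0
          apply Real.exp_le_exp.mpr
          have hn0 : (0 : ℝ) ≤ n := Nat.cast_nonneg n
          have a1 : 2 * Real.pi * n * η ≤ Real.pi * n / 2 := by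
            have : Real.pi * n * η ≤ Real.pi * n * (1 / 4) := by
              apply mul_le_mul_of_nonneg_left hη4
              positivity
            linarith
          have a2 : 2 * Real.pi * n ≤ n * (2 * Real.pi * w.im) := by
            have : 2 * Real.pi * n * 1 ≤ 2 * Real.pi * n * w.im := by
              apply mul_le_mul_of_nonneg_left hwge
              positivity
            linarith
          have a3 : Real.pi * y ≤ Real.pi * n := mul_le_mul_of_nonneg_left hn.le hpi.le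
          have a4 : (n : ℝ) * -(Real.pi / 2) = -(Real.pi * n / 2) := by ring
          rw [a4]
          linarith
        linarith
    have h := tsum_of_norm_bounded hs hterm
    have h1 : (1 - r1)⁻¹ ≤ 2 := by
      rw [inv_le_comm₀ (by linarith) (by norm_num)]; linarith
    have h2 : (1 - r2)⁻¹ ≤ 2 := by
      rw [inv_le_comm₀ (by linarith) (by norm_num)]; linarith
    have h3 : δ * (1 - r1)⁻¹ ≤ δ * 2 := mul_le_mul_of_nonneg_left h1 hδ0
    have h4 : E * (1 - r2)⁻¹ ≤ E * 2 := mul_le_mul_of_nonneg_left h2 hE0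
    have h5 : ev Hs w = ∑' n : ℕ, coeff n Hs * ee w ^ n := rfl
    rw [h5]
    refine h.trans ?_
    rw [hE] at h4
    linarith
  rw [hR']
  apply mul_le_mul _ hsum (norm_nonneg _) (by positivity)
  exact pow_le_pow_left₀ (by positivity) hC K

end Pool.Agent.H13.IC
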