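import Mathlib
import Pool.Agent.H13.IC.Qc
import Pool.Agent.H13.IC.Sb

/-!
# IC-SC: the step lemma: the leading coefficient of `H` is small

PROOF. `η = 1/(12800 M ^ 3)`, `x1 = 1/(160 M ^ 2)`, `J = 80 M ^ 2` (so `2 x1 J = 1`), `y = n/(10M)`,
`C = 1/(sqrt M η)` (`≥ 1`), `c = 12 pi η`. Facts: `η ≤ 2/(5M)`, `η ≤ 1/4`, `x1 ^ 2 = η/(2M)` and
`η ^ 2 ≤ η/(2M)`, so `|Re z| ≤ x1` implies `(Re z) ^ 2 + η ^ 2 ≤ η/M`.
`step1` with `m = n`: for `l ≤ y`: `‖coeff l Hs‖ ≤ B exp(2 pi y - 4 pi n/(5M)) = B exp(-(3/5) pi n/M) =: δ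
≤ B exp(-(pi n/(10M)))`. `step2`: on `Im z = η`, `|Re z| ≤ x1`: `‖ev H z‖ ≤ ε1 := C ^ K * 4 * B *
exp(-(pi n/(10M)))`. `rot`: `‖coeff n H‖ ^ J ≤ B ^ (J-1) * ε1 * exp(2 pi n η J)`. Since
`(1/J) * pi n/(10M) = pi n/(800 M ^ 3) = 16 pi η n`: the right side is at most
`(4 C ^ K) B ^ J exp(-(16 pi η n J) + 2 pi η n J) ≤ (4 C ^ K * B * exp(-(12 pi η n))) ^ J`
(`4 C ^ K ≤ (4 C ^ K) ^ J`), and `pow_le_pow_left₀` is inverted by `le_of_pow_le_pow_left₀`
(or `pow_le_pow_iff_left₀`).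
-/

set_option autoImplicit false

namespace Pool.Agent.H13.IC

open Complex PowerSeries NumberField

theorem stepC (M : ℕ) (hM : 1 ≤ M) : ∃ η C c : ℝ, 0 < η ∧ η ≤ 1 / 4 ∧ 1 ≤ C ∧ 0 < c ∧
    ∀ (K : ℕ) (H Hs : PowerSeries ℂ) (B : ℝ) (n : ℕ), Cvg H → Cvg Hs → RA M K H Hs → 1 ≤ B →
      (∀ z : ℂ, z.im = η → ‖ev H z‖ ≤ B) → (∀ z : ℂ, z.im = η → ‖ev Hs z‖ ≤ B) →
      (∀ j < n, coeff j H = 0) → ‖coeff n H‖ ≤ 4 * C ^ K * B * Real.exp (-(c * n)) := by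
  have hM1 : (1 : ℝ) ≤ M := by exact_mod_cast hM
  have hM0 : (0 : ℝ) < M := by linarith
  have hpi := Real.pi_pos
  have hsM0 : 0 < Real.sqrt M := Real.sqrt_pos.mpr hM0
  have hsM : Real.sqrt M ≤ M := by
    rw [Real.sqrt_le_left hM0.le]
    nlinarith
  have hM2 : (M : ℝ) ≤ (M : ℝ) ^ 2 := by nlinarith
  have hM3 : (M : ℝ) ^ 2 ≤ (M : ℝ) ^ 3 := by
    have : 0 ≤ (M : ℝ) ^ 2 * ((M : ℝ) - 1) := by
      apply mul_nonneg (by positivity)
      linarith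
    nlinarith
  set η : ℝ := 1 / (12800 * (M : ℝ) ^ 3) with hη
  have hη0 : 0 < η := by positivity
  have hηM : η * M ≤ 1 / 12800 := by
    rw [hη, div_mul_eq_mul_div, one_mul, div_le_div_iff₀ (by positivity) (by norm_num)]
    nlinarith
  have hη4 : η ≤ 1 / 4 := by nlinarith
  have hC1 : 1 ≤ 1 / (Real.sqrt M * η) := by
    rw [one_le_div (by positivity)]
    nlinarith
  refine ⟨η, 1 / (Real.sqrt M * η), 12 * Real.pi * η, hη0, hη4, hC1, by positivity, ?_⟩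
  intro K H Hs B n hH hHs hR hB1 hBH hBHs hv
  set C : ℝ := 1 / (Real.sqrt M * η) with hC
  have hB0 : 0 ≤ B := by linarith
  set x1 : ℝ := 1 / (160 * (M : ℝ) ^ 2) with hx1
  have hx10 : 0 < x1 := by positivity
  set y : ℝ := n / (10 * M) with hy
  have hn0 : (0 : ℝ) ≤ n := Nat.cast_nonneg n
  have hy0 : 0 ≤ y := by positivity
  set δ : ℝ := B * Real.exp (-(Real.pi * n / (10 * M))) with hδ
  have hδ0 : 0 ≤ δ := by positivity
  have hη2 : η ≤ 2 / (5 * M) := by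
    rw [le_div_iff₀ (by positivity)]
    nlinarith
  -- step 1
  have h1 : ∀ l : ℕ, (l : ℝ) ≤ y → ‖coeff l Hs‖ ≤ δ := by
    intro l hl
    refine (step1 M hM K H Hs hH hHs hR η hη0 hη2 B hBH n hv l).trans ?_
    rw [hδ]
    apply mul_le_mul_of_nonneg_left _ hB0
    apply Real.exp_le_exp.mpr
    have a1 : 2 * Real.pi * l ≤ 2 * Real.pi * y := by
      apply mul_le_mul_of_nonneg_left hl
      positivity
    have a2 : 2 * Real.pi * y = Real.pi * n / (5 * M) := by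
      rw [hy]
      field_simp
      ring
    have a3 : 4 * Real.pi * n / (5 * M) = 8 * (Real.pi * n / (10 * M)) := by
      field_simp
      ring
    have a4 : Real.pi * n / (5 * M) = 2 * (Real.pi * n / (10 * M)) := by
      field_simp
      ring
    have a5 : 0 ≤ Real.pi * n / (10 * M) := by positivity
    rw [a2, a4] at a1
    rw [a3]
    linarith
  -- step 2
  set ε1 : ℝ := C ^ K * (4 * B * Real.exp (-(Real.pi * n / (10 * M)))) with hε1
  have h2 : ∀ z : ℂ, z.im = η → |z.re| ≤ x1 → ‖ev H z‖ ≤ ε1 := by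
    intro z hz hzr
    have hre2 : z.re ^ 2 ≤ x1 ^ 2 := by
      have := sq_le_sq' (abs_le.mp hzr).1 (abs_le.mp hzr).2
      exact this
    have b1 : x1 ^ 2 = η / M / 2 := by
      rw [hx1, hη]
      field_simp
      ring
    have b2 : η ^ 2 ≤ η / M / 2 := by
      rw [div_div, le_div_iff₀ (by positivity)]
      nlinarith
    have hz2 : z.re ^ 2 + η ^ 2 ≤ η / M := by linarith
    refine (step2 M hM K H Hs hH hHs hR η hη0 hη4 B hB0 hBHs y δ hy0 hδ0 h1 z hz hz2).trans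
      (le_of_eq ?_)
    have b3 : Real.pi * y = Real.pi * n / (10 * M) := by rw [hy]; ring
    rw [b3, hε1, hδ, hC]
    ring
  -- rotation
  have hJx : 1 ≤ 2 * x1 * ((80 * M ^ 2 : ℕ) : ℝ) := by
    apply le_of_eq
    rw [hx1]
    push_cast
    field_simp
    norm_num
  have hJ1 : 1 ≤ 80 * M ^ 2 := by
    have : 1 ≤ M ^ 2 := Nat.one_le_pow _ _ hM
    omega
  have h3 := rot hH hη0 hB0 n hv hBH h2 (80 * M ^ 2) hJ1 hJx
  have hCK : 1 ≤ 4 * C ^ K := by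
    have : 1 ≤ C ^ K := one_le_pow₀ hC1
    linarith
  have hexp : Real.exp (-(Real.pi * n / (10 * M))) *
      Real.exp (2 * Real.pi * n * η * ((80 * M ^ 2 : ℕ) : ℝ)) ≤
      Real.exp (-(12 * Real.pi * η * n)) ^ (80 * M ^ 2) := by
    rw [← Real.exp_add, ← Real.exp_nat_mul]
    apply Real.exp_le_exp.mpr
    have c1 : Real.pi * n / (10 * M) = 16 * Real.pi * η * n * ((80 * M ^ 2 : ℕ) : ℝ) := by
      rw [hη]
      push_cast
      field_simp
      ring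
    rw [c1]
    have c2 : 0 ≤ Real.pi * η * n * ((80 * M ^ 2 : ℕ) : ℝ) := by positivity
    nlinarith
  have h4 : ‖coeff n H‖ ^ (80 * M ^ 2) ≤
      (4 * C ^ K * B * Real.exp (-(12 * Real.pi * η * n))) ^ (80 * M ^ 2) := by
    refine h3.trans ?_
    rw [mul_pow, mul_pow]
    have d1 : 4 * C ^ K ≤ (4 * C ^ K) ^ (80 * M ^ 2) := le_self_pow₀ hCK (by omega)
    have d2 : B ^ (80 * M ^ 2 - 1) * B = B ^ (80 * M ^ 2) := by
      rw [← pow_succ]
      congr 1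
      omega
    calc B ^ (80 * M ^ 2 - 1) * ε1 * Real.exp (2 * Real.pi * n * η * ((80 * M ^ 2 : ℕ) : ℝ))
        = (4 * C ^ K) * (B ^ (80 * M ^ 2 - 1) * B) * (Real.exp (-(Real.pi * n / (10 * M))) *
            Real.exp (2 * Real.pi * n * η * ((80 * M ^ 2 : ℕ) : ℝ))) := by
          rw [hε1]
          ring
      _ ≤ (4 * C ^ K) ^ (80 * M ^ 2) * B ^ (80 * M ^ 2) *
            Real.exp (-(12 * Real.pi * η * n)) ^ (80 * M ^ 2) := by
          rw [d2]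
          apply mul_le_mul _ hexp (by positivity) (by positivity)
          exact mul_le_mul_of_nonneg_right d1 (by positivity)
  exact le_of_pow_le_pow_left₀ (by omega) (by positivity) h4

end Pool.Agent.H13.IC
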