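import Mathlib
import Pool.Agent.H13.IC.Defs

/-!
# IC-SG: Siegel's lemma over a ring of integers

PROOF. `NumberField.house.exists_ne_zero_int_vec_house_le` (Mathlib, NumberField/House). The constant
`c₁ K` there is private, obtain it by unification: `refine ⟨max 1 _, le_max_left _ _, ?_⟩` (a
metavariable `_ : ℝ` which is assigned when the theorem is applied; if this is refused, use
`Exists` over the finite choice: state the auxiliary fact
`∃ D0 : ℝ, ∀ p q A a, .. ≤ D0 * (D0 * q * A) ^ ..` and prove it by `⟨_, fun .. => (theorem ..)⟩`).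
`house x = sup ‖σ x‖` (`house_eq_sup'`, `norm_embedding_le_house`), so the hypothesis
`∀ σ, ‖σ x‖ ≤ A` gives `house x ≤ A` (`Finset.sup'_le`; or `pi_norm_le_iff_of_nonneg`: `house` is the
sup norm of the canonical embedding). `(D0 q A) ^ e ≤ (D q A) ^ e` for `D0 ≤ D`, `e ≥ 0`
(`Real.rpow_le_rpow`; `D0 ≥ 0` follows as the bound of a nonnegative number, or replace `D0` by `|D0|`).
If the matrix is zero take `ξ = 1`: `1 ≤ D * (D q A) ^ e` since `D, q, A ≥ 1`.
Matrix index types: `Fin p`, `Fin q`, `Fintype.card_fin`.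
-/

set_option autoImplicit false

namespace Pool.Agent.H13.IC

open Complex PowerSeries NumberField

private theorem house_form (L : Type) [Field L] [NumberField L] : ∃ D0 : ℝ,
    ∀ (p q : ℕ) (A : ℝ) (a : Matrix (Fin p) (Fin q) (𝓞 L)), a ≠ 0 → 0 < p → p < q →
      (∀ k l, house (algebraMap (𝓞 L) L (a k l)) ≤ A) →
      ∃ ξ : Fin q → 𝓞 L, ξ ≠ 0 ∧ Matrix.mulVec a ξ = 0 ∧
        ∀ l, house (ξ l).1 ≤ D0 * ((D0 * q * A) ^ ((p : ℝ) / (q - p))) := by
  classical
  exact ⟨_, fun p q A a ha h0p hpq habs =>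
    NumberField.house.exists_ne_zero_int_vec_house_le L a ha h0p hpq (Fintype.card_fin q) habs
      (Fintype.card_fin p)⟩

private theorem house_le_of {L : Type} [Field L] [NumberField L] {x : L} {A : ℝ} (hA : 0 ≤ A)
    (h : ∀ σ : L →+* ℂ, ‖σ x‖ ≤ A) : house x ≤ A := by
  unfold house
  rw [pi_norm_le_iff_of_nonneg hA]
  intro σ
  exact h σ

theorem siegel (L : Type) [Field L] [NumberField L] : ∃ D : ℝ, 1 ≤ D ∧
    ∀ (p q : ℕ) (A : ℝ) (a : Fin p → Fin q → 𝓞 L), 0 < p → p < q → 1 ≤ A →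
      (∀ i j (σ : L →+* ℂ), ‖σ (algebraMap (𝓞 L) L (a i j))‖ ≤ A) →
      ∃ ξ : Fin q → 𝓞 L, ξ ≠ 0 ∧ (∀ i, ∑ j, a i j * ξ j = 0) ∧
        ∀ j (σ : L →+* ℂ), ‖σ (algebraMap (𝓞 L) L (ξ j))‖ ≤
          D * (D * q * A) ^ ((p : ℝ) / ((q : ℝ) - p)) := by
  obtain ⟨D0, hD0⟩ := house_form L
  refine ⟨max 1 |D0|, le_max_left _ _, fun p q A a hp hpq hA ha => ?_⟩
  obtain ⟨D, hD⟩ : ∃ D, D = max 1 |D0| := ⟨_, rfl⟩
  rw [← hD]
  have hD1 : 1 ≤ D := hD ▸ le_max_left _ _
  have hDD : |D0| ≤ D := hD ▸ le_max_right _ _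
  have hpq' : (p : ℝ) < q := by exact_mod_cast hpq
  have he : 0 ≤ (p : ℝ) / ((q : ℝ) - p) := div_nonneg (Nat.cast_nonneg _) (by linarith)
  have hq1 : (1 : ℝ) ≤ q := by exact_mod_cast (by omega : 1 ≤ q)
  by_cases h0 : (Matrix.of a : Matrix (Fin p) (Fin q) (𝓞 L)) = 0
  · refine ⟨fun _ => 1, ?_, fun i => ?_, fun j σ => ?_⟩
    · intro h
      exact one_ne_zero (congrFun h ⟨0, by omega⟩)
    · refine Finset.sum_eq_zero fun j _ => ?_
      have h1 : a i j = 0 := congrFun (congrFun h0 i) j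
      rw [h1, zero_mul]
    · rw [map_one, map_one, norm_one]
      have h1 : 1 ≤ D * q * A := one_le_mul_of_one_le_of_one_le
        (one_le_mul_of_one_le_of_one_le hD1 hq1) hA
      exact one_le_mul_of_one_le_of_one_le hD1 (Real.one_le_rpow h1 he)
  · obtain ⟨ξ, hξ0, hξ1, hξ2⟩ := hD0 p q A (Matrix.of a) h0 hp hpq
      (fun k l => house_le_of (by linarith) (ha k l))
    refine ⟨ξ, hξ0, fun i => congrFun hξ1 i, fun j σ => ?_⟩
    refine (norm_embedding_le_house _ σ).trans ((hξ2 j).trans ?_)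
    have hqA : 0 ≤ (q : ℝ) * A := by positivity
    calc D0 * (D0 * q * A) ^ ((p : ℝ) / (q - p))
        ≤ |D0 * (D0 * q * A) ^ ((p : ℝ) / (q - p))| := le_abs_self _
      _ = |D0| * |(D0 * q * A) ^ ((p : ℝ) / (q - p))| := abs_mul _ _
      _ ≤ |D0| * |D0 * q * A| ^ ((p : ℝ) / (q - p)) :=
          mul_le_mul_of_nonneg_left (Real.abs_rpow_le_abs_rpow _ _) (abs_nonneg _)
      _ = |D0| * (|D0| * q * A) ^ ((p : ℝ) / (q - p)) := by
          rw [mul_assoc, abs_mul, abs_of_nonneg hqA, mul_assoc]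
      _ ≤ D * (D * q * A) ^ ((p : ℝ) / (q - p)) := by
          refine mul_le_mul hDD ?_ (Real.rpow_nonneg (by positivity) _) (by linarith)
          refine Real.rpow_le_rpow (by positivity) ?_ he
          rw [mul_assoc, mul_assoc]
          exact mul_le_mul_of_nonneg_right hDD hqA

end Pool.Agent.H13.IC
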