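import Mathlib
import Pool.Agent.H13.IC.Qb
import Pool.Agent.H13.IC.Sg

/-!
# IC-SH: a small polynomial with high order of vanishing

PROOF. `ev_bdd` with `η = 1` and finitely many `σ`, `i` (`Fintype (L →+* ℂ)`): `C1 ≥ 1` with
`‖ev (sg σ (u i)) z‖ ≤ C1` for `Im z = 1`. For a monomial `w = u0^i u1^j u2^(2T-i-j)` (the total
exponent is `2T` because `i, j ≤ T`): `‖ev (sg σ w) z‖ ≤ C1 ^ (2T)` on `Im z = 1`, so by `cauchy_ev`
`‖coeff n (sg σ w)‖ ≤ C1 ^ (2T) exp(2 pi n) ≤ (C1 ^ 2 exp(2 pi lam)) ^ T =: A` for `n < lam T`;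
and `coeff n (sg σ w) = σ (coeff n w)` (`PowerSeries.coeff_map`).
`siegel` with `p = lam T` rows (`n`), `q = (T+1) ^ 2` columns (`Fin (T+1) × Fin (T+1)`,
`finProdFinEquiv`): for `T ≥ 2 lam`: `q - p ≥ T ^ 2/2`, `p/(q-p) ≤ 2 lam/T`. `D q A ≤ exp(c2 T)` for
`T ≥ 1` with `c2 = log D + 4 + log (C1 ^ 2 exp(2 pi lam))` (`(T+1) ^ 2 ≤ exp(4T)`). So
`(D q A) ^ (p/(q-p)) ≤ exp(2 lam c2)`, a constant, and `D exp(2 lam c2) ≤ exp T` for `T ≥ T0`.
`coeff n (pol u T p) = ∑ p i j * coeff n (monomial)` (`PowerSeries.coeff_C_mul`, `map_sum`).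
-/

set_option autoImplicit false

namespace Pool.Agent.H13.IC

open Complex PowerSeries NumberField

/-- a common bound -/
private theorem bd_one {L : Type} [Field L] [NumberField L]
    (u : Fin 3 → PowerSeries (𝓞 L)) (hu : ∀ (σ : L →+* ℂ) i, Cvg (sg σ (u i))) :
    ∃ B : ℝ, 1 ≤ B ∧ ∀ (σ : L →+* ℂ) (i : Fin 3) (z : ℂ), z.im = 1 →
      ‖ev (sg σ (u i)) z‖ ≤ B := by
  choose B1 hB1 hb1 using fun (σ : L →+* ℂ) (i : Fin 3) => ev_bdd (hu σ i) one_pos
  have hnn : ∀ (σ : L →+* ℂ) (i : Fin 3), 0 ≤ B1 σ i := fun σ i => by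
    linarith [hB1 σ i]
  have hle : ∀ (σ : L →+* ℂ) (i : Fin 3), B1 σ i ≤
      ∑ s : (L →+* ℂ), ∑ k : Fin 3, B1 s k := by
    intro σ i
    refine le_trans ?_ (Finset.single_le_sum (f := fun s : (L →+* ℂ) =>
      ∑ k : Fin 3, B1 s k) (fun s _ => Finset.sum_nonneg fun k _ => hnn s k)
      (Finset.mem_univ σ))
    exact Finset.single_le_sum (f := fun k : Fin 3 => B1 σ k) (fun k _ => hnn σ k)
      (Finset.mem_univ i)
  refine ⟨1 + ∑ s : (L →+* ℂ), ∑ k : Fin 3, B1 s k, ?_, ?_⟩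
  · have : 0 ≤ ∑ s : (L →+* ℂ), ∑ k : Fin 3, B1 s k :=
      Finset.sum_nonneg fun s _ => Finset.sum_nonneg fun k _ => hnn s k
    linarith
  · intro σ i z hz
    have h1 := hb1 σ i z hz.ge
    have h3 := hle σ i
    linarith

private theorem exps {T : ℕ} (i j : Fin (T + 1)) :
    (i : ℕ) + (j : ℕ) + (2 * T - i - j) = 2 * T := by
  have h1 := i.2
  have h2 := j.2
  omega

/-- the coefficients of the monomials are small -/
private theorem mono_bd {L : Type} [Field L] [NumberField L] (u : Fin 3 → PowerSeries (𝓞 L))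
    (hu : ∀ (σ : L →+* ℂ) i, Cvg (sg σ (u i))) {B : ℝ} (hB1 : 1 ≤ B)
    (hB : ∀ (σ : L →+* ℂ) (i : Fin 3) (z : ℂ), z.im = 1 → ‖ev (sg σ (u i)) z‖ ≤ B)
    (T : ℕ) (i j : Fin (T + 1)) (n : ℕ) (σ : L →+* ℂ) :
    ‖σ (algebraMap (𝓞 L) L
      (coeff n (u 0 ^ (i : ℕ) * u 1 ^ (j : ℕ) * u 2 ^ (2 * T - i - j))))‖ ≤
      B ^ (2 * T) * Real.exp (2 * Real.pi * n) := by
  have hc : σ (algebraMap (𝓞 L) L
      (coeff n (u 0 ^ (i : ℕ) * u 1 ^ (j : ℕ) * u 2 ^ (2 * T - i - j)))) =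
      coeff n (sg σ (u 0) ^ (i : ℕ) * sg σ (u 1) ^ (j : ℕ) *
        sg σ (u 2) ^ (2 * T - i - j)) := by
    rw [← map_pow, ← map_pow, ← map_pow, ← map_mul, ← map_mul]
    unfold sg
    rw [PowerSeries.coeff_map]
    rfl
  rw [hc]
  have h0 : (0 : ℝ) < 1 := one_pos
  have hcv := ((hu σ 0).pow (i : ℕ)).mul ((hu σ 1).pow (j : ℕ))
  have h1 := cauchy_ev (hcv.mul ((hu σ 2).pow (2 * T - i - j))) (η := 1)
    (B := B ^ (2 * T)) h0 ?_ n
  · rw [mul_one] at h1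
    exact h1
  · intro z hz
    have hz0 : 0 < z.im := hz ▸ h0
    rw [ev_mul hcv ((hu σ 2).pow _) hz0, ev_mul ((hu σ 0).pow _) ((hu σ 1).pow _) hz0,
      ev_pow (hu σ 0) _ hz0, ev_pow (hu σ 1) _ hz0, ev_pow (hu σ 2) _ hz0,
      norm_mul, norm_mul, norm_pow, norm_pow, norm_pow]
    have hB0 : 0 ≤ B := by linarith
    calc ‖ev (sg σ (u 0)) z‖ ^ (i : ℕ) * ‖ev (sg σ (u 1)) z‖ ^ (j : ℕ) *
          ‖ev (sg σ (u 2)) z‖ ^ (2 * T - i - j)
        ≤ B ^ (i : ℕ) * B ^ (j : ℕ) * B ^ (2 * T - i - j) := by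
          gcongr
          · exact hB σ 0 z hz
          · exact hB σ 1 z hz
          · exact hB σ 2 z hz
      _ = B ^ (2 * T) := by
          rw [← pow_add, ← pow_add, exps i j]

/-- the numerical part -/
private theorem num_bd {D B : ℝ} (hD : 1 ≤ D) (hB : 1 ≤ B) (lam : ℕ) (hlam : 1 ≤ lam) :
    ∃ T0 : ℕ, ∀ T : ℕ, T0 ≤ T → 1 ≤ T ∧ 2 * lam ≤ T ∧
      D * (D * (((T + 1) * (T + 1) : ℕ) : ℝ) *
        (B ^ (2 * T) * Real.exp (2 * Real.pi * (lam * T)))) ^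
        (((lam * T : ℕ) : ℝ) / ((((T + 1) * (T + 1) : ℕ) : ℝ) - ((lam * T : ℕ) : ℝ))) ≤
      Real.exp T := by
  have hlD : 0 ≤ Real.log D := Real.log_nonneg hD
  have hlB : 0 ≤ Real.log B := Real.log_nonneg hB
  obtain ⟨N, hN⟩ := exists_nat_ge (Real.log D + 2 * lam *
    (Real.log D + 2 + 2 * Real.log B + 2 * Real.pi * lam))
  refine ⟨max (2 * lam) (N + 1), fun T hT => ?_⟩
  have hT1 : 2 * lam ≤ T := (le_max_left _ _).trans hT
  have hT2 : N + 1 ≤ T := (le_max_right _ _).trans hT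
  have hTR : (1 : ℝ) ≤ T := by exact_mod_cast (by omega : 1 ≤ T)
  have hTN : (N : ℝ) ≤ T := by exact_mod_cast (by omega : N ≤ T)
  have hTl : 2 * (lam : ℝ) ≤ T := by exact_mod_cast hT1
  have hl1 : (1 : ℝ) ≤ lam := by exact_mod_cast hlam
  refine ⟨by omega, hT1, ?_⟩
  set c2 : ℝ := Real.log D + 2 + 2 * Real.log B + 2 * Real.pi * lam with hc2
  have hc20 : 0 ≤ c2 := by positivity
  -- the base
  have hbase : D * (((T + 1) * (T + 1) : ℕ) : ℝ) *
      (B ^ (2 * T) * Real.exp (2 * Real.pi * (lam * T))) ≤ Real.exp (c2 * T) := by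
    have e1 : D ≤ Real.exp (Real.log D * T) := by
      calc D = Real.exp (Real.log D) := (Real.exp_log (by linarith)).symm
        _ ≤ Real.exp (Real.log D * T) := Real.exp_le_exp.2 (by nlinarith)
    have e2 : (((T + 1) * (T + 1) : ℕ) : ℝ) ≤ Real.exp (2 * T) := by
      have h5 : (T : ℝ) + 1 ≤ Real.exp T := Real.add_one_le_exp _
      push_cast
      calc ((T : ℝ) + 1) * (T + 1) ≤ Real.exp T * Real.exp T := by gcongr
        _ = Real.exp (2 * T) := by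
            rw [← Real.exp_add]
            congr 1
            ring
    have e3 : B ^ (2 * T) = Real.exp (2 * Real.log B * T) := by
      rw [← Real.exp_log (show (0 : ℝ) < B by linarith), ← Real.exp_nat_mul, Real.log_exp]
      push_cast
      congr 1
      ring
    calc D * (((T + 1) * (T + 1) : ℕ) : ℝ) *
          (B ^ (2 * T) * Real.exp (2 * Real.pi * (lam * T)))
        ≤ Real.exp (Real.log D * T) * Real.exp (2 * T) *
          (Real.exp (2 * Real.log B * T) * Real.exp (2 * Real.pi * (lam * T))) := by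
          rw [e3]
          gcongr
      _ = Real.exp (c2 * T) := by
          rw [← Real.exp_add, ← Real.exp_add, ← Real.exp_add]
          congr 1
          rw [hc2]
          ring
  have hbase1 : 1 ≤ D * (((T + 1) * (T + 1) : ℕ) : ℝ) *
      (B ^ (2 * T) * Real.exp (2 * Real.pi * (lam * T))) := by
    have h1 : (1 : ℝ) ≤ (((T + 1) * (T + 1) : ℕ) : ℝ) := by
      exact_mod_cast Nat.one_le_iff_ne_zero.2 (by positivity)
    have h2 : (1 : ℝ) ≤ B ^ (2 * T) := one_le_pow₀ hB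
    have h3 : (1 : ℝ) ≤ Real.exp (2 * Real.pi * (lam * T)) := Real.one_le_exp (by positivity)
    exact one_le_mul_of_one_le_of_one_le (one_le_mul_of_one_le_of_one_le hD h1)
      (one_le_mul_of_one_le_of_one_le h2 h3)
  -- the exponent
  have hden : (T : ℝ) ^ 2 / 2 ≤ (((T + 1) * (T + 1) : ℕ) : ℝ) - ((lam * T : ℕ) : ℝ) := by
    push_cast
    nlinarith
  have hden0 : 0 < (T : ℝ) ^ 2 / 2 := by positivity
  have hexp : ((lam * T : ℕ) : ℝ) / ((((T + 1) * (T + 1) : ℕ) : ℝ) - ((lam * T : ℕ) : ℝ)) ≤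
      2 * lam / T := by
    calc ((lam * T : ℕ) : ℝ) / ((((T + 1) * (T + 1) : ℕ) : ℝ) - ((lam * T : ℕ) : ℝ))
        ≤ ((lam * T : ℕ) : ℝ) / ((T : ℝ) ^ 2 / 2) :=
          div_le_div_of_nonneg_left (Nat.cast_nonneg _) hden0 hden
      _ = 2 * lam / T := by
          have : (T : ℝ) ≠ 0 := by positivity
          push_cast
          field_simp
  have hexp0 : 0 ≤ 2 * (lam : ℝ) / T := by positivity
  calc D * (D * (((T + 1) * (T + 1) : ℕ) : ℝ) *
        (B ^ (2 * T) * Real.exp (2 * Real.pi * (lam * T)))) ^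
        (((lam * T : ℕ) : ℝ) / ((((T + 1) * (T + 1) : ℕ) : ℝ) - ((lam * T : ℕ) : ℝ)))
      ≤ D * (D * (((T + 1) * (T + 1) : ℕ) : ℝ) *
        (B ^ (2 * T) * Real.exp (2 * Real.pi * (lam * T)))) ^ (2 * (lam : ℝ) / T) := by
        refine mul_le_mul_of_nonneg_left ?_ (by linarith)
        exact Real.rpow_le_rpow_of_exponent_le hbase1 hexp
    _ ≤ D * (Real.exp (c2 * T)) ^ (2 * (lam : ℝ) / T) := by
        refine mul_le_mul_of_nonneg_left ?_ (by linarith)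
        exact Real.rpow_le_rpow (by linarith) hbase hexp0
    _ = Real.exp (Real.log D + 2 * lam * c2) := by
        have hT0 : (T : ℝ) ≠ 0 := by positivity
        rw [← Real.exp_mul, Real.exp_add, Real.exp_log (by linarith)]
        congr 2
        field_simp
    _ ≤ Real.exp T := Real.exp_le_exp.2 (hN.trans hTN)

theorem poly_small {L : Type} [Field L] [NumberField L] (u : Fin 3 → PowerSeries (𝓞 L))
    (hu : ∀ (σ : L →+* ℂ) i, Cvg (sg σ (u i))) (lam : ℕ) (hlam : 1 ≤ lam) :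
    ∃ T0 : ℕ, ∀ T : ℕ, T0 ≤ T → ∃ p : Fin (T + 1) → Fin (T + 1) → 𝓞 L, (∃ i j, p i j ≠ 0) ∧
      (∀ n < lam * T, coeff n (pol u T p) = 0) ∧
      ∀ i j (σ : L →+* ℂ), ‖σ (algebraMap (𝓞 L) L (p i j))‖ ≤ Real.exp T := by
  obtain ⟨B, hB1, hB⟩ := bd_one u hu
  obtain ⟨D, hD, hS⟩ := siegel L
  obtain ⟨T0, hT0⟩ := num_bd hD hB1 lam hlam
  refine ⟨T0, fun T hT => ?_⟩
  obtain ⟨hT1, hT2, hnum⟩ := hT0 T hT
  have hTR : (1 : ℝ) ≤ T := by exact_mod_cast hT1
  let mo : Fin (T + 1) × Fin (T + 1) → PowerSeries (𝓞 L) := fun x =>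
    u 0 ^ (x.1 : ℕ) * u 1 ^ (x.2 : ℕ) * u 2 ^ (2 * T - x.1 - x.2)
  obtain ⟨ξ, hξ0, hξ, hξb⟩ := hS (lam * T) ((T + 1) * (T + 1))
    (B ^ (2 * T) * Real.exp (2 * Real.pi * (lam * T)))
    (fun n k => coeff (n : ℕ) (mo (finProdFinEquiv.symm k)))
    (Nat.mul_pos hlam hT1) (by nlinarith)
    (one_le_mul_of_one_le_of_one_le (one_le_pow₀ hB1) (Real.one_le_exp (by positivity)))
    (by
      intro n k σ
      refine (mono_bd u hu hB1 hB T _ _ n σ).trans ?_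
      refine mul_le_mul_of_nonneg_left ?_ (by positivity)
      refine Real.exp_le_exp.2 ?_
      have h1 : ((n : ℕ) : ℝ) ≤ lam * T := by exact_mod_cast n.2.le
      exact mul_le_mul_of_nonneg_left h1 (by positivity))
  refine ⟨fun i j => ξ (finProdFinEquiv (i, j)), ?_, ?_, ?_⟩
  · obtain ⟨k, hk⟩ := Function.ne_iff.1 hξ0
    refine ⟨(finProdFinEquiv.symm k).1, (finProdFinEquiv.symm k).2, ?_⟩
    have h1 : finProdFinEquiv ((finProdFinEquiv.symm k).1, (finProdFinEquiv.symm k).2) = k :=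
      finProdFinEquiv.apply_symm_apply k
    show ξ (finProdFinEquiv ((finProdFinEquiv.symm k).1, (finProdFinEquiv.symm k).2)) ≠ 0
    rw [h1]
    exact hk
  · intro n hn
    have h1 := hξ ⟨n, hn⟩
    rw [← Equiv.sum_comp finProdFinEquiv, Fintype.sum_prod_type] at h1
    simp only [Equiv.symm_apply_apply] at h1
    rw [← h1]
    unfold pol
    rw [map_sum]
    refine Finset.sum_congr rfl fun i _ => ?_
    rw [map_sum]
    refine Finset.sum_congr rfl fun j _ => ?_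
    rw [mul_assoc, mul_assoc, PowerSeries.coeff_C_mul, mul_comm, ← mul_assoc]
  · intro i j σ
    exact (hξb _ σ).trans hnum

end Pool.Agent.H13.IC
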