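import Mathlib
import Pool.Agent.H13.IC.Sc
import Pool.Agent.H13.IC.Sh

/-!
# IC-AM: THEOREM A: three integral series with a reflection relation are algebraically dependent

PROOF. `stepC M`: `η, C, c`. `C2 ≥ 1`: a bound (`ev_bdd`) of all `‖ev (sg σ (u i)) z‖`, `‖ev (v σ i) z‖`
for `Im z = η`, all `σ`, `i`. Choose the integer `lam ≥ 1` with
`c lam > log 4 + 2 w log C + 3 + 2 log C2 + 1` and (`poly_small`) `T ≥ max 1 T0` large, `p`.
For each `σ` put `H = sg σ (pol u T p) = pol (sg σ ∘ u) T (σ ∘ p)` (`sg_pol`), `Hs = pol (v σ) T (σ ∘ p)`,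
`K = 2 T w`. `ev_pol` and `Rf`: `ev H (-1/(Mz)) = (sqrt M z) ^ (w (i + j + (2T-i-j))) ..
= (sqrt M z) ^ K ev Hs z` (`i, j ≤ T`), so `RA M K H Hs`. `‖ev H z‖, ‖ev Hs z‖ ≤ B := (T+1) ^ 2 exp(T)
C2 ^ (2T) ≤ exp(T (3 + 2 log C2))` on `Im z = η` (`(T+1) ^ 2 ≤ exp(2T)`).
CLAIM by strong induction on `n`: `coeff n (pol u T p) = 0`. For `n < lam T` given. For `n ≥ lam T`:
`stepC`: for all `σ`, `‖σ (coeff n)‖ ≤ 4 C ^ K B exp(-(c n)) ≤ exp(log 4 + 2 T w log C +
T (3 + 2 log C2) - c lam T) < 1` (`T ≥ 1`, `n ≥ lam T`). A number `x` of the ring of integers with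
`‖σ x‖ < 1` for all `σ` is `0` (`NumberField.house.one_le_house_of_isIntegral` or
`NumberField.exists_conjugate_one_le_norm`). So all coefficients vanish, `PowerSeries.ext`.
-/

set_option autoImplicit false

namespace Pool.Agent.H13.IC

open Complex PowerSeries NumberField

/-- a common bound -/
private theorem bd_all {L : Type} [Field L] [NumberField L]
    (u : Fin 3 → PowerSeries (𝓞 L)) (v : (L →+* ℂ) → Fin 3 → PowerSeries ℂ)
    (hu : ∀ (σ : L →+* ℂ) i, Cvg (sg σ (u i))) (hv : ∀ (σ : L →+* ℂ) i, Cvg (v σ i))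
    {η : ℝ} (hη : 0 < η) : ∃ B : ℝ, 1 ≤ B ∧ ∀ (σ : L →+* ℂ) (i : Fin 3) (z : ℂ), z.im = η →
      ‖ev (sg σ (u i)) z‖ ≤ B ∧ ‖ev (v σ i) z‖ ≤ B := by
  choose B1 hB1 hb1 using fun (σ : L →+* ℂ) (i : Fin 3) => ev_bdd (hu σ i) hη
  choose B2 hB2 hb2 using fun (σ : L →+* ℂ) (i : Fin 3) => ev_bdd (hv σ i) hη
  have hnn : ∀ (σ : L →+* ℂ) (i : Fin 3), 0 ≤ B1 σ i + B2 σ i := fun σ i => by
    linarith [hB1 σ i, hB2 σ i]
  have hle : ∀ (σ : L →+* ℂ) (i : Fin 3), B1 σ i + B2 σ i ≤
      ∑ s : (L →+* ℂ), ∑ k : Fin 3, (B1 s k + B2 s k) := by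
    intro σ i
    refine le_trans ?_ (Finset.single_le_sum (f := fun s : (L →+* ℂ) =>
      ∑ k : Fin 3, (B1 s k + B2 s k)) (fun s _ => Finset.sum_nonneg fun k _ => hnn s k)
      (Finset.mem_univ σ))
    exact Finset.single_le_sum (f := fun k : Fin 3 => B1 σ k + B2 σ k) (fun k _ => hnn σ k)
      (Finset.mem_univ i)
  refine ⟨1 + ∑ s : (L →+* ℂ), ∑ k : Fin 3, (B1 s k + B2 s k), ?_, ?_⟩
  · have : 0 ≤ ∑ s : (L →+* ℂ), ∑ k : Fin 3, (B1 s k + B2 s k) :=
      Finset.sum_nonneg fun s _ => Finset.sum_nonneg fun k _ => hnn s k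
    linarith
  · intro σ i z hz
    have h1 := hb1 σ i z hz.ge
    have h2 := hb2 σ i z hz.ge
    have h3 := hle σ i
    constructor
    · linarith [hB2 σ i]
    · linarith [hB1 σ i]

private theorem nonneg_sub {T : ℕ} (i j : Fin (T + 1)) :
    (i : ℕ) + (j : ℕ) + (2 * T - i - j) = 2 * T := by
  have h1 := i.2
  have h2 := j.2
  omega

/-- bound of the values of `pol` -/
private theorem pol_bd {u : Fin 3 → PowerSeries ℂ} (hu : ∀ i, Cvg (u i)) (T : ℕ)
    (p : Fin (T + 1) → Fin (T + 1) → ℂ) {z : ℂ} (hz : 0 < z.im) {P B : ℝ} (hP : 0 ≤ P)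
    (hp : ∀ i j, ‖p i j‖ ≤ P) (hB : ∀ i, ‖ev (u i) z‖ ≤ B) :
    ‖ev (pol u T p) z‖ ≤ ((T : ℝ) + 1) ^ 2 * P * B ^ (2 * T) := by
  have hB0 : 0 ≤ B := (norm_nonneg _).trans (hB 0)
  rw [ev_pol hu T p hz]
  have hterm : ∀ i j : Fin (T + 1),
      ‖p i j * ev (u 0) z ^ (i : ℕ) * ev (u 1) z ^ (j : ℕ) * ev (u 2) z ^ (2 * T - i - j)‖ ≤
        P * B ^ (2 * T) := by
    intro i j
    rw [norm_mul, norm_mul, norm_mul, norm_pow, norm_pow, norm_pow]
    calc ‖p i j‖ * ‖ev (u 0) z‖ ^ (i : ℕ) * ‖ev (u 1) z‖ ^ (j : ℕ) *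
          ‖ev (u 2) z‖ ^ (2 * T - i - j)
        ≤ P * B ^ (i : ℕ) * B ^ (j : ℕ) * B ^ (2 * T - i - j) := by
          gcongr
          · exact hp i j
          · exact hB 0
          · exact hB 1
          · exact hB 2
      _ = P * B ^ ((i : ℕ) + (j : ℕ) + (2 * T - i - j)) := by
          rw [pow_add, pow_add]
          ring
      _ = P * B ^ (2 * T) := by rw [nonneg_sub i j]
  calc _ ≤ ∑ i : Fin (T + 1), ∑ j : Fin (T + 1), P * B ^ (2 * T) := by
        refine (norm_sum_le _ _).trans (Finset.sum_le_sum fun i _ => ?_)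
        exact (norm_sum_le _ _).trans (Finset.sum_le_sum fun j _ => hterm i j)
    _ = ((T : ℝ) + 1) ^ 2 * P * B ^ (2 * T) := by
        simp only [Finset.sum_const, Finset.card_univ, Fintype.card_fin, nsmul_eq_mul]
        push_cast
        ring

/-- the reflection relation of `pol` -/
private theorem pol_RA (M w : ℕ) (hM : 1 ≤ M) {u v : Fin 3 → PowerSeries ℂ}
    (hu : ∀ i, Cvg (u i)) (hv : ∀ i, Cvg (v i)) (hR : ∀ i, Rf M w (u i) (v i)) (T : ℕ)
    (p : Fin (T + 1) → Fin (T + 1) → ℂ) : RA M (2 * T * w) (pol u T p) (pol v T p) := by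
  intro z hz
  have hMR : (0 : ℝ) < M := by exact_mod_cast hM
  have hz0 : z ≠ 0 := by
    intro h
    rw [h] at hz
    simp at hz
  have hz' : 0 < (-1 / ((M : ℂ) * z)).im := by
    have h0 : (M : ℂ) * z ≠ 0 := mul_ne_zero (by exact_mod_cast hMR.ne') hz0
    have h1 : (-1 / ((M : ℂ) * z)) = -((M : ℂ) * z)⁻¹ := by
      rw [neg_div, one_div]
    have h2 : ((M : ℂ) * z).im = M * z.im := by
      simp
    rw [h1, Complex.neg_im, Complex.inv_im, h2, neg_div, neg_neg]
    exact div_pos (mul_pos hMR hz) (Complex.normSq_pos.2 h0)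
  rw [ev_pol hu T p hz', ev_pol hv T p hz]
  have hs : ∑ i : Fin (T + 1), ∑ j : Fin (T + 1),
      p i j * ev (u 0) (-1 / ((M : ℂ) * z)) ^ (i : ℕ) * ev (u 1) (-1 / ((M : ℂ) * z)) ^ (j : ℕ) *
        ev (u 2) (-1 / ((M : ℂ) * z)) ^ (2 * T - i - j) =
      ((((Real.sqrt M : ℝ) : ℂ) * z) ^ (2 * T * w)) * ∑ i : Fin (T + 1), ∑ j : Fin (T + 1),
        p i j * ev (v 0) z ^ (i : ℕ) * ev (v 1) z ^ (j : ℕ) * ev (v 2) z ^ (2 * T - i - j) := by
    rw [Finset.mul_sum]
    refine Finset.sum_congr rfl fun i _ => ?_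
    rw [Finset.mul_sum]
    refine Finset.sum_congr rfl fun j _ => ?_
    rw [hR 0 z hz, hR 1 z hz, hR 2 z hz]
    generalize ((Real.sqrt M : ℝ) : ℂ) * z = s
    have h1 : 2 * T * w = w * (i : ℕ) + w * (j : ℕ) + w * (2 * T - i - j) := by
      rw [← mul_add, ← mul_add, nonneg_sub i j]
      ring
    rw [h1, pow_add, pow_add, mul_pow, mul_pow, mul_pow, ← pow_mul, ← pow_mul, ← pow_mul]
    ring
  rw [hs, norm_mul, norm_pow, norm_mul, Complex.norm_real, Real.norm_eq_abs,
    abs_of_nonneg (Real.sqrt_nonneg _)]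

theorem algA {L : Type} [Field L] [NumberField L] (M : ℕ) (hM : 1 ≤ M) (w : ℕ)
    (u : Fin 3 → PowerSeries (𝓞 L)) (v : (L →+* ℂ) → Fin 3 → PowerSeries ℂ)
    (hu : ∀ (σ : L →+* ℂ) i, Cvg (sg σ (u i))) (hv : ∀ (σ : L →+* ℂ) i, Cvg (v σ i))
    (hR : ∀ (σ : L →+* ℂ) i, Rf M w (sg σ (u i)) (v σ i)) :
    ∃ (T : ℕ) (p : Fin (T + 1) → Fin (T + 1) → 𝓞 L), (∃ i j, p i j ≠ 0) ∧ pol u T p = 0 := by
  obtain ⟨η, C, c, hη, -, hC, hc, hstep⟩ := stepC M hM
  obtain ⟨C2, hC2, hbd⟩ := bd_all u v hu hv hη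
  obtain ⟨lam0, hlam0⟩ := exists_nat_gt
    ((Real.log 4 + 2 * w * Real.log C + 3 + 2 * Real.log C2 + 1) / c)
  have hlogC : 0 ≤ Real.log C := Real.log_nonneg hC
  have hlogC2 : 0 ≤ Real.log C2 := Real.log_nonneg hC2
  have hlam : Real.log 4 + 2 * w * Real.log C + 3 + 2 * Real.log C2 + 1 <
      c * ((lam0 + 1 : ℕ) : ℝ) := by
    rw [div_lt_iff₀ hc] at hlam0
    push_cast
    nlinarith
  obtain ⟨T0, hT0⟩ := poly_small u hu (lam0 + 1) (by omega)
  obtain ⟨p, hne, hvan, hsm⟩ := hT0 (max 1 T0) (le_max_right _ _)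
  have hT1 : 1 ≤ max 1 T0 := le_max_left _ _
  generalize max 1 T0 = T at p hne hvan hsm hT1
  refine ⟨T, p, hne, ?_⟩
  have hTR : (1 : ℝ) ≤ T := by exact_mod_cast hT1
  have hclaim : ∀ n, coeff n (pol u T p) = 0 := by
    intro n
    induction n using Nat.strong_induction_on with
    | _ n ih =>
      rcases Nat.lt_or_ge n ((lam0 + 1) * T) with hn | hn
      · exact hvan n hn
      · by_contra hx
        obtain ⟨σ, hσ⟩ := NumberField.exists_conjugate_one_le_norm hx
        have hH : sg σ (pol u T p) = pol (fun i => sg σ (u i)) T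
            (fun i j => σ (algebraMap (𝓞 L) L (p i j))) := sg_pol σ u T p
        have hcf : ∀ k, coeff k (pol (fun i => sg σ (u i)) T
            (fun i j => σ (algebraMap (𝓞 L) L (p i j)))) =
            σ (algebraMap (𝓞 L) L (coeff k (pol u T p))) := by
          intro k
          rw [← hH]
          unfold sg
          rw [PowerSeries.coeff_map]
          rfl
        have hB1 : (1 : ℝ) ≤ ((T : ℝ) + 1) ^ 2 * Real.exp T * C2 ^ (2 * T) := by
          have h1 : (1 : ℝ) ≤ ((T : ℝ) + 1) ^ 2 := one_le_pow₀ (by linarith)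
          have h2 : (1 : ℝ) ≤ Real.exp T := Real.one_le_exp (by linarith)
          have h3 : (1 : ℝ) ≤ C2 ^ (2 * T) := one_le_pow₀ hC2
          exact one_le_mul_of_one_le_of_one_le (one_le_mul_of_one_le_of_one_le h1 h2) h3
        have hfin := hstep (2 * T * w) _ _ _ n
          (Cvg.pol (u := fun i => sg σ (u i)) (fun i => hu σ i) T
            (fun i j => σ (algebraMap (𝓞 L) L (p i j))))
          (Cvg.pol (u := v σ) (fun i => hv σ i) T
            (fun i j => σ (algebraMap (𝓞 L) L (p i j))))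
          (pol_RA M w hM (fun i => hu σ i) (fun i => hv σ i) (fun i => hR σ i) T _)
          hB1
          (fun z hz => pol_bd (fun i => hu σ i) T _ (hz ▸ hη) (Real.exp_pos _).le
            (fun i j => hsm i j σ) (fun i => (hbd σ i z hz).1))
          (fun z hz => pol_bd (fun i => hv σ i) T _ (hz ▸ hη) (Real.exp_pos _).le
            (fun i j => hsm i j σ) (fun i => (hbd σ i z hz).2))
          (fun k hk => by rw [hcf k, ih k hk, map_zero, map_zero])
        rw [hcf n] at hfin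
        have hnR : (((lam0 + 1 : ℕ) : ℝ)) * T ≤ n := by exact_mod_cast hn
        have hlt : 4 * C ^ (2 * T * w) * (((T : ℝ) + 1) ^ 2 * Real.exp T * C2 ^ (2 * T)) *
            Real.exp (-(c * n)) < 1 := by
          have e1 : (4 : ℝ) ≤ Real.exp (T * Real.log 4) := by
            have h4 : (0 : ℝ) ≤ Real.log 4 := Real.log_nonneg (by norm_num)
            calc (4 : ℝ) = Real.exp (Real.log 4) := (Real.exp_log (by norm_num)).symm
              _ ≤ Real.exp (T * Real.log 4) := by
                  refine Real.exp_le_exp.2 ?_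
                  nlinarith
          have e2 : C ^ (2 * T * w) = Real.exp (T * (2 * w * Real.log C)) := by
            rw [← Real.exp_log (show (0 : ℝ) < C by linarith), ← Real.exp_nat_mul, Real.log_exp]
            push_cast
            congr 1
            ring
          have e3 : ((T : ℝ) + 1) ^ 2 ≤ Real.exp (T * 2) := by
            have h5 : (T : ℝ) + 1 ≤ Real.exp T := Real.add_one_le_exp _
            calc ((T : ℝ) + 1) ^ 2 ≤ Real.exp T ^ 2 := pow_le_pow_left₀ (by linarith) h5 2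
              _ = Real.exp (T * 2) := by
                  rw [← Real.exp_nat_mul]
                  congr 1
                  push_cast
                  ring
          have e4 : C2 ^ (2 * T) = Real.exp (T * (2 * Real.log C2)) := by
            rw [← Real.exp_log (show (0 : ℝ) < C2 by linarith), ← Real.exp_nat_mul, Real.log_exp]
            push_cast
            congr 1
            ring
          calc 4 * C ^ (2 * T * w) * (((T : ℝ) + 1) ^ 2 * Real.exp T * C2 ^ (2 * T)) *
                Real.exp (-(c * n))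
              ≤ Real.exp (T * Real.log 4) * Real.exp (T * (2 * w * Real.log C)) *
                (Real.exp (T * 2) * Real.exp T * Real.exp (T * (2 * Real.log C2))) *
                Real.exp (-(c * n)) := by
                rw [e2, e4]
                gcongr
            _ = Real.exp (T * (Real.log 4 + 2 * w * Real.log C + 3 + 2 * Real.log C2) -
                c * n) := by
                rw [← Real.exp_add, ← Real.exp_add, ← Real.exp_add, ← Real.exp_add,
                  ← Real.exp_add]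
                congr 1
                ring
            _ < Real.exp 0 := by
                refine Real.exp_lt_exp.2 ?_
                have h6 : c * (((lam0 + 1 : ℕ) : ℝ) * T) ≤ c * n :=
                  mul_le_mul_of_nonneg_left hnR hc.le
                have h7 := mul_lt_mul_of_pos_right hlam (show (0 : ℝ) < T by linarith)
                nlinarith
            _ = 1 := Real.exp_zero
        exact absurd (hσ.trans hfin) (not_le.2 hlt)
  ext n
  rw [hclaim n, map_zero]

end Pool.Agent.H13.IC
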