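import Mathlib
import Pool.Agent.H13.IC.Qb

/-!
# IC-GR: growth of the function attached to coefficients of size n ^ ((k-1)/2 + eps)

PROOF. `cvg`: comparison with `n ^ s r ^ n`. `growth`: with `s = (k-1)/2 + ε`, `y ≤ 1`:
`∑_(n ≥ 1) n ^ s exp(-(2 pi n y)) ≤ C y ^ (-(s+1))` : for instance `x ^ (s+1) exp(-x) ≤ C` gives
`n ^ s exp(-(pi n y)) ≤ C y ^ (-s)` and `∑ exp(-(pi n y)) ≤ C / y` for `y ≤ 1`. And
`s + 1 = (k+1)/2 + ε`. `top`: for `Im z ≥ 1/2` the `n`-th term is at most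
`C n ^ s exp(-(2 pi n y)) ≤ C n ^ s exp(-(pi (n-1))) exp(-(2 pi y))` (`2 pi n y - 2 pi y = 2 pi (n-1) y ≥
pi (n-1)`), summable.
-/

set_option autoImplicit false

namespace Pool.Agent.H13.IC

open Complex PowerSeries

/-- no constant term, coefficients of size `n ^ ((k-1)/2 + ε)` -/
def GD (k : ℕ) (U : PowerSeries ℂ) : Prop :=
  coeff 0 U = 0 ∧ ∀ ε : ℝ, 0 < ε → ∃ C : ℝ, ∀ n : ℕ, 1 ≤ n →
    ‖coeff n U‖ ≤ C * (n : ℝ) ^ (((k : ℝ) - 1) / 2 + ε)

private theorem term_norm (U : PowerSeries ℂ) (z : ℂ) (n : ℕ) :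
    ‖coeff n U * ee z ^ n‖ = ‖coeff n U‖ * Real.exp (-(2 * Real.pi * n * z.im)) := by
  rw [norm_mul, norm_pow, norm_ee, ← Real.exp_nat_mul]
  congr 2
  ring

private theorem rpow_le_exp (t : ℝ) (ht : 0 < t) : ∃ C : ℝ, 0 < C ∧ ∀ x : ℝ, 0 < x →
    Real.exp (-x) ≤ C * x ^ (-t) := by
  refine ⟨(⌈t⌉₊.factorial : ℝ), by exact_mod_cast Nat.factorial_pos _, fun x hx => ?_⟩
  have hf : (1 : ℝ) ≤ (⌈t⌉₊.factorial : ℝ) := by exact_mod_cast Nat.factorial_pos _
  have h1 : x ^ t ≤ (⌈t⌉₊.factorial : ℝ) * Real.exp x := by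
    rcases le_total x 1 with h | h
    · have h2 : x ^ t ≤ 1 := Real.rpow_le_one hx.le h ht.le
      have h3 : 1 ≤ Real.exp x := Real.one_le_exp hx.le
      calc x ^ t ≤ 1 := h2
        _ ≤ (⌈t⌉₊.factorial : ℝ) * Real.exp x := one_le_mul_of_one_le_of_one_le hf h3
    · have h2 : x ^ t ≤ x ^ (⌈t⌉₊ : ℝ) :=
        Real.rpow_le_rpow_of_exponent_le h (Nat.le_ceil t)
      rw [Real.rpow_natCast] at h2
      have h3 := Real.pow_div_factorial_le_exp x hx.le ⌈t⌉₊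
      rw [div_le_iff₀ (by positivity)] at h3
      linarith
  rw [Real.rpow_neg hx.le, ← div_eq_mul_inv, le_div_iff₀ (Real.rpow_pos_of_pos hx t), Real.exp_neg,
    inv_mul_le_iff₀ (Real.exp_pos x), mul_comm]
  rw [mul_comm] at h1
  linarith

theorem GD.cvg {k : ℕ} {U : PowerSeries ℂ} (hU : GD k U) : Cvg U := by
  intro r hr hr1
  obtain ⟨h0, h⟩ := hU
  obtain ⟨C, hC⟩ := h 1 one_pos
  have hr' : ‖r‖ < 1 := by
    rw [Real.norm_eq_abs, abs_of_nonneg hr]
    exact hr1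
  have h2 := summable_pow_mul_geometric_of_norm_lt_one (R := ℝ) (k + 1) hr'
  have h1 : Summable fun n : ℕ => |C| * ((n : ℝ) ^ (k + 1) * r ^ n) := h2.mul_left _
  have h3 : ∀ n : ℕ, 0 ≤ ‖coeff n U‖ * r ^ n := fun n =>
    mul_nonneg (norm_nonneg _) (pow_nonneg hr n)
  have h4 : ∀ n : ℕ, ‖coeff n U‖ * r ^ n ≤ |C| * ((n : ℝ) ^ (k + 1) * r ^ n) := by
    intro n
    rcases Nat.eq_zero_or_pos n with hn | hn
    · rw [hn, h0, norm_zero, zero_mul]
      positivity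
    · have hn1 : (1 : ℝ) ≤ n := by exact_mod_cast hn
      rw [← mul_assoc]
      refine mul_le_mul_of_nonneg_right ?_ (pow_nonneg hr n)
      refine (hC n hn).trans ?_
      have h5 : (n : ℝ) ^ (((k : ℝ) - 1) / 2 + 1) ≤ (n : ℝ) ^ (k + 1) := by
        rw [← Real.rpow_natCast]
        refine Real.rpow_le_rpow_of_exponent_le hn1 ?_
        push_cast
        have : (0 : ℝ) ≤ k := Nat.cast_nonneg k
        linarith
      calc C * (n : ℝ) ^ (((k : ℝ) - 1) / 2 + 1)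
          ≤ |C| * (n : ℝ) ^ (((k : ℝ) - 1) / 2 + 1) :=
            mul_le_mul_of_nonneg_right (le_abs_self C) (by positivity)
        _ ≤ |C| * (n : ℝ) ^ (k + 1) := mul_le_mul_of_nonneg_left h5 (abs_nonneg C)
  exact Summable.of_nonneg_of_le h3 h4 h1

theorem GD.growth {k : ℕ} {U : PowerSeries ℂ} (hU : GD k U) (ε : ℝ) (hε : 0 < ε) :
    ∃ C : ℝ, 0 < C ∧ ∀ z : ℂ, 0 < z.im → z.im ≤ 1 →
      ‖ev U z‖ ≤ C * z.im ^ (-(((k : ℝ) + 1) / 2 + ε)) := by
  obtain ⟨h0, h⟩ := hU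
  obtain ⟨C, hC⟩ := h (ε / 2) (by linarith)
  have hk : (0 : ℝ) ≤ k := Nat.cast_nonneg k
  set t : ℝ := ((k : ℝ) + 1) / 2 + ε with ht
  have ht0 : 0 < t := by
    rw [ht]
    linarith
  obtain ⟨C₁, hC₁, hexp⟩ := rpow_le_exp t ht0
  have hsum : Summable fun n : ℕ => (n : ℝ) ^ (-(1 + ε / 2)) := by
    rw [Real.summable_nat_rpow]
    linarith
  set S : ℝ := ∑' n : ℕ, (n : ℝ) ^ (-(1 + ε / 2)) with hS
  have hS0 : 0 ≤ S := tsum_nonneg fun n => Real.rpow_nonneg (Nat.cast_nonneg _) _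
  set D : ℝ := |C| * C₁ * (2 * Real.pi) ^ (-t) with hD
  have hD0 : 0 ≤ D := by positivity
  refine ⟨D * S + 1, by positivity, fun z hz _ => ?_⟩
  have hbd : ∀ n : ℕ, ‖coeff n U * ee z ^ n‖ ≤ (D * z.im ^ (-t)) * (n : ℝ) ^ (-(1 + ε / 2)) := by
    intro n
    rw [term_norm]
    rcases Nat.eq_zero_or_pos n with hn | hn
    · rw [hn, h0, norm_zero, zero_mul]
      positivity
    · have hn1 : (0 : ℝ) < n := by exact_mod_cast hn
      have hx : 0 < 2 * Real.pi * n * z.im := by positivity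
      have h1 := hexp _ hx
      have h2 : (2 * Real.pi * n * z.im) ^ (-t)
          = (2 * Real.pi) ^ (-t) * (n : ℝ) ^ (-t) * z.im ^ (-t) := by
        rw [Real.mul_rpow (by positivity) hz.le, Real.mul_rpow (by positivity) hn1.le]
      have h3 : (n : ℝ) ^ (((k : ℝ) - 1) / 2 + ε / 2) * (n : ℝ) ^ (-t)
          = (n : ℝ) ^ (-(1 + ε / 2)) := by
        rw [← Real.rpow_add hn1]
        congr 1
        rw [ht]
        ring
      calc ‖coeff n U‖ * Real.exp (-(2 * Real.pi * n * z.im))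
          ≤ (|C| * (n : ℝ) ^ (((k : ℝ) - 1) / 2 + ε / 2)) *
              (C₁ * (2 * Real.pi * n * z.im) ^ (-t)) := by
            refine mul_le_mul ((hC n hn).trans ?_) h1 (Real.exp_pos _).le (by positivity)
            exact mul_le_mul_of_nonneg_right (le_abs_self C) (by positivity)
        _ = (D * z.im ^ (-t)) *
              ((n : ℝ) ^ (((k : ℝ) - 1) / 2 + ε / 2) * (n : ℝ) ^ (-t)) := by
            rw [h2, hD]
            ring
        _ = (D * z.im ^ (-t)) * (n : ℝ) ^ (-(1 + ε / 2)) := by rw [h3]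
  have h4 : ‖ev U z‖ ≤ (D * z.im ^ (-t)) * S := by
    unfold ev evq
    exact tsum_of_norm_bounded (hsum.hasSum.mul_left _) hbd
  refine h4.trans ?_
  have h5 : 0 ≤ z.im ^ (-t) := Real.rpow_nonneg hz.le _
  calc (D * z.im ^ (-t)) * S = (D * S) * z.im ^ (-t) := by ring
    _ ≤ (D * S + 1) * z.im ^ (-t) := mul_le_mul_of_nonneg_right (by linarith) h5

theorem GD.top {k : ℕ} {U : PowerSeries ℂ} (hU : GD k U) :
    ∃ C : ℝ, 0 < C ∧ ∀ z : ℂ, 1 / 2 ≤ z.im → ‖ev U z‖ ≤ C * Real.exp (-(2 * Real.pi * z.im)) := by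
  have hcv := hU.cvg
  obtain ⟨h0, h⟩ := hU
  have hpi := Real.pi_pos
  have hr1 : Real.exp (-Real.pi) < 1 := by
    rw [Real.exp_lt_one_iff]
    linarith
  have hsum := hcv (Real.exp (-Real.pi)) (Real.exp_pos _).le hr1
  set S : ℝ := ∑' n : ℕ, ‖coeff n U‖ * Real.exp (-Real.pi) ^ n with hS
  have hS0 : 0 ≤ S := tsum_nonneg fun n => by positivity
  refine ⟨Real.exp Real.pi * S + 1, by positivity, fun z hz => ?_⟩
  have hbd : ∀ n : ℕ, ‖coeff n U * ee z ^ n‖ ≤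
      (Real.exp Real.pi * Real.exp (-(2 * Real.pi * z.im))) *
        (‖coeff n U‖ * Real.exp (-Real.pi) ^ n) := by
    intro n
    rw [term_norm]
    rcases Nat.eq_zero_or_pos n with hn | hn
    · rw [hn, h0, norm_zero, zero_mul]
      positivity
    · have hn1 : (1 : ℝ) ≤ n := by exact_mod_cast hn
      have h1 : Real.exp (-(2 * Real.pi * n * z.im)) ≤
          (Real.exp Real.pi * Real.exp (-(2 * Real.pi * z.im))) * Real.exp (-Real.pi) ^ n := by
        rw [← Real.exp_nat_mul, ← Real.exp_add, ← Real.exp_add]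
        apply Real.exp_le_exp.2
        have h2 : 0 ≤ ((n : ℝ) - 1) * (z.im - 1 / 2) :=
          mul_nonneg (by linarith) (by linarith)
        have h3 : 0 ≤ 2 * Real.pi * (((n : ℝ) - 1) * (z.im - 1 / 2)) :=
          mul_nonneg (by linarith) h2
        have h4 : 2 * Real.pi * (((n : ℝ) - 1) * (z.im - 1 / 2))
            = 2 * Real.pi * n * z.im - n * Real.pi - 2 * Real.pi * z.im + Real.pi := by ring
        linarith
      calc ‖coeff n U‖ * Real.exp (-(2 * Real.pi * n * z.im))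
          ≤ ‖coeff n U‖ * ((Real.exp Real.pi * Real.exp (-(2 * Real.pi * z.im))) *
              Real.exp (-Real.pi) ^ n) := mul_le_mul_of_nonneg_left h1 (norm_nonneg _)
        _ = _ := by ring
  have h4 : ‖ev U z‖ ≤ (Real.exp Real.pi * Real.exp (-(2 * Real.pi * z.im))) * S := by
    unfold ev evq
    exact tsum_of_norm_bounded (hsum.hasSum.mul_left _) hbd
  refine h4.trans ?_
  have h5 : 0 ≤ Real.exp (-(2 * Real.pi * z.im)) := (Real.exp_pos _).le
  calc (Real.exp Real.pi * Real.exp (-(2 * Real.pi * z.im))) * S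
      = (Real.exp Real.pi * S) * Real.exp (-(2 * Real.pi * z.im)) := by ring
    _ ≤ (Real.exp Real.pi * S + 1) * Real.exp (-(2 * Real.pi * z.im)) :=
        mul_le_mul_of_nonneg_right (by linarith) h5

end Pool.Agent.H13.IC
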