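import Mathlib
import Pool.Agent.H13.IC.Defs

/-!
# IC-OA: the slash action of SL2(Z), elementary facts

`sl k f γ τ = f (γ τ) / (c τ + d) ^ k`. Cocycle: `ModularGroup.denom_apply`,
`UpperHalfPlane.denom_cocycle`, `SpecialLinearGroup.coe_mul`; or compare with Mathlib's
`f ∣[(k : ℤ)] γ` (`ModularForm.SL_slash_apply`) and use `SlashAction.slash_mul`.
`hol_sl`: `γ • τ` is holomorphic (`UpperHalfPlane.mdifferentiable_smul` and
`UpperHalfPlane.mdifferentiable_iff`; or the explicit formula `(a z + b)/(c z + d)`).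
`period`: the map `h ↦ sl k h T`, `T = ModularGroup.T`, is injective on functions and maps the finite
set `O = range (sl k f)` into itself, so it is a permutation of `O` and its power with exponent
`R = (ncard O)!` is the identity on `O`; `sl k h (T ^ R) τ = h (R + τ)`.
`fH u` is holomorphic by `ev_diff` (do not import it here: it is a hypothesis where needed).
-/

set_option autoImplicit false

namespace Pool.Agent.H13.IC

open Complex UpperHalfPlane MatrixGroups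

/-- `f |_k γ` -/
noncomputable def sl (k : ℕ) (f : ℍ → ℂ) (γ : SL(2, ℤ)) : ℍ → ℂ :=
  fun τ => f (γ • τ) / ((γ 1 0 : ℂ) * τ + (γ 1 1 : ℂ)) ^ k

private theorem sl_eq (k : ℕ) (f : ℍ → ℂ) (γ : SL(2, ℤ)) :
    sl k f γ = SlashAction.map (k : ℤ) γ f := by
  funext τ
  rw [ModularForm.SL_slash_apply, ModularGroup.denom_apply, zpow_neg, zpow_natCast, sl,
    div_eq_mul_inv]

theorem den_ne (γ : SL(2, ℤ)) (τ : ℍ) : (γ 1 0 : ℂ) * τ + (γ 1 1 : ℂ) ≠ 0 := by
  rw [← ModularGroup.denom_apply]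
  exact UpperHalfPlane.denom_ne_zero _ _

theorem sl_one (k : ℕ) (f : ℍ → ℂ) : sl k f 1 = f := by
  rw [sl_eq]
  exact SlashAction.slash_one (k : ℤ) f

theorem sl_mul (k : ℕ) (f : ℍ → ℂ) (γ δ : SL(2, ℤ)) : sl k (sl k f γ) δ = sl k f (γ * δ) := by
  rw [sl_eq, sl_eq, sl_eq]
  exact (SlashAction.slash_mul (k : ℤ) γ δ f).symm

theorem im_sl (γ : SL(2, ℤ)) (τ : ℍ) :
    (γ • τ : ℍ).im = τ.im / ‖(γ 1 0 : ℂ) * τ + (γ 1 1 : ℂ)‖ ^ 2 := by
  rw [ModularGroup.im_smul_eq_div_normSq, Complex.normSq_eq_norm_sq, ModularGroup.denom_apply]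

open scoped Manifold in
theorem hol_sl (k : ℕ) {f : ℍ → ℂ} (hf : Hol f) (γ : SL(2, ℤ)) : Hol (sl k f γ) := by
  have h1 : MDiff f := UpperHalfPlane.mdifferentiable_iff.mpr hf
  have h2 : MDiff (SlashAction.map (k : ℤ) γ f) := MDifferentiable.slash h1 (k : ℤ) _
  rw [sl_eq]
  exact UpperHalfPlane.mdifferentiable_iff.mp h2

private theorem sl_T (k : ℕ) (h : ℍ → ℂ) (n : ℕ) (τ : ℍ) :
    sl k h (ModularGroup.T ^ n) τ = h ((n : ℝ) +ᵥ τ) := by
  have h1 : (ModularGroup.T ^ n : SL(2, ℤ)) = ModularGroup.T ^ (n : ℤ) := (zpow_natCast _ n).symm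
  have h2 : (ModularGroup.T ^ (n : ℤ) : SL(2, ℤ)) 1 0 = 0 := by
    have := ModularGroup.coe_T_zpow (n : ℤ)
    exact congrFun (congrFun this 1) 0
  have h3 : (ModularGroup.T ^ (n : ℤ) : SL(2, ℤ)) 1 1 = 1 := by
    have := ModularGroup.coe_T_zpow (n : ℤ)
    exact congrFun (congrFun this 1) 1
  have h4 : ((n : ℤ) : ℝ) = (n : ℝ) := by push_cast; rfl
  rw [sl, h1, h2, h3, UpperHalfPlane.modular_T_zpow_smul, h4]
  simp

theorem period (k : ℕ) (f : ℍ → ℂ) (hO : (Set.range (sl k f)).Finite) :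
    ∃ R : ℕ, 1 ≤ R ∧ ∀ h ∈ Set.range (sl k f), ∀ τ : ℍ, h ((R : ℝ) +ᵥ τ) = h τ := by
  classical
  have hfin : Finite (Set.range (sl k f)) := hO
  have hmaps : ∀ h ∈ Set.range (sl k f), sl k h ModularGroup.T ∈ Set.range (sl k f) := by
    rintro h ⟨γ, rfl⟩
    exact ⟨γ * ModularGroup.T, (sl_mul k f γ ModularGroup.T).symm⟩
  let φ : Set.range (sl k f) → Set.range (sl k f) := fun h => ⟨sl k h.1 ModularGroup.T, hmaps h.1 h.2⟩
  have hinj : Function.Injective φ := by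
    intro h h' e
    have e1 : sl k h.1 ModularGroup.T = sl k h'.1 ModularGroup.T := congrArg Subtype.val e
    have e2 := congrArg (fun u => sl k u ModularGroup.T⁻¹) e1
    simp only [sl_mul, mul_inv_cancel, sl_one] at e2
    exact Subtype.ext e2
  have hbij : Function.Bijective φ := Finite.injective_iff_bijective.mp hinj
  let σ : Equiv.Perm (Set.range (sl k f)) := Equiv.ofBijective φ hbij
  have hR : 0 < orderOf σ := orderOf_pos σ
  have hpow : ∀ (n : ℕ) (h : Set.range (sl k f)), ((σ ^ n) h).1 = sl k h.1 (ModularGroup.T ^ n) := by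
    intro n
    induction n with
    | zero =>
      intro h
      rw [pow_zero, pow_zero, sl_one]
      rfl
    | succ n ih =>
      intro h
      rw [pow_succ', Equiv.Perm.mul_apply, pow_succ, ← sl_mul, ← ih h]
      rfl
  refine ⟨orderOf σ, hR, fun h hh τ => ?_⟩
  have h1 := hpow (orderOf σ) ⟨h, hh⟩
  rw [pow_orderOf_eq_one] at h1
  have h2 : h = sl k h (ModularGroup.T ^ orderOf σ) := h1
  calc h ((orderOf σ : ℝ) +ᵥ τ) = sl k h (ModularGroup.T ^ orderOf σ) τ :=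
        (sl_T k h (orderOf σ) τ).symm
    _ = h τ := by rw [← h2]

/-- the weighted absolute value of the orbit is invariant -/
theorem sl_abs (k : ℕ) (f : ℍ → ℂ) (γ : SL(2, ℤ)) (τ : ℍ) :
    ‖sl k f γ τ‖ * τ.im ^ ((k : ℝ) / 2) = ‖f (γ • τ)‖ * (γ • τ : ℍ).im ^ ((k : ℝ) / 2) := by
  have h1 : 0 < ‖(γ 1 0 : ℂ) * τ + (γ 1 1 : ℂ)‖ := norm_pos_iff.mpr (den_ne γ τ)
  rw [im_sl, Real.div_rpow τ.im_pos.le (by positivity), sl, norm_div, norm_pow]
  have h2 : (‖(γ 1 0 : ℂ) * τ + (γ 1 1 : ℂ)‖ ^ 2) ^ ((k : ℝ) / 2) =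
      ‖(γ 1 0 : ℂ) * τ + (γ 1 1 : ℂ)‖ ^ k := by
    rw [← Real.rpow_natCast _ 2, ← Real.rpow_mul h1.le, ← Real.rpow_natCast _ k]
    congr 1
    push_cast
    ring
  rw [h2]
  ring

end Pool.Agent.H13.IC
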