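import Mathlib
import Pool.Agent.H13.IC.Gr
import Pool.Agent.H13.IC.Oa

/-!
# IC-CD: exponential decay at all cusps

PROOF. `h = sl k f γ`, `γ = (a b; c d)`, `f = fH U`. If `c = 0`: `a = d = ±1`, `h τ = ± f(τ + n)`: `GD.top`.
If `c ≠ 0`, `y = Im τ ≥ 1`: `‖cτ+d‖ ≥ |c| y ≥ y`, so `Im(γ τ) = y/‖cτ+d‖ ^ 2 ≤ 1/y ≤ 1` (`im_sl`) and
`GD.growth` with `ε = 1/4`: `‖h τ‖ ≤ C (y/‖cτ+d‖^2) ^ (-((k+1)/2 + 1/4)) / ‖cτ+d‖ ^ k
= C y ^ (-((k+1)/2+1/4)) ‖cτ+d‖ ^ (3/2)`. For `|Re τ| ≤ R` (`R` the common period, `period`)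
`‖cτ+d‖ ≤ (|c|(1+R)+|d|) y`, so `‖h τ‖ ≤ C' y ^ (3/2 - (k+1)/2 - 1/4) ≤ C' y ^ (-(1/4))` as `k ≥ 2`; by the
period `R` this holds for all `τ`. So `h ∘ ofComplex` is holomorphic, `R`-periodic and tends to `0`
at `i∞`: `Function.Periodic.exp_decay_of_zero_at_inf` (Mathlib.Analysis.Complex.Periodic; or
directly: `h = g(exp(2 pi i z/R))`, `g` bounded near `0`, removable singularity, `g(0) = 0`, so
`‖g(q)‖ ≤ C ‖q‖`). On a compact strip part `1 ≤ y ≤ Y0`, `|Re| ≤ R` use continuity (and the period),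
enlarging `C`.
-/

set_option autoImplicit false

namespace Pool.Agent.H13.IC

open Complex PowerSeries UpperHalfPlane MatrixGroups

private theorem cd_hol {U : PowerSeries ℂ} (hU : Cvg U) : Hol (fH U) := by
  refine (ev_diff hU).congr fun z hz => ?_
  have hz' : 0 < z.im := hz
  change ev U ((ofComplex z : ℍ) : ℂ) = ev U z
  rw [ofComplex_apply_of_im_pos hz']

private theorem cd_den (c d : ℤ) (hc : c ≠ 0) (τ : ℍ) : τ.im ≤ ‖(c : ℂ) * τ + (d : ℂ)‖ := by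
  have h1 := Complex.abs_im_le_norm ((c : ℂ) * τ + (d : ℂ))
  have h2 : ((c : ℂ) * τ + (d : ℂ)).im = c * τ.im := by
    simp
  rw [h2, abs_mul, abs_of_pos τ.im_pos] at h1
  have h3 : (1 : ℝ) ≤ |(c : ℝ)| := by exact_mod_cast Int.one_le_abs hc
  nlinarith [τ.im_pos]

private theorem cd_den_up (c d : ℤ) (τ : ℍ) {R : ℝ} (hR : |τ.re| ≤ R) (hy : 1 ≤ τ.im) :
    ‖(c : ℂ) * τ + (d : ℂ)‖ ≤ (|(c : ℝ)| * (1 + R) + |(d : ℝ)|) * τ.im := by
  have hR0 : 0 ≤ R := (abs_nonneg _).trans hR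
  have h1 : ‖(τ : ℂ)‖ ≤ |τ.re| + |τ.im| := Complex.norm_le_abs_re_add_abs_im _
  rw [abs_of_pos τ.im_pos] at h1
  have h2 : ‖(c : ℂ) * τ + (d : ℂ)‖ ≤ |(c : ℝ)| * ‖(τ : ℂ)‖ + |(d : ℝ)| := by
    refine (norm_add_le _ _).trans ?_
    rw [norm_mul, Complex.norm_intCast, Complex.norm_intCast]
  have h3 : ‖(τ : ℂ)‖ ≤ (1 + R) * τ.im := by nlinarith
  have h4 : |(c : ℝ)| * ‖(τ : ℂ)‖ ≤ |(c : ℝ)| * ((1 + R) * τ.im) :=
    mul_le_mul_of_nonneg_left h3 (abs_nonneg _)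
  have h5 : |(d : ℝ)| ≤ |(d : ℝ)| * τ.im := le_mul_of_one_le_right (abs_nonneg _) hy
  calc _ ≤ |(c : ℝ)| * ((1 + R) * τ.im) + |(d : ℝ)| * τ.im := h2.trans (add_le_add h4 h5)
    _ = _ := by ring

private theorem cd_strip (k : ℕ) (hk : 2 ≤ k) (U : PowerSeries ℂ) (hU : GD k U) (γ : SL(2, ℤ))
    (hc : γ 1 0 ≠ 0) (R : ℝ) (hR : 0 ≤ R) :
    ∃ B : ℝ, 0 < B ∧ ∀ τ : ℍ, 1 ≤ τ.im → |τ.re| ≤ R →
      ‖sl k (fH U) γ τ‖ ≤ B * τ.im ^ (-(1 / 4 : ℝ)) := by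
  obtain ⟨C, hC, hg⟩ := hU.growth (1 / 4) (by norm_num)
  obtain ⟨A, hA⟩ : ∃ A : ℝ, A = |((γ 1 0 : ℤ) : ℝ)| * (1 + R) + |((γ 1 1 : ℤ) : ℝ)| := ⟨_, rfl⟩
  have hA0 : 0 < A := by
    have h3 : (1 : ℝ) ≤ |((γ 1 0 : ℤ) : ℝ)| := by exact_mod_cast Int.one_le_abs hc
    have h4 := abs_nonneg ((γ 1 1 : ℤ) : ℝ)
    rw [hA]
    nlinarith
  refine ⟨C * A ^ (3 / 2 : ℝ), mul_pos hC (Real.rpow_pos_of_pos hA0 _), fun τ hy hx => ?_⟩
  obtain ⟨D, hD⟩ : ∃ D : ℝ, D = ‖(γ 1 0 : ℂ) * τ + (γ 1 1 : ℂ)‖ := ⟨_, rfl⟩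
  have hD1 : τ.im ≤ D := by
    rw [hD]
    exact cd_den (γ 1 0) (γ 1 1) hc τ
  have hD2 : D ≤ A * τ.im := by
    rw [hD, hA]
    exact cd_den_up (γ 1 0) (γ 1 1) τ hx hy
  obtain ⟨y, hyd⟩ : ∃ y : ℝ, y = τ.im := ⟨_, rfl⟩
  rw [← hyd] at hy hD1 hD2 ⊢
  have hy0 : 0 < y := by linarith
  have hD0 : 0 < D := by linarith
  have him : (γ • τ : ℍ).im = y / D ^ 2 := by
    rw [im_sl, hyd, hD]
  have hw0 : 0 < (γ • τ : ℍ).im := (γ • τ : ℍ).im_pos
  have hw1 : (γ • τ : ℍ).im ≤ 1 := by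
    rw [him, div_le_one (by positivity)]
    nlinarith
  have h1 := hg ((γ • τ : ℍ) : ℂ) hw0 hw1
  have h2 : ‖sl k (fH U) γ τ‖ = ‖ev U ((γ • τ : ℍ) : ℂ)‖ / D ^ k := by
    unfold sl
    rw [norm_div, norm_pow, hD]
    rfl
  rw [h2, div_le_iff₀ (by positivity)]
  refine h1.trans ?_
  have e0 : (((γ • τ : ℍ) : ℂ)).im = y / D ^ 2 := him
  rw [e0]
  obtain ⟨s, hs⟩ : ∃ s : ℝ, s = ((k : ℝ) + 1) / 2 + 1 / 4 := ⟨_, rfl⟩
  rw [← hs]
  have hk' : (2 : ℝ) ≤ k := by exact_mod_cast hk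
  have e1 : (y / D ^ 2) ^ (-s) = y ^ (-s) * (D ^ (3 / 2 : ℝ) * D ^ k) := by
    rw [Real.div_rpow hy0.le (by positivity), ← Real.rpow_natCast D 2, ← Real.rpow_mul hD0.le,
      ← Real.rpow_natCast D k, ← Real.rpow_add hD0, div_eq_mul_inv, ← Real.rpow_neg hD0.le]
    congr 2
    rw [hs]
    push_cast
    ring
  rw [e1]
  have e2 : D ^ (3 / 2 : ℝ) ≤ A ^ (3 / 2 : ℝ) * y ^ (3 / 2 : ℝ) := by
    rw [← Real.mul_rpow hA0.le hy0.le]
    exact Real.rpow_le_rpow hD0.le hD2 (by norm_num)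
  have e3 : y ^ (-s) * y ^ (3 / 2 : ℝ) ≤ y ^ (-(1 / 4) : ℝ) := by
    rw [← Real.rpow_add hy0]
    refine Real.rpow_le_rpow_of_exponent_le hy ?_
    rw [hs]
    linarith
  calc C * (y ^ (-s) * (D ^ (3 / 2 : ℝ) * D ^ k))
      = (C * D ^ k * y ^ (-s)) * D ^ (3 / 2 : ℝ) := by ring
    _ ≤ (C * D ^ k * y ^ (-s)) * (A ^ (3 / 2 : ℝ) * y ^ (3 / 2 : ℝ)) :=
        mul_le_mul_of_nonneg_left e2 (by positivity)
    _ = (C * A ^ (3 / 2 : ℝ) * D ^ k) * (y ^ (-s) * y ^ (3 / 2 : ℝ)) := by ring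
    _ ≤ (C * A ^ (3 / 2 : ℝ) * D ^ k) * y ^ (-(1 / 4) : ℝ) :=
        mul_le_mul_of_nonneg_left e3 (by positivity)
    _ = C * A ^ (3 / 2 : ℝ) * y ^ (-(1 / 4) : ℝ) * D ^ k := by ring

private theorem cd_per {h : ℍ → ℂ} {R : ℝ} (hp : ∀ τ : ℍ, h (R +ᵥ τ) = h τ) :
    Function.Periodic (h ∘ ofComplex) (R : ℂ) := by
  intro z
  by_cases hz : 0 < z.im
  · have hz' : 0 < (z + (R : ℂ)).im := by simpa using hz
    change h (ofComplex (z + (R : ℂ))) = h (ofComplex z)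
    rw [ofComplex_apply_of_im_pos hz, ofComplex_apply_of_im_pos hz', ← hp ⟨z, hz⟩]
    congr 1
    apply UpperHalfPlane.ext
    change z + (R : ℂ) = ((R +ᵥ (⟨z, hz⟩ : ℍ) : ℍ) : ℂ)
    rw [UpperHalfPlane.coe_vadd, add_comm]
  · have hz' : (z + (R : ℂ)).im ≤ 0 := by simpa using not_lt.1 hz
    change h (ofComplex (z + (R : ℂ))) = h (ofComplex z)
    rw [ofComplex_apply_eq_of_im_nonpos hz' (not_lt.1 hz)]

theorem cusp_decay (k : ℕ) (hk : 2 ≤ k) (U : PowerSeries ℂ) (hU : GD k U)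
    (hO : (Set.range (sl k (fH U))).Finite) (h : ℍ → ℂ) (hh : h ∈ Set.range (sl k (fH U))) :
    ∃ C c : ℝ, 0 < C ∧ 0 < c ∧ ∀ τ : ℍ, 1 ≤ τ.im → ‖h τ‖ ≤ C * Real.exp (-(c * τ.im)) := by
  obtain ⟨γ, rfl⟩ := hh
  by_cases hc : γ 1 0 = 0
  · obtain ⟨C, hC, ht⟩ := hU.top
    refine ⟨C, 2 * Real.pi, hC, by positivity, fun τ hy => ?_⟩
    have hdet : γ 0 0 * γ 1 1 = 1 := by
      have h1 := Matrix.SpecialLinearGroup.det_coe γ
      rw [Matrix.det_fin_two, hc, mul_zero, sub_zero] at h1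
      exact h1
    have hd : |((γ 1 1 : ℤ) : ℝ)| = 1 := by
      have h2 : IsUnit (γ 1 1) := IsUnit.of_mul_eq_one_right _ hdet
      rcases Int.isUnit_iff.1 h2 with h3 | h3
      · rw [h3]; simp
      · rw [h3]; simp
    have hD : ‖(γ 1 0 : ℂ) * τ + (γ 1 1 : ℂ)‖ = 1 := by
      rw [hc, Int.cast_zero, zero_mul, zero_add, Complex.norm_intCast, hd]
    have him : (γ • τ : ℍ).im = τ.im := by
      rw [im_sl, hD, one_pow, div_one]
    have h2 : ‖sl k (fH U) γ τ‖ = ‖ev U ((γ • τ : ℍ) : ℂ)‖ := by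
      unfold sl
      rw [norm_div, norm_pow, hD, one_pow, div_one]
      rfl
    have e0 : (((γ • τ : ℍ) : ℂ)).im = τ.im := him
    have h3 := ht ((γ • τ : ℍ) : ℂ) (by rw [e0]; linarith)
    rw [h2]
    rwa [e0] at h3
  · obtain ⟨R, hR1, hper⟩ := period k (fH U) hO
    have hR0 : (0 : ℝ) < R := by exact_mod_cast hR1
    obtain ⟨B, hB, hs⟩ := cd_strip k hk U hU γ hc R hR0.le
    have hP := cd_per (R := (R : ℝ)) (hper (sl k (fH U) γ) ⟨γ, rfl⟩)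
    obtain ⟨F, hF⟩ : ∃ F, F = sl k (fH U) γ ∘ ofComplex := ⟨_, rfl⟩
    rw [← hF] at hP
    have hFb : ∀ z : ℂ, 1 ≤ z.im → ‖F z‖ ≤ B * z.im ^ (-(1 / 4 : ℝ)) := by
      intro z hz
      have h1 := hP.sub_int_mul_eq ⌊z.re / R⌋ (x := z)
      have hz' : (z - (⌊z.re / R⌋ : ℂ) * ((R : ℝ) : ℂ)).im = z.im := by
        simp
      have hre : (z - (⌊z.re / R⌋ : ℂ) * ((R : ℝ) : ℂ)).re = z.re - ⌊z.re / R⌋ * R := by
        simp
      have hpos : 0 < (z - (⌊z.re / R⌋ : ℂ) * ((R : ℝ) : ℂ)).im := by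
        rw [hz']
        linarith
      rw [← h1]
      have h2 : F (z - (⌊z.re / R⌋ : ℂ) * ((R : ℝ) : ℂ)) = sl k (fH U) γ ⟨_, hpos⟩ := by
        rw [hF]
        change sl k (fH U) γ (ofComplex _) = _
        rw [ofComplex_apply_of_im_pos hpos]
      rw [h2]
      have h3 := hs ⟨_, hpos⟩ (by
        change 1 ≤ (z - (⌊z.re / R⌋ : ℂ) * ((R : ℝ) : ℂ)).im
        rw [hz']
        exact hz) (by
        change |(z - (⌊z.re / R⌋ : ℂ) * ((R : ℝ) : ℂ)).re| ≤ R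
        rw [hre]
        have f1 := Int.floor_le (z.re / R)
        have f2 := Int.lt_floor_add_one (z.re / R)
        rw [le_div_iff₀ hR0] at f1
        rw [div_lt_iff₀ hR0] at f2
        rw [abs_le]
        constructor
        · linarith
        · nlinarith)
      refine h3.trans (le_of_eq ?_)
      change B * (z - (⌊z.re / R⌋ : ℂ) * ((R : ℝ) : ℂ)).im ^ (-(1 / 4 : ℝ)) = _
      rw [hz']
    have hFh : ∀ τ : ℍ, F (τ : ℂ) = sl k (fH U) γ τ := by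
      intro τ
      rw [hF]
      exact comp_ofComplex _ τ
    have hol : ∀ᶠ z in Filter.comap Complex.im Filter.atTop, DifferentiableAt ℂ F z := by
      have h1 := hol_sl k (cd_hol hU.cvg) γ
      unfold Hol at h1
      rw [← hF] at h1
      have h2 : ∀ᶠ z : ℂ in Filter.comap Complex.im Filter.atTop, 0 < z.im :=
        (Filter.eventually_gt_atTop (0 : ℝ)).comap _
      filter_upwards [h2] with z hz
      exact (h1 z hz).differentiableAt ((isOpen_lt continuous_const Complex.continuous_im).mem_nhds hz)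
    have hzero : Filter.ZeroAtFilter (Filter.comap Complex.im Filter.atTop) F := by
      unfold Filter.ZeroAtFilter
      rw [tendsto_zero_iff_norm_tendsto_zero]
      have h1 : Filter.Tendsto (fun z : ℂ => B * z.im ^ (-(1 / 4 : ℝ)))
          (Filter.comap Complex.im Filter.atTop) (nhds 0) := by
        have h2 := (tendsto_rpow_neg_atTop (by norm_num : (0 : ℝ) < 1 / 4)).const_mul B
        rw [mul_zero] at h2
        exact h2.comp Filter.tendsto_comap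
      refine squeeze_zero' (Filter.Eventually.of_forall fun z => norm_nonneg _) ?_ h1
      have h2 : ∀ᶠ z : ℂ in Filter.comap Complex.im Filter.atTop, 1 ≤ z.im :=
        (Filter.eventually_ge_atTop (1 : ℝ)).comap _
      filter_upwards [h2] with z hz
      exact hFb z hz
    have hexp := Function.Periodic.exp_decay_of_zero_at_inf hR0 hP hol hzero
    obtain ⟨C, hC⟩ := hexp.bound
    rw [Filter.eventually_comap] at hC
    obtain ⟨Y, hY⟩ := Filter.eventually_atTop.1 hC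
    obtain ⟨c, hcd⟩ : ∃ c : ℝ, c = 2 * Real.pi / R := ⟨_, rfl⟩
    have hc0 : 0 < c := by
      rw [hcd]
      positivity
    refine ⟨max C 0 + B * Real.exp (c * Y) + 1, c, ?_, hc0, fun τ hy => ?_⟩
    · have := le_max_right C 0
      positivity
    · have hC0 := le_max_right C 0
      have hC1 := le_max_left C 0
      have hB' : 0 < B * Real.exp (c * Y) := by positivity
      have he := Real.exp_pos (-(c * τ.im))
      by_cases hYy : Y ≤ τ.im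
      · have h1 := hY τ.im hYy (τ : ℂ) rfl
        rw [hFh τ] at h1
        have h2 : ‖Real.exp (-2 * Real.pi * (τ : ℂ).im / R)‖ = Real.exp (-(c * τ.im)) := by
          rw [Real.norm_eq_abs, abs_of_pos (Real.exp_pos _), hcd]
          congr 1
          change -2 * Real.pi * τ.im / R = _
          ring
        rw [h2] at h1
        refine h1.trans (mul_le_mul_of_nonneg_right ?_ he.le)
        linarith
      · have h1 := hFb (τ : ℂ) hy
        rw [hFh τ] at h1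
        have h2 : (τ : ℂ).im ^ (-(1 / 4 : ℝ)) ≤ 1 :=
          Real.rpow_le_one_of_one_le_of_nonpos hy (by norm_num)
        have h3 : ‖sl k (fH U) γ τ‖ ≤ B := h1.trans (mul_le_of_le_one_right hB.le h2)
        have h4 : 1 ≤ Real.exp (c * Y) * Real.exp (-(c * τ.im)) := by
          rw [← Real.exp_add]
          apply Real.one_le_exp
          have := mul_lt_mul_of_pos_left (not_le.1 hYy) hc0
          linarith
        calc ‖sl k (fH U) γ τ‖ ≤ B * 1 := by linarith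
          _ ≤ B * (Real.exp (c * Y) * Real.exp (-(c * τ.im))) := mul_le_mul_of_nonneg_left h4 hB.le
          _ = (B * Real.exp (c * Y)) * Real.exp (-(c * τ.im)) := by ring
          _ ≤ _ := mul_le_mul_of_nonneg_right (by linarith) he.le

end Pool.Agent.H13.IC
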