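import Mathlib
import Pool.Agent.H13.IC.Qb

/-!
# IC-EI: the Eisenstein series of weight 4 and 6 as integral power series; the forms GM, DM

PROOF. Mathlib: `ModularForm.E₄`, `ModularForm.E₆` (`E hk`, weight `k`, full modular group `𝒮ℒ`),
`EisensteinSeries.q_expansion_bernoulli` with `bernoulli 4 = -1/30`, `bernoulli 6 = 1/42`
(`norm_num [bernoulli]`, `bernoulli'`; `2*4/(-1/30) = -240`, `2*6/(1/42) = 504`), the sum over `ℕ+` to a
sum over `ℕ` with constant term (`tsum_pnat_eq_tsum_succ`), so `ev (E4 ℂ) τ = E₄ τ`, the same for `E6`.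
Transformation: `SlashInvariantForm.slash_action_eqn''` (or `slash_action_eqn_SL''`), with
`ModularGroup.denom_apply`. `S`: `γ = ModularGroup.S` gives `-1/z` (`UpperHalfPlane.modular_S_smul`).
Convergence: `EisensteinSeries.summable_sigma_mul_cexp_pow` or `sigma 3 n ≤ n ^ 4`
(`ArithmeticFunction.sigma_le_pow_succ`) and `summable_norm_pow_mul_geometric_of_norm_lt_one`.
`dil`: only multiples `n = M m` contribute (`tsum` over the range of the injective map `m ↦ M m`,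
`Function.Injective.tsum_eq`), `ee (M z) = ee z ^ M`.
`Rf` for `GM`: `ev E4 (-1/(Mz)) = (Mz) ^ 4 ev E4 (Mz)`, `ev E4 (M * (-1/(Mz))) = ev E4 (-1/z)
= z ^ 4 ev E4 z`, `(Mz) ^ 4 z ^ 4 = (sqrt M z) ^ 8`.
`coeff 1`: `coeff 1 (dil M u) = coeff 1 u` if `M = 1` and `0` otherwise; `coeff 1 (u * v)`,
`coeff 1 (u ^ n) = n * coeff 1 u` if `coeff 0 u = 1`. In `ne_coeff` both sides are integers:
`720 k` or `1440 k` against `-1008 k` or `-2016 k`.
-/

set_option autoImplicit false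

namespace Pool.Agent.H13.IC

open Complex PowerSeries NumberField UpperHalfPlane MatrixGroups

open ModularForm in
private theorem ei_bern4 : bernoulli 4 = -1 / 30 := by decide +kernel

open ModularForm in
private theorem ei_bern6 : bernoulli 6 = 1 / 42 := by decide +kernel

private theorem ei_cvg {u : PowerSeries ℂ} {C : ℝ} {k : ℕ} (hC : 0 ≤ C)
    (h : ∀ n : ℕ, ‖coeff n u‖ ≤ 1 + C * (n : ℝ) ^ k) : Cvg u := by
  intro r hr0 hr1
  have hr : ‖r‖ < 1 := by rwa [Real.norm_of_nonneg hr0]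
  have h1 : Summable fun n : ℕ => r ^ n := summable_geometric_of_lt_one hr0 hr1
  have h2 : Summable fun n : ℕ => C * ((n : ℝ) ^ k * r ^ n) :=
    (summable_pow_mul_geometric_of_norm_lt_one k hr).mul_left C
  refine Summable.of_nonneg_of_le (fun n => by positivity) (fun n => ?_) (h1.add h2)
  calc ‖coeff n u‖ * r ^ n ≤ (1 + C * (n : ℝ) ^ k) * r ^ n :=
        mul_le_mul_of_nonneg_right (h n) (pow_nonneg hr0 n)
    _ = r ^ n + C * ((n : ℝ) ^ k * r ^ n) := by ring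

private theorem ei_sig (k n : ℕ) : ((ArithmeticFunction.sigma k n : ℕ) : ℝ) ≤ (n : ℝ) ^ (k + 1) := by
  exact_mod_cast ArithmeticFunction.sigma_le_pow_succ k n

theorem E4_cvg : Cvg (E4 ℂ) := by
  refine ei_cvg (C := 240) (k := 4) (by norm_num) fun n => ?_
  rw [E4, coeff_mk]
  split_ifs with h
  · rw [norm_one]
    have : (0 : ℝ) ≤ 240 * (n : ℝ) ^ 4 := by positivity
    linarith
  · rw [norm_mul, Complex.norm_natCast]
    have h1 : ((ArithmeticFunction.sigma 3 n : ℕ) : ℝ) ≤ (n : ℝ) ^ 4 := ei_sig 3 n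
    have h2 : ‖(240 : ℂ)‖ = 240 := by simp
    rw [h2]
    nlinarith

theorem E6_cvg : Cvg (E6 ℂ) := by
  refine ei_cvg (C := 504) (k := 6) (by norm_num) fun n => ?_
  rw [E6, coeff_mk]
  split_ifs with h
  · rw [norm_one]
    have : (0 : ℝ) ≤ 504 * (n : ℝ) ^ 6 := by positivity
    linarith
  · rw [norm_neg, norm_mul, Complex.norm_natCast]
    have h1 : ((ArithmeticFunction.sigma 5 n : ℕ) : ℝ) ≤ (n : ℝ) ^ 6 := ei_sig 5 n
    have h2 : ‖(504 : ℂ)‖ = 504 := by simp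
    rw [h2]
    nlinarith

private theorem ei_q (τ : ℍ) : Function.Periodic.qParam (1 : ℝ) (τ : ℂ) = ee (τ : ℂ) := by
  rw [Function.Periodic.qParam, ee, Complex.ofReal_one, div_one]

theorem E4_ev (τ : ℍ) : ev (E4 ℂ) (τ : ℂ) = ModularForm.E₄ τ := by
  have h := ModularForm.hasSum_qExpansion (f := ModularForm.E₄) (h := 1) one_pos
    one_mem_strictPeriods_SL τ
  rw [ei_q] at h
  rw [← h.tsum_eq, ev, evq]
  refine tsum_congr fun n => ?_
  rw [EisensteinSeries.E_qExpansion_coeff _ ⟨2, rfl⟩, E4, coeff_mk]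
  congr 1
  split_ifs with h0
  · rfl
  · rw [ei_bern4]
    push_cast
    norm_num

theorem E6_ev (τ : ℍ) : ev (E6 ℂ) (τ : ℂ) = ModularForm.E₆ τ := by
  have h := ModularForm.hasSum_qExpansion (f := ModularForm.E₆) (h := 1) one_pos
    one_mem_strictPeriods_SL τ
  rw [ei_q] at h
  rw [← h.tsum_eq, ev, evq]
  refine tsum_congr fun n => ?_
  rw [EisensteinSeries.E_qExpansion_coeff _ ⟨3, rfl⟩, E6, coeff_mk]
  congr 1
  split_ifs with h0
  · rfl
  · rw [ei_bern6]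
    push_cast
    norm_num

theorem E4_mod (γ : SL(2, ℤ)) (τ : ℍ) :
    ev (E4 ℂ) ((γ • τ : ℍ) : ℂ) = ((γ 1 0 : ℂ) * τ + (γ 1 1 : ℂ)) ^ 4 * ev (E4 ℂ) (τ : ℂ) := by
  rw [E4_ev, E4_ev]
  have h := SlashInvariantForm.slash_action_eqn' (Γ := 𝒮ℒ) (k := 4) ModularForm.E₄
    (γ := Matrix.SpecialLinearGroup.mapGL ℝ γ) (MonoidHom.mem_range.2 ⟨γ, rfl⟩) τ
  have h2 : (Matrix.SpecialLinearGroup.mapGL ℝ γ) • τ = γ • τ := rfl
  rw [h2] at h
  rw [h]
  simp


theorem E6_mod (γ : SL(2, ℤ)) (τ : ℍ) :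
    ev (E6 ℂ) ((γ • τ : ℍ) : ℂ) = ((γ 1 0 : ℂ) * τ + (γ 1 1 : ℂ)) ^ 6 * ev (E6 ℂ) (τ : ℂ) := by
  rw [E6_ev, E6_ev]
  have h := SlashInvariantForm.slash_action_eqn' (Γ := 𝒮ℒ) (k := 6) ModularForm.E₆
    (γ := Matrix.SpecialLinearGroup.mapGL ℝ γ) (MonoidHom.mem_range.2 ⟨γ, rfl⟩) τ
  have h2 : (Matrix.SpecialLinearGroup.mapGL ℝ γ) • τ = γ • τ := rfl
  rw [h2] at h
  rw [h]
  simp


private theorem ei_inj {M : ℕ} (hM : 1 ≤ M) : Function.Injective fun m : ℕ => M * m := by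
  intro a b h
  exact Nat.eq_of_mul_eq_mul_left (by omega) h

private theorem ei_off {R : Type} [CommRing R] {M : ℕ} (u : PowerSeries R) {n : ℕ}
    (hn : n ∉ Set.range fun m : ℕ => M * m) : coeff n (dil M u) = 0 := by
  rw [dil, coeff_mk, if_neg]
  rintro ⟨c, rfl⟩
  exact hn ⟨c, rfl⟩

private theorem ei_on {R : Type} [CommRing R] {M : ℕ} (hM : 1 ≤ M) (u : PowerSeries R) (m : ℕ) :
    coeff (M * m) (dil M u) = coeff m u := by
  rw [dil, coeff_mk, if_pos (Nat.dvd_mul_right M m), Nat.mul_div_cancel_left m (by omega)]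

theorem dil_cvg {u : PowerSeries ℂ} (hu : Cvg u) (M : ℕ) (hM : 1 ≤ M) : Cvg (dil M u) := by
  intro r hr0 hr1
  refine ((ei_inj hM).summable_iff fun n hn => ?_).1 ?_
  · rw [ei_off u hn, norm_zero, zero_mul]
  · have h1 := hu (r ^ M) (pow_nonneg hr0 M) (pow_lt_one₀ hr0 hr1 (by omega))
    refine h1.congr fun m => ?_
    simp only [Function.comp_apply]
    rw [ei_on hM, pow_mul]

theorem ev_dil {u : PowerSeries ℂ} (hu : Cvg u) (M : ℕ) (hM : 1 ≤ M) {z : ℂ} (hz : 0 < z.im) :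
    ev (dil M u) z = ev u (M * z) := by
  rw [ev, ev, evq, evq, ee_nat_mul, ← (ei_inj hM).tsum_eq]
  · refine tsum_congr fun m => ?_
    rw [ei_on hM, pow_mul]
  · intro n hn
    by_contra h
    rw [Function.mem_support, ei_off u h, zero_mul] at hn
    exact hn rfl

/-- compatibility with ring homomorphisms -/
theorem map_E4 {R S : Type} [CommRing R] [CommRing S] (φ : R →+* S) :
    PowerSeries.map φ (E4 R) = E4 S := by
  ext n
  rw [coeff_map, E4, E4, coeff_mk, coeff_mk]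
  split_ifs
  · exact map_one φ
  · rw [map_mul, map_ofNat, map_natCast]

theorem map_E6 {R S : Type} [CommRing R] [CommRing S] (φ : R →+* S) :
    PowerSeries.map φ (E6 R) = E6 S := by
  ext n
  rw [coeff_map, E6, E6, coeff_mk, coeff_mk]
  split_ifs
  · exact map_one φ
  · rw [map_neg, map_mul, map_ofNat, map_natCast]

theorem map_dil {R S : Type} [CommRing R] [CommRing S] (φ : R →+* S) (M : ℕ)
    (u : PowerSeries R) : PowerSeries.map φ (dil M u) = dil M (PowerSeries.map φ u) := by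
  ext n
  rw [coeff_map, dil, dil, coeff_mk, coeff_mk]
  split_ifs
  · rw [coeff_map]
  · exact map_zero φ

theorem sg_GM {L : Type} [Field L] [NumberField L] (σ : L →+* ℂ) (M : ℕ) :
    sg σ (GM (𝓞 L) M) = GM ℂ M := by
  rw [sg, GM, GM, map_mul, map_dil, map_E4]

theorem sg_DM {L : Type} [Field L] [NumberField L] (σ : L →+* ℂ) (M : ℕ) :
    sg σ (DM (𝓞 L) M) = DM ℂ M := by
  rw [sg, DM, DM, map_mul, map_dil, map_E6]

theorem GM_cvg (M : ℕ) (hM : 1 ≤ M) : Cvg (GM ℂ M) :=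
  E4_cvg.mul (dil_cvg E4_cvg M hM)

theorem DM_cvg (M : ℕ) (hM : 1 ≤ M) : Cvg (DM ℂ M) :=
  E6_cvg.mul (dil_cvg E6_cvg M hM)

private theorem ei_im {z : ℂ} (hz : 0 < z.im) : 0 < (-1 / z).im := by
  have h1 : z ≠ 0 := by
    rintro rfl
    simp at hz
  rw [neg_div, one_div, Complex.neg_im, Complex.inv_im, neg_div, neg_neg]
  exact div_pos hz (Complex.normSq_pos.2 h1)

private theorem ei_S {u : PowerSeries ℂ} {w : ℕ}
    (h : ∀ (γ : SL(2, ℤ)) (τ : ℍ), ev u ((γ • τ : ℍ) : ℂ) =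
      ((γ 1 0 : ℂ) * τ + (γ 1 1 : ℂ)) ^ w * ev u (τ : ℂ)) {z : ℂ} (hz : 0 < z.im) :
    ev u (-1 / z) = z ^ w * ev u z := by
  have h1 := h ModularGroup.S ⟨z, hz⟩
  rw [UpperHalfPlane.modular_S_smul] at h1
  have h2 : (-1 / z : ℂ) = (-z)⁻¹ := by
    rw [inv_neg, neg_div, one_div]
  rw [h2]
  have h3 : ((ModularGroup.S 1 0 : ℤ) : ℂ) = 1 := by simp [ModularGroup.S]
  have h4 : ((ModularGroup.S 1 1 : ℤ) : ℂ) = 0 := by simp [ModularGroup.S]
  rw [h3, h4, one_mul, add_zero] at h1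
  exact h1

private theorem ei_Rf {u : PowerSeries ℂ} {w : ℕ} (hu : Cvg u)
    (h : ∀ (γ : SL(2, ℤ)) (τ : ℍ), ev u ((γ • τ : ℍ) : ℂ) =
      ((γ 1 0 : ℂ) * τ + (γ 1 1 : ℂ)) ^ w * ev u (τ : ℂ)) (M : ℕ) (hM : 1 ≤ M) :
    Rf M (2 * w) (u * dil M u) (u * dil M u) := by
  intro z hz
  have hM0 : (0 : ℝ) < M := by exact_mod_cast hM
  have hMC : (M : ℂ) ≠ 0 := by exact_mod_cast hM0.ne'
  have hz0 : z ≠ 0 := by
    rintro rfl
    simp at hz
  have hMz : 0 < ((M : ℂ) * z).im := by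
    rw [Complex.mul_im, Complex.natCast_im, zero_mul, add_zero, Complex.natCast_re]
    exact mul_pos hM0 hz
  have h1 := ei_im hMz
  rw [ev_mul hu (dil_cvg hu M hM) h1, ev_dil hu M hM h1, ev_mul hu (dil_cvg hu M hM) hz,
    ev_dil hu M hM hz, ei_S h hMz]
  have h2 : (M : ℂ) * (-1 / (M * z)) = -1 / z := by
    field_simp
  rw [h2, ei_S h hz]
  have h3 : (((Real.sqrt M : ℝ) : ℂ)) ^ 2 = M := by
    rw [← Complex.ofReal_pow, Real.sq_sqrt hM0.le, Complex.ofReal_natCast]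
  rw [pow_mul, mul_pow _ z 2, h3]
  ring

theorem GM_Rf (M : ℕ) (hM : 1 ≤ M) : Rf M 8 (GM ℂ M) (GM ℂ M) :=
  ei_Rf E4_cvg E4_mod M hM

theorem DM_Rf (M : ℕ) (hM : 1 ≤ M) : Rf M 12 (DM ℂ M) (DM ℂ M) :=
  ei_Rf E6_cvg E6_mod M hM

private theorem ei_c0 {R : Type} [CommRing R] (M : ℕ) (u : PowerSeries R) :
    constantCoeff (dil M u) = constantCoeff u := by
  rw [← coeff_zero_eq_constantCoeff_apply, ← coeff_zero_eq_constantCoeff_apply, dil, coeff_mk,
    if_pos (dvd_zero M), Nat.zero_div]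

private theorem ei_c1 {R : Type} [CommRing R] {M : ℕ} (hM : 1 ≤ M) (u : PowerSeries R) :
    coeff 1 (dil M u) = if M = 1 then coeff 1 u else 0 := by
  rw [dil, coeff_mk]
  by_cases h : M = 1
  · rw [if_pos h, h, if_pos (dvd_refl 1), Nat.div_one]
  · rw [if_neg h, if_neg]
    rwa [Nat.dvd_one]

private theorem ei_E4c {R : Type} [CommRing R] : constantCoeff (E4 R) = 1 := by
  rw [← coeff_zero_eq_constantCoeff_apply, E4, coeff_mk, if_pos rfl]

private theorem ei_E6c {R : Type} [CommRing R] : constantCoeff (E6 R) = 1 := by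
  rw [← coeff_zero_eq_constantCoeff_apply, E6, coeff_mk, if_pos rfl]

private theorem ei_GMc {R : Type} [CommRing R] (M : ℕ) : constantCoeff (GM R M) = 1 := by
  rw [GM, map_mul, ei_c0, ei_E4c, one_mul]

private theorem ei_DMc {R : Type} [CommRing R] (M : ℕ) : constantCoeff (DM R M) = 1 := by
  rw [DM, map_mul, ei_c0, ei_E6c, one_mul]

theorem GM_zero (R : Type) [CommRing R] (M : ℕ) (n : ℕ) : coeff 0 (GM R M ^ n) = 1 := by
  rw [coeff_zero_eq_constantCoeff_apply, map_pow, ei_GMc, one_pow]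

theorem DM_zero (R : Type) [CommRing R] (M : ℕ) (n : ℕ) : coeff 0 (DM R M ^ n) = 1 := by
  rw [coeff_zero_eq_constantCoeff_apply, map_pow, ei_DMc, one_pow]

private theorem ei_sig1 (k : ℕ) : ArithmeticFunction.sigma k 1 = 1 := by
  rw [ArithmeticFunction.sigma_apply, Nat.divisors_one, Finset.sum_singleton, one_pow]

theorem ne_coeff (R : Type) [CommRing R] [CharZero R] (M : ℕ) (hM : 1 ≤ M) (k : ℕ)
    (hk : 1 ≤ k) : coeff 1 (GM R M ^ (3 * k)) ≠ coeff 1 (DM R M ^ (2 * k)) := by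
  have h4 : coeff 1 (E4 R) = 240 := by
    rw [E4, coeff_mk, if_neg one_ne_zero, ei_sig1, Nat.cast_one, mul_one]
  have h6 : coeff 1 (E6 R) = -504 := by
    rw [E6, coeff_mk, if_neg one_ne_zero, ei_sig1, Nat.cast_one, mul_one]
  have hG : coeff 1 (GM R M) = 240 + if M = 1 then 240 else 0 := by
    rw [GM, coeff_one_mul, ei_c0, ei_E4c, ei_c1 hM, h4, mul_one, mul_one]
  have hD : coeff 1 (DM R M) = -504 + if M = 1 then -504 else 0 := by
    rw [DM, coeff_one_mul, ei_c0, ei_E6c, ei_c1 hM, h6, mul_one, mul_one]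
  rw [coeff_one_pow, coeff_one_pow, ei_GMc, ei_DMc, one_pow, one_pow, mul_one, mul_one, hG, hD]
  intro h
  have hk0 : (k : R) ≠ 0 := by exact_mod_cast (by omega : k ≠ 0)
  split_ifs at h with h1
  · have h2 : (((3456 * k : ℕ)) : R) = 0 := by
      push_cast
      push_cast at h
      linear_combination h
    have h3 : 3456 * k = 0 := by exact_mod_cast h2
    omega
  · have h2 : (((1728 * k : ℕ)) : R) = 0 := by
      push_cast
      push_cast at h
      linear_combination h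
    have h3 : 1728 * k = 0 := by exact_mod_cast h2
    omega

end Pool.Agent.H13.IC
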