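import Mathlib
import Pool.Agent.H13.IC.Defs

/-!
# IC-HA: elements with the functional equation of weight k ≥ 2 are entire

PROOF. `μ = (k-1)/2 > 0`. `IsSelberg.continuation`: `m`, `G0` entire of finite order,
`G0 s = (s-1) ^ m * F s` for `s ≠ 1`. In the strip `0 < Re s < 1` the functional equation
(`completed` with one factor `Γ(s + μ)`, `Q = sqrt N/(2 pi) > 0`) gives
`‖Q ^ s Γ(s+μ) F s‖ = ‖Q ^ (1-s) Γ(1 - s + μ) F(1 - conj s)‖`. Let `s → 0` inside the strip:
`F(s) = G0(s)/(s-1)^m` and `Γ(s + μ)` are bounded near `0` (`Re μ > 0`), so the left side is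
bounded, hence `F(s')` is bounded for `s' = 1 - conj s → 1` inside the strip (`Γ(s'+μ)` and `Q^(s')` are
bounded away from `0` near `1`). So `G0(s') = O(|s'-1|^m)` along real `s' → 1-`, hence the order of
vanishing of `G0` at `1` is at least `m` (or `G0 = 0`): `G0 = (s-1)^m G` with `G` entire
(`AnalyticAt` order lemmas; iterate `dslope`), `G s = F s` for `s ≠ 1`. Finite order: for `‖s-1‖ ≥ 1`
`‖G s‖ ≤ ‖G0 s‖`, for `‖s-1‖ ≤ 1` `G` is bounded by continuity; enlarge `C`
(`exp(..) ≥ 1`).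
The other fields of `FEq` are copied: `feq` involves only `s` and `1 - conj s` in the open strip, both
different from `1`; `eqL` for `1 < Re s`; `deg`: `∑ = 1`; `shift`: the imaginary part of
`((k:ℂ)-1)/2` is `0`.
-/

set_option autoImplicit false

namespace Pool.Agent.H13.IC

open Complex Pool.Agent.H11.Selberg Pool.Agent.H11.SC Filter Topology

private theorem ha_div : ∀ (m : ℕ) (G0 F0 : ℂ → ℂ) (B : ℝ), Differentiable ℂ G0 →
    (∀ s, s ≠ 1 → G0 s = (s - 1) ^ m * F0 s) →
    (∀ᶠ x : ℝ in 𝓝[>] (0 : ℝ), ‖F0 (1 - (x : ℂ))‖ ≤ B) →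
    ∃ G : ℂ → ℂ, Differentiable ℂ G ∧ ∀ s, s ≠ 1 → G s = F0 s := by
  intro m
  induction m with
  | zero =>
    intro G0 F0 B hd h _
    exact ⟨G0, hd, fun s hs => by rw [h s hs, pow_zero, one_mul]⟩
  | succ m ih =>
    intro G0 F0 B hd h hB
    -- `G0` vanishes at `1`
    have h1 : G0 1 = 0 := by
      have hlim : Tendsto (fun x : ℝ => G0 (1 - (x : ℂ))) (𝓝[>] (0 : ℝ)) (𝓝 (G0 1)) := by
        have h2 : Continuous fun x : ℝ => G0 (1 - (x : ℂ)) :=
          hd.continuous.comp (continuous_const.sub Complex.continuous_ofReal)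
        have h3 := h2.tendsto 0
        rw [Complex.ofReal_zero, sub_zero] at h3
        exact h3.mono_left nhdsWithin_le_nhds
      have hlim0 : Tendsto (fun x : ℝ => G0 (1 - (x : ℂ))) (𝓝[>] (0 : ℝ)) (𝓝 0) := by
        rw [tendsto_zero_iff_norm_tendsto_zero]
        have h4 : Tendsto (fun x : ℝ => x ^ (m + 1) * B) (𝓝[>] (0 : ℝ)) (𝓝 0) := by
          have h5 : Continuous fun x : ℝ => x ^ (m + 1) * B := by fun_prop
          have h6 := h5.tendsto 0
          rw [zero_pow (Nat.succ_ne_zero m), zero_mul] at h6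
          exact h6.mono_left nhdsWithin_le_nhds
        refine squeeze_zero' (Eventually.of_forall fun x => norm_nonneg _) ?_ h4
        filter_upwards [hB, self_mem_nhdsWithin] with x hx hx0
        have hx1 : (1 - (x : ℂ)) ≠ 1 := by
          intro h0
          have h6 : (x : ℂ) = 0 := by linear_combination -h0
          exact (ne_of_gt hx0) (Complex.ofReal_eq_zero.1 h6)
        rw [h _ hx1, norm_mul, norm_pow]
        have h7 : ‖(1 - (x : ℂ)) - 1‖ = x := by
          have : (1 - (x : ℂ)) - 1 = -(x : ℂ) := by ring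
          rw [this, norm_neg, Complex.norm_real, Real.norm_eq_abs, abs_of_pos hx0]
        rw [h7]
        exact mul_le_mul_of_nonneg_left hx (pow_nonneg (le_of_lt hx0) _)
      exact tendsto_nhds_unique hlim hlim0
    have hd1 : Differentiable ℂ (dslope G0 1) := by
      rw [← differentiableOn_univ, Complex.differentiableOn_dslope univ_mem]
      exact hd.differentiableOn
    refine ih (dslope G0 1) F0 B hd1 (fun s hs => ?_) hB
    rw [dslope_of_ne _ hs, slope_def_field, h1, sub_zero, h s hs]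
    have h2 : s - 1 ≠ 0 := sub_ne_zero.2 hs
    field_simp
    ring

private theorem ha_mu (k : ℕ) (hk : 2 ≤ k) : 0 < ((((k : ℂ) - 1) / 2)).re := by
  have h1 : (((k : ℂ) - 1) / 2) = ((((k : ℝ) - 1) / 2 : ℝ) : ℂ) := by push_cast; ring
  rw [h1, Complex.ofReal_re]
  have : (2 : ℝ) ≤ k := by exact_mod_cast hk
  linarith

theorem entire_of_weight (k : ℕ) (hk : 2 ≤ k) (N : ℝ) (hN : 0 < N) (a : ℕ → ℂ) (F : ℂ → ℂ)
    (ε : ℂ) (hS : IsSelberg a F) (hε : ‖ε‖ = 1)
    (hfe : ∀ s : ℂ, 0 < s.re → s.re < 1 →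
      completed (Real.sqrt N / (2 * Real.pi)) (fun _ : Fin 1 => (1 : ℝ))
          (fun _ => ((k : ℂ) - 1) / 2) F s =
        ε * (starRingEnd ℂ) (completed (Real.sqrt N / (2 * Real.pi)) (fun _ : Fin 1 => (1 : ℝ))
          (fun _ => ((k : ℂ) - 1) / 2) F (1 - (starRingEnd ℂ) s))) :
    ∃ G : ℂ → ℂ, (∀ s, s ≠ 1 → G s = F s) ∧
      FEq a G (Real.sqrt N / (2 * Real.pi)) (fun _ : Fin 1 => (1 : ℝ))
        (fun _ => ((k : ℂ) - 1) / 2) ε := by
  obtain ⟨Q, hQ⟩ : ∃ Q : ℝ, Q = Real.sqrt N / (2 * Real.pi) := ⟨_, rfl⟩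
  obtain ⟨μ, hμ⟩ : ∃ μ : ℂ, μ = ((k : ℂ) - 1) / 2 := ⟨_, rfl⟩
  have hμ0 : 0 < μ.re := by rw [hμ]; exact ha_mu k hk
  have hQ0 : 0 < Q := by
    rw [hQ]
    exact div_pos (Real.sqrt_pos.2 hN) (by positivity)
  rw [← hQ, ← hμ] at hfe ⊢
  have hcomp : ∀ (H : ℂ → ℂ) (s : ℂ), completed Q (fun _ : Fin 1 => (1 : ℝ)) (fun _ => μ) H s =
      (Q : ℂ) ^ s * Complex.Gamma (s + μ) * H s := by
    intro H s
    unfold completed
    simp
  obtain ⟨m, G0, hG0, hord, hG0F⟩ := hS.continuation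
  have hQc : (Q : ℂ) ≠ 0 := Complex.ofReal_ne_zero.2 hQ0.ne'
  -- boundedness at `1`
  have hgne : ∀ s : ℂ, 0 < s.re → ∀ n : ℕ, s ≠ -(n : ℂ) := by
    intro s hs n h0
    rw [h0, Complex.neg_re, Complex.natCast_re] at hs
    have : (0 : ℝ) ≤ n := Nat.cast_nonneg n
    linarith
  obtain ⟨B, hB⟩ : ∃ B : ℝ, ∀ᶠ x : ℝ in 𝓝[>] (0 : ℝ), ‖F (1 - (x : ℂ))‖ ≤ B := by
    obtain ⟨φ, hφ⟩ : ∃ φ : ℝ → ℝ, φ = fun x : ℝ =>
        ‖(Q : ℂ) ^ (x : ℂ) * Complex.Gamma ((x : ℂ) + μ) * (G0 (x : ℂ) / ((x : ℂ) - 1) ^ m)‖ /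
          ‖(Q : ℂ) ^ (1 - (x : ℂ)) * Complex.Gamma (1 - (x : ℂ) + μ)‖ := ⟨_, rfl⟩
    have hcont : ContinuousAt φ 0 := by
      rw [hφ]
      have c1 : ContinuousAt (fun x : ℝ => (Q : ℂ) ^ (x : ℂ)) 0 :=
        (Complex.continuous_ofReal.const_cpow (Or.inl hQc)).continuousAt
      have c2 : ContinuousAt (fun x : ℝ => Complex.Gamma ((x : ℂ) + μ)) 0 := by
        have h1 : ContinuousAt Complex.Gamma (((0 : ℝ) : ℂ) + μ) := by
          refine (Complex.differentiableAt_Gamma _ (hgne _ ?_)).continuousAt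
          simpa using hμ0
        exact ContinuousAt.comp (f := fun x : ℝ => (x : ℂ) + μ) h1
          (Complex.continuous_ofReal.add continuous_const).continuousAt
      have c3 : ContinuousAt (fun x : ℝ => G0 (x : ℂ) / ((x : ℂ) - 1) ^ m) 0 := by
        refine ContinuousAt.div (hG0.continuous.comp Complex.continuous_ofReal).continuousAt
          ((Complex.continuous_ofReal.sub continuous_const).pow m).continuousAt ?_
        rw [Complex.ofReal_zero, zero_sub]
        exact pow_ne_zero _ (by norm_num)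
      have c4 : ContinuousAt (fun x : ℝ => (Q : ℂ) ^ (1 - (x : ℂ))) 0 :=
        ((continuous_const.sub Complex.continuous_ofReal).const_cpow (Or.inl hQc)).continuousAt
      have c5 : ContinuousAt (fun x : ℝ => Complex.Gamma (1 - (x : ℂ) + μ)) 0 := by
        have h1 : ContinuousAt Complex.Gamma (1 - ((0 : ℝ) : ℂ) + μ) := by
          refine (Complex.differentiableAt_Gamma _ (hgne _ ?_)).continuousAt
          simp only [Complex.ofReal_zero, sub_zero, Complex.add_re, Complex.one_re]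
          linarith
        exact ContinuousAt.comp (f := fun x : ℝ => 1 - (x : ℂ) + μ) h1
          ((continuous_const.sub Complex.continuous_ofReal).add continuous_const).continuousAt
      refine ContinuousAt.div ((c1.mul c2).mul c3).norm (c4.mul c5).norm ?_
      rw [norm_ne_zero_iff]
      refine mul_ne_zero ?_ (Complex.Gamma_ne_zero_of_re_pos ?_)
      · rw [Complex.ofReal_zero, sub_zero, Complex.cpow_one]
        exact hQc
      · simp only [Complex.ofReal_zero, sub_zero, Complex.add_re, Complex.one_re]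
        linarith
    refine ⟨φ 0 + 1, ?_⟩
    have h1 : ∀ᶠ x : ℝ in 𝓝[>] (0 : ℝ), φ x < φ 0 + 1 :=
      (hcont.eventually (gt_mem_nhds (by linarith))).filter_mono nhdsWithin_le_nhds
    have h2 : ∀ᶠ x : ℝ in 𝓝[>] (0 : ℝ), x < 1 :=
      (gt_mem_nhds one_pos).filter_mono nhdsWithin_le_nhds
    filter_upwards [h1, h2, self_mem_nhdsWithin] with x hx1 hx2 hx0
    have hx0' : 0 < x := hx0
    have h3 := hfe (x : ℂ) (by simpa using hx0') (by simpa using hx2)
    rw [Complex.conj_ofReal, hcomp, hcomp] at h3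
    have h4 := congrArg norm h3
    rw [norm_mul ε, hε, one_mul, Complex.norm_conj, norm_mul _ (F (1 - (x : ℂ)))] at h4
    have hden : 0 < ‖(Q : ℂ) ^ (1 - (x : ℂ)) * Complex.Gamma (1 - (x : ℂ) + μ)‖ := by
      rw [norm_pos_iff]
      refine mul_ne_zero ?_ (Complex.Gamma_ne_zero_of_re_pos ?_)
      · rw [Ne, Complex.cpow_eq_zero_iff]
        exact fun h => hQc h.1
      · simp only [Complex.add_re, Complex.sub_re, Complex.one_re, Complex.ofReal_re]
        linarith
    have hxne : (x : ℂ) ≠ 1 := by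
      intro h0
      have : x = 1 := by exact_mod_cast h0
      linarith
    have h5 : G0 (x : ℂ) / ((x : ℂ) - 1) ^ m = F (x : ℂ) := by
      rw [hG0F _ hxne, mul_div_cancel_left₀ _ (pow_ne_zero m (sub_ne_zero.2 hxne))]
    have h6 : ‖F (1 - (x : ℂ))‖ = φ x := by
      rw [hφ]
      simp only
      rw [h5, h4, mul_div_cancel_left₀ _ hden.ne']
    rw [h6]
    exact hx1.le
  obtain ⟨G, hG, hGF⟩ := ha_div m G0 F B hG0 hG0F hB
  refine ⟨G, hGF, ?_⟩
  have hne1 : ∀ s : ℂ, s.re < 1 → s ≠ 1 := by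
    rintro s hs rfl
    rw [Complex.one_re] at hs
    exact lt_irrefl _ hs
  have hne1' : ∀ s : ℂ, 1 < s.re → s ≠ 1 := by
    rintro s hs rfl
    rw [Complex.one_re] at hs
    exact lt_irrefl _ hs
  refine
    { diff := hG
      order := ?_
      summable := hS.summable
      eqL := fun s hs => by rw [hGF s (hne1' s hs)]; exact hS.eq_LSeries s hs
      ram := hS.ramanujan
      one := hS.one
      Qpos := hQ0
      lampos := fun _ => one_pos
      mure := fun _ => hμ0.le
      eps := hε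
      feq := ?_
      deg := by simp
      shift := ?_ }
  · obtain ⟨A, C, hAC⟩ := hord
    obtain ⟨M, hM⟩ := (isCompact_closedBall (1 : ℂ) 1).exists_bound_of_continuousOn
      hG.continuous.continuousOn
    refine ⟨A, |C| + |M|, fun s => ?_⟩
    have he : 1 ≤ Real.exp (‖s‖ ^ A) := Real.one_le_exp (Real.rpow_nonneg (norm_nonneg s) A)
    have he0 : 0 < Real.exp (‖s‖ ^ A) := Real.exp_pos _
    by_cases hs : ‖s - 1‖ ≤ 1
    · have h1 := hM s (by rw [Metric.mem_closedBall, dist_eq_norm]; exact hs)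
      calc ‖G s‖ ≤ M := h1
        _ ≤ |C| + |M| := by
          have := le_abs_self M
          have := abs_nonneg C
          linarith
        _ = (|C| + |M|) * 1 := (mul_one _).symm
        _ ≤ (|C| + |M|) * Real.exp (‖s‖ ^ A) := mul_le_mul_of_nonneg_left he (by positivity)
    · push Not at hs
      have hs1 : s ≠ 1 := by
        rintro rfl
        rw [sub_self, norm_zero] at hs
        linarith
      have h1 : ‖G s‖ ≤ ‖G0 s‖ := by
        rw [hGF s hs1, hG0F s hs1, norm_mul, norm_pow]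
        exact le_mul_of_one_le_left (norm_nonneg _) (one_le_pow₀ hs.le)
      calc ‖G s‖ ≤ ‖G0 s‖ := h1
        _ ≤ C * Real.exp (‖s‖ ^ A) := hAC s
        _ ≤ (|C| + |M|) * Real.exp (‖s‖ ^ A) := by
          refine mul_le_mul_of_nonneg_right ?_ he0.le
          have := le_abs_self C
          have := abs_nonneg M
          linarith
  · intro s h0 h1
    have h2 := hfe s h0 h1
    rw [hcomp, hcomp] at h2 ⊢
    rw [hGF s (hne1 s h1), hGF (1 - (starRingEnd ℂ) s) (hne1 _ ?_)]
    · exact h2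
    · rw [Complex.sub_re, Complex.one_re, Complex.conj_re]
      linarith
  · have h1 : μ = ((((k : ℝ) - 1) / 2 : ℝ) : ℂ) := by rw [hμ]; push_cast; ring
    simp [h1]

end Pool.Agent.H13.IC
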