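import Mathlib
import Pool.Agent.H13.IC.Qb
import Pool.Agent.H11.SC.JF
import Pool.Agent.H11.SC.PL
import Pool.Agent.H11.SC.GamB
import Pool.Agent.H11.SC.VShift

/-!
# IC-HB: the vertical integral, shifted to the critical line

`μ = (k-1)/2` (real, `≥ 0`), `Φ w = (sqrt N/(2 pi)) ^ w Γ(w + μ) F w`, `IV F N k c t = ∫ Φ(c + iτ) t ^ (-(c+iτ)) dτ`.
PROOF of `ev_IV` (compare `Pool/Agent/H11/SC/JF.lean`, `gs_VI`: the same with a natural exponent): for
`x > 0`, `c' > 0`: `exp(-x) = (1/2 pi) ∫ Γ(c'+iτ) x ^ (-(c'+iτ)) dτ` (Mellin inversion, proved inside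
`gs_VI`). With `c' = 2 + μ`, `x = 2 pi n y`, multiply by `a(n) n ^ μ` and sum over `n ≥ 1` (absolutely
convergent: `∑ |a(n)| n ^ (-2)`, `gamma_int`): `ev (fser k a) (i y) = (2 pi y) ^ (-μ) (1/2 pi) ∫ Γ(2+iτ+μ)
F(2+iτ) (2 pi y) ^ (-(2+iτ)) dτ`; with `y = t/sqrt N` this is `(2 pi t/sqrt N) ^ (-μ) (1/2 pi) IV F N k 2 t`.
PROOF of `IV_shift`: `vertical_shift` on `1/2 ≤ Re w ≤ 2` (`Φ` is holomorphic there, as `Re (w+μ) > 0`):
the bound `C exp(-θ |Im w|)` from `F_strip`/`F_right` (polynomial growth of `F` in the strip; see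
`Pool/Agent/H11/SC/PL.lean`) and `gamma_bound` (exponential decay of `Γ`).
-/

set_option autoImplicit false

namespace Pool.Agent.H13.IC

open Complex Pool.Agent.H11.Selberg Pool.Agent.H11.SC

/-- `∫ Φ(c + iτ) t ^ (-(c+iτ)) dτ` -/
noncomputable def IV (F : ℂ → ℂ) (N : ℝ) (k : ℕ) (c t : ℝ) : ℂ :=
  ∫ τ : ℝ, completed (Real.sqrt N / (2 * Real.pi)) (fun _ : Fin 1 => (1 : ℝ))
    (fun _ => ((k : ℂ) - 1) / 2) F (c + τ * I) * (t : ℂ) ^ (-(c + τ * I : ℂ))

private theorem hb_sum {a : ℕ → ℂ} {F : ℂ → ℂ} {Q : ℝ} {r : ℕ} {lam : Fin r → ℝ}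
    {mu : Fin r → ℂ} {ε : ℂ} (h : FEq a F Q lam mu ε) (μ x : ℝ) (hμ : 0 ≤ μ) (hx : 0 < x) :
    ∑' n : ℕ, (if n = 0 then 0 else a n * (n : ℂ) ^ (μ : ℂ)) * cexp (-(n * x)) =
      ((1 / (2 * Real.pi) : ℝ) : ℂ) * ∫ τ : ℝ, F (2 + τ * I) *
        (Gamma (((2 + μ : ℝ) : ℂ) + τ * I) * (x : ℂ) ^ (-(((2 + μ : ℝ) : ℂ) + τ * I))) := by
  obtain ⟨c, hc⟩ : ∃ c : ℝ, c = 2 + μ := ⟨_, rfl⟩
  rw [← hc]
  have hc0 : 0 < c := by linarith
  set f : ℕ → ℝ → ℂ := fun n t => LSeries.term a ((2 : ℂ) + t * I) n *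
    (Gamma (c + t * I) * (x : ℂ) ^ (-(c + t * I : ℂ))) with hf
  have hterm : ∀ (n : ℕ) (t : ℝ), ‖LSeries.term a ((2 : ℂ) + t * I) n‖ =
      ‖LSeries.term a (2 : ℂ) n‖ := by
    intro n t
    rw [LSeries.norm_term_eq, LSeries.norm_term_eq]
    simp
  have hnorm : ∀ (n : ℕ) (t : ℝ), ‖f n t‖ = ‖LSeries.term a (2 : ℂ) n‖ *
      (x ^ (-c) * ‖Gamma (c + t * I)‖) := by
    intro n t
    rw [hf]
    simp only
    rw [norm_mul, norm_mul, hterm, JF.norm_cpow hx]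
    ring
  have hgam : MeasureTheory.Integrable (fun t : ℝ => ‖Gamma (c + t * I)‖) := by
    have := gamma_int c hc0 0
    simpa using this
  have hcont : ∀ n, Continuous (f n) := by
    intro n
    have h1 : Continuous (fun t : ℝ => LSeries.term a ((2 : ℂ) + t * I) n) := by
      rcases Nat.eq_zero_or_pos n with rfl | hn
      · simp only [LSeries.term_zero]
        exact continuous_const
      · have hn0 : n ≠ 0 := by omega
        simp only [LSeries.term_of_ne_zero hn0]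
        have hnc : (n : ℂ) ≠ 0 := Nat.cast_ne_zero.2 hn0
        refine continuous_const.div ?_ (fun t => ?_)
        · exact Continuous.const_cpow (by fun_prop) (Or.inl hnc)
        · intro h0
          rw [Complex.cpow_eq_zero_iff] at h0
          exact hnc h0.1
    have h2 : Continuous (fun t : ℝ => (x : ℂ) ^ (-(c + t * I : ℂ))) := by
      refine Continuous.const_cpow (by fun_prop) (Or.inl ?_)
      exact_mod_cast hx.ne'
    exact h1.mul ((JF.continuous_Gamma hc0).mul h2)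
  have hint : ∀ n, MeasureTheory.Integrable (f n) := by
    intro n
    refine MeasureTheory.Integrable.mono' ((hgam.const_mul (x ^ (-c))).const_mul
      ‖LSeries.term a (2 : ℂ) n‖) (hcont n).aestronglyMeasurable
      (MeasureTheory.ae_of_all _ (fun t => (hnorm n t).le))
  have hsum : Summable (fun n => ∫ t, ‖f n t‖) := by
    have e1 : ∀ n, ∫ t, ‖f n t‖ = ‖LSeries.term a (2 : ℂ) n‖ *
        ∫ t : ℝ, (x ^ (-c) * ‖Gamma (c + t * I)‖) := by
      intro n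
      rw [← MeasureTheory.integral_const_mul]
      exact MeasureTheory.integral_congr_ae (MeasureTheory.ae_of_all _ (fun t => hnorm n t))
    simp only [e1]
    refine Summable.mul_right _ ?_
    have h1 : LSeriesSummable a (2 : ℂ) := h.summable _ (by norm_num)
    exact h1.norm
  have hswap := MeasureTheory.integral_tsum_of_summable_integral_norm hint hsum
  -- the value of the integrals
  have hval : ∀ n : ℕ, ((1 / (2 * Real.pi) : ℝ) : ℂ) * ∫ t, f n t =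
      (if n = 0 then 0 else a n * (n : ℂ) ^ (μ : ℂ)) * cexp (-(n * x)) := by
    intro n
    rcases Nat.eq_zero_or_pos n with rfl | hn
    · have h0 : ∀ t, f 0 t = 0 := by
        intro t
        rw [hf]
        simp
      simp only [h0, MeasureTheory.integral_zero, mul_zero, if_true, zero_mul]
    · have hn0 : n ≠ 0 := by omega
      have hnpos : (0 : ℝ) < n := by exact_mod_cast hn
      have hnc : (n : ℂ) ≠ 0 := Nat.cast_ne_zero.2 hn0
      have e1 : ∀ t : ℝ, f n t = (a n * (n : ℂ) ^ (μ : ℂ)) * (Gamma (c + t * I) *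
          ((n * x : ℝ) : ℂ) ^ (-(c + t * I : ℂ))) := by
        intro t
        have e2 : ((n * x : ℝ) : ℂ) = ((n : ℝ) : ℂ) * (x : ℂ) := by
          push_cast
          ring
        have e3 : ((n * x : ℝ) : ℂ) ^ (-(c + t * I : ℂ)) =
            (n : ℂ) ^ (-(c + t * I : ℂ)) * (x : ℂ) ^ (-(c + t * I : ℂ)) := by
          rw [e2, Complex.mul_cpow_ofReal_nonneg hnpos.le hx.le]
          simp
        have e4 : LSeries.term a ((2 : ℂ) + t * I) n =
            a n * (n : ℂ) ^ (μ : ℂ) * (n : ℂ) ^ (-(c + t * I : ℂ)) := by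
          rw [LSeries.term_of_ne_zero hn0, div_eq_mul_inv, ← Complex.cpow_neg, mul_assoc,
            ← Complex.cpow_add _ _ hnc]
          congr 2
          rw [hc]
          push_cast
          ring
        rw [hf]
        simp only
        rw [e3, e4]
        ring
      simp only [e1]
      rw [MeasureTheory.integral_const_mul, if_neg hn0]
      have e5 := mellin_exp c (n * x) hc0 (by positivity)
      have e6 : (-((n : ℂ) * (x : ℂ))) = -((n * x : ℝ) : ℂ) := by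
        push_cast
        ring
      rw [e6, ← e5]
      ring
  -- the sum inside
  have hin : ∀ t : ℝ, ∑' n, f n t = F (2 + t * I) * (Gamma (c + t * I) *
      (x : ℂ) ^ (-(c + t * I : ℂ))) := by
    intro t
    rw [hf]
    simp only
    rw [tsum_mul_right, h.eqL (2 + t * I) (by simp)]
    rfl
  simp only [← hin]
  rw [← hswap, ← tsum_mul_left]
  exact tsum_congr (fun n => (hval n).symm)

theorem ev_IV (k : ℕ) (hk : 1 ≤ k) (N : ℝ) (hN : 0 < N) (a : ℕ → ℂ) (F : ℂ → ℂ) (ε : ℂ)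
    (h : FEq a F (Real.sqrt N / (2 * Real.pi)) (fun _ : Fin 1 => (1 : ℝ))
      (fun _ => ((k : ℂ) - 1) / 2) ε) (t : ℝ) (ht : 0 < t) :
    ev (fser k a) ((t / Real.sqrt N : ℝ) * I) =
      (((2 * Real.pi * t / Real.sqrt N) ^ (-(((k : ℝ) - 1) / 2)) : ℝ) : ℂ) *
        (1 / (2 * Real.pi) : ℝ) * IV F N k 2 t := by
  have hs : 0 < Real.sqrt N := Real.sqrt_pos.2 hN
  have hpi : 0 < Real.pi := Real.pi_pos
  obtain ⟨μ, hμ⟩ : ∃ μ : ℝ, μ = ((k : ℝ) - 1) / 2 := ⟨_, rfl⟩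
  obtain ⟨x, hx⟩ : ∃ x : ℝ, x = 2 * Real.pi * t / Real.sqrt N := ⟨_, rfl⟩
  obtain ⟨Q, hQ⟩ : ∃ Q : ℝ, Q = Real.sqrt N / (2 * Real.pi) := ⟨_, rfl⟩
  have hk1 : (1 : ℝ) ≤ k := by exact_mod_cast hk
  have hμ0 : 0 ≤ μ := by
    rw [hμ]
    linarith
  have hx0 : 0 < x := by
    rw [hx]
    positivity
  have hQ0 : 0 < Q := by
    rw [hQ]
    positivity
  have htx : t = x * Q := by
    rw [hx, hQ]
    field_simp
  have hμc : ((k : ℂ) - 1) / 2 = (μ : ℂ) := by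
    rw [hμ]
    push_cast
    ring
  have hxc : (x : ℂ) ≠ 0 := by exact_mod_cast hx0.ne'
  have hQc : (Q : ℂ) ≠ 0 := by exact_mod_cast hQ0.ne'
  have h1 : ev (fser k a) ((t / Real.sqrt N : ℝ) * I) =
      ∑' n : ℕ, (if n = 0 then 0 else a n * (n : ℂ) ^ (μ : ℂ)) * cexp (-(n * x)) := by
    unfold ev evq
    refine tsum_congr fun n => ?_
    unfold fser ee
    rw [PowerSeries.coeff_mk, hμc, ← Complex.exp_nat_mul]
    congr 2
    have h2 : (x : ℂ) = 2 * Real.pi * (t / Real.sqrt N : ℝ) := by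
      rw [hx]
      push_cast
      ring
    rw [h2]
    linear_combination (2 * (Real.pi : ℂ) * n * ((t / Real.sqrt N : ℝ) : ℂ)) * I_mul_I
  rw [h1, hb_sum h μ x hμ0 hx0, ← hx, ← hμ]
  unfold IV
  rw [← hQ, hμc]
  have h3 : ∀ τ : ℝ, F (2 + τ * I) *
      (Gamma (((2 + μ : ℝ) : ℂ) + τ * I) * (x : ℂ) ^ (-(((2 + μ : ℝ) : ℂ) + τ * I))) =
      ((x ^ (-μ) : ℝ) : ℂ) * (completed Q (fun _ : Fin 1 => (1 : ℝ)) (fun _ => (μ : ℂ)) F
        (((2 : ℝ) : ℂ) + τ * I) * (t : ℂ) ^ (-(((2 : ℝ) : ℂ) + τ * I))) := by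
    intro τ
    have e1 : (x : ℂ) ^ (-(((2 + μ : ℝ) : ℂ) + τ * I)) =
        ((x ^ (-μ) : ℝ) : ℂ) * (x : ℂ) ^ (-((2 : ℂ) + τ * I)) := by
      rw [Complex.ofReal_cpow hx0.le, ← Complex.cpow_add _ _ hxc]
      congr 1
      push_cast
      ring
    have e2 : (t : ℂ) ^ (-((2 : ℂ) + τ * I)) =
        (x : ℂ) ^ (-((2 : ℂ) + τ * I)) * (Q : ℂ) ^ (-((2 : ℂ) + τ * I)) := by
      rw [htx, Complex.ofReal_mul, Complex.mul_cpow_ofReal_nonneg hx0.le hQ0.le]
    have e3 : (Q : ℂ) ^ ((2 : ℂ) + τ * I) * (Q : ℂ) ^ (-((2 : ℂ) + τ * I)) = 1 := by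
      rw [← Complex.cpow_add _ _ hQc, add_neg_cancel, Complex.cpow_zero]
    have e4 : ((2 : ℝ) : ℂ) = 2 := by norm_num
    have e5 : ((1 : ℝ) : ℂ) * ((2 : ℂ) + τ * I) + (μ : ℂ) = ((2 + μ : ℝ) : ℂ) + τ * I := by
      push_cast
      ring
    unfold completed
    rw [e4, Fin.prod_univ_one, e5, e1, e2]
    linear_combination (-(F (2 + τ * I) * Gamma (((2 + μ : ℝ) : ℂ) + τ * I) *
      ((x ^ (-μ) : ℝ) : ℂ) * (x : ℂ) ^ (-((2 : ℂ) + τ * I)))) * e3
  rw [MeasureTheory.integral_congr_ae (MeasureTheory.ae_of_all _ h3),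
    MeasureTheory.integral_const_mul]
  ring

private theorem hb_poly (m : ℕ) {c : ℝ} (hc : 0 < c) :
    ∃ C : ℝ, 0 ≤ C ∧ ∀ u : ℝ, 0 ≤ u → (1 + u) ^ m ≤ C * Real.exp (c * u) := by
  refine ⟨(m.factorial : ℝ) / c ^ m * Real.exp c, by positivity, fun u hu => ?_⟩
  have h1 := Real.pow_div_factorial_le_exp (c * (1 + u)) (by positivity) m
  rw [div_le_iff₀ (by exact_mod_cast m.factorial_pos), mul_pow] at h1
  have h2 : (1 + u) ^ m ≤ (m.factorial : ℝ) / c ^ m * Real.exp (c * (1 + u)) := by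
    rw [div_mul_eq_mul_div, le_div_iff₀ (by positivity)]
    linarith
  refine h2.trans (le_of_eq ?_)
  rw [mul_assoc, ← Real.exp_add]
  congr 2
  ring

theorem IV_shift (k : ℕ) (hk : 1 ≤ k) (N : ℝ) (hN : 0 < N) (a : ℕ → ℂ) (F : ℂ → ℂ) (ε : ℂ)
    (h : FEq a F (Real.sqrt N / (2 * Real.pi)) (fun _ : Fin 1 => (1 : ℝ))
      (fun _ => ((k : ℂ) - 1) / 2) ε) (t : ℝ) (ht : 0 < t) :
    IV F N k 2 t = IV F N k (1 / 2) t := by
  have hs : 0 < Real.sqrt N := Real.sqrt_pos.2 hN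
  have hpi : 0 < Real.pi := Real.pi_pos
  have hpi3 : 3 < Real.pi := Real.pi_gt_three
  obtain ⟨μ, hμ⟩ : ∃ μ : ℝ, μ = ((k : ℝ) - 1) / 2 := ⟨_, rfl⟩
  obtain ⟨Q, hQ⟩ : ∃ Q : ℝ, Q = Real.sqrt N / (2 * Real.pi) := ⟨_, rfl⟩
  have hk1 : (1 : ℝ) ≤ k := by exact_mod_cast hk
  have hμ0 : 0 ≤ μ := by
    rw [hμ]
    linarith
  have hQ0 : 0 < Q := by
    rw [hQ]
    positivity
  have hμc : ((k : ℂ) - 1) / 2 = (μ : ℂ) := by
    rw [hμ]
    push_cast
    ring
  have hQc : (Q : ℂ) ≠ 0 := by exact_mod_cast hQ0.ne'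
  have htc : (t : ℂ) ≠ 0 := by exact_mod_cast ht.ne'
  obtain ⟨C1, hC1⟩ := gamma_bound (1 / 2 + μ) (2 + μ) (by linarith)
  obtain ⟨C2, hC2⟩ := F_strip h (1 / 4) (by norm_num) (by norm_num)
  obtain ⟨m, hm⟩ : ∃ m : ℕ, 3 / 2 + μ ≤ m := exists_nat_ge _
  obtain ⟨C3, hC30, hC3⟩ := hb_poly (m + 2) (c := Real.pi / 2 - 1) (by linarith)
  unfold IV
  rw [← hQ, hμc]
  symm
  refine vertical_shift (fun w => completed Q (fun _ : Fin 1 => (1 : ℝ)) (fun _ => (μ : ℂ)) F w *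
    (t : ℂ) ^ (-w)) (1 / 2) 2 (by norm_num) ?_ ((1 + Q / t) ^ 2 * |C1| * |C2| * C3) 1 one_pos ?_
  · intro w hw1 hw2
    unfold completed
    simp only [Fin.prod_univ_one]
    have h1 : DifferentiableAt ℂ Gamma (((1 : ℝ) : ℂ) * w + μ) := by
      refine Complex.differentiableAt_Gamma _ (fun n hn => ?_)
      have h2 := congrArg Complex.re hn
      simp at h2
      have h3 : (0 : ℝ) ≤ n := Nat.cast_nonneg n
      linarith
    have h2 : DifferentiableAt ℂ (fun w : ℂ => Gamma (((1 : ℝ) : ℂ) * w + μ)) w :=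
      DifferentiableAt.comp (g := Gamma) (f := fun w : ℂ => ((1 : ℝ) : ℂ) * w + μ) w h1
        ((differentiableAt_id.const_mul _).add_const _)
    have h3 : DifferentiableAt ℂ (fun w : ℂ => (Q : ℂ) ^ w) w :=
      differentiableAt_id.const_cpow (Or.inl hQc)
    have h4 : DifferentiableAt ℂ (fun w : ℂ => (t : ℂ) ^ (-w)) w :=
      differentiableAt_id.neg.const_cpow (Or.inl htc)
    exact ((h3.mul h2).mul (h.diff w)).mul h4
  · intro w hw1 hw2
    unfold completed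
    simp only [Fin.prod_univ_one]
    have h1 : ((1 : ℝ) : ℂ) * w + μ = ((w.re + μ : ℝ) : ℂ) + w.im * I := by
      apply Complex.ext
      · simp
      · simp
    have hg := hC1 (w.re + μ) w.im (by linarith) (by linarith)
    rw [← h1] at hg
    have hF := hC2 w (by linarith)
    have him := abs_nonneg w.im
    have hb1 : (1 : ℝ) ≤ 1 + |w.im| := by linarith
    have hg2 : ‖Gamma (((1 : ℝ) : ℂ) * w + μ)‖ ≤
        |C1| * (1 + |w.im|) ^ m * Real.exp (-(Real.pi / 2 * |w.im|)) := by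
      refine hg.trans (mul_le_mul_of_nonneg_right ?_ (Real.exp_pos _).le)
      refine mul_le_mul (le_abs_self _) ?_ (Real.rpow_nonneg (by linarith) _) (abs_nonneg _)
      rw [← Real.rpow_natCast]
      exact Real.rpow_le_rpow_of_exponent_le hb1 (by linarith)
    have hF2 : ‖F w‖ ≤ |C2| * (1 + |w.im|) ^ 2 :=
      hF.trans (mul_le_mul_of_nonneg_right (le_abs_self _) (by positivity))
    have hQt : ‖(Q : ℂ) ^ w‖ * ‖(t : ℂ) ^ (-w)‖ ≤ (1 + Q / t) ^ 2 := by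
      rw [Complex.norm_cpow_eq_rpow_re_of_pos hQ0, Complex.norm_cpow_eq_rpow_re_of_pos ht,
        Complex.neg_re, Real.rpow_neg ht.le, ← div_eq_mul_inv, ← Real.div_rpow hQ0.le ht.le]
      have h2 : 0 < Q / t := div_pos hQ0 ht
      calc (Q / t) ^ w.re ≤ (1 + Q / t) ^ w.re :=
            Real.rpow_le_rpow h2.le (by linarith) (by linarith)
        _ ≤ (1 + Q / t) ^ (2 : ℝ) :=
            Real.rpow_le_rpow_of_exponent_le (by linarith) hw2
        _ = (1 + Q / t) ^ 2 := by norm_cast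
    have hp := hC3 |w.im| him
    rw [norm_mul, norm_mul, norm_mul]
    calc ‖(Q : ℂ) ^ w‖ * ‖Gamma (((1 : ℝ) : ℂ) * w + μ)‖ * ‖F w‖ * ‖(t : ℂ) ^ (-w)‖
        = (‖(Q : ℂ) ^ w‖ * ‖(t : ℂ) ^ (-w)‖) *
          (‖Gamma (((1 : ℝ) : ℂ) * w + μ)‖ * ‖F w‖) := by ring
      _ ≤ (1 + Q / t) ^ 2 * ((|C1| * (1 + |w.im|) ^ m * Real.exp (-(Real.pi / 2 * |w.im|))) *
          (|C2| * (1 + |w.im|) ^ 2)) := by
          refine mul_le_mul hQt (mul_le_mul hg2 hF2 (norm_nonneg _) (by positivity))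
            (by positivity) (by positivity)
      _ = (1 + Q / t) ^ 2 * |C1| * |C2| * ((1 + |w.im|) ^ (m + 2) *
          Real.exp (-(Real.pi / 2 * |w.im|))) := by ring
      _ ≤ (1 + Q / t) ^ 2 * |C1| * |C2| * ((C3 * Real.exp ((Real.pi / 2 - 1) * |w.im|)) *
          Real.exp (-(Real.pi / 2 * |w.im|))) := by
          refine mul_le_mul_of_nonneg_left ?_ (by positivity)
          exact mul_le_mul_of_nonneg_right hp (Real.exp_pos _).le
      _ = (1 + Q / t) ^ 2 * |C1| * |C2| * C3 * Real.exp (-(1 * |w.im|)) := by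
          rw [mul_assoc C3, ← Real.exp_add]
          have h5 : (Real.pi / 2 - 1) * |w.im| + -(Real.pi / 2 * |w.im|) = -(1 * |w.im|) := by
            ring
          rw [h5]
          ring

end Pool.Agent.H13.IC
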