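import Mathlib
import Pool.Agent.H13.IC.Hb

/-!
# IC-HC: the relation on the imaginary axis and in the upper half plane

PROOF. (a) `axis`. On `Re w = 1/2`, `1 - conj w = w`, so the functional equation reads
`Φ(1/2+iτ) = ε conj Φ(1/2+iτ)`, and `IV F N k (1/2) t = ε t^(-1) conj (IV F N k (1/2) (1/t))`
(`t ^ (-(1/2+iτ)) = t^(-1) conj ((1/t) ^ (-(1/2+iτ)))`; `integral_conj`). With `ev_IV`, `IV_shift` at `t` and
at `1/t`: `ev f (i t/sqrt N) = ε t^(-1) (2 pi t/sqrt N)^(-μ) (2 pi/(t sqrt N))^μ conj (ev f (i/(t sqrt N)))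
= ε t^(-1-2μ) conj (ev f (i/(t sqrt N)))`, `1 + 2μ = k`, and `conj (ev (fser k a) (iy)) = ev (fser k (cj a)) (iy)`
because `ee (iy)` is real (termwise conjugation, `Complex.conj_tsum`).
(b) `hecke`. Both sides are holomorphic in `z`, `Im z > 0` (`ev_diff`; `Cvg (fser k a)`: coefficients of
polynomial growth, `h.ram`). For `z = i s`: `-1/(Nz) = i/(Ns) = i t/sqrt N` with `t = 1/(sqrt N s)`, and
`t ^ (-k) = (sqrt N s) ^ k`, `(sqrt N z) ^ k = (sqrt N s) ^ k I ^ k`, `(-I) ^ k I ^ k = 1`. Identity theorem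
(`AnalyticOnNhd.eqOn_of_preconnected_of_frequently_eq` at `z = i`).
-/

set_option autoImplicit false

namespace Pool.Agent.H13.IC

open Complex Pool.Agent.H11.Selberg Pool.Agent.H11.SC Filter Topology

theorem fser_cvg (k : ℕ) (a : ℕ → ℂ)
    (ha : ∀ δ : ℝ, 0 < δ → ∃ C : ℝ, ∀ n : ℕ, 1 ≤ n → ‖a n‖ ≤ C * (n : ℝ) ^ δ) :
    Cvg (fser k a) := by
  intro r hr0 hr1
  obtain ⟨C, hC⟩ := ha 1 one_pos
  have hsum : Summable fun n : ℕ => |C| * ((n : ℝ) ^ (k + 1) * r ^ n) :=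
    (summable_pow_mul_geometric_of_norm_lt_one (k + 1)
      (by rwa [Real.norm_eq_abs, abs_of_nonneg hr0])).mul_left |C|
  refine Summable.of_nonneg_of_le (fun n => by positivity) (fun n => ?_) hsum
  unfold fser
  rw [PowerSeries.coeff_mk]
  split_ifs with h0
  · rw [norm_zero, zero_mul]
    positivity
  · have hn : 0 < n := Nat.pos_of_ne_zero h0
    have hn1 : (1 : ℝ) ≤ n := by exact_mod_cast hn
    have h1 : ‖(n : ℂ) ^ (((k : ℂ) - 1) / 2)‖ ≤ (n : ℝ) ^ k := by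
      rw [Complex.norm_natCast_cpow_of_pos hn]
      have h2 : (((k : ℂ) - 1) / 2) = ((((k : ℝ) - 1) / 2 : ℝ) : ℂ) := by push_cast; ring
      rw [h2, Complex.ofReal_re, ← Real.rpow_natCast]
      refine Real.rpow_le_rpow_of_exponent_le hn1 ?_
      have : (0 : ℝ) ≤ k := Nat.cast_nonneg k
      linarith
    have h3 : ‖a n‖ ≤ |C| * n := by
      refine (hC n hn).trans ?_
      rw [Real.rpow_one]
      exact mul_le_mul_of_nonneg_right (le_abs_self C) (by positivity)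
    rw [norm_mul]
    calc ‖a n‖ * ‖(n : ℂ) ^ (((k : ℂ) - 1) / 2)‖ * r ^ n ≤ (|C| * n) * (n : ℝ) ^ k * r ^ n := by
          refine mul_le_mul_of_nonneg_right ?_ (by positivity)
          exact mul_le_mul h3 h1 (norm_nonneg _) (by positivity)
      _ = |C| * ((n : ℝ) ^ (k + 1) * r ^ n) := by ring

private theorem hc_conj (k : ℕ) (a : ℕ → ℂ) (y : ℝ) :
    ev (fser k (cj a)) ((y : ℂ) * I) = (starRingEnd ℂ) (ev (fser k a) ((y : ℂ) * I)) := by
  have hq : (starRingEnd ℂ) (ee ((y : ℂ) * I)) = ee ((y : ℂ) * I) := by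
    unfold ee
    have h1 : 2 * (Real.pi : ℂ) * I * ((y : ℂ) * I) = ((-(2 * Real.pi * y) : ℝ) : ℂ) := by
      push_cast
      linear_combination (2 * (Real.pi : ℂ) * y) * Complex.I_mul_I
    rw [h1, ← Complex.ofReal_exp, Complex.conj_ofReal]
  unfold ev evq
  rw [Complex.conj_tsum]
  refine tsum_congr fun n => ?_
  rw [map_mul, map_pow, hq]
  congr 1
  unfold fser
  rw [PowerSeries.coeff_mk, PowerSeries.coeff_mk]
  split_ifs with h0
  · rw [map_zero]
  · rw [map_mul]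
    unfold cj
    congr 1
    have h2 : (n : ℂ) ^ (((k : ℂ) - 1) / 2) = (((n : ℝ) ^ (((k : ℝ) - 1) / 2) : ℝ) : ℂ) := by
      rw [Complex.ofReal_cpow (Nat.cast_nonneg n)]
      push_cast
      rfl
    rw [h2, Complex.conj_ofReal]

private theorem hc_IV (k : ℕ) (N : ℝ) (a : ℕ → ℂ) (F : ℂ → ℂ) (ε : ℂ)
    (h : FEq a F (Real.sqrt N / (2 * Real.pi)) (fun _ : Fin 1 => (1 : ℝ))
      (fun _ => ((k : ℂ) - 1) / 2) ε) (t : ℝ) (ht : 0 < t) :
    IV F N k (1 / 2) t = ε * (t : ℂ)⁻¹ * (starRingEnd ℂ) (IV F N k (1 / 2) (1 / t)) := by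
  unfold IV
  rw [← integral_conj, ← MeasureTheory.integral_const_mul]
  refine MeasureTheory.integral_congr_ae (Eventually.of_forall fun τ => ?_)
  have htc : (t : ℂ) ≠ 0 := Complex.ofReal_ne_zero.2 ht.ne'
  obtain ⟨w, hw⟩ : ∃ w : ℂ, w = ((1 / 2 : ℝ) : ℂ) + (τ : ℂ) * I := ⟨_, rfl⟩
  simp only
  rw [← hw]
  have hre : w.re = 1 / 2 := by rw [hw]; simp
  have hcw : (starRingEnd ℂ) w = 1 - w := by
    rw [hw, map_add, map_mul, Complex.conj_ofReal, Complex.conj_ofReal, Complex.conj_I]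
    push_cast
    ring
  have h1 := h.feq w (by rw [hre]; norm_num) (by rw [hre]; norm_num)
  rw [hcw, sub_sub_cancel] at h1
  have h2 : (t : ℂ) ^ (-w) = (t : ℂ)⁻¹ * (starRingEnd ℂ) ((((1 / t : ℝ)) : ℂ) ^ (-w)) := by
    have h3 : (starRingEnd ℂ) ((((1 / t : ℝ)) : ℂ) ^ (-w)) =
        (((1 / t : ℝ)) : ℂ) ^ ((starRingEnd ℂ) (-w)) := by
      rw [Complex.cpow_conj _ _ (by
        rw [Complex.arg_ofReal_of_nonneg (by positivity)]
        exact Real.pi_pos.ne), Complex.conj_ofReal]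
    rw [h3, map_neg, hcw]
    have h4 : (((1 / t : ℝ)) : ℂ) = (t : ℂ)⁻¹ := by push_cast; rw [one_div]
    rw [h4, Complex.inv_cpow _ _ (by
      rw [Complex.arg_ofReal_of_nonneg ht.le]
      exact Real.pi_pos.ne), ← Complex.cpow_neg, neg_neg]
    have h5 : -w = (1 - w) + (-1) := by ring
    conv_lhs => rw [h5]
    rw [Complex.cpow_add _ _ htc, Complex.cpow_neg_one]
    ring
  rw [map_mul]
  conv_lhs => rw [h1, h2]
  ring

theorem axis (k : ℕ) (hk : 1 ≤ k) (N : ℝ) (hN : 0 < N) (a : ℕ → ℂ) (F : ℂ → ℂ) (ε : ℂ)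
    (h : FEq a F (Real.sqrt N / (2 * Real.pi)) (fun _ : Fin 1 => (1 : ℝ))
      (fun _ => ((k : ℂ) - 1) / 2) ε) (t : ℝ) (ht : 0 < t) :
    ev (fser k a) ((t / Real.sqrt N : ℝ) * I) =
      ε * ((t : ℂ) ^ k)⁻¹ * ev (fser k (cj a)) ((1 / (t * Real.sqrt N) : ℝ) * I) := by
  have hsN : 0 < Real.sqrt N := Real.sqrt_pos.2 hN
  have hpi := Real.pi_pos
  have e1 := ev_IV k hk N hN a F ε h t ht
  have e2 := ev_IV k hk N hN a F ε h (1 / t) (by positivity)
  rw [IV_shift k hk N hN a F ε h t ht, hc_IV k N a F ε h t ht] at e1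
  rw [IV_shift k hk N hN a F ε h (1 / t) (by positivity)] at e2
  have h1 : 1 / (t * Real.sqrt N) = 1 / t / Real.sqrt N := by
    rw [div_div]
  rw [h1, hc_conj, e1, e2, map_mul, map_mul, Complex.conj_ofReal, Complex.conj_ofReal]
  -- the powers
  have h2 : (2 * Real.pi * t / Real.sqrt N) ^ (-(((k : ℝ) - 1) / 2)) * t⁻¹ =
      (t ^ k)⁻¹ * (2 * Real.pi * (1 / t) / Real.sqrt N) ^ (-(((k : ℝ) - 1) / 2)) := by
    have h3 : 2 * Real.pi * t / Real.sqrt N =
        (t * t) * (2 * Real.pi * (1 / t) / Real.sqrt N) := by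
      field_simp
    rw [h3, Real.mul_rpow (by positivity) (by positivity)]
    have h4 : (t * t) ^ (-(((k : ℝ) - 1) / 2)) * t⁻¹ = (t ^ k)⁻¹ := by
      have h5 : t * t = t ^ (2 : ℝ) := by
        rw [show (2 : ℝ) = ((2 : ℕ) : ℝ) by norm_num, Real.rpow_natCast]
        ring
      rw [h5, ← Real.rpow_mul ht.le, ← Real.rpow_neg_one t, ← Real.rpow_add ht,
        ← Real.rpow_natCast t k, ← Real.rpow_neg ht.le]
      congr 1
      ring
    rw [mul_right_comm, h4]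
  have h6 : (((2 * Real.pi * t / Real.sqrt N) ^ (-(((k : ℝ) - 1) / 2)) * t⁻¹ : ℝ) : ℂ) =
      (((t ^ k)⁻¹ * (2 * Real.pi * (1 / t) / Real.sqrt N) ^ (-(((k : ℝ) - 1) / 2)) : ℝ) : ℂ) :=
    congrArg _ h2
  rw [Complex.ofReal_mul, Complex.ofReal_mul, Complex.ofReal_inv, Complex.ofReal_inv,
    Complex.ofReal_pow] at h6
  linear_combination (((1 / (2 * Real.pi) : ℝ)) : ℂ) * ε *
    (starRingEnd ℂ) (IV F N k (1 / 2) (1 / t)) * h6

theorem hecke (k : ℕ) (hk : 1 ≤ k) (N : ℝ) (hN : 0 < N) (a : ℕ → ℂ) (F : ℂ → ℂ) (ε : ℂ)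
    (h : FEq a F (Real.sqrt N / (2 * Real.pi)) (fun _ : Fin 1 => (1 : ℝ))
      (fun _ => ((k : ℂ) - 1) / 2) ε) (z : ℂ) (hz : 0 < z.im) :
    ev (fser k a) (-1 / (N * z)) =
      ε * (-I) ^ k * (((Real.sqrt N : ℝ) : ℂ) * z) ^ k * ev (fser k (cj a)) z := by
  have hsN : 0 < Real.sqrt N := Real.sqrt_pos.2 hN
  have hNc : (N : ℂ) ≠ 0 := Complex.ofReal_ne_zero.2 hN.ne'
  have hopen : IsOpen {z : ℂ | 0 < z.im} := isOpen_lt continuous_const Complex.continuous_im
  have hconv : Convex ℝ {z : ℂ | 0 < z.im} := convex_halfSpace_im_gt 0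
  have hca : Cvg (fser k a) := fser_cvg k a h.ram
  have hcc : Cvg (fser k (cj a)) := fser_cvg k (cj a) fun δ hδ => by
    obtain ⟨C, hC⟩ := h.ram δ hδ
    refine ⟨C, fun n hn => ?_⟩
    unfold cj
    rw [Complex.norm_conj]
    exact hC n hn
  have hne : ∀ w : ℂ, 0 < w.im → w ≠ 0 := by
    rintro w hw rfl
    simp at hw
  have hmap : ∀ w : ℂ, 0 < w.im → 0 < (-1 / ((N : ℂ) * w)).im := by
    intro w hw
    have hw0 := hne w hw
    have h1 : -1 / ((N : ℂ) * w) = (((-(1 / N) : ℝ)) : ℂ) * w⁻¹ := by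
      push_cast
      field_simp
    rw [h1, Complex.im_ofReal_mul, Complex.inv_im]
    have h2 : 0 < Complex.normSq w := Complex.normSq_pos.2 hw0
    have h3 : -(1 / N) * (-w.im / Complex.normSq w) = w.im / (N * Complex.normSq w) := by
      field_simp
    rw [h3]
    positivity
  -- holomorphy
  have hd1 : DifferentiableOn ℂ (fun z => ev (fser k a) (-1 / (N * z))) {z : ℂ | 0 < z.im} := by
    refine (ev_diff hca).comp ?_ (fun w hw => hmap w hw)
    intro w hw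
    have hw0 := hne w hw
    exact ((differentiableAt_const _).div ((differentiableAt_id).const_mul _)
      (mul_ne_zero hNc hw0)).differentiableWithinAt
  have hd2 : DifferentiableOn ℂ (fun z => ε * (-I) ^ k * (((Real.sqrt N : ℝ) : ℂ) * z) ^ k *
      ev (fser k (cj a)) z) {z : ℂ | 0 < z.im} := by
    refine DifferentiableOn.mul ?_ (ev_diff hcc)
    exact (((differentiable_id.const_mul _).pow k).const_mul _).differentiableOn
  have hI : I ∈ {z : ℂ | 0 < z.im} := by simp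
  -- the imaginary axis
  have hax : ∀ s : ℝ, 0 < s → ev (fser k a) (-1 / (N * ((s : ℂ) * I))) =
      ε * (-I) ^ k * (((Real.sqrt N : ℝ) : ℂ) * ((s : ℂ) * I)) ^ k *
        ev (fser k (cj a)) ((s : ℂ) * I) := by
    intro s hs
    have h1 := axis k hk N hN a F ε h (1 / (Real.sqrt N * s)) (by positivity)
    have hsq : Real.sqrt N * Real.sqrt N = N := Real.mul_self_sqrt hN.le
    have h2 : 1 / (Real.sqrt N * s) / Real.sqrt N = 1 / (N * s) := by
      have h0 : Real.sqrt N * s * Real.sqrt N = N * s := by linear_combination s * hsq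
      rw [div_div, h0]
    have h3 : 1 / (1 / (Real.sqrt N * s) * Real.sqrt N) = s := by
      field_simp
    rw [h2, h3] at h1
    have hsc : (s : ℂ) ≠ 0 := Complex.ofReal_ne_zero.2 hs.ne'
    have h4 : -1 / ((N : ℂ) * ((s : ℂ) * I)) = ((1 / (N * s) : ℝ) : ℂ) * I := by
      push_cast
      field_simp
      rw [Complex.I_sq]
    rw [h4, h1]
    have hsNc : ((Real.sqrt N : ℝ) : ℂ) ≠ 0 := Complex.ofReal_ne_zero.2 hsN.ne'
    have h5 : ((((1 / (Real.sqrt N * s) : ℝ)) : ℂ) ^ k)⁻¹ =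
        (-I) ^ k * (((Real.sqrt N : ℝ) : ℂ) * ((s : ℂ) * I)) ^ k := by
      rw [← mul_pow, ← inv_pow]
      congr 1
      push_cast
      rw [one_div, inv_inv]
      linear_combination (((Real.sqrt N : ℝ) : ℂ) * s) * Complex.I_mul_I
    rw [h5]
    ring
  have hfreq : ∃ᶠ z in 𝓝[≠] I, ev (fser k a) (-1 / (N * z)) =
      ε * (-I) ^ k * (((Real.sqrt N : ℝ) : ℂ) * z) ^ k * ev (fser k (cj a)) z := by
    have ht : Tendsto (fun s : ℝ => (s : ℂ) * I) (𝓝[≠] (1 : ℝ)) (𝓝[≠] I) := by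
      rw [tendsto_nhdsWithin_iff]
      constructor
      · have h1 : Continuous fun s : ℝ => (s : ℂ) * I :=
          Complex.continuous_ofReal.mul continuous_const
        have h2 := h1.tendsto 1
        rw [Complex.ofReal_one, one_mul] at h2
        exact h2.mono_left nhdsWithin_le_nhds
      · filter_upwards [self_mem_nhdsWithin] with s hs
        intro h0
        apply hs
        have h1 : (s : ℂ) * I = 1 * I := by rw [one_mul]; exact h0
        have h2 := mul_right_cancel₀ Complex.I_ne_zero h1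
        exact_mod_cast h2
    have hev : ∀ᶠ s : ℝ in 𝓝[≠] (1 : ℝ), ev (fser k a) (-1 / (N * ((s : ℂ) * I))) =
        ε * (-I) ^ k * (((Real.sqrt N : ℝ) : ℂ) * ((s : ℂ) * I)) ^ k *
          ev (fser k (cj a)) ((s : ℂ) * I) := by
      have h1 : ∀ᶠ s : ℝ in 𝓝[≠] (1 : ℝ), 0 < s :=
        (lt_mem_nhds one_pos).filter_mono nhdsWithin_le_nhds
      filter_upwards [h1] with s hs
      exact hax s hs
    exact ht.frequently hev.frequently
  exact (hd1.analyticOnNhd hopen).eqOn_of_preconnected_of_frequently_eq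
    (hd2.analyticOnNhd hopen) hconv.isPreconnected hI hfreq hz

end Pool.Agent.H13.IC
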