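import Mathlib
import Pool.Agent.H13.IC.Gr
import Pool.Agent.H11.SC.Pars

/-!
# IC-MS: Parseval and the upper bound of the Rankin-Selberg series

PROOF. `parseval`: Fourier coefficients of the continuous `1`-periodic function `x ↦ ev U (x + i y)`
are `coeff n U exp(-(2 pi n y))` for `n ≥ 0`, `0` for `n < 0` (uniformly convergent series,
`fourierCoeff`, `tsum_sq_fourierCoeff`); or expand `ev * conj ev` as an absolutely convergent double
series and integrate termwise (`∫_0^1 exp(2 pi i (n-m) x) dx`); compare Pool/Agent/H11/SC/UpB.lean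
(`phi_parseval`). `upperD`: with `y = 1/X`: `∑_(n ≤ X) ‖c_n‖ ^ 2 ≤ e^(4 pi) C ^ 2 X ^ k`, then dyadic blocks:
`∑_(2^j ≤ n < 2^(j+1)) ‖c_n‖ ^ 2 / n ^ (σ+k-1) ≤ C' 2 ^ (-j(σ-1))`, and `∑_j 2 ^ (-j(σ-1)) = 1/(1 - 2 ^ (-(σ-1)))
≤ 4/(σ-1)` for `1 < σ ≤ 2`. `summableD`: from `GD` with `ε = (σ-1)/4`.
-/

set_option autoImplicit false

namespace Pool.Agent.H13.IC

open Complex PowerSeries

/-- the Rankin-Selberg series -/
noncomputable def DU (k : ℕ) (U : PowerSeries ℂ) (σ : ℝ) : ℝ :=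
  ∑' n : ℕ, ‖coeff n U‖ ^ 2 / (n : ℝ) ^ (σ + k - 1)

private theorem ms_r (y : ℝ) (hy : 0 < y) : Real.exp (-(2 * Real.pi * y)) < 1 := by
  rw [Real.exp_lt_one_iff]
  have := Real.pi_pos
  have h1 : 0 < 2 * Real.pi * y := by positivity
  linarith

theorem parseval {U : PowerSeries ℂ} (hU : Cvg U) (y : ℝ) (hy : 0 < y) :
    HasSum (fun n : ℕ => ‖coeff n U‖ ^ 2 * Real.exp (-(4 * Real.pi * n * y)))
      (∫ x in (0 : ℝ)..1, ‖ev U (x + y * I)‖ ^ 2) := by
  set c : ℕ → ℂ := fun n => coeff n U * cexp (-(2 * (Real.pi : ℂ) * n * y)) with hc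
  have hnc : ∀ n, ‖c n‖ = ‖coeff n U‖ * Real.exp (-(2 * Real.pi * y)) ^ n := by
    intro n
    rw [hc]
    simp only
    rw [norm_mul, Complex.norm_exp, ← Real.exp_nat_mul]
    congr 2
    have : (-(2 * (Real.pi : ℂ) * n * y)) = ((n * -(2 * Real.pi * y) : ℝ) : ℂ) := by
      push_cast
      ring
    rw [this, ofReal_re]
  have hsum : Summable (fun n => ‖c n‖) := by
    simp only [hnc]
    exact hU _ (Real.exp_pos _).le (ms_r y hy)
  have hpar := Pool.Agent.H11.SC.parseval c hsum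
  have hev : ∀ x : ℝ, ‖ev U (x + y * I)‖ ^ 2 =
      ‖∑' n : ℕ, c n * cexp (2 * (Real.pi : ℂ) * I * n * x)‖ ^ 2 := by
    intro x
    unfold ev evq
    congr 2
    refine tsum_congr fun n => ?_
    rw [hc]
    simp only
    rw [mul_assoc, ← Complex.exp_add]
    unfold ee
    rw [← Complex.exp_nat_mul]
    congr 2
    have hI : I * I = -1 := I_mul_I
    linear_combination (2 * (Real.pi : ℂ) * n * y) * hI
  have hsq : Summable (fun n => ‖c n‖ ^ 2) := by
    refine Summable.of_nonneg_of_le (fun n => by positivity) (fun n => ?_)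
      (hsum.mul_left (∑' n, ‖c n‖))
    rw [pow_two]
    exact mul_le_mul_of_nonneg_right (hsum.le_tsum n (fun _ _ => norm_nonneg _)) (norm_nonneg _)
  have hterm : (fun n : ℕ => ‖coeff n U‖ ^ 2 * Real.exp (-(4 * Real.pi * n * y))) =
      fun n => ‖c n‖ ^ 2 := by
    funext n
    rw [hnc, mul_pow, ← pow_mul, ← Real.exp_nat_mul]
    congr 2
    push_cast
    ring
  rw [hterm]
  simp only [hev]
  rw [hpar]
  exact hsq.hasSum

theorem summableD {k : ℕ} {U : PowerSeries ℂ} (hU : GD k U) (σ : ℝ) (hσ : 1 < σ) :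
    Summable fun n : ℕ => ‖coeff n U‖ ^ 2 / (n : ℝ) ^ (σ + k - 1) := by
  obtain ⟨h0, hb⟩ := hU
  obtain ⟨C, hC⟩ := hb ((σ - 1) / 4) (by linarith)
  have hs : Summable (fun n : ℕ => (n : ℝ) ^ (-((σ + 1) / 2))) :=
    Real.summable_nat_rpow.2 (by linarith)
  refine Summable.of_nonneg_of_le (fun n => by positivity) (fun n => ?_) (hs.mul_left (C ^ 2))
  rcases Nat.eq_zero_or_pos n with hn | hn
  · subst hn
    rw [h0, norm_zero]
    have : (0 : ℝ) ^ 2 = 0 := by norm_num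
    rw [this, zero_div]
    exact mul_nonneg (sq_nonneg _) (Real.rpow_nonneg (Nat.cast_nonneg _) _)
  · have hn0 : (0 : ℝ) < n := by exact_mod_cast hn
    rw [div_le_iff₀ (Real.rpow_pos_of_pos hn0 _)]
    have h1 := pow_le_pow_left₀ (norm_nonneg _) (hC n hn) 2
    refine h1.trans (le_of_eq ?_)
    rw [mul_pow, ← Real.rpow_natCast ((n : ℝ) ^ _) 2, ← Real.rpow_mul hn0.le, mul_assoc,
      ← Real.rpow_add hn0]
    congr 2
    push_cast
    ring

private theorem ms_head {k : ℕ} {U : PowerSeries ℂ} (hU : GD k U) (C0 : ℝ)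
    (hC : ∀ z : ℂ, 0 < z.im → ‖ev U z‖ * z.im ^ ((k : ℝ) / 2) ≤ C0) (X : ℕ) (hX : 0 < X) :
    ∑ n ∈ Finset.range X, ‖coeff n U‖ ^ 2 ≤ Real.exp (4 * Real.pi) * C0 ^ 2 * (X : ℝ) ^ k := by
  have hX0 : (0 : ℝ) < X := by exact_mod_cast hX
  set y : ℝ := 1 / X with hy
  have hy0 : 0 < y := by positivity
  have hp := parseval hU.cvg y hy0
  have hint : ∫ x in (0 : ℝ)..1, ‖ev U (x + y * I)‖ ^ 2 ≤ C0 ^ 2 * (X : ℝ) ^ k := by
    have h1 := intervalIntegral.norm_integral_le_of_norm_le_const (a := 0) (b := 1)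
      (C := C0 ^ 2 * (X : ℝ) ^ k) (f := fun x : ℝ => ‖ev U (x + y * I)‖ ^ 2) (fun x _ => by
        have hz : ((x : ℂ) + y * I).im = y := by simp
        have h2 := hC ((x : ℂ) + y * I) (by rw [hz]; exact hy0)
        rw [hz] at h2
        have h3 := pow_le_pow_left₀ (by positivity) h2 2
        rw [mul_pow, ← Real.rpow_natCast (y ^ ((k : ℝ) / 2)) 2, ← Real.rpow_mul hy0.le] at h3
        have h4 : (k : ℝ) / 2 * ((2 : ℕ) : ℝ) = (k : ℝ) := by push_cast; ring
        rw [h4, Real.rpow_natCast] at h3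
        rw [Real.norm_eq_abs, abs_of_nonneg (sq_nonneg _)]
        have h5 : y ^ k * (X : ℝ) ^ k = 1 := by
          rw [← mul_pow, hy, one_div, inv_mul_cancel₀ hX0.ne', one_pow]
        calc ‖ev U (x + y * I)‖ ^ 2 = ‖ev U (x + y * I)‖ ^ 2 * y ^ k * (X : ℝ) ^ k := by
              rw [mul_assoc, h5, mul_one]
          _ ≤ C0 ^ 2 * (X : ℝ) ^ k := mul_le_mul_of_nonneg_right h3 (by positivity))
    rw [sub_zero, abs_one, mul_one] at h1
    exact (Real.le_norm_self _).trans h1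
  have h1 : ∑ n ∈ Finset.range X, ‖coeff n U‖ ^ 2 * Real.exp (-(4 * Real.pi)) ≤
      C0 ^ 2 * (X : ℝ) ^ k := by
    refine le_trans ?_ hint
    refine le_trans (Finset.sum_le_sum fun n hn => ?_)
      (sum_le_hasSum (Finset.range X) (fun n _ => by positivity) hp)
    refine mul_le_mul_of_nonneg_left ?_ (by positivity)
    apply Real.exp_le_exp.2
    rw [Finset.mem_range] at hn
    have h3 : (n : ℝ) * y ≤ 1 := by
      rw [hy, mul_one_div, div_le_one hX0]
      exact_mod_cast hn.le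
    have := Real.pi_pos
    nlinarith
  rw [← Finset.sum_mul] at h1
  have h2 : Real.exp (4 * Real.pi) * Real.exp (-(4 * Real.pi)) = 1 := by
    rw [← Real.exp_add, add_neg_cancel, Real.exp_zero]
  have h3 := mul_le_mul_of_nonneg_left h1 (Real.exp_pos (4 * Real.pi)).le
  calc ∑ n ∈ Finset.range X, ‖coeff n U‖ ^ 2 =
      (Real.exp (4 * Real.pi) * Real.exp (-(4 * Real.pi))) *
        ∑ n ∈ Finset.range X, ‖coeff n U‖ ^ 2 := by rw [h2, one_mul]
    _ = Real.exp (4 * Real.pi) * ((∑ n ∈ Finset.range X, ‖coeff n U‖ ^ 2) *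
        Real.exp (-(4 * Real.pi))) := by ring
    _ ≤ Real.exp (4 * Real.pi) * (C0 ^ 2 * (X : ℝ) ^ k) := h3
    _ = _ := by ring

private theorem ms_conc (u : ℝ) (h0 : 0 < u) (h1 : u ≤ 1) : u / 2 ≤ 1 - (2 : ℝ) ^ (-u) := by
  -- convexity of `2 ^ (-u)` on `[0, 1]`
  have hconv : ConvexOn ℝ Set.univ (fun x : ℝ => Real.exp x) := convexOn_exp
  have h2 := hconv.2 (Set.mem_univ (0 : ℝ)) (Set.mem_univ (-Real.log 2))
    (show (0 : ℝ) ≤ 1 - u by linarith) h0.le (by ring)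
  simp only [smul_eq_mul, mul_zero, zero_add, Real.exp_zero, mul_one] at h2
  rw [Real.exp_neg, Real.exp_log (by norm_num)] at h2
  have h3 : (2 : ℝ) ^ (-u) = Real.exp (u * -Real.log 2) := by
    rw [Real.rpow_def_of_pos (by norm_num)]
    congr 1
    ring
  rw [h3]
  linarith

theorem upperD {k : ℕ} {U : PowerSeries ℂ} (hU : GD k U) (C0 : ℝ)
    (hC : ∀ z : ℂ, 0 < z.im → ‖ev U z‖ * z.im ^ ((k : ℝ) / 2) ≤ C0) :
    ∃ C : ℝ, ∀ σ : ℝ, 1 < σ → σ ≤ 2 → DU k U σ ≤ C * (σ - 1) ^ (-(1 : ℝ)) := by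
  set K : ℝ := Real.exp (4 * Real.pi) * C0 ^ 2 with hK
  have hK0 : 0 ≤ K := by positivity
  refine ⟨K * 2 ^ k * 2, fun σ hσ1 hσ2 => ?_⟩
  set q : ℝ := (2 : ℝ) ^ (-(σ - 1)) with hq
  have hq0 : 0 < q := Real.rpow_pos_of_pos (by norm_num) _
  have hconc := ms_conc (σ - 1) (by linarith) (by linarith)
  rw [← hq] at hconc
  have hq1 : q < 1 := by linarith
  have hblock : ∀ j : ℕ, ∑ n ∈ Finset.Ico (2 ^ j) (2 ^ (j + 1)),
      ‖coeff n U‖ ^ 2 / (n : ℝ) ^ (σ + k - 1) ≤ K * 2 ^ k * q ^ j := by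
    intro j
    have h2j : (0 : ℝ) < (2 : ℝ) ^ j := by positivity
    have h1 : ∀ n ∈ Finset.Ico (2 ^ j) (2 ^ (j + 1)), ‖coeff n U‖ ^ 2 / (n : ℝ) ^ (σ + k - 1) ≤
        ‖coeff n U‖ ^ 2 * ((2 : ℝ) ^ j) ^ (-(σ + k - 1)) := by
      intro n hn
      rw [Finset.mem_Ico] at hn
      have h3 : (2 : ℝ) ^ j ≤ n := by exact_mod_cast hn.1
      rw [div_eq_mul_inv]
      refine mul_le_mul_of_nonneg_left ?_ (by positivity)
      rw [Real.rpow_neg h2j.le]
      apply inv_anti₀ (Real.rpow_pos_of_pos h2j _)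
      apply Real.rpow_le_rpow h2j.le h3
      have : (0 : ℝ) ≤ k := Nat.cast_nonneg k
      linarith
    refine (Finset.sum_le_sum h1).trans ?_
    rw [← Finset.sum_mul]
    have h2 : ∑ n ∈ Finset.Ico (2 ^ j) (2 ^ (j + 1)), ‖coeff n U‖ ^ 2 ≤
        K * ((2 : ℝ) ^ (j + 1)) ^ k := by
      have h4 := ms_head hU C0 hC (2 ^ (j + 1)) (by positivity)
      push_cast at h4
      refine le_trans (Finset.sum_le_sum_of_subset_of_nonneg ?_ (fun _ _ _ => by positivity)) h4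
      intro n hn
      rw [Finset.mem_Ico] at hn
      exact Finset.mem_range.2 hn.2
    refine (mul_le_mul_of_nonneg_right h2 (Real.rpow_nonneg h2j.le _)).trans (le_of_eq ?_)
    have h5 : ((2 : ℝ) ^ (j + 1)) ^ k = 2 ^ k * ((2 : ℝ) ^ j) ^ (k : ℝ) := by
      rw [Real.rpow_natCast, pow_succ, mul_pow]
      ring
    have h6 : q ^ j = ((2 : ℝ) ^ j) ^ (-(σ - 1)) := by
      rw [hq, ← Real.rpow_natCast, ← Real.rpow_mul (by norm_num), ← Real.rpow_natCast (2 : ℝ) j,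
        ← Real.rpow_mul (by norm_num)]
      congr 1
      ring
    rw [h5, h6]
    have h7 : ((2 : ℝ) ^ j) ^ (k : ℝ) * ((2 : ℝ) ^ j) ^ (-(σ + k - 1)) =
        ((2 : ℝ) ^ j) ^ (-(σ - 1)) := by
      rw [← Real.rpow_add h2j]
      congr 1
      ring
    rw [← h7]
    ring
  have hpart : ∀ J : ℕ, ∑ n ∈ Finset.range (2 ^ J), ‖coeff n U‖ ^ 2 / (n : ℝ) ^ (σ + k - 1) ≤
      K * 2 ^ k * ∑ j ∈ Finset.range J, q ^ j := by
    intro J
    induction J with
    | zero =>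
      rw [pow_zero, Finset.sum_range_one, Finset.sum_range_zero, mul_zero, hU.1, norm_zero]
      norm_num
    | succ J ih =>
      rw [Finset.sum_range_succ, mul_add]
      have h1 : Finset.range (2 ^ (J + 1)) = Finset.range (2 ^ J) ∪
          Finset.Ico (2 ^ J) (2 ^ (J + 1)) := by
        ext n
        rw [Finset.mem_union, Finset.mem_range, Finset.mem_range, Finset.mem_Ico]
        have : 2 ^ J ≤ 2 ^ (J + 1) := Nat.pow_le_pow_right (by norm_num) (Nat.le_succ J)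
        omega
      have h2 : Disjoint (Finset.range (2 ^ J)) (Finset.Ico (2 ^ J) (2 ^ (J + 1))) := by
        rw [Finset.disjoint_left]
        intro n hn hn'
        rw [Finset.mem_range] at hn
        rw [Finset.mem_Ico] at hn'
        omega
      rw [h1, Finset.sum_union h2]
      exact add_le_add ih (hblock J)
  have hgeom : ∀ J : ℕ, ∑ j ∈ Finset.range J, q ^ j ≤ 2 * (σ - 1)⁻¹ := by
    intro J
    have h1 := (summable_geometric_of_lt_one hq0.le hq1).sum_le_tsum (Finset.range J)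
      (fun _ _ => by positivity)
    rw [tsum_geometric_of_lt_one hq0.le hq1] at h1
    refine h1.trans ?_
    have h2 : 0 < σ - 1 := by linarith
    have h3 : (1 - q)⁻¹ ≤ ((σ - 1) / 2)⁻¹ := inv_anti₀ (by linarith) hconc
    refine h3.trans (le_of_eq ?_)
    rw [inv_div, div_eq_mul_inv]
  unfold DU
  rw [Real.rpow_neg_one]
  refine (summableD hU σ hσ1).tsum_le_of_sum_range_le fun n => ?_
  refine le_trans (Finset.sum_le_sum_of_subset_of_nonneg
    (Finset.range_subset_range.2 (Nat.lt_two_pow_self (n := n)).le)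
    (fun _ _ _ => by positivity)) ?_
  refine (hpart n).trans ?_
  have h1 : 0 ≤ K * 2 ^ k := by positivity
  calc K * 2 ^ k * ∑ j ∈ Finset.range n, q ^ j ≤ K * 2 ^ k * (2 * (σ - 1)⁻¹) :=
        mul_le_mul_of_nonneg_left (hgeom n) h1
    _ = K * 2 ^ k * 2 * (σ - 1)⁻¹ := by ring

end Pool.Agent.H13.IC
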