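import Mathlib
import Pool.Agent.H13.IC.Hc
import Pool.Agent.H13.IC.Ei
import Pool.Agent.H13.IC.Gr
import Pool.Agent.H13.IC.Ms

/-!
# IC-HD: the dilated form: level, growth, Rankin-Selberg series

PROOF. `Rf_dil`: `N = A/b`, `M = A b`. `ev (dil b f) (-1/(Mz)) = ev f (-b/(A b z)) = ev f (-1/(A z))`
(`ev_dil`) and `A z = N (b z)`: `hecke` at `b z`, `sqrt N * b = sqrt (A b)`; `ev (C c * dil b g) z = c ev g (b z)`
(`ev_mul`, `evq_C`).
`GD_dil`: `coeff n (dil b (fser k a))` is `a(n/b) (n/b)^((k-1)/2)` or `0`; `n/b ≤ n`; `‖(m:ℂ)^(((k:ℂ)-1)/2)‖ =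
m^((k-1)/2)`.
`DU_dil`: only `n = b m` contribute, `‖coeff‖² = ‖a m‖² m^(k-1)`, `(b m)^(σ+k-1) = b^(σ+k-1) m^(σ+k-1)`
(the term `m = 0` is `0` on both sides: `(0:ℝ)^σ = 0`, division by `0`).
`dil_ne`: `coeff b (dil b (fser k a)) = a 1 = 1`.
-/

set_option autoImplicit false

namespace Pool.Agent.H13.IC

open Complex Pool.Agent.H11.Selberg Pool.Agent.H11.SC

private theorem hd_cj (a : ℕ → ℂ)
    (ha : ∀ δ : ℝ, 0 < δ → ∃ C : ℝ, ∀ n : ℕ, 1 ≤ n → ‖a n‖ ≤ C * (n : ℝ) ^ δ) :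
    ∀ δ : ℝ, 0 < δ → ∃ C : ℝ, ∀ n : ℕ, 1 ≤ n → ‖cj a n‖ ≤ C * (n : ℝ) ^ δ := by
  intro δ hδ
  obtain ⟨C, hC⟩ := ha δ hδ
  refine ⟨C, fun n hn => ?_⟩
  have h1 : ‖cj a n‖ = ‖a n‖ := by
    unfold cj
    exact RCLike.norm_conj (a n)
  rw [h1]
  exact hC n hn

theorem Rf_dil (k : ℕ) (hk : 1 ≤ k) (A b : ℕ) (hA : 1 ≤ A) (hb : 1 ≤ b) (N : ℝ)
    (hN : N = (A : ℝ) / b) (a : ℕ → ℂ) (F : ℂ → ℂ) (ε : ℂ)
    (h : FEq a F (Real.sqrt N / (2 * Real.pi)) (fun _ : Fin 1 => (1 : ℝ))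
      (fun _ => ((k : ℂ) - 1) / 2) ε) :
    Rf (A * b) k (dil b (fser k a))
      (PowerSeries.C (ε * (-I) ^ k) * dil b (fser k (cj a))) := by
  intro z hz
  have hA0 : (0 : ℝ) < A := by exact_mod_cast hA
  have hb0 : (0 : ℝ) < b := by exact_mod_cast hb
  have hN0 : 0 < N := by rw [hN]; positivity
  have hbC : (b : ℂ) ≠ 0 := by exact_mod_cast hb0.ne'
  have hAC : (A : ℂ) ≠ 0 := by exact_mod_cast hA0.ne'
  have hz0 : z ≠ 0 := by
    rintro rfl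
    simp at hz
  have hMz : 0 < (((A * b : ℕ) : ℂ) * z).im := by
    rw [Complex.mul_im, Complex.natCast_im, zero_mul, add_zero, Complex.natCast_re]
    have : (0 : ℝ) < ((A * b : ℕ) : ℝ) := by push_cast; positivity
    exact mul_pos this hz
  have him : ∀ w : ℂ, 0 < w.im → 0 < (-1 / w).im := by
    intro w hw
    have h1 : w ≠ 0 := by
      rintro rfl
      simp at hw
    rw [neg_div, one_div, Complex.neg_im, Complex.inv_im, neg_div, neg_neg]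
    exact div_pos hw (Complex.normSq_pos.2 h1)
  have hbz : 0 < ((b : ℂ) * z).im := by
    rw [Complex.mul_im, Complex.natCast_im, zero_mul, add_zero, Complex.natCast_re]
    exact mul_pos hb0 hz
  have c1 := fser_cvg k a h.ram
  have c2 := fser_cvg k (cj a) (hd_cj a h.ram)
  rw [ev_dil c1 b hb (him _ hMz), ev_mul (Cvg.C _) (dil_cvg c2 b hb) hz, ev_dil c2 b hb hz]
  have h1 : (b : ℂ) * (-1 / (((A * b : ℕ) : ℂ) * z)) = -1 / ((N : ℂ) * (b * z)) := by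
    rw [hN]
    push_cast
    field_simp
  rw [h1, hecke k hk N hN0 a F ε h _ hbz]
  have h2 : ev (PowerSeries.C (ε * (-I) ^ k)) z = ε * (-I) ^ k := evq_C _ _
  have h3 : Real.sqrt ((A * b : ℕ) : ℝ) = Real.sqrt N * b := by
    have h4 : (((A * b : ℕ) : ℝ)) = N * ((b : ℝ)) ^ 2 := by
      rw [hN]
      push_cast
      field_simp
    rw [h4, Real.sqrt_mul hN0.le, Real.sqrt_sq hb0.le]
  rw [h2, h3]
  push_cast
  ring

private theorem hd_off (b : ℕ) (U : PowerSeries ℂ) {n : ℕ} (hn : ¬ b ∣ n) :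
    PowerSeries.coeff n (dil b U) = 0 := by
  rw [dil, PowerSeries.coeff_mk, if_neg hn]

private theorem hd_on (b : ℕ) (hb : 1 ≤ b) (U : PowerSeries ℂ) (m : ℕ) :
    PowerSeries.coeff (b * m) (dil b U) = PowerSeries.coeff m U := by
  rw [dil, PowerSeries.coeff_mk, if_pos (Nat.dvd_mul_right b m), Nat.mul_div_cancel_left m (by omega)]

private theorem hd_norm (k : ℕ) (a : ℕ → ℂ) {m : ℕ} (hm : 1 ≤ m) :
    ‖PowerSeries.coeff m (fser k a)‖ = ‖a m‖ * (m : ℝ) ^ (((k : ℝ) - 1) / 2) := by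
  rw [fser, PowerSeries.coeff_mk, if_neg (by omega), norm_mul,
    Complex.norm_natCast_cpow_of_pos (by omega)]
  congr 2
  simp

theorem GD_dil (k : ℕ) (hk : 1 ≤ k) (b : ℕ) (hb : 1 ≤ b) (a : ℕ → ℂ)
    (ha : ∀ δ : ℝ, 0 < δ → ∃ C : ℝ, ∀ n : ℕ, 1 ≤ n → ‖a n‖ ≤ C * (n : ℝ) ^ δ) :
    GD k (dil b (fser k a)) := by
  constructor
  · have h1 := hd_on b hb (fser k a) 0
    rw [Nat.mul_zero] at h1
    rw [h1, fser, PowerSeries.coeff_mk, if_pos rfl]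
  · intro ε hε
    obtain ⟨C, hC⟩ := ha ε hε
    have hk0 : (0 : ℝ) ≤ ((k : ℝ) - 1) / 2 := by
      have : (1 : ℝ) ≤ k := by exact_mod_cast hk
      linarith
    refine ⟨|C|, fun n hn => ?_⟩
    by_cases hd : b ∣ n
    · obtain ⟨m, rfl⟩ := hd
      have hm : 1 ≤ m := by
        rcases Nat.eq_zero_or_pos m with h0 | h0
        · rw [h0, Nat.mul_zero] at hn
          omega
        · exact h0
      have hm0 : (0 : ℝ) < m := by exact_mod_cast hm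
      rw [hd_on b hb, hd_norm k a hm]
      have h1 : ‖a m‖ ≤ |C| * (m : ℝ) ^ ε :=
        (hC m hm).trans (mul_le_mul_of_nonneg_right (le_abs_self C) (Real.rpow_nonneg hm0.le _))
      have h2 : (m : ℝ) ^ (((k : ℝ) - 1) / 2 + ε) ≤ ((b * m : ℕ) : ℝ) ^ (((k : ℝ) - 1) / 2 + ε) := by
        refine Real.rpow_le_rpow hm0.le ?_ (by linarith)
        have : m ≤ b * m := Nat.le_mul_of_pos_left m (by omega)
        exact_mod_cast this
      calc ‖a m‖ * (m : ℝ) ^ (((k : ℝ) - 1) / 2)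
          ≤ (|C| * (m : ℝ) ^ ε) * (m : ℝ) ^ (((k : ℝ) - 1) / 2) :=
            mul_le_mul_of_nonneg_right h1 (Real.rpow_nonneg hm0.le _)
        _ = |C| * (m : ℝ) ^ (((k : ℝ) - 1) / 2 + ε) := by
            rw [Real.rpow_add hm0]
            ring
        _ ≤ |C| * ((b * m : ℕ) : ℝ) ^ (((k : ℝ) - 1) / 2 + ε) :=
            mul_le_mul_of_nonneg_left h2 (abs_nonneg C)
    · rw [hd_off b _ hd, norm_zero]
      positivity

theorem DU_dil (k : ℕ) (hk : 1 ≤ k) (b : ℕ) (hb : 1 ≤ b) (a : ℕ → ℂ) (σ : ℝ) (hσ : 1 < σ) :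
    DU k (dil b (fser k a)) σ =
      (b : ℝ) ^ (-(σ + k - 1)) * ∑' n : ℕ, ‖a n‖ ^ 2 / (n : ℝ) ^ σ := by
  have hb0 : (0 : ℝ) < b := by exact_mod_cast hb
  have hinj : Function.Injective fun m : ℕ => b * m := fun x y h =>
    Nat.eq_of_mul_eq_mul_left (by omega) h
  unfold DU
  rw [← hinj.tsum_eq, ← tsum_mul_left]
  · refine tsum_congr fun m => ?_
    rw [hd_on b hb]
    rcases Nat.eq_zero_or_pos m with h0 | h0
    · subst h0
      rw [fser, PowerSeries.coeff_mk, if_pos rfl, norm_zero, Nat.cast_zero,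
        Real.zero_rpow (by linarith : σ ≠ 0), div_zero, mul_zero]
      simp
    · have hm0 : (0 : ℝ) < m := by exact_mod_cast h0
      rw [hd_norm k a h0]
      push_cast
      rw [Real.mul_rpow hb0.le hm0.le, mul_pow, Real.rpow_neg hb0.le,
        ← Real.rpow_natCast ((m : ℝ) ^ (((k : ℝ) - 1) / 2)) 2, ← Real.rpow_mul hm0.le]
      have h1 : (m : ℝ) ^ (σ + k - 1) = (m : ℝ) ^ σ * (m : ℝ) ^ (((k : ℝ) - 1) / 2 * ((2 : ℕ) : ℝ)) := by
        rw [← Real.rpow_add hm0]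
        congr 1
        push_cast
        ring
      rw [h1]
      have h2 : (m : ℝ) ^ (((k : ℝ) - 1) / 2 * ((2 : ℕ) : ℝ)) ≠ 0 := (Real.rpow_pos_of_pos hm0 _).ne'
      have h3 : (m : ℝ) ^ σ ≠ 0 := (Real.rpow_pos_of_pos hm0 _).ne'
      have h4 : (b : ℝ) ^ (σ + k - 1) ≠ 0 := (Real.rpow_pos_of_pos hb0 _).ne'
      field_simp
  · intro n hn
    by_contra h
    apply hn
    have h1 : ¬ b ∣ n := by
      rintro ⟨m, rfl⟩
      exact h ⟨m, rfl⟩
    simp only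
    rw [hd_off b _ h1, norm_zero]
    simp

theorem dil_ne (k : ℕ) (b : ℕ) (hb : 1 ≤ b) (a : ℕ → ℂ) (ha : a 1 = 1) :
    dil b (fser k a) ≠ 0 := by
  intro h
  have h1 := hd_on b hb (fser k a) 1
  rw [h, map_zero, fser, PowerSeries.coeff_mk, if_neg one_ne_zero, ha, Nat.cast_one,
    Complex.one_cpow, mul_one] at h1
  exact zero_ne_one h1

end Pool.Agent.H13.IC
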