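import Mathlib
import Pool.Agent.H13.IC.Ms

/-!
# IC-LA: the Rankin-Selberg series dominates the integral over the unit square

PROOF. Tonelli (`MeasureTheory.lintegral_prod`, measurability: `ev U` is continuous on `Im z > 0` by
`ev_diff`; restrict to the open square) and `parseval`: for fixed `y` in `(0,1]` the inner integral
is `(∑ ‖c_n‖ ^ 2 exp(-(4 pi n y))) y ^ (k+σ-2)`. Integrate over `y` termwise
(`MeasureTheory.lintegral_tsum`): for `n ≥ 1`, `∫_0^1 exp(-(4 pi n y)) y ^ (k+σ-2) dy ≤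
∫_0^oo = Γ(k+σ-1) (4 pi n) ^ (-(k+σ-1)) ≤ C n ^ (-(σ+k-1))`, `C` = a bound of `Γ` on `[k, k+1]`
(`Real.integral_rpow_mul_exp_neg_mul_Ioi`; `4 pi ≥ 1`); `c_0 = 0`. (`k ≥ 1`.)
-/

set_option autoImplicit false

namespace Pool.Agent.H13.IC

open Complex PowerSeries MeasureTheory

private theorem la_term (k : ℕ) (hk : 1 ≤ k) (σ : ℝ) (h1 : 1 < σ) (h2 : σ ≤ 2) (n : ℕ) (hn : 1 ≤ n)
    (b : ℝ) (hb : 0 ≤ b) :
    ∫⁻ y in Set.Ioc (0 : ℝ) 1, ENNReal.ofReal
      (b * Real.exp (-(4 * Real.pi * n * y)) * y ^ ((k : ℝ) + σ - 2)) ≤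
    ENNReal.ofReal ((Real.Gamma k + Real.Gamma (k + 1)) * (b / (n : ℝ) ^ (σ + k - 1))) := by
  have hk0 : (0 : ℝ) < k := by exact_mod_cast hk
  have hn0 : (0 : ℝ) < n := by exact_mod_cast hn
  have hpi := Real.pi_pos
  set a : ℝ := (k : ℝ) + σ - 1 with ha
  have ha0 : 0 < a := by rw [ha]; linarith
  set r : ℝ := 4 * Real.pi * n with hr
  have hr0 : 0 < r := by positivity
  have hint := Real.integral_rpow_mul_exp_neg_mul_Ioi ha0 hr0
  have hGa : 0 < Real.Gamma a := Real.Gamma_pos_of_pos ha0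
  have hpos : 0 < (1 / r) ^ a * Real.Gamma a :=
    mul_pos (Real.rpow_pos_of_pos (by positivity) _) hGa
  have hI : Integrable (fun t : ℝ => t ^ (a - 1) * Real.exp (-(r * t)))
      (volume.restrict (Set.Ioi 0)) :=
    Integrable.of_integral_ne_zero (by rw [hint]; exact hpos.ne')
  have hΓ : Real.Gamma a ≤ Real.Gamma k + Real.Gamma (k + 1) := by
    have hc := Real.convexOn_Gamma.2 (Set.mem_Ioi.2 hk0)
      (Set.mem_Ioi.2 (by linarith : (0 : ℝ) < (k : ℝ) + 1))
      (show (0 : ℝ) ≤ 1 - (σ - 1) by linarith) (show (0 : ℝ) ≤ σ - 1 by linarith) (by ring)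
    simp only [smul_eq_mul] at hc
    have e : (1 - (σ - 1)) * (k : ℝ) + (σ - 1) * ((k : ℝ) + 1) = a := by rw [ha]; ring
    rw [e] at hc
    refine hc.trans ?_
    have g1 : 0 ≤ Real.Gamma k := (Real.Gamma_pos_of_pos hk0).le
    have g2 : 0 ≤ Real.Gamma (k + 1) := (Real.Gamma_pos_of_pos (by linarith)).le
    nlinarith
  have hle : (1 / r) ^ a ≤ ((n : ℝ) ^ (σ + k - 1))⁻¹ := by
    have e : σ + k - 1 = a := by rw [ha]; ring
    rw [e, ← Real.inv_rpow hn0.le, one_div]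
    apply Real.rpow_le_rpow (by positivity) _ ha0.le
    apply inv_anti₀ hn0
    rw [hr]
    have : (1 : ℝ) ≤ 4 * Real.pi := by have := Real.pi_gt_three; linarith
    nlinarith
  calc _ ≤ ∫⁻ y in Set.Ioi (0 : ℝ), ENNReal.ofReal
            (b * Real.exp (-(4 * Real.pi * n * y)) * y ^ ((k : ℝ) + σ - 2)) :=
        lintegral_mono_set Set.Ioc_subset_Ioi_self
    _ = ∫⁻ y in Set.Ioi (0 : ℝ), ENNReal.ofReal
            (b * (y ^ (a - 1) * Real.exp (-(r * y)))) := by
        refine lintegral_congr fun y => ?_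
        congr 1
        have e : (k : ℝ) + σ - 2 = a - 1 := by rw [ha]; ring
        rw [e]
        ring
    _ = ENNReal.ofReal (∫ y in Set.Ioi (0 : ℝ), b * (y ^ (a - 1) * Real.exp (-(r * y)))) := by
        rw [ofReal_integral_eq_lintegral_ofReal (hI.const_mul b)]
        rw [Filter.EventuallyLE, ae_restrict_iff' measurableSet_Ioi]
        refine Filter.Eventually.of_forall fun y hy => ?_
        have hy0 : 0 < y := hy
        positivity
    _ = ENNReal.ofReal (b * ((1 / r) ^ a * Real.Gamma a)) := by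
        rw [integral_const_mul, hint]
    _ ≤ _ := by
        apply ENNReal.ofReal_le_ofReal
        have h3 : (1 / r) ^ a * Real.Gamma a ≤
            ((n : ℝ) ^ (σ + k - 1))⁻¹ * (Real.Gamma k + Real.Gamma (k + 1)) :=
          mul_le_mul hle hΓ hGa.le (by positivity)
        calc b * ((1 / r) ^ a * Real.Gamma a) ≤
            b * (((n : ℝ) ^ (σ + k - 1))⁻¹ * (Real.Gamma k + Real.Gamma (k + 1))) :=
              mul_le_mul_of_nonneg_left h3 hb
          _ = (Real.Gamma k + Real.Gamma (k + 1)) * (b / (n : ℝ) ^ (σ + k - 1)) := by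
              rw [div_eq_mul_inv]
              ring

private theorem la_inner {U : PowerSeries ℂ} (hU : Cvg U) (y : ℝ) (hy : 0 < y) (e : ℝ) :
    ∫⁻ x in Set.Ioo (0 : ℝ) 1, ENNReal.ofReal (‖ev U (x + y * I)‖ ^ 2 * y ^ e) =
      ∑' n : ℕ, ENNReal.ofReal (‖coeff n U‖ ^ 2 * Real.exp (-(4 * Real.pi * n * y)) * y ^ e) := by
  have hp := parseval hU y hy
  have hye : 0 ≤ y ^ e := Real.rpow_nonneg hy.le _
  have hcont : Continuous (fun x : ℝ => ‖ev U (x + y * I)‖ ^ 2 * y ^ e) := by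
    have h1 : ContinuousOn (ev U) {z | 0 < z.im} := (ev_diff hU).continuousOn
    have h2 : Continuous (fun x : ℝ => ev U (x + y * I)) := by
      apply h1.comp_continuous (by fun_prop)
      intro x
      simpa using hy
    fun_prop
  have hI : IntegrableOn (fun x : ℝ => ‖ev U (x + y * I)‖ ^ 2 * y ^ e) (Set.Ioc 0 1) volume :=
    (hcont.integrableOn_Icc (a := 0) (b := 1)).mono_set Set.Ioc_subset_Icc_self
  rw [restrict_Ioo_eq_restrict_Ioc,
    ← ofReal_integral_eq_lintegral_ofReal hI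
      (Filter.Eventually.of_forall fun x => by positivity),
    ← intervalIntegral.integral_of_le (by norm_num : (0 : ℝ) ≤ 1),
    intervalIntegral.integral_mul_const, ← hp.tsum_eq, ← tsum_mul_right,
    ENNReal.ofReal_tsum_of_nonneg (fun n => by positivity) (hp.summable.mul_right _)]

theorem square_le (k : ℕ) (hk : 1 ≤ k) {U : PowerSeries ℂ} (hU : GD k U) :
    ∃ C : ℝ, 0 < C ∧ ∀ σ : ℝ, 1 < σ → σ ≤ 2 →
      ∫⁻ p in (Set.Ioo (0 : ℝ) 1 ×ˢ Set.Ioc (0 : ℝ) 1 : Set (ℝ × ℝ)),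
        ENNReal.ofReal (‖ev U (p.1 + p.2 * I)‖ ^ 2 * p.2 ^ ((k : ℝ) + σ - 2)) ≤
      ENNReal.ofReal (C * DU k U σ) := by
  have hk0 : (0 : ℝ) < k := by exact_mod_cast hk
  have g1 : 0 < Real.Gamma k := Real.Gamma_pos_of_pos hk0
  have g2 : 0 < Real.Gamma (k + 1) := Real.Gamma_pos_of_pos (by linarith)
  refine ⟨Real.Gamma k + Real.Gamma (k + 1), by linarith, fun σ h1 h2 => ?_⟩
  have hs : (volume : Measure (ℝ × ℝ)).restrict (Set.Ioo (0 : ℝ) 1 ×ˢ Set.Ioc (0 : ℝ) 1) =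
      (volume.restrict (Set.Ioo (0 : ℝ) 1)).prod (volume.restrict (Set.Ioc (0 : ℝ) 1)) :=
    (Measure.prod_restrict _ _).symm
  rw [hs, ← lintegral_prod_swap]
  refine (lintegral_prod_le _).trans ?_
  have hin : ∀ y ∈ Set.Ioc (0 : ℝ) 1, ∫⁻ x in Set.Ioo (0 : ℝ) 1,
      ENNReal.ofReal (‖ev U ((x : ℝ) + y * I)‖ ^ 2 * y ^ ((k : ℝ) + σ - 2)) =
      ∑' n : ℕ, ENNReal.ofReal (‖coeff n U‖ ^ 2 * Real.exp (-(4 * Real.pi * n * y)) *
        y ^ ((k : ℝ) + σ - 2)) := fun y hy => la_inner hU.cvg y hy.1 _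
  simp only [Prod.swap_prod_mk]
  rw [setLIntegral_congr_fun measurableSet_Ioc hin, lintegral_tsum (fun n => by
    apply Measurable.aemeasurable
    apply Measurable.ennreal_ofReal
    apply Measurable.mul
    · fun_prop
    · exact measurable_id.pow_const _)]
  unfold DU
  rw [← tsum_mul_left, ENNReal.ofReal_tsum_of_nonneg (fun n => by positivity)
    ((summableD hU σ h1).mul_left _)]
  refine ENNReal.tsum_le_tsum fun n => ?_
  rcases Nat.eq_zero_or_pos n with hn | hn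
  · subst hn
    rw [hU.1, norm_zero]
    simp
  · exact la_term k hk σ h1 h2 n hn (‖coeff n U‖ ^ 2) (by positivity)

end Pool.Agent.H13.IC
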