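import Mathlib

/-!
# IC-LB: Farey boxes are disjoint (Mathlib only)

`box a c` = points `(x,y)` with `|x - a/c| ≤ 1/(4c²)`, `1/(2c²) ≤ y ≤ 1/c²`.
PROOF. Inside: `1 ≤ a ≤ c-1`, `c ≥ 2`: `a/c - 1/(4c²) ≥ 1/c - 1/(4c²) > 0`, `(c-1)/c + 1/(4c²) < 1`,
`y ≤ 1/4`. Disjoint: let `(x,y)` be in both, `c1 ≤ c2`. `1/(2 c1²) ≤ y ≤ 1/c2²`, so `c2² ≤ 2 c1²`. If
`(a1,c1) ≠ (a2,c2)` the two reduced fractions are different, `|a1/c1 - a2/c2| ≥ 1/(c1 c2)`, and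
`1/(4c1²) + 1/(4c2²) ≤ 1/(2c1²) < 1/(c1 c2)` since `c2 < 2 c1`. Contradiction.
-/

set_option autoImplicit false

namespace Pool.Agent.H13.IC

/-- the box at `a/c` -/
def box (a c : ℕ) : Set (ℝ × ℝ) :=
  {p | |p.1 - (a : ℝ) / c| ≤ 1 / (4 * (c : ℝ) ^ 2) ∧ 1 / (2 * (c : ℝ) ^ 2) ≤ p.2 ∧
    p.2 ≤ 1 / (c : ℝ) ^ 2}

theorem box_meas (a c : ℕ) : MeasurableSet (box a c) := by
  have h1 : MeasurableSet {p : ℝ × ℝ | |p.1 - (a : ℝ) / c| ≤ 1 / (4 * (c : ℝ) ^ 2)} :=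
    (isClosed_le (by fun_prop) (by fun_prop)).measurableSet
  have h2 : MeasurableSet {p : ℝ × ℝ | 1 / (2 * (c : ℝ) ^ 2) ≤ p.2} :=
    (isClosed_le (by fun_prop) (by fun_prop)).measurableSet
  have h3 : MeasurableSet {p : ℝ × ℝ | p.2 ≤ 1 / (c : ℝ) ^ 2} :=
    (isClosed_le (by fun_prop) (by fun_prop)).measurableSet
  exact h1.inter (h2.inter h3)

theorem box_sub (a c : ℕ) (hc : 2 ≤ c) (ha : 1 ≤ a) (hac : a < c) :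
    box a c ⊆ Set.Ioo (0 : ℝ) 1 ×ˢ Set.Ioc (0 : ℝ) 1 := by
  rintro ⟨x, y⟩ ⟨h1, h2, h3⟩
  dsimp only at h1 h2 h3
  have hC : (2 : ℝ) ≤ c := by exact_mod_cast hc
  have hC0 : (0 : ℝ) < c := by linarith
  have hA : (1 : ℝ) ≤ a := by exact_mod_cast ha
  have hAC : (a : ℝ) + 1 ≤ c := by exact_mod_cast hac
  have e1 : 1 / (4 * (c : ℝ) ^ 2) < 1 / c := by
    rw [div_lt_div_iff₀ (by positivity) hC0]
    nlinarith
  have e2 : 1 / (c : ℝ) ≤ a / c := div_le_div_of_nonneg_right hA hC0.le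
  have e3 : (a : ℝ) / c ≤ 1 - 1 / c := by
    rw [div_le_iff₀ hC0, sub_mul, one_mul, div_mul_cancel₀ _ hC0.ne']
    linarith
  have e4 : 1 / (c : ℝ) ^ 2 ≤ 1 := by
    rw [div_le_one (by positivity)]
    nlinarith
  have e5 : 0 < 1 / (2 * (c : ℝ) ^ 2) := by positivity
  have h4 := abs_le.1 h1
  refine ⟨⟨?_, ?_⟩, ?_, ?_⟩
  · change 0 < x
    linarith [h4.1]
  · change x < 1
    linarith [h4.2]
  · change 0 < y
    linarith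
  · change y ≤ 1
    linarith

private theorem disj_aux (a₁ c₁ a₂ c₂ : ℕ) (hc₁ : 2 ≤ c₁) (hco₁ : Nat.Coprime a₁ c₁)
    (hc₂ : 2 ≤ c₂) (hco₂ : Nat.Coprime a₂ c₂) (hne : (a₁, c₁) ≠ (a₂, c₂)) (hle : c₁ ≤ c₂)
    (p : ℝ × ℝ) (h1 : p ∈ box a₁ c₁) (h2 : p ∈ box a₂ c₂) : False := by
  obtain ⟨u1, u2, -⟩ := h1
  obtain ⟨v1, -, v3⟩ := h2
  have hX : (2 : ℝ) ≤ c₁ := by exact_mod_cast hc₁
  have hY : (2 : ℝ) ≤ c₂ := by exact_mod_cast hc₂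
  have hXY : (c₁ : ℝ) ≤ c₂ := by exact_mod_cast hle
  set X : ℝ := (c₁ : ℝ) with hXd
  set Y : ℝ := (c₂ : ℝ) with hYd
  have hX0 : 0 < X := by linarith
  have hY0 : 0 < Y := by linarith
  have h3 : Y ^ 2 ≤ 2 * X ^ 2 := by
    have h := u2.trans v3
    rw [div_le_div_iff₀ (by positivity) (by positivity)] at h
    linarith
  have hcross : (a₁ : ℤ) * c₂ - a₂ * c₁ ≠ 0 := by
    intro h0
    have h4 : a₁ * c₂ = a₂ * c₁ := by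
      have h5 := sub_eq_zero.1 h0
      exact_mod_cast h5
    have h6 : c₁ ∣ c₂ := by
      have : c₁ ∣ a₁ * c₂ := h4 ▸ Dvd.intro_left _ rfl
      exact (Nat.Coprime.dvd_of_dvd_mul_left hco₁.symm this)
    have h7 : c₂ ∣ c₁ := by
      have : c₂ ∣ a₂ * c₁ := h4 ▸ Dvd.intro_left _ rfl
      exact (Nat.Coprime.dvd_of_dvd_mul_left hco₂.symm this)
    have h8 : c₁ = c₂ := Nat.dvd_antisymm h6 h7
    rw [h8] at h4
    have h9 : a₁ = a₂ := Nat.eq_of_mul_eq_mul_right (by omega) h4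
    exact hne (by rw [h8, h9])
  have h10 : (1 : ℝ) ≤ |(a₁ : ℝ) * Y - a₂ * X| := by
    have h11 : (1 : ℤ) ≤ |(a₁ : ℤ) * c₂ - a₂ * c₁| := Int.one_le_abs hcross
    have h12 : ((1 : ℤ) : ℝ) ≤ ((|(a₁ : ℤ) * c₂ - a₂ * c₁| : ℤ) : ℝ) := by exact_mod_cast h11
    push_cast at h12
    exact h12
  have h13 : 1 / (X * Y) ≤ |(a₁ : ℝ) / X - a₂ / Y| := by
    have h14 : (a₁ : ℝ) / X - a₂ / Y = (a₁ * Y - a₂ * X) / (X * Y) := by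
      field_simp
    rw [h14, abs_div, abs_of_pos (mul_pos hX0 hY0)]
    exact div_le_div_of_nonneg_right h10 (mul_pos hX0 hY0).le
  have h15 : |(a₁ : ℝ) / X - a₂ / Y| ≤ 1 / (4 * X ^ 2) + 1 / (4 * Y ^ 2) := by
    have h16 : (a₁ : ℝ) / X - a₂ / Y = -(p.1 - a₁ / X) + (p.1 - a₂ / Y) := by ring
    rw [h16]
    refine (abs_add_le _ _).trans ?_
    rw [abs_neg]
    exact add_le_add u1 v1
  have h17 : 1 / (4 * X ^ 2) + 1 / (4 * Y ^ 2) < 1 / (X * Y) := by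
    rw [div_add_div _ _ (by positivity) (by positivity), div_lt_div_iff₀ (by positivity)
      (by positivity)]
    have h18 : X ^ 2 + Y ^ 2 < 4 * (X * Y) := by nlinarith [mul_pos hX0 hY0]
    have h19 : 0 < 4 * (X * Y) := by positivity
    nlinarith [mul_lt_mul_of_pos_left h18 h19]
  linarith

theorem box_disj (a₁ c₁ a₂ c₂ : ℕ) (hc₁ : 2 ≤ c₁) (ha₁ : 1 ≤ a₁) (hac₁ : a₁ < c₁)
    (hco₁ : Nat.Coprime a₁ c₁) (hc₂ : 2 ≤ c₂) (ha₂ : 1 ≤ a₂) (hac₂ : a₂ < c₂)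
    (hco₂ : Nat.Coprime a₂ c₂) (hne : (a₁, c₁) ≠ (a₂, c₂)) :
    Disjoint (box a₁ c₁) (box a₂ c₂) := by
  rw [Set.disjoint_left]
  intro p h1 h2
  rcases le_total c₁ c₂ with h | h
  · exact disj_aux a₁ c₁ a₂ c₂ hc₁ hco₁ hc₂ hco₂ hne h p h1 h2
  · exact disj_aux a₂ c₂ a₁ c₁ hc₂ hco₂ hc₁ hco₁ hne.symm h p h2 h1

end Pool.Agent.H13.IC
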