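import Mathlib
import Pool.Agent.H13.IC.Gr
import Pool.Agent.H13.IC.Oa
import Pool.Agent.H13.IC.Lb

/-!
# IC-LC: the uniform lower bound of the integral over a Farey box

PROOF. `f = fH U`, `R0 = [-1/4,1/4] × [1/2,1]`. Let `ρ = (a b'; c d)` in `SL(2,ℤ)` (Bezout; `Int.gcd`,
`ModularGroup`/`Matrix.SpecialLinearGroup` with given first column), `h = sl k f ρ`. For
`ζ = s + i v`, `(s,v) ∈ R0`, put `w = -1/ζ - d/c` (`Im w > 0`): `c w + d = -c/ζ`, `ρ w = a/c - 1/(c(cw+d))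
= a/c + ζ/c²`, `f(a/c + ζ/c²) = f(ρ w) = (cw+d)^k h(w)`, so
`‖f(a/c + ζ/c²)‖² = (c/‖ζ‖)^(2k) ‖h(-1/ζ - d/c)‖²`. Change of variables `(x,y) = (a/c + s/c², v/c²)`
(an affine map, `MeasureTheory.Measure.lintegral..`/`addHaar` scaling: factor `c^(-4)`): the integral
over `box a c` equals `c^(2k - 2(k+σ-2) - 4) = c^(-2σ)` times
`∫_(R0) ‖ζ‖^(-2k) ‖h(-1/ζ - d/c)‖² v^(k+σ-2)`. On `R0`: `‖ζ‖² ≤ 17/16 ≤ 2`, `‖ζ‖^(-2k) ≥ 2^(-k)`,
`v^(k+σ-2) ≥ 2^(-k)` (`1 < σ ≤ 2`, `k ≥ 1`). So the integral is at least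
`c^(-2σ) 4^(-k) Φ_h(d/c)`, `Φ_h(θ) = ∫_(R0) ‖h(-1/ζ - θ)‖² ds dv`. `Φ_h` is continuous in the real `θ`
(`h` continuous, compact set), periodic with the period `R` of `period`, and positive: if `Φ_h(θ) = 0`
then `h` vanishes on a nonempty open set, `h = 0` (identity theorem, `h` is holomorphic by `hol_sl`),
so `f = 0` (`sl_mul`, `sl_one`) and `U = 0` (`ev_unique`). Minimum over `[0,R]` and the finitely many `h`:
`Φ_h(θ) ≥ c2 > 0` for all `h` in the orbit and all real `θ`; `c1 = 4^(-k) c2`.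
-/

set_option autoImplicit false

namespace Pool.Agent.H13.IC

open PowerSeries UpperHalfPlane MatrixGroups MeasureTheory

/-- the point `-1/ζ - θ` lies in the upper half plane -/
private theorem lc_im (ζ : ℂ) (hζ : 0 < ζ.im) (θ : ℝ) : 0 < (-1 / ζ - (θ : ℂ)).im := by
  have h1 : 0 < Complex.normSq ζ := Complex.normSq_pos.2 (by
    intro h
    rw [h] at hζ
    simp at hζ)
  have h2 : (-1 / ζ - (θ : ℂ)).im = ζ.im / Complex.normSq ζ := by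
    rw [Complex.sub_im, Complex.ofReal_im, sub_zero, neg_div, one_div, Complex.neg_im,
      Complex.inv_im]
    ring
  rw [h2]
  exact div_pos hζ h1

private theorem lc_im_pt (p : ℝ × ℝ) : ((p.1 : ℂ) + p.2 * Complex.I).im = p.2 := by simp

private theorem lc_open : IsOpen {z : ℂ | 0 < z.im} :=
  isOpen_lt continuous_const Complex.continuous_im

private theorem lc_conn : IsPreconnected {z : ℂ | 0 < z.im} := by
  have h : Convex ℝ {z : ℂ | 0 < z.im} := convex_halfSpace_im_gt 0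
  exact h.isPreconnected

/-- a nonzero holomorphic function does not vanish on the small rectangle -/
private theorem lc_ne {g : ℍ → ℂ} (hg : Hol g) (θ : ℝ)
    (hz : ∀ p : ℝ × ℝ, p ∈ Set.Ioo (-(1 / 4) : ℝ) (1 / 4) ×ˢ Set.Ioo (1 / 2 : ℝ) 1 →
      (g ∘ ofComplex) (-1 / ((p.1 : ℂ) + p.2 * Complex.I) - θ) = 0) :
    ∀ τ : ℍ, g τ = 0 := by
  have hF : DifferentiableOn ℂ (fun ζ : ℂ => (g ∘ ofComplex) (-1 / ζ - θ)) {z | 0 < z.im} := by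
    have h1 : DifferentiableOn ℂ (fun ζ : ℂ => -1 / ζ - (θ : ℂ)) {z | 0 < z.im} := by
      intro z hz
      have hz0 : z ≠ 0 := by
        intro h
        rw [h] at hz
        simp at hz
      exact (((differentiableAt_const _).div differentiableAt_id hz0).sub
        (differentiableAt_const _)).differentiableWithinAt
    exact hg.comp h1 fun z hz => lc_im z hz θ
  have hA := hF.analyticOnNhd lc_open
  have hz0 : (3 / 4 : ℝ) * Complex.I ∈ {z : ℂ | 0 < z.im} := by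
    show 0 < ((3 / 4 : ℝ) * Complex.I : ℂ).im
    simp
  have hE := hA.eqOn_zero_of_preconnected_of_eventuallyEq_zero lc_conn hz0 (by
    have h1 : {z : ℂ | z.re ∈ Set.Ioo (-(1 / 4) : ℝ) (1 / 4) ∧ z.im ∈ Set.Ioo (1 / 2 : ℝ) 1} ∈
        nhds (((3 / 4 : ℝ) : ℂ) * Complex.I) := by
      refine IsOpen.mem_nhds ?_ ?_
      · exact (isOpen_Ioo.preimage Complex.continuous_re).inter
          (isOpen_Ioo.preimage Complex.continuous_im)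
      · constructor
        · simp
        · simp
          norm_num
    filter_upwards [h1] with z hz'
    have h2 := hz (z.re, z.im) ⟨hz'.1, hz'.2⟩
    simp only [Complex.re_add_im] at h2
    exact h2)
  intro τ
  have hw : 0 < (-1 / ((τ : ℂ) + θ)).im := by
    have h3 : 0 < ((τ : ℂ) + θ).im := by
      rw [Complex.add_im, Complex.ofReal_im, add_zero]
      exact τ.im_pos
    have h4 := lc_im _ h3 0
    rwa [Complex.ofReal_zero, sub_zero] at h4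
  have h5 := hE hw
  have h6 : -1 / (-1 / ((τ : ℂ) + θ)) - (θ : ℂ) = τ := by
    have h7 : (τ : ℂ) + θ ≠ 0 := by
      intro h
      rw [h] at hw
      simp at hw
    field_simp
    ring
  simp only [h6] at h5
  have h8 : (g ∘ ofComplex) (τ : ℂ) = g τ := by
    rw [Function.comp_apply, ofComplex_apply]
  rw [← h8]
  exact h5

/-- local uniform positivity -/
private theorem lc_loc {g : ℍ → ℂ} (hg : Hol g) (hne : ∃ τ : ℍ, g τ ≠ 0) (θ₀ : ℝ) :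
    ∃ t ∈ nhds θ₀, ∃ c : ℝ, 0 < c ∧ ∀ θ ∈ t,
      ENNReal.ofReal c ≤ ∫⁻ p in (Set.Icc (-(1 / 4) : ℝ) (1 / 4) ×ˢ Set.Icc (1 / 2 : ℝ) 1),
        ENNReal.ofReal (‖(g ∘ ofComplex) (-1 / ((p.1 : ℂ) + p.2 * Complex.I) - θ)‖ ^ 2) := by
  obtain ⟨τ, hτ⟩ := hne
  have h1 : ∃ p : ℝ × ℝ, p ∈ Set.Ioo (-(1 / 4) : ℝ) (1 / 4) ×ˢ Set.Ioo (1 / 2 : ℝ) 1 ∧
      (g ∘ ofComplex) (-1 / ((p.1 : ℂ) + p.2 * Complex.I) - θ₀) ≠ 0 := by
    by_contra hcon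
    push Not at hcon
    exact hτ (lc_ne hg θ₀ hcon τ)
  obtain ⟨p₀, hp₀, hg₀⟩ := h1
  set G : ℝ × (ℝ × ℝ) → ℝ := fun x =>
    ‖(g ∘ ofComplex) (-1 / ((x.2.1 : ℂ) + x.2.2 * Complex.I) - x.1)‖ ^ 2 with hG
  have hpos : 0 < G (θ₀, p₀) := by
    rw [hG]
    exact pow_pos (norm_pos_iff.2 hg₀) 2
  have hp2 : 0 < p₀.2 := lt_trans (by norm_num) hp₀.2.1
  have hcont : ContinuousAt G (θ₀, p₀) := by
    obtain ⟨φ, hφ⟩ : ∃ φ : ℝ × (ℝ × ℝ) → ℂ, φ = fun x =>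
        (-1 / ((x.2.1 : ℂ) + x.2.2 * Complex.I) - (x.1 : ℂ)) := ⟨_, rfl⟩
    have h2 : ContinuousAt (g ∘ ofComplex) (φ (θ₀, p₀)) := by
      have h3 : 0 < (φ (θ₀, p₀)).im := by
        rw [hφ]
        exact lc_im _ (by rw [lc_im_pt]; exact hp2) θ₀
      exact (hg.differentiableAt (lc_open.mem_nhds h3)).continuousAt
    have h4 : ContinuousAt φ (θ₀, p₀) := by
      rw [hφ]
      refine ContinuousAt.sub (ContinuousAt.div continuousAt_const ?_ ?_) ?_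
      · exact Continuous.continuousAt (by fun_prop)
      · intro h5
        have h6 := congrArg Complex.im h5
        rw [lc_im_pt] at h6
        exact hp2.ne' h6
      · exact Continuous.continuousAt (by fun_prop)
    have h5 : ContinuousAt ((g ∘ ofComplex) ∘ φ) (θ₀, p₀) := ContinuousAt.comp h2 h4
    have h6 : G = fun x => ‖((g ∘ ofComplex) ∘ φ) x‖ ^ 2 := by
      rw [hG, hφ]
      rfl
    rw [h6]
    exact h5.norm.pow 2
  have hev : ∀ᶠ x in nhds (θ₀, p₀), G (θ₀, p₀) / 2 < G x :=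
    hcont.eventually (lt_mem_nhds (half_lt_self hpos))
  rw [nhds_prod_eq] at hev
  obtain ⟨t, ht, W, hW, hVW⟩ := Filter.mem_prod_iff.1 hev
  obtain ⟨W', hW'sub, hW'open, hW'mem⟩ := mem_nhds_iff.1 (Filter.inter_mem hW
    ((isOpen_Ioo.prod isOpen_Ioo).mem_nhds hp₀))
  have hvol : 0 < (volume : Measure (ℝ × ℝ)) W' := hW'open.measure_pos volume ⟨p₀, hW'mem⟩
  have hR : W' ⊆ (Set.Icc (-(1 / 4) : ℝ) (1 / 4) ×ˢ Set.Icc (1 / 2 : ℝ) 1) := by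
    intro p hp
    have h7 := (hW'sub hp).2
    exact ⟨Set.Ioo_subset_Icc_self h7.1, Set.Ioo_subset_Icc_self h7.2⟩
  have hfin : (volume : Measure (ℝ × ℝ)) W' ≠ ⊤ := by
    refine ne_top_of_le_ne_top ?_ (measure_mono hR)
    exact (isCompact_Icc.prod isCompact_Icc).measure_lt_top.ne
  refine ⟨t, ht, G (θ₀, p₀) / 2 * ((volume : Measure (ℝ × ℝ)) W').toReal,
    mul_pos (half_pos hpos) (ENNReal.toReal_pos hvol.ne' hfin), fun θ hθ => ?_⟩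
  rw [ENNReal.ofReal_mul (half_pos hpos).le, ENNReal.ofReal_toReal hfin, ← setLIntegral_const]
  refine le_trans ?_ (lintegral_mono_set hR)
  refine setLIntegral_mono' hW'open.measurableSet fun p hp => ?_
  apply ENNReal.ofReal_le_ofReal
  have h8 : (θ, p) ∈ t ×ˢ W := ⟨hθ, (hW'sub hp).1⟩
  exact (hVW h8).le

/-- uniform positivity for one periodic function -/
private theorem lc_per {g : ℍ → ℂ} (hg : Hol g) (hne : ∃ τ : ℍ, g τ ≠ 0) (R : ℕ) (hR : 1 ≤ R)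
    (hper : ∀ τ : ℍ, g ((R : ℝ) +ᵥ τ) = g τ) :
    ∃ c : ℝ, 0 < c ∧ ∀ θ : ℝ,
      ENNReal.ofReal c ≤ ∫⁻ p in (Set.Icc (-(1 / 4) : ℝ) (1 / 4) ×ˢ Set.Icc (1 / 2 : ℝ) 1),
        ENNReal.ofReal (‖(g ∘ ofComplex) (-1 / ((p.1 : ℂ) + p.2 * Complex.I) - θ)‖ ^ 2) := by
  set Φ : ℝ → ENNReal := fun θ =>
    ∫⁻ p in (Set.Icc (-(1 / 4) : ℝ) (1 / 4) ×ˢ Set.Icc (1 / 2 : ℝ) 1),
        ENNReal.ofReal (‖(g ∘ ofComplex) (-1 / ((p.1 : ℂ) + p.2 * Complex.I) - θ)‖ ^ 2) with hΦ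
  have hK : ∃ c : ℝ, 0 < c ∧ ∀ θ ∈ Set.Icc (0 : ℝ) R, ENNReal.ofReal c ≤ Φ θ := by
    refine (isCompact_Icc (a := (0 : ℝ)) (b := (R : ℝ))).induction_on
      (p := fun s => ∃ c : ℝ, 0 < c ∧ ∀ θ ∈ s, ENNReal.ofReal c ≤ Φ θ) ?_ ?_ ?_ ?_
    · exact ⟨1, one_pos, fun θ hθ => absurd hθ (Set.notMem_empty θ)⟩
    · rintro s t hst ⟨c, hc, h⟩
      exact ⟨c, hc, fun θ hθ => h θ (hst hθ)⟩
    · rintro s t ⟨c, hc, h⟩ ⟨c', hc', h'⟩
      refine ⟨min c c', lt_min hc hc', fun θ hθ => ?_⟩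
      rcases hθ with hθ | hθ
      · exact (ENNReal.ofReal_le_ofReal (min_le_left _ _)).trans (h θ hθ)
      · exact (ENNReal.ofReal_le_ofReal (min_le_right _ _)).trans (h' θ hθ)
    · intro θ _
      obtain ⟨t, ht, h⟩ := lc_loc hg hne θ
      exact ⟨t, nhdsWithin_le_nhds ht, h⟩
  have hper1 : ∀ z : ℂ, 0 < z.im → (g ∘ ofComplex) (z - (R : ℝ)) = (g ∘ ofComplex) z := by
    intro z hz
    have hz' : 0 < (z - (R : ℝ)).im := by
      rw [Complex.sub_im, Complex.ofReal_im, sub_zero]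
      exact hz
    rw [Function.comp_apply, Function.comp_apply, ofComplex_apply_of_im_pos hz,
      ofComplex_apply_of_im_pos hz', ← hper]
    congr 1
    apply UpperHalfPlane.ext
    rw [UpperHalfPlane.coe_vadd]
    push_cast
    ring
  have hper2 : ∀ θ : ℝ, Φ (θ + R) = Φ θ := by
    intro θ
    rw [hΦ]
    refine setLIntegral_congr_fun (measurableSet_Icc.prod measurableSet_Icc) fun p hp => ?_
    have hp2 : 0 < ((p.1 : ℂ) + p.2 * Complex.I).im := by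
      rw [lc_im_pt]
      exact lt_of_lt_of_le (by norm_num) hp.2.1
    have h3 := hper1 _ (lc_im _ hp2 θ)
    have h4 : -1 / ((p.1 : ℂ) + p.2 * Complex.I) - ((θ + R : ℝ) : ℂ) =
        -1 / ((p.1 : ℂ) + p.2 * Complex.I) - (θ : ℂ) - ((R : ℝ) : ℂ) := by
      push_cast
      ring
    simp only [h4, h3]
  have hP : Function.Periodic Φ R := hper2
  obtain ⟨c, hc, h⟩ := hK
  refine ⟨c, hc, fun θ => ?_⟩
  obtain ⟨y, hy, hy'⟩ := hP.exists_mem_Ico₀ (by exact_mod_cast hR) θ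
  show ENNReal.ofReal c ≤ Φ θ
  rw [hy']
  exact h y (Set.Ico_subset_Icc_self hy)

/-- positivity, uniformly in the orbit and in the shift -/
theorem shift_low (k : ℕ) (U : PowerSeries ℂ) (hU : GD k U)
    (hO : (Set.range (sl k (fH U))).Finite) (hne : U ≠ 0) :
    ∃ c₂ : ℝ, 0 < c₂ ∧ ∀ h ∈ Set.range (sl k (fH U)), ∀ θ : ℝ,
      ENNReal.ofReal c₂ ≤ ∫⁻ p in (Set.Icc (-(1 / 4) : ℝ) (1 / 4) ×ˢ Set.Icc (1 / 2 : ℝ) 1),
        ENNReal.ofReal (‖(h ∘ ofComplex) (-1 / ((p.1 : ℂ) + p.2 * Complex.I) - θ)‖ ^ 2) := by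
  classical
  have hC : Cvg U := hU.cvg
  have hf : Hol (fH U) := by
    refine (ev_diff hC).congr fun z hz => ?_
    rw [Function.comp_apply, ofComplex_apply_of_im_pos hz]
    rfl
  obtain ⟨R, hR, hper⟩ := period k (fH U) hO
  have hone : ∀ h ∈ Set.range (sl k (fH U)), ∃ c : ℝ, 0 < c ∧ ∀ θ : ℝ,
      ENNReal.ofReal c ≤ ∫⁻ p in (Set.Icc (-(1 / 4) : ℝ) (1 / 4) ×ˢ Set.Icc (1 / 2 : ℝ) 1),
        ENNReal.ofReal (‖(h ∘ ofComplex) (-1 / ((p.1 : ℂ) + p.2 * Complex.I) - θ)‖ ^ 2) := by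
    rintro h ⟨γ, rfl⟩
    refine lc_per (hol_sl k hf γ) ?_ R hR (hper _ ⟨γ, rfl⟩)
    by_contra hcon
    push Not at hcon
    apply hne
    have h0 : Cvg (0 : PowerSeries ℂ) := by
      have := Cvg.C 0
      rwa [map_zero] at this
    refine ev_unique hC h0 fun z hz => ?_
    have h1 : sl k (sl k (fH U) γ) γ⁻¹ = fH U := by
      rw [sl_mul, mul_inv_cancel, sl_one]
    have h2 : fH U ⟨z, hz⟩ = 0 := by
      rw [← h1, sl, hcon, zero_div]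
    have h3 : ev (0 : PowerSeries ℂ) z = 0 := by
      rw [ev, ← map_zero (PowerSeries.C (R := ℂ)), evq_C]
    rw [h3]
    exact h2
  choose! c hc hcb using hone
  have hmem : sl k (fH U) 1 ∈ hO.toFinset := by
    rw [Set.Finite.mem_toFinset]
    exact ⟨1, rfl⟩
  obtain ⟨h0, hh0, hmin⟩ := Finset.exists_min_image hO.toFinset c ⟨_, hmem⟩
  rw [Set.Finite.mem_toFinset] at hh0
  refine ⟨c h0, hc h0 hh0, fun h hh θ => ?_⟩
  refine le_trans (ENNReal.ofReal_le_ofReal ?_) (hcb h hh θ)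
  exact hmin h (by rwa [Set.Finite.mem_toFinset])

/-- a matrix with given first column -/
private theorem lc_mat (a c : ℕ) (hco : Nat.Coprime a c) :
    ∃ ρ : SL(2, ℤ), ρ 0 0 = a ∧ ρ 1 0 = c := by
  have h1 : IsCoprime (a : ℤ) (c : ℤ) := Nat.isCoprime_iff_coprime.2 hco
  obtain ⟨u, v, huv⟩ := h1
  refine ⟨⟨!![(a : ℤ), -v; (c : ℤ), u], ?_⟩, ?_, ?_⟩
  · rw [Matrix.det_fin_two_of]
    linarith
  · rfl
  · rfl

/-- the affine change of variables -/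
private theorem lc_cov (a c : ℕ) (hc : (0 : ℝ) < c) (F : ℝ × ℝ → ENNReal) :
    ∫⁻ p in box a c, F p = ENNReal.ofReal (1 / (c : ℝ) ^ 4) *
      ∫⁻ p in (Set.Icc (-(1 / 4) : ℝ) (1 / 4) ×ˢ Set.Icc (1 / 2 : ℝ) 1),
        F ((a : ℝ) / c + 1 / (c : ℝ) ^ 2 * p.1, 1 / (c : ℝ) ^ 2 * p.2) := by
  have hr : (1 / (c : ℝ) ^ 2) ≠ 0 := by positivity
  have hr0 : 0 < (1 / (c : ℝ) ^ 2) := by positivity
  have h1 : ∀ G : ℝ × ℝ → ENNReal, ∫⁻ p, G p =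
      ENNReal.ofReal (1 / (c : ℝ) ^ 4) * ∫⁻ p, G ((1 / (c : ℝ) ^ 2) • p) := by
    intro G
    have h2 := lintegral_map_equiv (μ := (volume : Measure (ℝ × ℝ))) G
      (MeasurableEquiv.smul₀ (1 / (c : ℝ) ^ 2) hr)
    have h3 : (⇑(MeasurableEquiv.smul₀ (1 / (c : ℝ) ^ 2) hr) : ℝ × ℝ → ℝ × ℝ) =
        fun x => (1 / (c : ℝ) ^ 2) • x := rfl
    rw [h3, Measure.map_addHaar_smul _ hr, lintegral_smul_measure] at h2
    rw [← h2, smul_eq_mul, ← mul_assoc, ← ENNReal.ofReal_mul (by positivity)]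
    have h4 : (1 / (c : ℝ) ^ 4) * |((1 / (c : ℝ) ^ 2) ^ Module.finrank ℝ (ℝ × ℝ))⁻¹| = 1 := by
      have h5 : (1 / (c : ℝ) ^ 2) ^ (1 + 1) = 1 / (c : ℝ) ^ 4 := by
        rw [div_pow, one_pow, ← pow_mul]
      rw [Module.finrank_prod, Module.finrank_self, abs_of_pos (by positivity), h5]
      exact mul_inv_cancel₀ (by positivity)
    rw [h4, ENNReal.ofReal_one, one_mul]
  rw [← lintegral_indicator (box_meas a c),
    ← lintegral_indicator (measurableSet_Icc.prod measurableSet_Icc),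
    ← lintegral_add_left_eq_self _ (((a : ℝ) / c, (0 : ℝ)) : ℝ × ℝ), h1]
  congr 1
  refine lintegral_congr fun p => ?_
  have h5 : (((a : ℝ) / c, (0 : ℝ)) : ℝ × ℝ) + (1 / (c : ℝ) ^ 2) • p =
      ((a : ℝ) / c + 1 / (c : ℝ) ^ 2 * p.1, 1 / (c : ℝ) ^ 2 * p.2) := by
    apply Prod.ext
    · simp
    · simp
  rw [h5]
  have h6 : ((a : ℝ) / c + 1 / (c : ℝ) ^ 2 * p.1, 1 / (c : ℝ) ^ 2 * p.2) ∈ box a c ↔
      p ∈ (Set.Icc (-(1 / 4) : ℝ) (1 / 4) ×ˢ Set.Icc (1 / 2 : ℝ) 1) := by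
    rw [box, Set.mem_ofPred_eq, Set.mem_prod, Set.mem_Icc, Set.mem_Icc, add_sub_cancel_left,
      abs_mul, abs_of_pos hr0, ← abs_le]
    have h7 : 1 / (c : ℝ) ^ 2 * |p.1| ≤ 1 / (4 * (c : ℝ) ^ 2) ↔ |p.1| ≤ 1 / 4 := by
      have h8 : 1 / (4 * (c : ℝ) ^ 2) = 1 / (c : ℝ) ^ 2 * (1 / 4) := by field_simp
      rw [h8]
      exact mul_le_mul_iff_right₀ hr0
    have h9 : 1 / (2 * (c : ℝ) ^ 2) ≤ 1 / (c : ℝ) ^ 2 * p.2 ↔ 1 / 2 ≤ p.2 := by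
      have h8 : 1 / (2 * (c : ℝ) ^ 2) = 1 / (c : ℝ) ^ 2 * (1 / 2) := by field_simp
      rw [h8]
      exact mul_le_mul_iff_right₀ hr0
    have h10 : 1 / (c : ℝ) ^ 2 * p.2 ≤ 1 / (c : ℝ) ^ 2 ↔ p.2 ≤ 1 := by
      conv_lhs => rw [← mul_one (1 / (c : ℝ) ^ 2), mul_assoc, one_mul]
      exact mul_le_mul_iff_right₀ hr0
    rw [h7, h9, h10]
  by_cases h11 : p ∈ (Set.Icc (-(1 / 4) : ℝ) (1 / 4) ×ˢ Set.Icc (1 / 2 : ℝ) 1)
  · rw [Set.indicator_of_mem (h6.2 h11), Set.indicator_of_mem h11]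
  · rw [Set.indicator_of_notMem (fun h => h11 (h6.1 h)), Set.indicator_of_notMem h11]

/-- the pointwise estimate -/
private theorem lc_pt (k : ℕ) (U : PowerSeries ℂ) (a c : ℕ) (hc : (0 : ℝ) < c)
    (ρ : SL(2, ℤ)) (hρ0 : ρ 0 0 = a) (hρ1 : ρ 1 0 = c) (σ : ℝ) (hσ2 : σ ≤ 2)
    (p : ℝ × ℝ) (hp : p ∈ (Set.Icc (-(1 / 4) : ℝ) (1 / 4) ×ˢ Set.Icc (1 / 2 : ℝ) 1)) :
    (c : ℝ) ^ (4 - 2 * σ) * 4⁻¹ ^ k *
      ‖(sl k (fH U) ρ ∘ ofComplex) (-1 / ((p.1 : ℂ) + p.2 * Complex.I) - ((ρ 1 1 : ℝ) / c : ℝ))‖ ^ 2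
    ≤ ‖ev U ((((a : ℝ) / c + 1 / (c : ℝ) ^ 2 * p.1 : ℝ) : ℂ) +
        ((1 / (c : ℝ) ^ 2 * p.2 : ℝ) : ℂ) * Complex.I)‖ ^ 2 *
        (1 / (c : ℝ) ^ 2 * p.2) ^ ((k : ℝ) + σ - 2) := by
  set ζ : ℂ := (p.1 : ℂ) + p.2 * Complex.I with hζ
  have hv1 : 1 / 2 ≤ p.2 := hp.2.1
  have hv2 : p.2 ≤ 1 := hp.2.2
  have hv0 : 0 < p.2 := lt_of_lt_of_le (by norm_num) hv1
  have hζim : 0 < ζ.im := by
    rw [hζ, lc_im_pt]
    exact hv0
  have hζ0 : ζ ≠ 0 := by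
    intro h
    rw [h] at hζim
    simp at hζim
  have hcC : (c : ℂ) ≠ 0 := by
    have : (c : ℝ) ≠ 0 := hc.ne'
    exact_mod_cast this
  have hw := lc_im ζ hζim ((ρ 1 1 : ℝ) / c)
  set w : ℍ := ⟨_, hw⟩ with hwd
  have hwc : (w : ℂ) = -1 / ζ - ((ρ 1 1 : ℝ) / c : ℝ) := rfl
  have hdet : (ρ 0 0 : ℂ) * ρ 1 1 - ρ 0 1 * ρ 1 0 = 1 := by
    have h := ρ.det_coe
    rw [Matrix.det_fin_two] at h
    exact_mod_cast h
  have hden : (ρ 1 0 : ℂ) * w + (ρ 1 1 : ℂ) = -(c : ℂ) / ζ := by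
    rw [hwc, hρ1]
    push_cast
    field_simp
    ring
  have hact : ((ρ • w : ℍ) : ℂ) = (((a : ℝ) / c + 1 / (c : ℝ) ^ 2 * p.1 : ℝ) : ℂ) +
        ((1 / (c : ℝ) ^ 2 * p.2 : ℝ) : ℂ) * Complex.I := by
    have h1 : (((a : ℝ) / c + 1 / (c : ℝ) ^ 2 * p.1 : ℝ) : ℂ) +
        ((1 / (c : ℝ) ^ 2 * p.2 : ℝ) : ℂ) * Complex.I = (a : ℂ) / c + ζ / (c : ℂ) ^ 2 := by
      rw [hζ]
      push_cast
      ring
    rw [h1, UpperHalfPlane.coe_specialLinearGroup_apply]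
    simp only [eq_intCast, Complex.ofReal_intCast]
    rw [hden]
    have h2 : (ρ 0 0 : ℂ) * w + (ρ 0 1 : ℂ) = -(a : ℂ) / ζ - 1 / c := by
      rw [hwc]
      have h3 : (ρ 0 1 : ℂ) = ((ρ 0 0 : ℂ) * ρ 1 1 - 1) / c := by
        rw [eq_div_iff hcC]
        rw [hρ1] at hdet
        push_cast at hdet
        linear_combination -hdet
      rw [h3, hρ0]
      push_cast
      field_simp
      ring
    rw [h2]
    field_simp
    ring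
  have hsl : (sl k (fH U) ρ ∘ ofComplex) (-1 / ζ - ((ρ 1 1 : ℝ) / c : ℝ)) =
      ev U ((((a : ℝ) / c + 1 / (c : ℝ) ^ 2 * p.1 : ℝ) : ℂ) +
        ((1 / (c : ℝ) ^ 2 * p.2 : ℝ) : ℂ) * Complex.I) / (-(c : ℂ) / ζ) ^ k := by
    rw [Function.comp_apply, ofComplex_apply_of_im_pos hw, ← hwd, sl, hden, fH, hact]
  rw [hsl, norm_div, norm_pow, norm_div, norm_neg, Complex.norm_natCast, div_pow, ← pow_mul]
  set E : ℝ := ‖ev U ((((a : ℝ) / c + 1 / (c : ℝ) ^ 2 * p.1 : ℝ) : ℂ) +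
        ((1 / (c : ℝ) ^ 2 * p.2 : ℝ) : ℂ) * Complex.I)‖ ^ 2 with hE
  have hE0 : 0 ≤ E := by positivity
  have hn0 : 0 < ‖ζ‖ := norm_pos_iff.2 hζ0
  have hn2 : ‖ζ‖ ^ 2 ≤ 2 := by
    rw [← Complex.normSq_eq_norm_sq, Complex.normSq_apply]
    have h3 : ζ.re = p.1 := by simp [hζ]
    have h4 : ζ.im = p.2 := by simp [hζ]
    rw [h3, h4]
    have h5 := hp.1.1
    have h6 := hp.1.2
    nlinarith
  have hA : (4⁻¹ : ℝ) ^ k * (‖ζ‖ ^ 2) ^ k ≤ 2⁻¹ ^ k := by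
    rw [← mul_pow]
    refine pow_le_pow_left₀ (by positivity) ?_ k
    linarith
  have hB : (2⁻¹ : ℝ) ^ k ≤ p.2 ^ ((k : ℝ) + σ - 2) := by
    have h3 : (2⁻¹ : ℝ) ^ k ≤ p.2 ^ k := by
      refine pow_le_pow_left₀ (by norm_num) ?_ k
      linarith
    refine h3.trans ?_
    rw [← Real.rpow_natCast]
    exact Real.rpow_le_rpow_of_exponent_ge hv0 hv2 (by linarith)
  have hCk : (1 / (c : ℝ) ^ 2) ^ ((k : ℝ) + σ - 2) = (c : ℝ) ^ (4 - 2 * σ) / (c : ℝ) ^ (k * 2) := by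
    rw [one_div, ← Real.rpow_natCast (c : ℝ) 2, ← Real.rpow_neg hc.le, ← Real.rpow_mul hc.le,
      ← Real.rpow_natCast (c : ℝ) (k * 2), ← Real.rpow_sub hc]
    congr 1
    push_cast
    ring
  rw [Real.mul_rpow (by positivity) hv0.le, hCk]
  have hk2 : (‖ζ‖ ^ 2) ^ k = ‖ζ‖ ^ (k * 2) := by
    rw [← pow_mul]
    congr 1
    ring
  have hfin : (c : ℝ) ^ (4 - 2 * σ) * 4⁻¹ ^ k * (E / ((c : ℝ) / ‖ζ‖) ^ (k * 2)) =
      E * ((c : ℝ) ^ (4 - 2 * σ) / (c : ℝ) ^ (k * 2)) * ((4⁻¹ : ℝ) ^ k * (‖ζ‖ ^ 2) ^ k) := by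
    rw [hk2, div_pow]
    field_simp
  rw [hfin, ← mul_assoc E]
  exact mul_le_mul_of_nonneg_left (hA.trans hB) (by positivity)

theorem box_low (k : ℕ) (hk : 1 ≤ k) (U : PowerSeries ℂ) (hU : GD k U)
    (hO : (Set.range (sl k (fH U))).Finite) (hne : U ≠ 0) :
    ∃ c₁ : ℝ, 0 < c₁ ∧ ∀ a c : ℕ, 2 ≤ c → 1 ≤ a → a < c → Nat.Coprime a c →
      ∀ σ : ℝ, 1 < σ → σ ≤ 2 →
      ENNReal.ofReal (c₁ * (c : ℝ) ^ (-(2 * σ))) ≤
        ∫⁻ p in box a c,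
          ENNReal.ofReal (‖ev U (p.1 + p.2 * Complex.I)‖ ^ 2 * p.2 ^ ((k : ℝ) + σ - 2)) := by
  obtain ⟨c₂, hc₂, hlow⟩ := shift_low k U hU hO hne
  refine ⟨4⁻¹ ^ k * c₂, by positivity, fun a c hc ha hac hco σ hσ hσ2 => ?_⟩
  have hc0 : (0 : ℝ) < c := by exact_mod_cast (by omega : 0 < c)
  obtain ⟨ρ, hρ0, hρ1⟩ := lc_mat a c hco
  rw [lc_cov a c hc0]
  have h1 := hlow (sl k (fH U) ρ) ⟨ρ, rfl⟩ ((ρ 1 1 : ℝ) / c)
  have h2 : ENNReal.ofReal (4⁻¹ ^ k * c₂ * (c : ℝ) ^ (-(2 * σ))) =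
      ENNReal.ofReal (1 / (c : ℝ) ^ 4) * (ENNReal.ofReal ((c : ℝ) ^ (4 - 2 * σ) * 4⁻¹ ^ k) *
        ENNReal.ofReal c₂) := by
    rw [← ENNReal.ofReal_mul (by positivity), ← ENNReal.ofReal_mul (by positivity)]
    congr 1
    have h3 : (c : ℝ) ^ (4 - 2 * σ) = (c : ℝ) ^ (-(2 * σ)) * (c : ℝ) ^ 4 := by
      rw [← Real.rpow_natCast (c : ℝ) 4, ← Real.rpow_add hc0]
      congr 1
      push_cast
      ring
    rw [h3]
    field_simp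
  rw [h2]
  refine mul_le_mul_right ?_ _
  refine (mul_le_mul_right h1 _).trans ?_
  rw [← lintegral_const_mul' _ _ ENNReal.ofReal_ne_top]
  refine setLIntegral_mono' (measurableSet_Icc.prod measurableSet_Icc) fun p hp => ?_
  rw [← ENNReal.ofReal_mul (by positivity)]
  apply ENNReal.ofReal_le_ofReal
  exact lc_pt k U a c hc0 ρ hρ0 hρ1 σ hσ2 p hp

end Pool.Agent.H13.IC
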