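import Mathlib

/-!
# IC-LD: the lower bound of the Dirichlet series of Euler's function (Mathlib only)

PROOF. `s = 2σ > 2`. `∑_(d ∣ n) φ(d) = n` (`Nat.sum_totient`), so
`(∑ φ(n) n^(-s)) ζ(s) = ζ(s-1)` (absolute convergence, `φ(n) ≤ n`; `LSeries_convolution` /
`ArithmeticFunction` or a direct double sum). `ζ(s-1) ≥ 1/(s-2) = 1/(2(σ-1))` (integral comparison, or
`∑_(n ≤ X)`), `ζ(s) ≤ ζ(2) ≤ 2`. So the full sum is `≥ 1/(4(σ-1))`; without `n = 1` it is
`≥ 1/(4(σ-1)) - 1 ≥ 1/(8(σ-1))` for `σ - 1 ≤ 1/8`; for `1/8 ≤ σ - 1 ≤ 1` the term `n = 2` is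
`2^(-2σ) ≥ 1/16 ≥ (1/128)/(σ-1)`. So `c₀ = 1/128` works.
-/

set_option autoImplicit false

namespace Pool.Agent.H13.IC

theorem tot_summable (σ : ℝ) (hσ : 1 < σ) :
    Summable fun n : ℕ => if 2 ≤ n then (Nat.totient n : ℝ) * (n : ℝ) ^ (-(2 * σ)) else 0 := by
  have h1 : Summable fun n : ℕ => (n : ℝ) ^ (-(2 * σ - 1)) := by
    rw [Real.summable_nat_rpow]
    linarith
  refine Summable.of_nonneg_of_le (fun n => ?_) (fun n => ?_) h1
  · split_ifs
    · positivity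
    · exact le_rfl
  · split_ifs with h
    · have hn : (0 : ℝ) < n := by
        have : 0 < n := by omega
        exact_mod_cast this
      have h2 : (n : ℝ) ^ (-(2 * σ - 1)) = n * (n : ℝ) ^ (-(2 * σ)) := by
        rw [show -(2 * σ - 1) = 1 + -(2 * σ) by ring, Real.rpow_add hn, Real.rpow_one]
      rw [h2]
      refine mul_le_mul_of_nonneg_right ?_ (Real.rpow_nonneg hn.le _)
      exact_mod_cast Nat.totient_le n
    · exact Real.rpow_nonneg (Nat.cast_nonneg _) _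

private theorem zlow (p : ℝ) (hp : 1 < p) (N : ℕ) :
    (1 - ((N : ℝ) + 1) ^ (1 - p)) / (p - 1) ≤ ∑ n ∈ Finset.Icc 1 N, (n : ℝ) ^ (-p) := by
  have hanti : AntitoneOn (fun x : ℝ => x ^ (-p)) (Set.Icc (1 : ℝ) (1 + (N : ℝ))) := by
    intro x hx y hy hxy
    exact Real.rpow_le_rpow_of_nonpos (by linarith [hx.1]) hxy (by linarith)
  have h1 := hanti.integral_le_sum
  have h2 : ∫ x in (1 : ℝ)..(1 + (N : ℝ)), x ^ (-p) = (1 - ((N : ℝ) + 1) ^ (1 - p)) / (p - 1) := by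
    rw [integral_rpow]
    · rw [Real.one_rpow, show -p + 1 = 1 - p by ring, add_comm (1 : ℝ) (N : ℝ)]
      rw [← neg_div_neg_eq]
      congr 1 <;> ring
    · right
      refine ⟨by linarith, ?_⟩
      rw [Set.uIcc_of_le (by linarith [Nat.cast_nonneg (α := ℝ) N])]
      intro h
      linarith [h.1]
  rw [h2] at h1
  refine h1.trans (le_of_eq ?_)
  rw [Finset.range_eq_Ico, ← Finset.Ico_add_one_right_eq_Icc, Finset.sum_Ico_eq_sum_range,
    Finset.sum_Ico_eq_sum_range]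
  simp only [Nat.sub_zero, Nat.add_sub_cancel]
  refine Finset.sum_congr rfl fun i _ => ?_
  push_cast
  rw [zero_add]

private theorem prod_low (s : ℝ) (N : ℕ) :
    ∑ n ∈ Finset.Icc 1 N, (n : ℝ) ^ (-(s - 1)) ≤
      (∑ d ∈ Finset.Icc 1 N, (Nat.totient d : ℝ) * (d : ℝ) ^ (-s)) *
        ∑ m ∈ Finset.Icc 1 N, (m : ℝ) ^ (-s) := by
  classical
  have h1 : ∀ n ∈ Finset.Icc 1 N, (n : ℝ) ^ (-(s - 1)) = ∑ x ∈ n.divisorsAntidiagonal,
      ((Nat.totient x.1 : ℝ) * (x.1 : ℝ) ^ (-s)) * (x.2 : ℝ) ^ (-s) := by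
    intro n hn
    have hn1 := (Finset.mem_Icc.1 hn).1
    have hn0 : (0 : ℝ) < n := by exact_mod_cast hn1
    have h2 : ∀ x ∈ n.divisorsAntidiagonal,
        ((Nat.totient x.1 : ℝ) * (x.1 : ℝ) ^ (-s)) * (x.2 : ℝ) ^ (-s)
          = (Nat.totient x.1 : ℝ) * (n : ℝ) ^ (-s) := by
      intro x hx
      rw [← (Nat.mem_divisorsAntidiagonal.1 hx).1, Nat.cast_mul,
        Real.mul_rpow (Nat.cast_nonneg _) (Nat.cast_nonneg _), mul_assoc]
    rw [Finset.sum_congr rfl h2, ← Finset.sum_mul,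
      Nat.sum_divisorsAntidiagonal (fun d _ => (Nat.totient d : ℝ)), ← Nat.cast_sum,
      Nat.sum_totient, show -(s - 1) = 1 + -s by ring, Real.rpow_add hn0, Real.rpow_one]
  have hdisj : Set.PairwiseDisjoint (↑(Finset.Icc 1 N) : Set ℕ) Nat.divisorsAntidiagonal := by
    intro a _ b _ hab
    rw [Function.onFun, Finset.disjoint_left]
    intro x hx hy
    exact hab ((Nat.mem_divisorsAntidiagonal.1 hx).1.symm.trans (Nat.mem_divisorsAntidiagonal.1 hy).1)
  rw [Finset.sum_congr rfl h1, ← Finset.sum_biUnion hdisj, Finset.sum_mul_sum,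
    ← Finset.sum_product']
  refine Finset.sum_le_sum_of_subset_of_nonneg ?_ ?_
  · intro x hx
    rw [Finset.mem_biUnion] at hx
    obtain ⟨n, hn, hx⟩ := hx
    have h3 := Nat.mem_divisorsAntidiagonal.1 hx
    have h4 := Finset.mem_Icc.1 hn
    have h5 : x.1 ≠ 0 := fun h => h3.2 (by rw [← h3.1, h, zero_mul])
    have h6 : x.2 ≠ 0 := fun h => h3.2 (by rw [← h3.1, h, mul_zero])
    have h7 : x.1 ≤ n := Nat.le_of_dvd (by omega) (Dvd.intro _ h3.1)
    have h8 : x.2 ≤ n := Nat.le_of_dvd (by omega) (Dvd.intro_left _ h3.1)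
    rw [Finset.mem_product, Finset.mem_Icc, Finset.mem_Icc]
    omega
  · intro x _ _
    positivity

private theorem zup (s : ℝ) (hs : 2 ≤ s) (N : ℕ) :
    ∑ m ∈ Finset.Icc 1 N, (m : ℝ) ^ (-s) ≤ 2 := by
  have h1 := sum_Ioo_inv_sq_le (α := ℝ) 0 (N + 1)
  have h2 : Finset.Ioo 0 (N + 1) = Finset.Icc 1 N := by
    ext x
    rw [Finset.mem_Ioo, Finset.mem_Icc]
    omega
  rw [h2] at h1
  norm_num at h1
  refine le_trans (Finset.sum_le_sum fun m hm => ?_) h1
  have hm1 : (1 : ℝ) ≤ m := by exact_mod_cast (Finset.mem_Icc.1 hm).1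
  rw [← Real.rpow_natCast, ← Real.rpow_neg (by linarith)]
  exact Real.rpow_le_rpow_of_exponent_le hm1 (by push_cast; linarith)

theorem tot_low : ∃ c₀ : ℝ, 0 < c₀ ∧ ∀ σ : ℝ, 1 < σ → σ ≤ 2 →
    c₀ * (σ - 1) ^ (-(1 : ℝ)) ≤
      ∑' n : ℕ, if 2 ≤ n then (Nat.totient n : ℝ) * (n : ℝ) ^ (-(2 * σ)) else 0 := by
  refine ⟨1 / 256, by norm_num, fun σ hσ hσ2 => ?_⟩
  set F : ℕ → ℝ := fun n => if 2 ≤ n then (Nat.totient n : ℝ) * (n : ℝ) ^ (-(2 * σ)) else 0 with hF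
  have hF0 : ∀ n, 0 ≤ F n := by
    intro n
    simp only [hF]
    split_ifs
    · positivity
    · exact le_rfl
  have hsum : Summable F := tot_summable σ hσ
  have hδ : 0 < σ - 1 := by linarith
  rw [Real.rpow_neg hδ.le, Real.rpow_one]
  rcases le_or_gt (σ - 1) (1 / 16) with hsm | hsm
  · -- small
    obtain ⟨N, hN⟩ : ∃ N : ℕ, ((N : ℝ) + 1) ^ (1 - (2 * σ - 1)) ≤ 1 / 2 := by
      have h1 := (tendsto_rpow_neg_atTop (show 0 < 2 * (σ - 1) by linarith)).comp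
        (tendsto_natCast_atTop_atTop.atTop_add (tendsto_const_nhds (x := (1 : ℝ))))
      obtain ⟨N, hN⟩ := (h1.eventually (ge_mem_nhds (by norm_num : (0 : ℝ) < 1 / 2))).exists
      refine ⟨N, ?_⟩
      have h2 : (1 : ℝ) - (2 * σ - 1) = -(2 * (σ - 1)) := by ring
      rw [h2]
      exact hN
    have h1 := zlow (2 * σ - 1) (by linarith) N
    have h2 := prod_low (2 * σ) N
    have h3 := zup (2 * σ) (by linarith) N
    set A := ∑ d ∈ Finset.Icc 1 N, (Nat.totient d : ℝ) * (d : ℝ) ^ (-(2 * σ)) with hA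
    have hA0 : 0 ≤ A := Finset.sum_nonneg fun d _ => by positivity
    have h4 : A ≤ 1 + ∑ n ∈ Finset.Icc 1 N, F n := by
      have h5 : ∀ d ∈ Finset.Icc 1 N, (Nat.totient d : ℝ) * (d : ℝ) ^ (-(2 * σ))
          ≤ (if d = 1 then 1 else 0) + F d := by
        intro d hd
        have hd1 := (Finset.mem_Icc.1 hd).1
        by_cases h : d = 1
        · subst h
          simp [hF]
        · have : 2 ≤ d := by omega
          simp [hF, h, this]
      refine (Finset.sum_le_sum h5).trans ?_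
      rw [Finset.sum_add_distrib]
      refine add_le_add ?_ le_rfl
      rw [Finset.sum_ite_eq']
      split_ifs
      · exact le_rfl
      · norm_num
    have h6 : ∑ n ∈ Finset.Icc 1 N, F n ≤ ∑' n, F n := hsum.sum_le_tsum _ fun n _ => hF0 n
    have h7 : (1 - 1 / 2) / (2 * (σ - 1)) ≤ A * 2 := by
      calc (1 - 1 / 2) / (2 * (σ - 1))
          ≤ (1 - ((N : ℝ) + 1) ^ (1 - (2 * σ - 1))) / (2 * σ - 1 - 1) := by
            rw [show 2 * σ - 1 - 1 = 2 * (σ - 1) by ring]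
            exact div_le_div_of_nonneg_right (by linarith) (by linarith)
        _ ≤ _ := h1
        _ ≤ _ := h2
        _ ≤ A * 2 := mul_le_mul_of_nonneg_left h3 hA0
    have h8 : (1 - 1 / 2) / (2 * (σ - 1)) = 1 / 4 * (σ - 1)⁻¹ := by
      field_simp
      norm_num
    have h9 : 16 ≤ (σ - 1)⁻¹ := by
      rw [le_inv_comm₀ (by norm_num) hδ]
      linarith
    rw [h8] at h7
    have h10 : ∑' n, F n = ∑' n : ℕ, F n := rfl
    linarith
  · have h1 : F 2 ≤ ∑' n, F n := hsum.le_tsum 2 fun n _ => hF0 n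
    have h2 : (1 : ℝ) / 16 ≤ F 2 := by
      simp only [hF, le_refl, if_true, Nat.totient_two, Nat.cast_one, one_mul]
      calc (1 : ℝ) / 16 = (2 : ℝ) ^ (-(4 : ℝ)) := by
            rw [Real.rpow_neg (by norm_num)]
            norm_num
        _ ≤ ((2 : ℕ) : ℝ) ^ (-(2 * σ)) := by
            rw [Nat.cast_ofNat]
            exact Real.rpow_le_rpow_of_exponent_le (by norm_num) (by linarith)
    have h3 : (σ - 1)⁻¹ ≤ 16 := by
      rw [inv_le_comm₀ hδ (by norm_num)]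
      linarith
    linarith

end Pool.Agent.H13.IC
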