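import Mathlib
import Pool.Agent.H13.IC.Ub
import Pool.Agent.H13.IC.La
import Pool.Agent.H13.IC.Lc
import Pool.Agent.H13.IC.Ld

/-!
# IC-LE: Rankin-Selberg for a form with finite orbit

PROOF. Lower bound: the boxes `box a c` over the countable set of pairs `(a,c)`, `2 ≤ c`, `1 ≤ a < c`,
coprime, are measurable, pairwise disjoint and inside the square (`box_meas`, `box_disj`, `box_sub`):
`lintegral_iUnion`, `lintegral_mono_set`. For fixed `c` there are `φ(c)` values of `a`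
(`Nat.totient_eq_card_coprime` for `c ≥ 2`: `a = 0` is not coprime to `c`). So with `square_le`, `box_low`:
`ofReal (C DU) ≥ ∑_c φ(c) ofReal (c₁ c^(-2σ)) = ofReal (c₁ ∑ ..) ≥ ofReal (c₁ c₀ (σ-1)^(-1))`
(`ENNReal.ofReal_tsum_of_nonneg`, `tot_summable`, `tot_low`), hence `DU ≥ (c₁ c₀/C) (σ-1)^(-1)`.
Upper bound: `bdd` and `upperD` (`k ≥ 2`).
-/

set_option autoImplicit false

namespace Pool.Agent.H13.IC

open PowerSeries UpperHalfPlane MatrixGroups MeasureTheory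

/-- the boxes, empty if the pair is not admissible -/
private def bx (p : ℕ × ℕ) : Set (ℝ × ℝ) :=
  {x | (2 ≤ p.1 ∧ 1 ≤ p.2 ∧ p.2 < p.1 ∧ Nat.Coprime p.2 p.1) ∧ x ∈ box p.2 p.1}

private theorem bx_pos {p : ℕ × ℕ} (h : 2 ≤ p.1 ∧ 1 ≤ p.2 ∧ p.2 < p.1 ∧ Nat.Coprime p.2 p.1) :
    bx p = box p.2 p.1 := by
  ext x
  exact ⟨fun hx => hx.2, fun hx => ⟨h, hx⟩⟩

private theorem bx_neg {p : ℕ × ℕ}
    (h : ¬ (2 ≤ p.1 ∧ 1 ≤ p.2 ∧ p.2 < p.1 ∧ Nat.Coprime p.2 p.1)) : bx p = ∅ := by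
  ext x
  exact ⟨fun hx => absurd hx.1 h, fun hx => absurd hx (Set.notMem_empty x)⟩

private theorem sum_bx (g : ℕ → ENNReal) :
    (∑' c : ℕ, if 2 ≤ c then (Nat.totient c : ENNReal) * g c else 0) ≤
      ∑' p : ℕ × ℕ, if 2 ≤ p.1 ∧ 1 ≤ p.2 ∧ p.2 < p.1 ∧ Nat.Coprime p.2 p.1 then g p.1 else 0 := by
  rw [show (∑' p : ℕ × ℕ, if 2 ≤ p.1 ∧ 1 ≤ p.2 ∧ p.2 < p.1 ∧ Nat.Coprime p.2 p.1 then g p.1
      else 0) = ∑' c : ℕ, ∑' a : ℕ, if 2 ≤ c ∧ 1 ≤ a ∧ a < c ∧ Nat.Coprime a c then g c else 0 from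
    ENNReal.tsum_prod
      (f := fun c a => if 2 ≤ c ∧ 1 ≤ a ∧ a < c ∧ Nat.Coprime a c then g c else 0)]
  refine ENNReal.tsum_le_tsum fun c => ?_
  split_ifs with hc
  · refine le_trans (le_of_eq ?_) (ENNReal.sum_le_tsum ((Finset.range c).filter c.Coprime))
    rw [Nat.totient_eq_card_coprime, ← nsmul_eq_mul, ← Finset.sum_const]
    refine Finset.sum_congr rfl fun a ha => ?_
    have h1 := Finset.mem_filter.1 ha
    have h2 := Finset.mem_range.1 h1.1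
    have h3 : 1 ≤ a := by
      rcases Nat.eq_zero_or_pos a with h | h
      · rw [h, Nat.coprime_zero_right] at h1
        omega
      · exact h
    rw [if_pos ⟨hc, h3, h2, h1.2.symm⟩]
  · exact bot_le

theorem lowD (k : ℕ) (hk : 1 ≤ k) (U : PowerSeries ℂ) (hU : GD k U)
    (hO : (Set.range (sl k (fH U))).Finite) (hne : U ≠ 0) :
    ∃ c : ℝ, 0 < c ∧ ∀ σ : ℝ, 1 < σ → σ ≤ 2 → c * (σ - 1) ^ (-(1 : ℝ)) ≤ DU k U σ := by
  obtain ⟨C, hC, hsq⟩ := square_le k hk hU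
  obtain ⟨c₁, hc₁, hbox⟩ := box_low k hk U hU hO hne
  obtain ⟨c₀, hc₀, htot⟩ := tot_low
  refine ⟨c₁ * c₀ / C, by positivity, fun σ hσ hσ2 => ?_⟩
  set F : ℝ × ℝ → ENNReal := fun p =>
    ENNReal.ofReal (‖ev U (p.1 + p.2 * Complex.I)‖ ^ 2 * p.2 ^ ((k : ℝ) + σ - 2)) with hF
  set T : ℕ → ℝ := fun n => if 2 ≤ n then (Nat.totient n : ℝ) * (n : ℝ) ^ (-(2 * σ)) else 0 with hT
  have hT0 : ∀ n, 0 ≤ T n := by
    intro n
    simp only [hT]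
    split_ifs
    · positivity
    · exact le_rfl
  have hmeas : ∀ p : ℕ × ℕ, MeasurableSet (bx p) := by
    intro p
    by_cases h : 2 ≤ p.1 ∧ 1 ≤ p.2 ∧ p.2 < p.1 ∧ Nat.Coprime p.2 p.1
    · rw [bx_pos h]
      exact box_meas _ _
    · rw [bx_neg h]
      exact MeasurableSet.empty
  have hdisj : Pairwise (Function.onFun Disjoint bx) := by
    intro p q hpq
    rw [Function.onFun]
    by_cases h : 2 ≤ p.1 ∧ 1 ≤ p.2 ∧ p.2 < p.1 ∧ Nat.Coprime p.2 p.1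
    · by_cases h' : 2 ≤ q.1 ∧ 1 ≤ q.2 ∧ q.2 < q.1 ∧ Nat.Coprime q.2 q.1
      · rw [bx_pos h, bx_pos h']
        refine box_disj _ _ _ _ h.1 h.2.1 h.2.2.1 h.2.2.2 h'.1 h'.2.1 h'.2.2.1 h'.2.2.2 ?_
        intro heq
        apply hpq
        have h1 := (Prod.mk.injEq _ _ _ _).mp heq
        exact Prod.ext h1.2 h1.1
      · rw [bx_neg h']
        exact Set.disjoint_empty _
    · rw [bx_neg h]
      exact Set.empty_disjoint _
  have hsub : (⋃ p, bx p) ⊆ Set.Ioo (0 : ℝ) 1 ×ˢ Set.Ioc (0 : ℝ) 1 := by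
    refine Set.iUnion_subset fun p => ?_
    by_cases h : 2 ≤ p.1 ∧ 1 ≤ p.2 ∧ p.2 < p.1 ∧ Nat.Coprime p.2 p.1
    · rw [bx_pos h]
      exact box_sub _ _ h.1 h.2.1 h.2.2.1
    · rw [bx_neg h]
      exact Set.empty_subset _
  have h1 : ∑' p, ∫⁻ x in bx p, F x ≤ ENNReal.ofReal (C * DU k U σ) := by
    rw [← lintegral_iUnion hmeas hdisj]
    exact (lintegral_mono_set hsub).trans (hsq σ hσ hσ2)
  have h2 : ENNReal.ofReal (c₁ * ∑' n, T n) ≤ ∑' p, ∫⁻ x in bx p, F x := by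
    have h3 : ENNReal.ofReal (c₁ * ∑' n, T n) =
        ∑' c : ℕ, if 2 ≤ c then
          (Nat.totient c : ENNReal) * ENNReal.ofReal (c₁ * (c : ℝ) ^ (-(2 * σ))) else 0 := by
      rw [← tsum_mul_left, ENNReal.ofReal_tsum_of_nonneg (fun n => mul_nonneg hc₁.le (hT0 n))
        ((tot_summable σ hσ).mul_left c₁)]
      refine tsum_congr fun c => ?_
      simp only [hT]
      split_ifs
      · rw [← ENNReal.ofReal_natCast, ← ENNReal.ofReal_mul (Nat.cast_nonneg _)]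
        congr 1
        ring
      · rw [mul_zero, ENNReal.ofReal_zero]
    rw [h3]
    refine (sum_bx fun c => ENNReal.ofReal (c₁ * (c : ℝ) ^ (-(2 * σ)))).trans ?_
    refine ENNReal.tsum_le_tsum fun p => ?_
    split_ifs with h
    · rw [bx_pos h]
      exact hbox p.2 p.1 h.1 h.2.1 h.2.2.1 h.2.2.2 σ hσ hσ2
    · exact bot_le
  have h4 := h2.trans h1
  rw [ENNReal.ofReal_le_ofReal_iff'] at h4
  have h5 := htot σ hσ hσ2
  have hδ : 0 < (σ - 1) ^ (-(1 : ℝ)) := Real.rpow_pos_of_pos (by linarith) _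
  have h6 : 0 < ∑' n, T n := lt_of_lt_of_le (mul_pos hc₀ hδ) h5
  rcases h4 with h4 | h4
  · rw [div_mul_eq_mul_div, div_le_iff₀ hC]
    calc c₁ * c₀ * (σ - 1) ^ (-(1 : ℝ)) = c₁ * (c₀ * (σ - 1) ^ (-(1 : ℝ))) := by ring
      _ ≤ c₁ * ∑' n, T n := mul_le_mul_of_nonneg_left h5 hc₁.le
      _ ≤ C * DU k U σ := h4
      _ = DU k U σ * C := mul_comm _ _
  · exact absurd (mul_pos hc₁ h6) (not_lt.2 h4)

theorem RS (k : ℕ) (hk : 2 ≤ k) (U : PowerSeries ℂ) (hU : GD k U)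
    (hO : (Set.range (sl k (fH U))).Finite) (hne : U ≠ 0) :
    ∃ c C : ℝ, 0 < c ∧ ∀ σ : ℝ, 1 < σ → σ ≤ 2 →
      c * (σ - 1) ^ (-(1 : ℝ)) ≤ DU k U σ ∧ DU k U σ ≤ C * (σ - 1) ^ (-(1 : ℝ)) := by
  obtain ⟨c, hc, h1⟩ := lowD k (by omega) U hU hO hne
  obtain ⟨C0, _, h2⟩ := bdd k hk U hU hO
  obtain ⟨C, h3⟩ := upperD hU C0 h2
  exact ⟨c, C, hc, fun σ h4 h5 => ⟨h1 σ h4 h5, h3 σ h4 h5⟩⟩

end Pool.Agent.H13.IC
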