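import Mathlib
import Pool.Agent.H13.IC.Defs

/-!
# IC-HO: holomorphic roots of a polynomial with holomorphic coefficients are finite in number

PROOF. (a) `hol_mul_ne`: the product of two functions in `Hol`, both not identically zero, is not
identically zero: identity theorem on the preconnected open set `{z | 0 < z.im}`
(`AnalyticOnNhd.eqOn_zero_of_preconnected_of_frequently_eq_zero` or
`AnalyticOnNhd.eqOn_zero_or_eventually_ne_zero_of_preconnected`). Same for finite products.
(b) `finite_roots`: by contradiction (`Set.infinite..`, `Set.Infinite.exists_subset_card_eq`) there are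
`e d + 1` distinct functions `g_0, g_1, ..` in the set. The product of all `g_a - g_b`, `a < b`, and of
`c i0` (not identically zero) is not identically zero by (a): a point `τ` with all `g_a τ` distinct
and `c i0 τ ≠ 0`. The nonzero complex polynomial `∑ c i τ X ^ (e i)` of degree `≤ e d` has `e d + 1`
distinct roots, impossible (`Polynomial.card_roots'`). (`e ≥ 1` makes the exponents `e i` distinct.)
-/

set_option autoImplicit false

namespace Pool.Agent.H13.IC

open Complex UpperHalfPlane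

theorem hol_mul {f g : ℍ → ℂ} (hf : Hol f) (hg : Hol g) : Hol (fun τ => f τ * g τ) :=
  DifferentiableOn.mul hf hg

theorem hol_sub {f g : ℍ → ℂ} (hf : Hol f) (hg : Hol g) : Hol (fun τ => f τ - g τ) :=
  DifferentiableOn.sub hf hg

private theorem up_open : IsOpen {z : ℂ | 0 < z.im} := isOpen_lt continuous_const Complex.continuous_im

private theorem up_pre : IsPreconnected {z : ℂ | 0 < z.im} :=
  (convex_halfSpace_im_gt 0).isPreconnected

theorem hol_mul_ne {f g : ℍ → ℂ} (hf : Hol f) (hg : Hol g) (hf0 : ∃ τ, f τ ≠ 0)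
    (hg0 : ∃ τ, g τ ≠ 0) : ∃ τ, f τ * g τ ≠ 0 := by
  by_contra hcon
  push Not at hcon
  obtain ⟨τ0, hτ0⟩ := hg0
  obtain ⟨τ1, hτ1⟩ := hf0
  have hfa : AnalyticOnNhd ℂ (f ∘ ofComplex) {z | 0 < z.im} := DifferentiableOn.analyticOnNhd hf up_open
  have hgc : ContinuousAt (g ∘ ofComplex) (τ0 : ℂ) :=
    (DifferentiableOn.continuousOn hg).continuousAt (up_open.mem_nhds τ0.2)
  have h1 : (g ∘ ofComplex) (τ0 : ℂ) ≠ 0 := by
    rw [Function.comp_apply, ofComplex_apply]
    exact hτ0
  have h2 : ∀ᶠ z in nhds (τ0 : ℂ), (g ∘ ofComplex) z ≠ 0 := hgc.eventually_ne h1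
  have h3 : f ∘ ofComplex =ᶠ[nhds (τ0 : ℂ)] 0 := by
    refine h2.mono fun z hz => ?_
    exact (mul_eq_zero.1 (hcon (ofComplex z))).resolve_right hz
  have h4 := hfa.eqOn_zero_of_preconnected_of_eventuallyEq_zero up_pre τ0.2 h3
  apply hτ1
  have h5 := h4 τ1.2
  rw [Function.comp_apply, ofComplex_apply] at h5
  exact h5

private theorem hol_one : Hol (fun _ => (1 : ℂ)) := differentiableOn_const _

private theorem hol_prod {ι : Type} (s : Finset ι) (F : ι → ℍ → ℂ) (hF : ∀ i ∈ s, Hol (F i))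
    (h0 : ∀ i ∈ s, ∃ τ, F i τ ≠ 0) :
    Hol (fun τ => ∏ i ∈ s, F i τ) ∧ ∃ τ, ∏ i ∈ s, F i τ ≠ 0 := by
  classical
  induction s using Finset.induction_on with
  | empty =>
    simp only [Finset.prod_empty]
    exact ⟨hol_one, ⟨UpperHalfPlane.I, one_ne_zero⟩⟩
  | insert a s ha ih =>
    obtain ⟨h1, h2⟩ := ih (fun i hi => hF i (Finset.mem_insert_of_mem hi))
      (fun i hi => h0 i (Finset.mem_insert_of_mem hi))
    simp only [Finset.prod_insert ha]
    exact ⟨hol_mul (hF a (Finset.mem_insert_self a s)) h1,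
      hol_mul_ne (hF a (Finset.mem_insert_self a s)) h1 (h0 a (Finset.mem_insert_self a s)) h2⟩

theorem finite_roots (d e : ℕ) (he : 1 ≤ e) (c : Fin (d + 1) → ℍ → ℂ) (hc : ∀ i, Hol (c i))
    (hne : ∃ i τ, c i τ ≠ 0) :
    {g : ℍ → ℂ | Hol g ∧ ∀ τ, ∑ i : Fin (d + 1), c i τ * g τ ^ (e * (i : ℕ)) = 0}.Finite := by
  classical
  by_contra hinf
  obtain ⟨T, hT, hcard⟩ := (Set.not_finite.1 hinf).exists_subset_card_eq (e * d + 1)
  obtain ⟨i0, τ', hi0⟩ := hne
  -- the product of the differences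
  obtain ⟨h1, h2⟩ := hol_prod (T.offDiag.attach)
    (fun q τ => q.1.1 τ - q.1.2 τ) (by
      rintro ⟨q, hq⟩ -
      rw [Finset.mem_offDiag] at hq
      exact hol_sub (hT hq.1).1 (hT hq.2.1).1) (by
      rintro ⟨q, hq⟩ -
      rw [Finset.mem_offDiag] at hq
      by_contra hcon
      push Not at hcon
      exact hq.2.2 (funext fun τ => sub_eq_zero.1 (hcon τ)))
  obtain ⟨τ, hτ⟩ := hol_mul_ne h1 (hc i0) h2 ⟨τ', hi0⟩
  have h3 : ∏ q ∈ T.offDiag.attach, (q.1.1 τ - q.1.2 τ) ≠ 0 := left_ne_zero_of_mul hτ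
  have h4 : c i0 τ ≠ 0 := right_ne_zero_of_mul hτ
  have hinj : Set.InjOn (fun g : ℍ → ℂ => g τ) (T : Set (ℍ → ℂ)) := by
    intro g hg g' hg' he
    by_contra hne
    rw [Finset.prod_ne_zero_iff] at h3
    exact h3 ⟨(g, g'), Finset.mem_offDiag.2 ⟨hg, hg', hne⟩⟩ (Finset.mem_attach _ _) (sub_eq_zero.2 he)
  obtain ⟨p, hp⟩ : ∃ p : Polynomial ℂ, p = ∑ i : Fin (d + 1),
    Polynomial.monomial (e * (i : ℕ)) (c i τ) := ⟨_, rfl⟩
  have hp0 : p ≠ 0 := by
    intro h0
    have h5 : p.coeff (e * (i0 : ℕ)) = c i0 τ := by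
      rw [hp, Polynomial.finsetSum_coeff, Finset.sum_eq_single i0]
      · rw [Polynomial.coeff_monomial, if_pos rfl]
      · intro i _ hi
        rw [Polynomial.coeff_monomial, if_neg]
        intro h6
        exact hi (Fin.ext (Nat.eq_of_mul_eq_mul_left (by omega) h6))
      · intro h6
        exact absurd (Finset.mem_univ i0) h6
    rw [h0, Polynomial.coeff_zero] at h5
    exact h4 h5.symm
  have hdeg : p.natDegree ≤ e * d := by
    rw [hp]
    refine Polynomial.natDegree_sum_le_of_forall_le _ _ fun i _ => ?_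
    refine (Polynomial.natDegree_monomial_le _).trans ?_
    exact Nat.mul_le_mul_left e (Nat.lt_succ_iff.1 i.2)
  have hroots : (T.image fun g : ℍ → ℂ => g τ) ⊆ p.roots.toFinset := by
    intro w hw
    obtain ⟨g, hg, rfl⟩ := Finset.mem_image.1 hw
    rw [Multiset.mem_toFinset, Polynomial.mem_roots hp0, Polynomial.IsRoot.def, hp,
      Polynomial.eval_finsetSum]
    rw [← (hT hg).2 τ]
    refine Finset.sum_congr rfl fun i _ => ?_
    rw [Polynomial.eval_monomial]
  have h6 := Finset.card_le_card hroots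
  rw [Finset.card_image_of_injOn hinj, hcard] at h6
  have h7 := (Multiset.toFinset_card_le p.roots).trans (Polynomial.card_roots' p)
  omega

end Pool.Agent.H13.IC
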