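import Mathlib
import Pool.Agent.H13.IC.Defs

/-!
# IC-IN: two normalised power series with different first coefficients are independent

PROOF. `A = 1 + alpha X + ..`, `B = 1 + beta X + ..`, `alpha ≠ beta`. Induction on the number of the
coefficients: `A = B + S`, `S = A - B = X * S'` with constant coefficient of `S'` equal to
`alpha - beta ≠ 0`. Insert `A ^ j = (B + S) ^ j = ∑_l binom(j,l) S ^ l B ^ (j-l)`:
`0 = ∑_l b_l S ^ l B ^ (D-l)`, `b_l = ∑_(j ≥ l) binom(j,l) p_j`. Let `l0` be the least `l ≤ T` with
`b_l ≠ 0`: the left side is `X ^ l0 * (unit-like series with constant coefficient b_(l0)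
(alpha-beta) ^ l0 + X ..)`, not zero (coefficient of `X ^ l0`; domain). So all `b_l = 0`, and `p_T = b_T`,
`p_(T-1) = b_(T-1) - T p_T`, ..: all `p_j = 0` (downward induction). (Alternatively work in the
fraction field / with the polynomial `Q(Y) = ∑ p_j Y ^ j` and `Q(A B⁻¹) = 0`: `A B⁻¹` is transcendental
over `R` because `A B⁻¹ - 1` has order exactly `1`.)
-/

set_option autoImplicit false

namespace Pool.Agent.H13.IC

open PowerSeries

private theorem in_tr {R : Type} [CommRing R] [IsDomain R] {w : PowerSeries R}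
    (hw0 : constantCoeff w = 0) (hw : w ≠ 0) : ∀ (n : ℕ) (Q : Polynomial R), Q.natDegree ≤ n →
    Polynomial.aeval w Q = 0 → Q = 0 := by
  intro n
  induction n with
  | zero =>
    intro Q hQ h
    rw [Polynomial.eq_C_of_natDegree_le_zero hQ] at h ⊢
    rw [Polynomial.aeval_C] at h
    have h1 := congrArg (constantCoeff (R := R)) h
    rw [map_zero, PowerSeries.algebraMap_apply, constantCoeff_C] at h1
    rw [Algebra.algebraMap_self, RingHom.id_apply] at h1
    rw [h1, Polynomial.C_0]
  | succ n ih =>
    intro Q hQ h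
    have h0 := Polynomial.divX_mul_X_add Q
    have h2 : Polynomial.aeval w Q.divX * w + PowerSeries.C (Q.coeff 0) = 0 := by
      rw [← h]
      conv_rhs => rw [← h0]
      rw [map_add, map_mul, Polynomial.aeval_X, Polynomial.aeval_C, PowerSeries.algebraMap_apply,
        Algebra.algebraMap_self, RingHom.id_apply]
    have h3 : Q.coeff 0 = 0 := by
      have h4 := congrArg (constantCoeff (R := R)) h2
      rw [map_add, map_mul, hw0, mul_zero, zero_add, constantCoeff_C, map_zero] at h4
      exact h4
    rw [h3, map_zero, add_zero] at h2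
    have h5 := (mul_eq_zero.1 h2).resolve_right hw
    have h6 := ih Q.divX (by
      rw [Polynomial.natDegree_divX_eq_natDegree_tsub_one]
      omega) h5
    rw [← h0, h6, h3, zero_mul, Polynomial.C_0, add_zero]

theorem ind {R : Type} [CommRing R] [IsDomain R] (A B : PowerSeries R)
    (hA : coeff 0 A = 1) (hB : coeff 0 B = 1) (hne : coeff 1 A ≠ coeff 1 B) (T D : ℕ)
    (hD : T ≤ D) (p : Fin (T + 1) → R)
    (h : ∑ j : Fin (T + 1), PowerSeries.C (p j) * A ^ (j : ℕ) * B ^ (D - j) = 0) : p = 0 := by
  rw [coeff_zero_eq_constantCoeff_apply] at hA hB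
  have hBu : IsUnit B := PowerSeries.isUnit_iff_constantCoeff.2 (by
    rw [hB]
    exact isUnit_one)
  obtain ⟨B', hBB'⟩ := hBu.exists_right_inv
  have hB' : constantCoeff B' = 1 := by
    have h1 := congrArg (constantCoeff (R := R)) hBB'
    rwa [map_mul, hB, one_mul, map_one] at h1
  have hw0 : constantCoeff (A * B' - 1) = 0 := by
    rw [map_sub, map_mul, hA, hB', one_mul, map_one, sub_self]
  have hw : A * B' - 1 ≠ 0 := by
    intro h0
    apply hne
    have h1 : A = B := by
      calc A = A * (B * B') := by rw [hBB', mul_one]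
        _ = (A * B') * B := by ring
        _ = B := by rw [sub_eq_zero.1 h0, one_mul]
    rw [h1]
  obtain ⟨P, hP⟩ : ∃ P : Polynomial R, P = ∑ j : Fin (T + 1), Polynomial.C (p j) *
    Polynomial.X ^ (j : ℕ) := ⟨_, rfl⟩
  have hev : Polynomial.aeval (A * B') P = 0 := by
    have h1 : Polynomial.aeval (A * B') P =
        (∑ j : Fin (T + 1), PowerSeries.C (p j) * A ^ (j : ℕ) * B ^ (D - j)) * B' ^ D := by
      rw [hP, map_sum, Finset.sum_mul]
      refine Finset.sum_congr rfl fun j _ => ?_
      rw [map_mul, map_pow, Polynomial.aeval_X, Polynomial.aeval_C, PowerSeries.algebraMap_apply,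
        Algebra.algebraMap_self, RingHom.id_apply]
      have hj : D = (D - j) + j := by
        have := j.2
        omega
      have h2 : B ^ (D - (j : ℕ)) * B' ^ (D - (j : ℕ)) = 1 := by
        rw [← mul_pow, hBB', one_pow]
      conv_rhs => rw [hj, pow_add, Nat.add_sub_cancel]
      calc PowerSeries.C (p j) * (A * B') ^ (j : ℕ)
          = PowerSeries.C (p j) * (A * B') ^ (j : ℕ) *
            (B ^ (D - (j : ℕ)) * B' ^ (D - (j : ℕ))) := by rw [h2, mul_one]
        _ = _ := by
            rw [mul_pow]
            ring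
    rw [h1, h, zero_mul]
  have hT : Polynomial.aeval (A * B' - 1) (Polynomial.taylor 1 P) = 0 := by
    rw [Polynomial.taylor_apply, Polynomial.aeval_comp, map_add, Polynomial.aeval_X,
      Polynomial.aeval_C, map_one, sub_add_cancel, hev]
  have hP0 : P = 0 := by
    have h1 := in_tr hw0 hw _ _ le_rfl hT
    rwa [Polynomial.taylor_eq_zero] at h1
  funext i
  have h1 := congrArg (fun q : Polynomial R => q.coeff (i : ℕ)) (hP.symm.trans hP0)
  simp only [Polynomial.finsetSum_coeff, Polynomial.coeff_C_mul, Polynomial.coeff_X_pow,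
    Polynomial.coeff_zero, mul_ite, mul_one, mul_zero] at h1
  rw [Finset.sum_eq_single i] at h1
  · simpa using h1
  · intro j _ hj
    rw [if_neg]
    intro h2
    exact hj (Fin.ext h2.symm)
  · intro h2
    exact absurd (Finset.mem_univ _) h2

end Pool.Agent.H13.IC
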