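import Mathlib
import Pool.Agent.H13.IC.Ei
import Pool.Agent.H13.IC.Oa

/-!
# IC-OB: the functions E4(Mz), E6(Mz) have finitely many slashes

PROOF. Put `e γ = (τ ↦ ev (dil M E4) (γ τ) / (cτ+d)^4)`, `e' γ` the same with `E6` and `6`: these are
`sl 4 (fH (dil M E4)) γ`, `sl 6 (fH (dil M E6)) γ`. If `h ∈ Γ₀(M)` (`M ∣ h 1 0`), `h = (a b; M c' d)`, then
`M * (h τ) = h' (M τ)` with `h' = (a, M b; c', d)` in `SL(2,ℤ)` (where `M τ` is the point of `ℍ` with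
coordinate `M τ`), so `ev (dil M E4) (h τ) = ev E4 (h' (Mτ)) = (c' (M τ) + d) ^ 4 ev E4 (M τ)
= (h 1 0 τ + d) ^ 4 ev (dil M E4) τ`: `sl 4 (fH ..) h = fH ..`, hence (`sl_mul`) the pair of slashes by
`h γ` is the pair of slashes by `γ`: it depends only on the coset of `γ` for
`CongruenceSubgroup.Gamma0 M` (finite index, Mathlib instance or
`CongruenceSubgroup.instFiniteIndexGamma0`/`IsCongruenceSubgroup.finiteIndex`), finitely many.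
-/

set_option autoImplicit false

namespace Pool.Agent.H13.IC

open Complex PowerSeries NumberField UpperHalfPlane MatrixGroups

/-- invariance under the group `Γ₀(M)` -/
private theorem inv_aux (w : ℕ) {u : PowerSeries ℂ} (hu : Cvg u)
    (hmod : ∀ (γ : SL(2, ℤ)) (τ : ℍ), ev u ((γ • τ : ℍ) : ℂ) =
      ((γ 1 0 : ℂ) * τ + (γ 1 1 : ℂ)) ^ w * ev u (τ : ℂ))
    (M : ℕ) (hM : 1 ≤ M) (h : SL(2, ℤ)) (hh : h ∈ CongruenceSubgroup.Gamma0 M) :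
    sl w (fH (dil M u)) h = fH (dil M u) := by
  have h1 : ((h 1 0 : ℤ) : ZMod M) = 0 := CongruenceSubgroup.Gamma0_mem.mp hh
  obtain ⟨c, hc⟩ := (ZMod.intCast_zmod_eq_zero_iff_dvd _ M).mp h1
  have hM0 : (0 : ℝ) < (M : ℝ) := by
    have : 0 < M := by omega
    exact_mod_cast this
  have hdet : h 0 0 * h 1 1 - h 0 1 * h 1 0 = 1 := by
    have := h.2
    rw [Matrix.det_fin_two] at this
    exact this
  have hdet' : Matrix.det !![h 0 0, (M : ℤ) * h 0 1; c, h 1 1] = 1 := by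
    rw [Matrix.det_fin_two_of]
    rw [hc] at hdet
    linear_combination hdet
  obtain ⟨g, hg00, hg01, hg10, hg11⟩ : ∃ g : SL(2, ℤ), g 0 0 = h 0 0 ∧ g 0 1 = (M : ℤ) * h 0 1 ∧
      g 1 0 = c ∧ g 1 1 = h 1 1 :=
    ⟨⟨!![h 0 0, (M : ℤ) * h 0 1; c, h 1 1], hdet'⟩, rfl, rfl, rfl, rfl⟩
  funext τ
  have him : 0 < ((M : ℂ) * (τ : ℂ)).im := by
    rw [← Complex.ofReal_natCast, Complex.im_ofReal_mul]
    exact mul_pos hM0 τ.im_pos
  obtain ⟨σ, hσ⟩ : ∃ σ : ℍ, (σ : ℂ) = (M : ℂ) * (τ : ℂ) := ⟨⟨(M : ℂ) * (τ : ℂ), him⟩, rfl⟩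
  have hcC : ((h 1 0 : ℤ) : ℂ) = (M : ℂ) * (c : ℂ) := by
    rw [hc]
    push_cast
    ring
  have hden : (c : ℂ) * (σ : ℂ) + ((h 1 1 : ℤ) : ℂ) =
      ((h 1 0 : ℤ) : ℂ) * (τ : ℂ) + ((h 1 1 : ℤ) : ℂ) := by
    rw [hσ, hcC]
    ring
  have hpt : ((g • σ : ℍ) : ℂ) = (M : ℂ) * ((h • τ : ℍ) : ℂ) := by
    rw [UpperHalfPlane.coe_specialLinearGroup_apply, UpperHalfPlane.coe_specialLinearGroup_apply,
      hg00, hg01, hg10, hg11]
    simp only [eq_intCast, Complex.ofReal_intCast]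
    rw [hden, mul_div_assoc', hσ]
    congr 1
    push_cast
    ring
  have hτ : 0 < ((h • τ : ℍ) : ℂ).im := (h • τ : ℍ).im_pos
  have e1 : ev (dil M u) ((h • τ : ℍ) : ℂ) =
      (((h 1 0 : ℤ) : ℂ) * (τ : ℂ) + ((h 1 1 : ℤ) : ℂ)) ^ w * ev (dil M u) (τ : ℂ) := by
    rw [ev_dil hu M hM hτ, ← hpt, hmod g σ, hg10, hg11, hden, hσ, ev_dil hu M hM τ.im_pos]
  have hne := den_ne h τ
  rw [sl, fH, e1]
  exact mul_div_cancel_left₀ _ (pow_ne_zero w hne)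

theorem finite_pairs (M : ℕ) (hM : 1 ≤ M) :
    (Set.range fun γ : SL(2, ℤ) =>
      (sl 4 (fH (dil M (E4 ℂ))) γ, sl 6 (fH (dil M (E6 ℂ))) γ)).Finite := by
  have hne : NeZero M := ⟨by omega⟩
  have hfin : Finite (SL(2, ℤ) ⧸ CongruenceSubgroup.Gamma0 M) := inferInstance
  have hsub : (Set.range fun γ : SL(2, ℤ) =>
      (sl 4 (fH (dil M (E4 ℂ))) γ, sl 6 (fH (dil M (E6 ℂ))) γ)) ⊆
      Set.range fun q : SL(2, ℤ) ⧸ CongruenceSubgroup.Gamma0 M =>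
        (sl 4 (fH (dil M (E4 ℂ))) (q.out)⁻¹, sl 6 (fH (dil M (E6 ℂ))) (q.out)⁻¹) := by
    rintro p ⟨γ, rfl⟩
    refine ⟨QuotientGroup.mk γ⁻¹, ?_⟩
    obtain ⟨h, hh⟩ := QuotientGroup.mk_out_eq_mul (CongruenceSubgroup.Gamma0 M) γ⁻¹
    have h1 : ((QuotientGroup.mk γ⁻¹ : SL(2, ℤ) ⧸ CongruenceSubgroup.Gamma0 M).out)⁻¹ =
        (h : SL(2, ℤ))⁻¹ * γ := by
      rw [hh, mul_inv_rev, inv_inv]
    have h2 : (h : SL(2, ℤ))⁻¹ ∈ CongruenceSubgroup.Gamma0 M := inv_mem h.2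
    have h4 := inv_aux 4 E4_cvg E4_mod M hM _ h2
    have h6 := inv_aux 6 E6_cvg E6_mod M hM _ h2
    simp only [h1]
    rw [← sl_mul, ← sl_mul, h4, h6]
  exact (Set.finite_range _).subset hsub

end Pool.Agent.H13.IC
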