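import Mathlib
import Pool.Agent.H13.IC.Ha
import Pool.Agent.H13.IC.Hd
import Pool.Agent.H13.IC.Oc
import Pool.Agent.H13.IC.Le
import Pool.Agent.H11.Selberg.Equiv

/-!
# IC-FI: THEOREM IC, weight at least two

PROOF. Write `N = A/b` (`Rat.num`, `Rat.den`, positive naturals), `M = A b`. `u = dil b (mk (n ↦ if n = 0
then 0 else A n))` over `𝓞 L`; `sg σ u = dil b (fser k a_σ)` (`map_dil`; for `n ≥ 1`,
`a_σ(n) n^((k-1)/2) = σ(A n)` : `Complex.cpow_neg`, `mul_inv_cancel`). `entire_of_weight` for every `σ`,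
`Rf_dil`, `fser_cvg`, `dil_cvg`, `GD_dil`: `finite_orbit`. `RS` for `U = dil b (fser k a_σ)`, `DU_dil`
(`b^(-(σ+k-1))` lies between `b^(-(k+1))` and `1`... for `1 < σ ≤ 2`), then `Selberg.equivalence` with
`κ = 1`, `(3) → (1)` (`EulerCoeff` from `hS.euler`).
-/

set_option autoImplicit false

namespace Pool.Agent.H13.IC

open Complex NumberField Pool.Agent.H11.Selberg Pool.Agent.H11.SC

/-- the coefficients `a_σ(n) = σ(A(n)) n ^ (-(k-1)/2)` -/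
noncomputable def aco {L : Type} [Field L] [NumberField L] (k : ℕ) (A : ℕ → 𝓞 L) (σ : L →+* ℂ) :
    ℕ → ℂ := fun n => σ (A n) * (n : ℂ) ^ (-(((k : ℂ) - 1) / 2))

theorem sg_u {L : Type} [Field L] [NumberField L] (k : ℕ) (A : ℕ → 𝓞 L) (σ : L →+* ℂ) (b : ℕ) :
    sg σ (dil b (PowerSeries.mk fun n => if n = 0 then (0 : 𝓞 L) else A n)) =
      dil b (fser k (aco k A σ)) := by
  unfold sg
  rw [map_dil]
  congr 1
  ext n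
  unfold fser aco
  rw [PowerSeries.coeff_map, PowerSeries.coeff_mk, PowerSeries.coeff_mk]
  by_cases hn : n = 0
  · simp [hn]
  · rw [if_neg hn, if_neg hn]
    have h0 : (n : ℂ) ≠ 0 := by exact_mod_cast hn
    have h1 : (n : ℂ) ^ (((k : ℂ) - 1) / 2) ≠ 0 := by
      rw [Ne, Complex.cpow_eq_zero_iff]
      exact fun h => h0 h.1
    rw [Complex.cpow_neg, mul_assoc, inv_mul_cancel₀ h1, mul_one]
    rfl

private theorem cj_ram {a : ℕ → ℂ}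
    (ha : ∀ δ : ℝ, 0 < δ → ∃ C : ℝ, ∀ n : ℕ, 1 ≤ n → ‖a n‖ ≤ C * (n : ℝ) ^ δ) :
    ∀ δ : ℝ, 0 < δ → ∃ C : ℝ, ∀ n : ℕ, 1 ≤ n → ‖cj a n‖ ≤ C * (n : ℝ) ^ δ := by
  intro δ hδ
  obtain ⟨C, hC⟩ := ha δ hδ
  refine ⟨C, fun n hn => ?_⟩
  unfold cj
  rw [RCLike.norm_conj]
  exact hC n hn

private theorem rat_real (N : ℚ) (hN : 0 < N) :
    (N : ℝ) = ((N.num.natAbs : ℕ) : ℝ) / (N.den : ℝ) := by
  have h1 : ((N.num.natAbs : ℕ) : ℤ) = N.num := Int.natAbs_of_nonneg (Rat.num_pos.mpr hN).le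
  have h2 : (((N.num.natAbs : ℕ) : ℤ) : ℝ) = (N.num : ℝ) := by rw [h1]
  rw [← Int.cast_natCast, h2]
  exact Rat.cast_def N

theorem orbit_of {L : Type} [Field L] [NumberField L] (k : ℕ) (hk : 1 ≤ k) (N : ℚ) (hN : 0 < N)
    (A : ℕ → 𝓞 L) (G : (L →+* ℂ) → ℂ → ℂ) (ε : (L →+* ℂ) → ℂ)
    (h : ∀ σ, FEq (aco k A σ) (G σ) (Real.sqrt N / (2 * Real.pi)) (fun _ : Fin 1 => (1 : ℝ))
      (fun _ => ((k : ℂ) - 1) / 2) (ε σ)) (σ : L →+* ℂ) :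
    (Set.range (sl k (fH (dil N.den (fser k (aco k A σ)))))).Finite := by
  have hA : 1 ≤ N.num.natAbs := by
    have := Rat.num_pos.mpr hN
    omega
  have hb : 1 ≤ N.den := N.den_pos
  rw [← sg_u]
  refine finite_orbit (N.num.natAbs * N.den) (Nat.mul_pos hA hb) k hk
    (dil N.den (PowerSeries.mk fun n => if n = 0 then (0 : 𝓞 L) else A n))
    (fun σ => PowerSeries.C (ε σ * (-I) ^ k) * dil N.den (fser k (cj (aco k A σ)))) ?_ ?_ ?_ σ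
  · intro σ
    rw [sg_u]
    exact dil_cvg (fser_cvg k _ (h σ).ram) _ hb
  · intro σ
    exact (Cvg.C _).mul (dil_cvg (fser_cvg k _ (cj_ram (h σ).ram)) _ hb)
  · intro σ
    rw [sg_u]
    exact Rf_dil k hk N.num.natAbs N.den hA hb N (rat_real N hN) _ (G σ) (ε σ) (h σ)

theorem main {L : Type} [Field L] [NumberField L] (k : ℕ) (hk : 2 ≤ k) (N : ℚ) (hN : 0 < N)
    (A : ℕ → 𝓞 L) (F : (L →+* ℂ) → ℂ → ℂ) (ε : (L →+* ℂ) → ℂ)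
    (hS : ∀ σ, IsSelberg (aco k A σ) (F σ)) (hε : ∀ σ, ‖ε σ‖ = 1)
    (hfe : ∀ σ, ∀ s : ℂ, 0 < s.re → s.re < 1 →
      completed (Real.sqrt N / (2 * Real.pi)) (fun _ : Fin 1 => (1 : ℝ))
          (fun _ => ((k : ℂ) - 1) / 2) (F σ) s =
        ε σ * (starRingEnd ℂ) (completed (Real.sqrt N / (2 * Real.pi))
          (fun _ : Fin 1 => (1 : ℝ)) (fun _ => ((k : ℂ) - 1) / 2) (F σ)
          (1 - (starRingEnd ℂ) s)))
    (σ : L →+* ℂ) :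
    ∃ C : ℝ, ∀ x : ℝ, 2 ≤ x → |S (aco k A σ) x - Real.log (Real.log x)| ≤ C := by
  have hN' : (0 : ℝ) < (N : ℝ) := by exact_mod_cast hN
  have hb : 1 ≤ N.den := N.den_pos
  choose G _ hG using fun σ => entire_of_weight k hk N hN' (aco k A σ) (F σ) (ε σ) (hS σ) (hε σ)
    (hfe σ)
  have hO := orbit_of k (by omega) N hN A G ε hG σ
  have hGD := GD_dil k (by omega) N.den hb (aco k A σ) (hG σ).ram
  obtain ⟨c, C, hc, hRS⟩ := RS k hk _ hGD hO (dil_ne k N.den hb _ (hG σ).one)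
  obtain ⟨b, θ, Cb, hθ, hbb, hE⟩ := (hS σ).euler
  have hT := equivalence (aco k A σ) (F σ) b 1 (hS σ) ⟨θ, Cb, hθ, hbb, hE⟩ zero_le_one
  have hd0 : (0 : ℝ) < (N.den : ℝ) := by exact_mod_cast hb
  have hd1 : (1 : ℝ) ≤ (N.den : ℝ) := by exact_mod_cast hb
  have h3 : ∃ c C : ℝ, 0 < c ∧ ∀ s : ℝ, 1 < s → s ≤ 2 →
      c * (s - 1) ^ (-(1 : ℝ)) ≤ ∑' n : ℕ, ‖aco k A σ n‖ ^ 2 / (n : ℝ) ^ s ∧
      ∑' n : ℕ, ‖aco k A σ n‖ ^ 2 / (n : ℝ) ^ s ≤ C * (s - 1) ^ (-(1 : ℝ)) := by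
    refine ⟨c, (N.den : ℝ) ^ ((k : ℝ) + 1) * C, hc, fun s hs1 hs2 => ?_⟩
    obtain ⟨h4, h5⟩ := hRS s hs1 hs2
    rw [DU_dil k (by omega) N.den hb _ s hs1] at h4 h5
    have hk0 : (2 : ℝ) ≤ (k : ℝ) := by exact_mod_cast hk
    have hD0 : (0 : ℝ) ≤ ∑' n : ℕ, ‖aco k A σ n‖ ^ 2 / (n : ℝ) ^ s :=
      tsum_nonneg fun n => by positivity
    have hp0 : 0 < (N.den : ℝ) ^ (-(s + k - 1)) := Real.rpow_pos_of_pos hd0 _
    have hp1 : (N.den : ℝ) ^ (-(s + k - 1)) ≤ 1 :=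
      Real.rpow_le_one_of_one_le_of_nonpos hd1 (by linarith)
    have hp2 : 1 ≤ (N.den : ℝ) ^ ((k : ℝ) + 1) * (N.den : ℝ) ^ (-(s + k - 1)) := by
      rw [← Real.rpow_add hd0]
      exact Real.one_le_rpow hd1 (by linarith)
    refine ⟨h4.trans (mul_le_of_le_one_left hD0 hp1), ?_⟩
    calc ∑' n : ℕ, ‖aco k A σ n‖ ^ 2 / (n : ℝ) ^ s
        ≤ ((N.den : ℝ) ^ ((k : ℝ) + 1) * (N.den : ℝ) ^ (-(s + k - 1))) *
          ∑' n : ℕ, ‖aco k A σ n‖ ^ 2 / (n : ℝ) ^ s := le_mul_of_one_le_left hD0 hp2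
      _ = (N.den : ℝ) ^ ((k : ℝ) + 1) * ((N.den : ℝ) ^ (-(s + k - 1)) *
          ∑' n : ℕ, ‖aco k A σ n‖ ^ 2 / (n : ℝ) ^ s) := by ring
      _ ≤ (N.den : ℝ) ^ ((k : ℝ) + 1) * (C * (s - 1) ^ (-(1 : ℝ))) :=
          mul_le_mul_of_nonneg_left h5 (Real.rpow_nonneg hd0.le _)
      _ = (N.den : ℝ) ^ ((k : ℝ) + 1) * C * (s - 1) ^ (-(1 : ℝ)) := by ring
  obtain ⟨C', hC'⟩ := (hT.out 2 0).mp h3
  refine ⟨C', fun x hx => ?_⟩
  have h6 := hC' x hx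
  rwa [one_mul] at h6

end Pool.Agent.H13.IC
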