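import Mathlib
import Pool.Agent.H13.IC.Fi

/-!
# IC-FJ: THEOREM IC with bounded denominators

`A : ℕ → L` with `m A(n)` integral: apply the orbit theorem to the series `m f`.
-/

set_option autoImplicit false

namespace Pool.Agent.H13.IC

open Complex NumberField UpperHalfPlane MatrixGroups Pool.Agent.H11.Selberg Pool.Agent.H11.SC

/-- the coefficients `a_σ(n) = σ(A(n)) n ^ (-(k-1)/2)`, `A(n)` in `L` -/
noncomputable def acl {L : Type} [Field L] (k : ℕ) (A : ℕ → L) (σ : L →+* ℂ) : ℕ → ℂ :=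
  fun n => σ (A n) * (n : ℂ) ^ (-(((k : ℂ) - 1) / 2))

/-- the integral series -/
noncomputable def bco {L : Type} [Field L] [NumberField L] (A : ℕ → L) (m : ℕ)
    (hA : ∀ n, 1 ≤ n → IsIntegral ℤ ((m : L) * A n)) : PowerSeries (𝓞 L) :=
  PowerSeries.mk fun n => if h : n = 0 then (0 : 𝓞 L) else
    (⟨(m : L) * A n, hA n (Nat.one_le_iff_ne_zero.mpr h)⟩ : 𝓞 L)

theorem sg_b {L : Type} [Field L] [NumberField L] (k : ℕ) (A : ℕ → L) (m : ℕ)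
    (hA : ∀ n, 1 ≤ n → IsIntegral ℤ ((m : L) * A n)) (σ : L →+* ℂ) (b : ℕ) :
    sg σ (dil b (bco A m hA)) = PowerSeries.C (m : ℂ) * dil b (fser k (acl k A σ)) := by
  have h1 : sg σ (dil b (bco A m hA)) =
      dil b (PowerSeries.C (m : ℂ) * fser k (acl k A σ)) := by
    unfold sg
    rw [map_dil]
    congr 1
    ext n
    unfold fser acl bco
    rw [PowerSeries.coeff_map, PowerSeries.coeff_C_mul, PowerSeries.coeff_mk, PowerSeries.coeff_mk]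
    by_cases hn : n = 0
    · simp [hn]
    · rw [dif_neg hn, if_neg hn]
      have h0 : (n : ℂ) ≠ 0 := by exact_mod_cast hn
      have h1 : (n : ℂ) ^ (((k : ℂ) - 1) / 2) ≠ 0 := by
        rw [Ne, Complex.cpow_eq_zero_iff]
        exact fun h => h0 h.1
      rw [Complex.cpow_neg, mul_assoc, inv_mul_cancel₀ h1, mul_one]
      change σ ((m : L) * A n) = _
      rw [map_mul, map_natCast]
  rw [h1]
  ext n
  unfold dil
  rw [PowerSeries.coeff_C_mul, PowerSeries.coeff_mk, PowerSeries.coeff_mk]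
  split_ifs
  · rw [PowerSeries.coeff_C_mul]
  · rw [mul_zero]

private theorem ev_Cm {u : PowerSeries ℂ} (hu : Cvg u) (c : ℂ) {z : ℂ} (hz : 0 < z.im) :
    ev (PowerSeries.C c * u) z = c * ev u z := by
  rw [ev_mul (Cvg.C c) hu hz]
  congr 1
  exact evq_C c _

private theorem cj_ram' {a : ℕ → ℂ}
    (ha : ∀ δ : ℝ, 0 < δ → ∃ C : ℝ, ∀ n : ℕ, 1 ≤ n → ‖a n‖ ≤ C * (n : ℝ) ^ δ) :
    ∀ δ : ℝ, 0 < δ → ∃ C : ℝ, ∀ n : ℕ, 1 ≤ n → ‖cj a n‖ ≤ C * (n : ℝ) ^ δ := by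
  intro δ hδ
  obtain ⟨C, hC⟩ := ha δ hδ
  refine ⟨C, fun n hn => ?_⟩
  unfold cj
  rw [RCLike.norm_conj]
  exact hC n hn

private theorem rat_real' (N : ℚ) (hN : 0 < N) :
    (N : ℝ) = ((N.num.natAbs : ℕ) : ℝ) / (N.den : ℝ) := by
  have h1 : ((N.num.natAbs : ℕ) : ℤ) = N.num := Int.natAbs_of_nonneg (Rat.num_pos.mpr hN).le
  have h2 : (((N.num.natAbs : ℕ) : ℤ) : ℝ) = (N.num : ℝ) := by rw [h1]
  rw [← Int.cast_natCast, h2]
  exact Rat.cast_def N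

private theorem im_neg {M : ℕ} (hM : 1 ≤ M) {z : ℂ} (hz : 0 < z.im) :
    0 < (-1 / ((M : ℂ) * z)).im := by
  have hM0 : (0 : ℝ) < (M : ℝ) := by exact_mod_cast hM
  have h1 : -1 / ((M : ℂ) * z) = -((M : ℝ) * z : ℂ)⁻¹ := by
    push_cast
    rw [neg_div, one_div]
  rw [h1, Complex.neg_im, Complex.inv_im, Complex.im_ofReal_mul]
  have h2 : 0 < Complex.normSq ((M : ℝ) * z) := by
    rw [Complex.normSq_pos]
    intro h
    rcases mul_eq_zero.mp h with h | h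
    · exact hM0.ne' (by exact_mod_cast h)
    · rw [h] at hz
      simp at hz
  have h3 : 0 < (M : ℝ) * z.im := by positivity
  have h4 : -(-((M : ℝ) * z.im) / Complex.normSq ((M : ℝ) * z)) =
      ((M : ℝ) * z.im) / Complex.normSq ((M : ℝ) * z) := by ring
  rw [h4]
  positivity

theorem orbit_of2 {L : Type} [Field L] [NumberField L] (k : ℕ) (hk : 1 ≤ k) (N : ℚ) (hN : 0 < N)
    (A : ℕ → L) (m : ℕ) (hm : 1 ≤ m) (hA : ∀ n, 1 ≤ n → IsIntegral ℤ ((m : L) * A n))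
    (G : (L →+* ℂ) → ℂ → ℂ) (ε : (L →+* ℂ) → ℂ)
    (h : ∀ σ, FEq (acl k A σ) (G σ) (Real.sqrt N / (2 * Real.pi)) (fun _ : Fin 1 => (1 : ℝ))
      (fun _ => ((k : ℂ) - 1) / 2) (ε σ)) (σ : L →+* ℂ) :
    (Set.range (sl k (fH (dil N.den (fser k (acl k A σ)))))).Finite := by
  have hM1 : 1 ≤ N.num.natAbs := by
    have := Rat.num_pos.mpr hN
    omega
  have hb : 1 ≤ N.den := N.den_pos
  have hm0 : (m : ℂ) ≠ 0 := by exact_mod_cast (by omega : m ≠ 0)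
  have hc : ∀ σ, Cvg (dil N.den (fser k (acl k A σ))) := fun σ =>
    dil_cvg (fser_cvg k _ (h σ).ram) _ hb
  have hc' : ∀ σ, Cvg (PowerSeries.C (ε σ * (-Complex.I) ^ k) * dil N.den (fser k (cj (acl k A σ)))) :=
    fun σ => (Cvg.C _).mul (dil_cvg (fser_cvg k _ (cj_ram' (h σ).ram)) _ hb)
  have hf := finite_orbit (N.num.natAbs * N.den) (Nat.mul_pos hM1 hb) k hk
    (dil N.den (bco A m hA))
    (fun σ => PowerSeries.C (m : ℂ) *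
      (PowerSeries.C (ε σ * (-Complex.I) ^ k) * dil N.den (fser k (cj (acl k A σ)))))
    (by
      intro σ
      rw [sg_b k]
      exact (Cvg.C _).mul (hc σ))
    (fun σ => (Cvg.C _).mul (hc' σ))
    (by
      intro σ z hz
      rw [sg_b k, ev_Cm (hc σ) _ (im_neg (Nat.mul_pos hM1 hb) hz), ev_Cm (hc' σ) _ hz,
        Rf_dil k hk N.num.natAbs N.den hM1 hb N (rat_real' N hN) _ (G σ) (ε σ) (h σ) z hz]
      ring) σ
  have hsl : ∀ γ : SL(2, ℤ), sl k (fH (sg σ (dil N.den (bco A m hA)))) γ =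
      fun τ => (m : ℂ) * sl k (fH (dil N.den (fser k (acl k A σ)))) γ τ := by
    intro γ
    funext τ
    unfold sl fH
    rw [sg_b k, ev_Cm (hc σ) _ (γ • τ).im_pos]
    ring
  have hinj : Set.InjOn (fun (f : ℍ → ℂ) => fun τ => (m : ℂ) * f τ)
      (Set.range (sl k (fH (dil N.den (fser k (acl k A σ)))))) := by
    intro f _ g _ hfg
    funext τ
    exact mul_left_cancel₀ hm0 (congrFun hfg τ)
  refine Set.Finite.of_finite_image ?_ hinj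
  refine hf.subset ?_
  rintro _ ⟨_, ⟨γ, rfl⟩, rfl⟩
  exact ⟨γ, hsl γ⟩

/-- from a finite orbit to the formula, `k ≥ 2` -/
theorem formula_of (k : ℕ) (hk : 2 ≤ k) (b : ℕ) (hb : 1 ≤ b) (a : ℕ → ℂ) (F : ℂ → ℂ)
    (hS : IsSelberg a F) (hO : (Set.range (sl k (fH (dil b (fser k a))))).Finite) :
    ∃ C : ℝ, ∀ x : ℝ, 2 ≤ x → |S a x - Real.log (Real.log x)| ≤ C := by
  have hGD := GD_dil k (by omega) b hb a hS.ramanujan
  obtain ⟨c, C, hc, hRS⟩ := RS k hk _ hGD hO (dil_ne k b hb _ hS.one)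
  obtain ⟨e, θ, Cb, hθ, hbb, hE⟩ := hS.euler
  have hT := equivalence a F e 1 hS ⟨θ, Cb, hθ, hbb, hE⟩ zero_le_one
  have hd0 : (0 : ℝ) < (b : ℝ) := by exact_mod_cast hb
  have hd1 : (1 : ℝ) ≤ (b : ℝ) := by exact_mod_cast hb
  have h3 : ∃ c C : ℝ, 0 < c ∧ ∀ s : ℝ, 1 < s → s ≤ 2 →
      c * (s - 1) ^ (-(1 : ℝ)) ≤ ∑' n : ℕ, ‖a n‖ ^ 2 / (n : ℝ) ^ s ∧
      ∑' n : ℕ, ‖a n‖ ^ 2 / (n : ℝ) ^ s ≤ C * (s - 1) ^ (-(1 : ℝ)) := by
    refine ⟨c, (b : ℝ) ^ ((k : ℝ) + 1) * C, hc, fun s hs1 hs2 => ?_⟩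
    obtain ⟨h4, h5⟩ := hRS s hs1 hs2
    rw [DU_dil k (by omega) b hb _ s hs1] at h4 h5
    have hk0 : (2 : ℝ) ≤ (k : ℝ) := by exact_mod_cast hk
    have hD0 : (0 : ℝ) ≤ ∑' n : ℕ, ‖a n‖ ^ 2 / (n : ℝ) ^ s :=
      tsum_nonneg fun n => by positivity
    have hp1 : (b : ℝ) ^ (-(s + k - 1)) ≤ 1 :=
      Real.rpow_le_one_of_one_le_of_nonpos hd1 (by linarith)
    have hp2 : 1 ≤ (b : ℝ) ^ ((k : ℝ) + 1) * (b : ℝ) ^ (-(s + k - 1)) := by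
      rw [← Real.rpow_add hd0]
      exact Real.one_le_rpow hd1 (by linarith)
    refine ⟨h4.trans (mul_le_of_le_one_left hD0 hp1), ?_⟩
    calc ∑' n : ℕ, ‖a n‖ ^ 2 / (n : ℝ) ^ s
        ≤ ((b : ℝ) ^ ((k : ℝ) + 1) * (b : ℝ) ^ (-(s + k - 1))) *
          ∑' n : ℕ, ‖a n‖ ^ 2 / (n : ℝ) ^ s := le_mul_of_one_le_left hD0 hp2
      _ = (b : ℝ) ^ ((k : ℝ) + 1) * ((b : ℝ) ^ (-(s + k - 1)) *
          ∑' n : ℕ, ‖a n‖ ^ 2 / (n : ℝ) ^ s) := by ring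
      _ ≤ (b : ℝ) ^ ((k : ℝ) + 1) * (C * (s - 1) ^ (-(1 : ℝ))) :=
          mul_le_mul_of_nonneg_left h5 (Real.rpow_nonneg hd0.le _)
      _ = (b : ℝ) ^ ((k : ℝ) + 1) * C * (s - 1) ^ (-(1 : ℝ)) := by ring
  obtain ⟨C', hC'⟩ := (hT.out 2 0).mp h3
  refine ⟨C', fun x hx => ?_⟩
  have h6 := hC' x hx
  rwa [one_mul] at h6

theorem main2 {L : Type} [Field L] [NumberField L] (k : ℕ) (hk : 2 ≤ k) (N : ℚ) (hN : 0 < N)
    (A : ℕ → L) (m : ℕ) (hm : 1 ≤ m) (hA : ∀ n, 1 ≤ n → IsIntegral ℤ ((m : L) * A n))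
    (F : (L →+* ℂ) → ℂ → ℂ) (ε : (L →+* ℂ) → ℂ)
    (hS : ∀ σ, IsSelberg (acl k A σ) (F σ)) (hε : ∀ σ, ‖ε σ‖ = 1)
    (hfe : ∀ σ, ∀ s : ℂ, 0 < s.re → s.re < 1 →
      completed (Real.sqrt N / (2 * Real.pi)) (fun _ : Fin 1 => (1 : ℝ))
          (fun _ => ((k : ℂ) - 1) / 2) (F σ) s =
        ε σ * (starRingEnd ℂ) (completed (Real.sqrt N / (2 * Real.pi))
          (fun _ : Fin 1 => (1 : ℝ)) (fun _ => ((k : ℂ) - 1) / 2) (F σ)
          (1 - (starRingEnd ℂ) s)))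
    (σ : L →+* ℂ) :
    ∃ C : ℝ, ∀ x : ℝ, 2 ≤ x → |S (acl k A σ) x - Real.log (Real.log x)| ≤ C := by
  have hN' : (0 : ℝ) < (N : ℝ) := by exact_mod_cast hN
  choose G _ hG using fun σ => entire_of_weight k hk N hN' (acl k A σ) (F σ) (ε σ) (hS σ) (hε σ)
    (hfe σ)
  exact formula_of k hk N.den N.den_pos _ (F σ) (hS σ) (orbit_of2 k (by omega) N hN A m hm hA G ε hG σ)

end Pool.Agent.H13.IC
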