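import Mathlib
import Pool.Agent.H97.ICB.Fj1

/-!
# IC-FK: THEOREM IC, one embedding, in terms of the coefficients of F

The growth condition is only needed for the embeddings different from the given one.
-/

set_option autoImplicit false

namespace Pool.Agent.H13.IC

open Complex NumberField Pool.Agent.H11.Selberg Pool.Agent.H97.ICB

/-- the value at zero of the sequence of coefficients is irrelevant -/
theorem selberg_congr {a a' : ℕ → ℂ} {F : ℂ → ℂ} (h : ∀ n : ℕ, 1 ≤ n → a n = a' n)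
    (hS : IsSelberg a F) : IsSelberg a' F := by
  have ht : ∀ s : ℂ, LSeries.term a' s = LSeries.term a s := by
    intro s
    funext n
    rcases Nat.eq_zero_or_pos n with rfl | hn
    · rw [LSeries.term_zero, LSeries.term_zero]
    · rw [LSeries.term_of_ne_zero hn.ne', LSeries.term_of_ne_zero hn.ne', h n hn]
  refine ⟨?_, ?_, ?_, hS.continuation, hS.functional, ?_, hS.euler⟩
  · rw [← h 1 le_rfl]
    exact hS.one
  · intro s hs
    unfold LSeriesSummable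
    rw [ht]
    exact hS.summable s hs
  · intro s hs
    rw [hS.eq_LSeries s hs]
    unfold LSeries
    rw [ht]
  · intro ε hε
    obtain ⟨C, hC⟩ := hS.ramanujan ε hε
    refine ⟨C, fun n hn => ?_⟩
    rw [← h n hn]
    exact hC n hn

theorem S_congr {a a' : ℕ → ℂ} (h : ∀ n : ℕ, 1 ≤ n → a n = a' n) (x : ℝ) : S a x = S a' x := by
  unfold S
  refine Finset.sum_congr rfl fun p hp => ?_
  rw [h p (Finset.mem_filter.mp hp).2.one_lt.le]

/-- the given embedding satisfies the growth condition -/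
theorem sub_self_emb {L : Type} [Field L] (σ : L →+* ℂ) (A : ℕ → L) (k : ℕ) (hk : 1 ≤ k)
    (a : ℕ → ℂ) (ha : ∀ δ : ℝ, 0 < δ → ∃ C : ℝ, ∀ n : ℕ, 1 ≤ n → ‖a n‖ ≤ C * (n : ℝ) ^ δ)
    (hA : ∀ n : ℕ, 1 ≤ n → σ (A n) = a n * (n : ℂ) ^ (((k : ℂ) - 1) / 2)) (δ : ℝ) (hδ : 0 < δ) :
    ∃ C : ℝ, ∀ n : ℕ, 1 ≤ n → ‖σ (A n)‖ ≤ C * Real.exp (δ * n) := by
  obtain ⟨C, hC⟩ := ha 1 one_pos
  have hC0 : 0 ≤ C := by
    have h := (norm_nonneg _).trans (hC 1 le_rfl)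
    simpa using h
  refine ⟨C * ((k + 1).factorial / δ ^ (k + 1)), fun n hn => ?_⟩
  have hn0 : (0 : ℝ) < (n : ℝ) := by exact_mod_cast hn
  have hn1 : (1 : ℝ) ≤ (n : ℝ) := by exact_mod_cast hn
  have h1 : ‖(n : ℂ) ^ (((k : ℂ) - 1) / 2)‖ ≤ (n : ℝ) ^ k := by
    have h2 : (((k : ℂ) - 1) / 2) = ((((k : ℝ) - 1) / 2 : ℝ) : ℂ) := by push_cast; ring
    rw [norm_natCast_cpow_of_pos (by omega), h2, Complex.ofReal_re, ← Real.rpow_natCast]
    refine Real.rpow_le_rpow_of_exponent_le hn1 ?_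
    have : (0 : ℝ) ≤ (k : ℝ) := Nat.cast_nonneg k
    linarith
  have h3 : (δ * n) ^ (k + 1) / (k + 1).factorial ≤ Real.exp (δ * n) :=
    Real.pow_div_factorial_le_exp _ (by positivity) (k + 1)
  have h4 : (n : ℝ) ^ (k + 1) ≤ ((k + 1).factorial / δ ^ (k + 1)) * Real.exp (δ * n) := by
    rw [div_mul_eq_mul_div, le_div_iff₀ (by positivity)]
    rw [div_le_iff₀ (by positivity), mul_pow] at h3
    calc (n : ℝ) ^ (k + 1) * δ ^ (k + 1) = δ ^ (k + 1) * (n : ℝ) ^ (k + 1) := mul_comm _ _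
      _ ≤ Real.exp (δ * n) * (k + 1).factorial := h3
      _ = _ := mul_comm _ _
  calc ‖σ (A n)‖ = ‖a n‖ * ‖(n : ℂ) ^ (((k : ℂ) - 1) / 2)‖ := by rw [hA n hn, norm_mul]
    _ ≤ (C * (n : ℝ) ^ (1 : ℝ)) * (n : ℝ) ^ k :=
        mul_le_mul (hC n hn) h1 (norm_nonneg _) (by positivity)
    _ = C * (n : ℝ) ^ (k + 1) := by rw [Real.rpow_one, pow_succ]; ring
    _ ≤ C * (((k + 1).factorial / δ ^ (k + 1)) * Real.exp (δ * n)) :=
        mul_le_mul_of_nonneg_left h4 hC0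
    _ = C * ((k + 1).factorial / δ ^ (k + 1)) * Real.exp (δ * n) := by ring

theorem main4 {L : Type} [Field L] [NumberField L] (σ : L →+* ℂ) (A : ℕ → L) (m : ℕ)
    (hm : 1 ≤ m) (hA : ∀ n, 1 ≤ n → IsIntegral ℤ ((m : L) * A n))
    (hs : ∀ τ : L →+* ℂ, τ ≠ σ → ∀ δ : ℝ, 0 < δ →
      ∃ C : ℝ, ∀ n : ℕ, 1 ≤ n → ‖τ (A n)‖ ≤ C * Real.exp (δ * n))
    (k : ℕ) (hk : 2 ≤ k) (N : ℚ) (hN : 0 < N) (a : ℕ → ℂ) (F : ℂ → ℂ)
    (hS : IsSelberg a F)
    (ha : ∀ n : ℕ, 1 ≤ n → σ (A n) = a n * (n : ℂ) ^ (((k : ℂ) - 1) / 2)) (ε : ℂ)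
    (hε : ‖ε‖ = 1)
    (hfe : ∀ s : ℂ, 0 < s.re → s.re < 1 →
      completed (Real.sqrt N / (2 * Real.pi)) (fun _ : Fin 1 => (1 : ℝ))
          (fun _ => ((k : ℂ) - 1) / 2) F s =
        ε * (starRingEnd ℂ) (completed (Real.sqrt N / (2 * Real.pi))
          (fun _ : Fin 1 => (1 : ℝ)) (fun _ => ((k : ℂ) - 1) / 2) F
          (1 - (starRingEnd ℂ) s))) :
    ∃ C : ℝ, ∀ x : ℝ, 2 ≤ x → |S a x - Real.log (Real.log x)| ≤ C := by
  have h1 : ∀ n : ℕ, 1 ≤ n → a n = acl k A σ n := by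
    intro n hn
    have h0 : (n : ℂ) ≠ 0 := by exact_mod_cast (by omega : n ≠ 0)
    have h2 : (n : ℂ) ^ (((k : ℂ) - 1) / 2) ≠ 0 := by
      rw [Ne, Complex.cpow_eq_zero_iff]
      exact fun h => h0 h.1
    unfold acl
    rw [ha n hn, Complex.cpow_neg, mul_assoc, mul_inv_cancel₀ h2, mul_one]
  have hS' := selberg_congr h1 hS
  have hsub : Sub A := by
    intro τ δ hδ
    obtain ⟨C, hC⟩ : ∃ C : ℝ, ∀ n : ℕ, 1 ≤ n → ‖τ (A n)‖ ≤ C * Real.exp (δ * n) := by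
      by_cases h : τ = σ
      · rw [h]
        exact sub_self_emb σ A k (by omega) a hS.ramanujan ha δ hδ
      · exact hs τ h δ hδ
    refine ⟨|C| + ‖τ (A 0)‖, fun n => ?_⟩
    rcases Nat.eq_zero_or_pos n with rfl | hn
    · have : 0 ≤ |C| := abs_nonneg C
      simp only [Nat.cast_zero, mul_zero, Real.exp_zero, mul_one]
      linarith
    · refine (hC n hn).trans (mul_le_mul_of_nonneg_right ?_ (Real.exp_pos _).le)
      have := le_abs_self C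
      have := norm_nonneg (τ (A 0))
      linarith
  obtain ⟨C, hC⟩ := main3 σ k hk N hN A m hm hA hsub F ε hS' hε hfe
  refine ⟨C, fun x hx => ?_⟩
  rw [S_congr h1]
  exact hC x hx

end Pool.Agent.H13.IC
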